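import Mathlib

set_option autoImplicit false

namespace Pool.Agent.H188R3

variable {A : Type*} [CStarAlgebra A]

/-- `z` is controlled by `b` after cutting with almost central contractions. -/
def Ctrl (b z : A) : Prop :=
  ∃ (F : Finset A) (C : ℝ), 0 ≤ C ∧ ∀ (p : A) (δ : ℝ), ‖p‖ ≤ 1 → 0 ≤ δ →
    (∀ a ∈ F, ‖p * a - a * p‖ ≤ δ) → ‖p * z‖ ≤ C * (‖p * b‖ + δ)

lemma Ctrl.self (b : A) : Ctrl b b :=
  ⟨∅, 1, zero_le_one, fun p δ _ hδ _ => by nlinarith [norm_nonneg (p * b)]⟩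

lemma Ctrl.zero (b : A) : Ctrl b 0 :=
  ⟨∅, 0, le_rfl, fun p δ _ hδ _ => by simp⟩

lemma Ctrl.add {b z w : A} (hz : Ctrl b z) (hw : Ctrl b w) : Ctrl b (z + w) := by
  classical
  obtain ⟨F, C, hC, h⟩ := hz
  obtain ⟨F', C', hC', h'⟩ := hw
  refine ⟨F ∪ F', C + C', add_nonneg hC hC', fun p δ hp hδ hF => ?_⟩
  have h1 := h p δ hp hδ (fun a ha => hF a (Finset.mem_union_left _ ha))
  have h2 := h' p δ hp hδ (fun a ha => hF a (Finset.mem_union_right _ ha))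
  calc ‖p * (z + w)‖ = ‖p * z + p * w‖ := by rw [mul_add]
    _ ≤ ‖p * z‖ + ‖p * w‖ := norm_add_le _ _
    _ ≤ (C + C') * (‖p * b‖ + δ) := by linarith

lemma Ctrl.neg {b z : A} (hz : Ctrl b z) : Ctrl b (-z) := by
  obtain ⟨F, C, hC, h⟩ := hz
  refine ⟨F, C, hC, fun p δ hp hδ hF => ?_⟩
  have := h p δ hp hδ hF
  simpa [mul_neg] using this

lemma Ctrl.mul_right {b z : A} (hz : Ctrl b z) (d : A) : Ctrl b (z * d) := by
  obtain ⟨F, C, hC, h⟩ := hz
  refine ⟨F, C * ‖d‖, by positivity, fun p δ hp hδ hF => ?_⟩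
  have h1 := h p δ hp hδ hF
  calc ‖p * (z * d)‖ = ‖p * z * d‖ := by rw [mul_assoc]
    _ ≤ ‖p * z‖ * ‖d‖ := norm_mul_le _ _
    _ ≤ (C * (‖p * b‖ + δ)) * ‖d‖ := by gcongr
    _ = C * ‖d‖ * (‖p * b‖ + δ) := by ring

lemma Ctrl.mul_left {b z : A} (hz : Ctrl b z) (c : A) : Ctrl b (c * z) := by
  classical
  obtain ⟨F, C, hC, h⟩ := hz
  refine ⟨insert c F, ‖c‖ * C + ‖z‖, by positivity, fun p δ hp hδ hF => ?_⟩
  have h1 := h p δ hp hδ (fun a ha => hF a (Finset.mem_insert_of_mem ha))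
  have h2 := hF c (Finset.mem_insert_self _ _)
  calc ‖p * (c * z)‖ = ‖c * (p * z) + (p * c - c * p) * z‖ := by
        congr 1; noncomm_ring
    _ ≤ ‖c‖ * ‖p * z‖ + ‖p * c - c * p‖ * ‖z‖ :=
        (norm_add_le _ _).trans (add_le_add (norm_mul_le _ _) (norm_mul_le _ _))
    _ ≤ ‖c‖ * (C * (‖p * b‖ + δ)) + δ * ‖z‖ := by gcongr
    _ ≤ (‖c‖ * C + ‖z‖) * (‖p * b‖ + δ) := by
        nlinarith [norm_nonneg z, mul_nonneg (norm_nonneg z) (norm_nonneg (p * b))]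

lemma ctrl_one [IsSimpleRing A] {b : A} (hb : b ≠ 0) : Ctrl b (1 : A) := by
  have htop : TwoSidedIdeal.span {b} = ⊤ := by
    rcases eq_bot_or_eq_top (TwoSidedIdeal.span {b}) with h | h
    · exfalso
      apply hb
      have : b ∈ TwoSidedIdeal.span {b} := TwoSidedIdeal.subset_span (by simp)
      rw [h] at this
      simpa using this
    · exact h
  have h1 : (1 : A) ∈ TwoSidedIdeal.span {b} := by rw [htop]; trivial
  refine TwoSidedIdeal.span_induction (p := fun z _ => Ctrl b z) ?_ ?_ ?_ ?_ ?_ ?_ h1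
  · intro z hz
    have : z = b := by simpa using hz
    subst this
    exact Ctrl.self _
  · exact Ctrl.zero b
  · intro x y _ _ hx hy
    exact hx.add hy
  · intro x _ hx
    exact hx.neg
  · intro a x _ hx
    exact hx.mul_left a
  · intro a x _ hx
    exact hx.mul_right a

end Pool.Agent.H188R3
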