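import Mathlib
import Pool.Agent.H188R3.CentralProj

set_option autoImplicit false

namespace Pool.Agent.H188R3

variable {A : Type*} [CStarAlgebra A]

lemma norm_proj_le_one {p : A} (hp : IsSelfAdjoint p) (hi : IsIdempotentElem p) : ‖p‖ ≤ 1 := by
  have h : ‖p‖ * ‖p‖ = ‖p‖ := by
    have := CStarRing.norm_star_mul_self (x := p)
    rw [hp.star_eq, hi.eq] at this
    exact this.symm
  by_contra hc
  push Not at hc
  nlinarith

lemma norm_proj_eq_one {p : A} (hp : IsSelfAdjoint p) (hi : IsIdempotentElem p) (h0 : p ≠ 0) :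
    ‖p‖ = 1 := by
  have h : ‖p‖ * ‖p‖ = ‖p‖ := by
    have := CStarRing.norm_star_mul_self (x := p)
    rw [hp.star_eq, hi.eq] at this
    exact this.symm
  have hpos : 0 < ‖p‖ := norm_pos_iff.mpr h0
  nlinarith [mul_self_nonneg (‖p‖ - 1)]

/-- powers of `x` after an almost central projection. -/
lemma norm_mul_pow_le {p x : A} (hp : IsSelfAdjoint p) (hi : IsIdempotentElem p)
    (hx : ‖x‖ ≤ 1) {δ r : ℝ} (hδ0 : 0 ≤ δ) (hr0 : 0 ≤ r) (hr1 : r ≤ 1)
    (hδ : ‖p * x - x * p‖ ≤ δ) (hr : ‖p * x * p‖ ≤ r) (k : ℕ) :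
    ‖p * x ^ k‖ ≤ r ^ k + k * δ := by
  have hp1 : ‖p‖ ≤ 1 := norm_proj_le_one hp hi
  have hxk : ∀ k : ℕ, ‖x ^ k‖ ≤ 1 := by
    intro k
    rcases Nat.eq_zero_or_pos k with h | h
    · subst h
      rw [pow_zero]
      rcases subsingleton_or_nontrivial A with hA | hA
      · rw [Subsingleton.elim (1 : A) 0]; simp
      · simp
    · exact (norm_pow_le' x h).trans (pow_le_one₀ (norm_nonneg _) hx)
  induction k with
  | zero =>
    simpa using hp1
  | succ k ih =>
    have e : p * x ^ (k + 1) = (p * x * p) * (p * x ^ k) + p * (p * x - x * p) * x ^ k := by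
      have hpp : p * p = p := hi.eq
      have h2 : p * (p * x - x * p) = p * x - p * x * p := by
        rw [mul_sub, ← mul_assoc, hpp, mul_assoc p x p]
      rw [h2, sub_mul]
      have h3 : p * x * p * (p * x ^ k) = p * x * p * x ^ k := by
        rw [← mul_assoc, mul_assoc (p * x) p p, hpp]
      rw [h3, add_sub_cancel, mul_assoc, ← pow_succ']
    rw [e]
    have h4 : ‖p * x * p * (p * x ^ k)‖ ≤ r * (r ^ k + k * δ) :=
      (norm_mul_le _ _).trans (mul_le_mul hr ih (norm_nonneg _) hr0)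
    have h5 : ‖p * (p * x - x * p) * x ^ k‖ ≤ δ := by
      calc ‖p * (p * x - x * p) * x ^ k‖ ≤ ‖p * (p * x - x * p)‖ * ‖x ^ k‖ := norm_mul_le _ _
        _ ≤ (‖p‖ * ‖p * x - x * p‖) * ‖x ^ k‖ := by
            gcongr; exact norm_mul_le _ _
        _ ≤ (1 * δ) * 1 := by
            gcongr
            exact hxk k
        _ = δ := by ring
    calc _ ≤ ‖p * x * p * (p * x ^ k)‖ + ‖p * (p * x - x * p) * x ^ k‖ := norm_add_le _ _
      _ ≤ r * (r ^ k + k * δ) + δ := add_le_add h4 h5
      _ = r ^ (k + 1) + r * (k * δ) + δ := by ring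
      _ ≤ r ^ (k + 1) + 1 * (k * δ) + δ := by
          gcongr
      _ = r ^ (k + 1) + ((k + 1 : ℕ) : ℝ) * δ := by push_cast; ring

/-- In a simple C*-algebra a nonzero almost central projection almost preserves norms from below. -/
theorem norm_cut_of_almost_central [IsSimpleRing A] {x : A} (hx : ∃ b : A, x = star b * b)
    (hx1 : ‖x‖ = 1) {ε : ℝ} (hε : 0 < ε) :
    ∃ (F : Finset A) (δ : ℝ), 0 < δ ∧ ∀ p : A, IsSelfAdjoint p → IsIdempotentElem p → p ≠ 0 →
      (∀ a ∈ F, ‖p * a - a * p‖ < δ) → 1 - ε < ‖p * x * p‖ := by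
  classical
  let _ : PartialOrder A := CStarAlgebra.spectralOrder A
  have _ : StarOrderedRing A := CStarAlgebra.spectralOrderedRing A
  have hx0 : 0 ≤ x := by
    obtain ⟨b, rfl⟩ := hx
    exact star_mul_self_nonneg b
  have hxsa : IsSelfAdjoint x := IsSelfAdjoint.of_nonneg hx0
  set e : ℝ := min ε (1 / 2) with he
  have he0 : 0 < e := lt_min hε (by norm_num)
  have he1 : e ≤ 1 / 2 := min_le_right _ _
  have heε : e ≤ ε := min_le_left _ _
  set c : ℝ := 1 - e / 2 with hc
  have hc0 : 0 < c := by rw [hc]; linarith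
  have hc1 : c < 1 := by rw [hc]; linarith
  set f : ℝ → ℝ := fun t => max (t - c) 0 with hf
  have hfc : Continuous f := by fun_prop
  set b : A := cfc f x with hb
  have h1s : (1 : ℝ) ∈ spectrum ℝ x := by
    have := CStarAlgebra.norm_mem_spectrum_of_nonneg (A := A) hx0
    rwa [hx1] at this
  have hbne : b ≠ 0 := by
    intro h0
    have h2 : ‖f 1‖ ≤ ‖cfc f x‖ := norm_apply_le_norm_cfc f x h1s hfc.continuousOn hxsa
    rw [← hb, h0, norm_zero] at h2
    have h3 : f 1 = 1 - c := by
      simp only [hf]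
      exact max_eq_left (by linarith)
    rw [h3, Real.norm_eq_abs] at h2
    have h4 : (0 : ℝ) < |1 - c| := abs_pos.mpr (by linarith)
    linarith
  obtain ⟨F, C, hC, hF⟩ := ctrl_one hbne
  -- choose N
  set r : ℝ := 1 - e with hr
  have hr0 : 0 ≤ r := by rw [hr]; linarith
  have hr1 : r ≤ 1 := by rw [hr]; linarith
  have hrc : r / c < 1 := by
    rw [div_lt_one hc0, hr, hc]; linarith
  have hrc0 : 0 ≤ r / c := div_nonneg hr0 hc0.le
  have hlim : Filter.Tendsto (fun n : ℕ => C * (r / c) ^ n) Filter.atTop (nhds 0) := by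
    simpa using (tendsto_pow_atTop_nhds_zero_of_lt_one hrc0 hrc).const_mul C
  obtain ⟨N, hN⟩ := (hlim.eventually (gt_mem_nhds (show (0 : ℝ) < 1 / 4 by norm_num))).exists
  set K : ℝ := (c⁻¹) ^ N with hK
  have hK0 : 0 < K := by positivity
  -- choose delta
  set M : ℝ := C * (N * K + 1) + 1 with hM
  have hM0 : 0 < M := by positivity
  refine ⟨insert x F, 1 / (4 * M), by positivity, fun p hp hi hpne hcomm => ?_⟩
  have hp1 : ‖p‖ = 1 := norm_proj_eq_one hp hi hpne
  by_contra hcon
  push Not at hcon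
  have hcut : ‖p * x * p‖ ≤ r := by rw [hr]; linarith
  set δ : ℝ := 1 / (4 * M) with hδ
  have hδ0 : 0 < δ := by positivity
  have hpx : ‖p * x ^ N‖ ≤ r ^ N + N * δ :=
    norm_mul_pow_le hp hi hx1.le hδ0.le hr0 hr1 (hcomm x (Finset.mem_insert_self _ _)).le hcut N
  -- factorisation
  set g : ℝ → ℝ := fun t => max (t - c) 0 / (max t c) ^ N with hg
  have hgc : Continuous g := by
    refine Continuous.div (by fun_prop) (by fun_prop) ?_
    intro t
    have : 0 < max t c := lt_of_lt_of_le hc0 (le_max_right _ _)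
    positivity
  have hfg : ∀ t : ℝ, f t = t ^ N * g t := by
    intro t
    simp only [hf, hg]
    rcases le_total t c with h | h
    · have : max (t - c) 0 = 0 := max_eq_right (by linarith)
      rw [this]; simp
    · have h1 : max t c = t := max_eq_left h
      have ht : 0 < t := lt_of_lt_of_le hc0 h
      rw [h1]
      field_simp
  have hbfac : b = x ^ N * cfc g x := by
    have h1 : cfc f x = cfc (fun t => t ^ N * g t) x := by
      congr 1
      funext t
      exact hfg t
    rw [hb, h1, cfc_mul (fun t : ℝ => t ^ N) g x (by fun_prop) hgc.continuousOn,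
      cfc_pow_id x N]
  have hgn : ‖cfc g x‖ ≤ K := by
    refine norm_cfc_le hK0.le ?_
    intro t ht
    have ht1 : t ≤ 1 := by
      have h5 := spectrum.norm_le_norm_of_mem ht
      rw [hx1, Real.norm_eq_abs] at h5
      exact (le_abs_self t).trans h5
    have h6 : 0 < max t c := lt_of_lt_of_le hc0 (le_max_right _ _)
    have h7 : 0 ≤ max (t - c) 0 := le_max_right _ _
    have h8 : max (t - c) 0 ≤ 1 := max_le (by linarith) (by norm_num)
    simp only [hg]
    rw [Real.norm_eq_abs, abs_of_nonneg (by positivity), hK, inv_pow]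
    rw [div_eq_mul_inv]
    calc max (t - c) 0 * (max t c ^ N)⁻¹ ≤ 1 * (c ^ N)⁻¹ := by
          gcongr
          exact le_max_right _ _
      _ = (c ^ N)⁻¹ := one_mul _
  have hpb : ‖p * b‖ ≤ (r ^ N + N * δ) * K := by
    rw [hbfac, ← mul_assoc]
    exact (norm_mul_le _ _).trans (mul_le_mul hpx hgn (norm_nonneg _) (by positivity))
  have hfin := hF p δ hp1.le hδ0.le
    (fun a ha => (hcomm a (Finset.mem_insert_of_mem ha)).le)
  rw [mul_one, hp1] at hfin
  have hrK : r ^ N * K = (r / c) ^ N := by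
    rw [hK, div_pow, inv_pow]; ring
  have h9 : C * (‖p * b‖ + δ) ≤ C * ((r / c) ^ N) + C * (N * K + 1) * δ := by
    calc C * (‖p * b‖ + δ) ≤ C * ((r ^ N + N * δ) * K + δ) := by gcongr
      _ = C * (r ^ N * K) + C * (N * K + 1) * δ := by ring
      _ = _ := by rw [hrK]
  have h10 : C * (N * K + 1) * δ ≤ 1 / 4 := by
    rw [hδ]
    rw [mul_one_div, div_le_div_iff₀ (by positivity) (by norm_num)]
    rw [hM]
    linarith
  linarith

end Pool.Agent.H188R3
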