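import Mathlib
import Pool.Agent.Helper757.GL.Quot

/-!
Inductive limits of sequences of C*-algebras.
-/

set_option autoImplicit false
set_option linter.unusedSectionVars false

noncomputable section

open Filter Topology
open scoped ENNReal

namespace Pool.Agent.H188R3

open Pool.Agent.Helper757.GL

lemma norm_map_inj {A B : Type} [CStarAlgebra A] [CStarAlgebra B] (f : A →⋆ₐ[ℂ] B)
    (hf : Function.Injective f) (x : A) : ‖f x‖ = ‖x‖ := by
  exact NonUnitalStarAlgHom.norm_map (f : A →⋆ₙₐ[ℂ] B) hf x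

lemma norm_map_le' {A B : Type} [CStarAlgebra A] [CStarAlgebra B] (f : A →⋆ₐ[ℂ] B)
    (x : A) : ‖f x‖ ≤ ‖x‖ := by
  exact NonUnitalStarAlgHom.norm_apply_le (f : A →⋆ₙₐ[ℂ] B) x

section

variable {A : ℕ → Type} [∀ n, CStarAlgebra (A n)] [∀ n, Nontrivial (A n)]
variable (φ : ∀ n, A n →⋆ₐ[ℂ] A (n + 1))

/-- the bounded sequences -/
abbrev BSeq (A : ℕ → Type) [∀ n, CStarAlgebra (A n)] [∀ n, Nontrivial (A n)] : Type := lp A ∞

instance : CStarAlgebra (BSeq A) where

/-- the null sequences -/
def nullSeq (A : ℕ → Type) [∀ n, CStarAlgebra (A n)] [∀ n, Nontrivial (A n)] :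
    Submodule ℂ (BSeq A) where
  carrier := {x | Tendsto (fun n => ‖x n‖) atTop (𝓝 0)}
  add_mem' := by
    intro a b ha hb
    have h : Tendsto (fun n => ‖a n‖ + ‖b n‖) atTop (𝓝 0) := by
      simpa using ha.add hb
    refine squeeze_zero (fun n => norm_nonneg _) (fun n => ?_) h
    exact norm_add_le _ _
  zero_mem' := by
    simp
  smul_mem' := by
    intro c x hx
    have h : Tendsto (fun n => ‖c‖ * ‖x n‖) atTop (𝓝 0) := by
      simpa using hx.const_mul ‖c‖
    refine squeeze_zero (fun n => norm_nonneg _) (fun n => ?_) h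
    exact (norm_smul_le _ _)

lemma mem_nullSeq (x : BSeq A) : x ∈ nullSeq A ↔ Tendsto (fun n => ‖x n‖) atTop (𝓝 0) := Iff.rfl

lemma coord_le (x : BSeq A) (n : ℕ) : ‖x n‖ ≤ ‖x‖ := lp.norm_apply_le_norm ENNReal.top_ne_zero x n

lemma nullCI (A : ℕ → Type) [∀ n, CStarAlgebra (A n)] [∀ n, Nontrivial (A n)] :
    CI (nullSeq A) where
  closed := by
    rw [← isSeqClosed_iff_isClosed]
    intro u x hu hx
    show Tendsto (fun n => ‖x n‖) atTop (𝓝 0)
    rw [Metric.tendsto_atTop]
    intro ε hε
    have h1 := (Metric.tendsto_atTop.1 hx) (ε / 2) (half_pos hε)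
    obtain ⟨k, hk⟩ := h1
    have hk' := hk k le_rfl
    obtain ⟨N, hN⟩ := (Metric.tendsto_atTop.1 (hu k)) (ε / 2) (half_pos hε)
    refine ⟨N, fun n hn => ?_⟩
    have h2 := hN n hn
    rw [Real.dist_eq, sub_zero, abs_of_nonneg (norm_nonneg _)] at h2 ⊢
    rw [dist_eq_norm] at hk'
    have h3 : ‖(u k - x) n‖ ≤ ‖u k - x‖ := coord_le _ n
    have h4 : x n = (u k) n - (u k - x) n := by
      simp
    calc ‖x n‖ = ‖(u k) n - (u k - x) n‖ := by rw [← h4]
      _ ≤ ‖(u k) n‖ + ‖(u k - x) n‖ := norm_sub_le _ _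
      _ < ε := by linarith
  hl := by
    intro a x hx
    have h : Tendsto (fun n => ‖a‖ * ‖x n‖) atTop (𝓝 0) := by
      simpa using (Tendsto.const_mul ‖a‖ hx)
    refine squeeze_zero (fun n => norm_nonneg _) (fun n => ?_) h
    calc ‖(a * x) n‖ = ‖a n * x n‖ := by simp
      _ ≤ ‖a n‖ * ‖x n‖ := norm_mul_le _ _
      _ ≤ ‖a‖ * ‖x n‖ := by gcongr; exact coord_le a n
  hr := by
    intro a x hx
    have h : Tendsto (fun n => ‖x n‖ * ‖a‖) atTop (𝓝 0) := by
      simpa using (Tendsto.mul_const ‖a‖ hx)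
    refine squeeze_zero (fun n => norm_nonneg _) (fun n => ?_) h
    calc ‖(x * a) n‖ = ‖x n * a n‖ := by simp
      _ ≤ ‖x n‖ * ‖a n‖ := norm_mul_le _ _
      _ ≤ ‖x n‖ * ‖a‖ := by gcongr; exact coord_le a n

/-- the transition maps, zero to the left -/
def trans (n m : ℕ) (x : A n) : A m :=
  if h : n ≤ m then Nat.leRecOn h (fun {k} => φ k) x else 0

lemma trans_self (n : ℕ) (x : A n) : trans φ n n x = x := by
  rw [trans, dif_pos le_rfl]
  exact Nat.leRecOn_self x

lemma trans_succ {n m : ℕ} (h : n ≤ m) (x : A n) : trans φ n (m + 1) x = φ m (trans φ n m x) := by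
  rw [trans, trans, dif_pos h, dif_pos (h.trans (Nat.le_succ m))]
  exact Nat.leRecOn_succ h x

lemma trans_lt {n m : ℕ} (h : m < n) (x : A n) : trans φ n m x = 0 := by
  rw [trans, dif_neg (by omega)]

lemma trans_succ_left {n m : ℕ} (h : n + 1 ≤ m) (x : A n) :
    trans φ (n + 1) m (φ n x) = trans φ n m x := by
  induction m, h using Nat.le_induction with
  | base => rw [trans_self, trans_succ φ le_rfl, trans_self]
  | succ m hm ih => rw [trans_succ φ hm, ih, trans_succ φ (by omega)]

lemma trans_add {n m : ℕ} (h : n ≤ m) (x y : A n) :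
    trans φ n m (x + y) = trans φ n m x + trans φ n m y := by
  induction m, h using Nat.le_induction with
  | base => simp only [trans_self]
  | succ m hm ih => rw [trans_succ φ hm, ih, trans_succ φ hm, trans_succ φ hm, map_add]

lemma trans_mul {n m : ℕ} (h : n ≤ m) (x y : A n) :
    trans φ n m (x * y) = trans φ n m x * trans φ n m y := by
  induction m, h using Nat.le_induction with
  | base => simp only [trans_self]
  | succ m hm ih => rw [trans_succ φ hm, ih, trans_succ φ hm, trans_succ φ hm, map_mul]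

lemma trans_star {n m : ℕ} (h : n ≤ m) (x : A n) :
    trans φ n m (star x) = star (trans φ n m x) := by
  induction m, h using Nat.le_induction with
  | base => simp only [trans_self]
  | succ m hm ih => rw [trans_succ φ hm, ih, trans_succ φ hm, map_star]

lemma trans_algebraMap {n m : ℕ} (h : n ≤ m) (c : ℂ) :
    trans φ n m (algebraMap ℂ (A n) c) = algebraMap ℂ (A m) c := by
  induction m, h using Nat.le_induction with
  | base => simp only [trans_self]
  | succ m hm ih => rw [trans_succ φ hm, ih, AlgHomClass.commutes]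

lemma trans_norm_le (n m : ℕ) (x : A n) : ‖trans φ n m x‖ ≤ ‖x‖ := by
  rcases lt_or_ge m n with h | h
  · rw [trans_lt φ h, norm_zero]; exact norm_nonneg _
  · induction m, h using Nat.le_induction with
    | base => rw [trans_self]
    | succ m hm ih => rw [trans_succ φ hm]; exact (norm_map_le' _ _).trans ih

lemma trans_norm (hφ : ∀ n, Function.Injective (φ n)) {n m : ℕ} (h : n ≤ m) (x : A n) :
    ‖trans φ n m x‖ = ‖x‖ := by
  induction m, h using Nat.le_induction with
  | base => rw [trans_self]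
  | succ m hm ih => rw [trans_succ φ hm, norm_map_inj _ (hφ m), ih]

/-- the sequence of images -/
def seqOf (n : ℕ) (x : A n) : BSeq A :=
  ⟨fun m => trans φ n m x, by
    refine memℓp_infty ⟨‖x‖, ?_⟩
    rintro _ ⟨m, rfl⟩
    exact trans_norm_le φ n m x⟩

lemma seqOf_apply (n m : ℕ) (x : A n) : seqOf φ n x m = trans φ n m x := rfl

lemma null_of_eventually (x : BSeq A) (N : ℕ) (h : ∀ n, N ≤ n → x n = 0) : x ∈ nullSeq A := by
  rw [mem_nullSeq]
  refine tendsto_const_nhds.congr' ?_
  filter_upwards [eventually_ge_atTop N] with n hn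
  rw [h n hn, norm_zero]

/-- the embedding of `A n` into the quotient -/
def jQ (n : ℕ) : A n →⋆ₐ[ℂ] Q (nullCI A) where
  toFun x := mk (nullCI A) (seqOf φ n x)
  map_one' := by
    rw [← mk_one, mk_eq]
    refine null_of_eventually _ n fun m hm => ?_
    have h1 : trans φ n m (1 : A n) = 1 := by
      have := trans_algebraMap φ hm 1
      simpa using this
    show trans φ n m (1 : A n) - (1 : A m) = 0
    rw [h1, sub_self]
  map_mul' x y := by
    rw [← mk_mul, mk_eq]
    refine null_of_eventually _ n fun m hm => ?_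
    show trans φ n m (x * y) - trans φ n m x * trans φ n m y = 0
    rw [trans_mul φ hm, sub_self]
  map_zero' := by
    rw [← mk_zero, mk_eq]
    refine null_of_eventually _ n fun m hm => ?_
    have h1 : trans φ n m (0 : A n) = 0 := by
      have := trans_algebraMap φ hm 0
      simpa using this
    show trans φ n m (0 : A n) - (0 : A m) = 0
    rw [h1, sub_self]
  map_add' x y := by
    rw [← mk_add, mk_eq]
    refine null_of_eventually _ n fun m hm => ?_
    show trans φ n m (x + y) - (trans φ n m x + trans φ n m y) = 0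
    rw [trans_add φ hm, sub_self]
  commutes' c := by
    rw [Algebra.algebraMap_eq_smul_one (A := Q (nullCI A)), ← mk_one, ← mk_smul', mk_eq]
    refine null_of_eventually _ n fun m hm => ?_
    have h1 := trans_algebraMap φ hm c
    show trans φ n m (algebraMap ℂ (A n) c) - c • (1 : A m) = 0
    rw [h1, Algebra.algebraMap_eq_smul_one, sub_self]
  map_star' x := by
    rw [← mk_star, mk_eq]
    refine null_of_eventually _ n fun m hm => ?_
    show trans φ n m (star x) - star (trans φ n m x) = 0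
    rw [trans_star φ hm, sub_self]

lemma jQ_succ (n : ℕ) (x : A n) : jQ φ (n + 1) (φ n x) = jQ φ n x := by
  show mk (nullCI A) (seqOf φ (n + 1) (φ n x)) = mk (nullCI A) (seqOf φ n x)
  rw [mk_eq]
  refine null_of_eventually _ (n + 1) fun m hm => ?_
  show trans φ (n + 1) m (φ n x) - trans φ n m x = 0
  rw [trans_succ_left φ hm, sub_self]

lemma jQ_trans {n m : ℕ} (h : n ≤ m) (x : A n) : jQ φ m (trans φ n m x) = jQ φ n x := by
  induction m, h using Nat.le_induction with
  | base => rw [trans_self]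
  | succ m hm ih => rw [trans_succ φ hm, jQ_succ, ih]

/-- the union of the images -/
def jU : StarSubalgebra ℂ (Q (nullCI A)) where
  carrier := {y | ∃ n x, jQ φ n x = y}
  mul_mem' := by
    rintro _ _ ⟨n, x, rfl⟩ ⟨m, y, rfl⟩
    refine ⟨max n m, trans φ n (max n m) x * trans φ m (max n m) y, ?_⟩
    rw [map_mul, jQ_trans φ (le_max_left _ _), jQ_trans φ (le_max_right _ _)]
  add_mem' := by
    rintro _ _ ⟨n, x, rfl⟩ ⟨m, y, rfl⟩
    refine ⟨max n m, trans φ n (max n m) x + trans φ m (max n m) y, ?_⟩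
    rw [map_add, jQ_trans φ (le_max_left _ _), jQ_trans φ (le_max_right _ _)]
  algebraMap_mem' := fun c => ⟨0, algebraMap ℂ _ c, AlgHomClass.commutes _ c⟩
  star_mem' := by
    rintro _ ⟨n, x, rfl⟩
    exact ⟨n, star x, map_star _ _⟩

lemma jQ_inj (hφ : ∀ n, Function.Injective (φ n)) (n : ℕ) : Function.Injective (jQ φ n) := by
  rw [injective_iff_map_eq_zero]
  intro x hx
  have h1 : mk (nullCI A) (seqOf φ n x) = mk (nullCI A) 0 := hx
  rw [mk_eq, sub_zero, mem_nullSeq] at h1
  have h2 : Tendsto (fun _ : ℕ => ‖x‖) atTop (𝓝 0) := by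
    refine h1.congr' ?_
    filter_upwards [eventually_ge_atTop n] with m hm
    rw [seqOf_apply, trans_norm φ hφ hm]
  have h3 : ‖x‖ = 0 := tendsto_nhds_unique tendsto_const_nhds h2
  exact norm_eq_zero.1 h3

end

/-- compatible system of maps exhibiting `L` as the inductive limit of `A n` along `φ`. -/
structure IsLim {A : ℕ → Type} [∀ n, CStarAlgebra (A n)] (φ : ∀ n, A n →⋆ₐ[ℂ] A (n + 1))
    {L : Type} [CStarAlgebra L] (j : ∀ n, A n →⋆ₐ[ℂ] L) : Prop where
  inj : ∀ n, Function.Injective (j n)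
  comp : ∀ n x, j (n + 1) (φ n x) = j n x
  dense : ∀ (y : L) (ε : ℝ), 0 < ε → ∃ (n : ℕ) (x : A n), ‖y - j n x‖ < ε

theorem exists_lim {A : ℕ → Type} [∀ n, CStarAlgebra (A n)] [∀ n, Nontrivial (A n)]
    (φ : ∀ n, A n →⋆ₐ[ℂ] A (n + 1)) (hφ : ∀ n, Function.Injective (φ n)) :
    ∃ (L : Type) (_ : CStarAlgebra L) (j : ∀ n, A n →⋆ₐ[ℂ] L), IsLim φ j := by
  set T : StarSubalgebra ℂ (Q (nullCI A)) := (jU φ).topologicalClosure with hT
  have hcl : IsClosed (T : Set (Q (nullCI A))) := StarSubalgebra.isClosed_topologicalClosure _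
  let _ : CStarAlgebra T := StarSubalgebra.cstarAlgebra T (h_closed := hcl)
  have hmem : ∀ n (x : A n), jQ φ n x ∈ T := fun n x =>
    StarSubalgebra.le_topologicalClosure _ ⟨n, x, rfl⟩
  refine ⟨T, inferInstance, fun n => (jQ φ n).codRestrict T (hmem n), ⟨?_, ?_, ?_⟩⟩
  · intro n x y hxy
    apply jQ_inj φ hφ n
    have := congrArg (Subtype.val) hxy
    exact this
  · intro n x
    apply Subtype.ext
    exact jQ_succ φ n x
  · intro y ε hε
    have hy : (y : Q (nullCI A)) ∈ closure ((jU φ : StarSubalgebra ℂ (Q (nullCI A))) : Set _) :=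
      y.2
    rw [Metric.mem_closure_iff] at hy
    obtain ⟨b, ⟨n, x, rfl⟩, hb'⟩ := hy ε hε
    refine ⟨n, x, ?_⟩
    rw [dist_eq_norm] at hb'
    exact hb'

end Pool.Agent.H188R3
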