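import Mathlib
import Pool.Agent.H188R3.IndLim

/-!
Maps out of inductive limits; ideals of inductive limits.
-/

set_option autoImplicit false
set_option linter.unusedSectionVars false

noncomputable section

open Filter Topology

namespace Pool.Agent.H188R3

open Pool.Agent.Helper757.GL

section

variable {A : ℕ → Type} [∀ n, CStarAlgebra (A n)] [∀ n, Nontrivial (A n)]
  {φ : ∀ n, A n →⋆ₐ[ℂ] A (n + 1)} {L : Type} [CStarAlgebra L] {j : ∀ n, A n →⋆ₐ[ℂ] L}

lemma IsLim.up (h : IsLim φ j) {n m : ℕ} (hnm : n ≤ m) (x : A n) : ∃ y : A m, j m y = j n x := by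
  induction m, hnm using Nat.le_induction with
  | base => exact ⟨x, rfl⟩
  | succ m hm ih =>
    obtain ⟨y, hy⟩ := ih
    exact ⟨φ m y, by rw [h.comp, hy]⟩

lemma comp_trans {E : Type} [CStarAlgebra E] (g : ∀ n, A n →⋆ₐ[ℂ] E)
    (hg : ∀ n x, g (n + 1) (φ n x) = g n x) {n m : ℕ} (h : n ≤ m) (x : A n) :
    g m (trans φ n m x) = g n x := by
  induction m, h using Nat.le_induction with
  | base => rw [trans_self]
  | succ m hm ih => rw [trans_succ φ hm, hg, ih]

/-- approximation of finitely many elements at one stage -/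
lemma IsLim.approx_finset (h : IsLim φ j) {ι : Type} (s : Finset ι) (y : ι → L) {ε : ℝ}
    (hε : 0 < ε) : ∃ N, ∀ n, N ≤ n → ∃ x : ι → A n, ∀ i ∈ s, ‖y i - j n (x i)‖ < ε := by
  classical
  choose n x hx using fun i => h.dense (y i) ε hε
  refine ⟨s.sup n, fun m hm => ⟨fun i => trans φ (n i) m (x i), fun i hi => ?_⟩⟩
  have h1 : n i ≤ m := (Finset.le_sup hi).trans hm
  rw [comp_trans j h.comp h1]
  exact hx i

/-- the graph of a compatible system -/
def graph {E : Type} [CStarAlgebra E] (h : IsLim φ j) (g : ∀ n, A n →⋆ₐ[ℂ] E)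
    (hg : ∀ n x, g (n + 1) (φ n x) = g n x) : StarSubalgebra ℂ (L × E) where
  carrier := {y | ∃ n x, (j n x, g n x) = y}
  mul_mem' := by
    rintro _ _ ⟨n, x, rfl⟩ ⟨m, y, rfl⟩
    refine ⟨max n m, trans φ n (max n m) x * trans φ m (max n m) y, ?_⟩
    rw [map_mul, map_mul, comp_trans j h.comp (le_max_left _ _),
      comp_trans j h.comp (le_max_right _ _), comp_trans g hg (le_max_left _ _),
      comp_trans g hg (le_max_right _ _)]
    rfl
  add_mem' := by
    rintro _ _ ⟨n, x, rfl⟩ ⟨m, y, rfl⟩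
    refine ⟨max n m, trans φ n (max n m) x + trans φ m (max n m) y, ?_⟩
    rw [map_add, map_add, comp_trans j h.comp (le_max_left _ _),
      comp_trans j h.comp (le_max_right _ _), comp_trans g hg (le_max_left _ _),
      comp_trans g hg (le_max_right _ _)]
    rfl
  algebraMap_mem' := fun c => ⟨0, algebraMap ℂ _ c, by
    rw [AlgHomClass.commutes, AlgHomClass.commutes]; rfl⟩
  star_mem' := by
    rintro _ ⟨n, x, rfl⟩
    exact ⟨n, star x, by rw [map_star, map_star]; rfl⟩

theorem IsLim.lift (h : IsLim φ j) {E : Type} [CStarAlgebra E] (g : ∀ n, A n →⋆ₐ[ℂ] E)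
    (hg : ∀ n x, g (n + 1) (φ n x) = g n x) :
    ∃ G : L →⋆ₐ[ℂ] E, ∀ n x, G (j n x) = g n x := by
  let _ : CStarAlgebra (L × E) := { }
  set T : StarSubalgebra ℂ (L × E) := (graph h g hg).topologicalClosure with hT
  have hcl : IsClosed (T : Set (L × E)) := StarSubalgebra.isClosed_topologicalClosure _
  let _ : CStarAlgebra T := StarSubalgebra.cstarAlgebra T (h_closed := hcl)
  have hle : ∀ z ∈ T, ‖z.2‖ ≤ ‖z.1‖ := by
    intro z hz
    have hz' : z ∈ closure ((graph h g hg : StarSubalgebra ℂ (L × E)) : Set (L × E)) := hz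
    have hc : IsClosed {z : L × E | ‖z.2‖ ≤ ‖z.1‖} := isClosed_le (by fun_prop) (by fun_prop)
    refine hc.closure_subset_iff.2 ?_ hz'
    rintro _ ⟨n, x, rfl⟩
    show ‖g n x‖ ≤ ‖j n x‖
    rw [norm_map_inj _ (h.inj n)]
    exact norm_map_le' _ _
  set f : T →⋆ₐ[ℂ] L := (StarAlgHom.fst ℂ L E).comp T.subtype with hf
  have hinj : Function.Injective f := by
    rw [injective_iff_map_eq_zero]
    intro z hz
    have h1 : (z : L × E).1 = 0 := hz
    have h2 : (z : L × E).2 = 0 := by
      have := hle _ z.2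
      rw [h1, norm_zero] at this
      exact norm_le_zero_iff.1 this
    exact Subtype.ext (Prod.ext h1 h2)
  have hiso : Isometry f := NonUnitalStarAlgHom.isometry (f : T →⋆ₙₐ[ℂ] L) hinj
  have hrange : IsClosed (Set.range f) := hiso.isClosedEmbedding.isClosed_range
  have hmemT : ∀ n (x : A n), ((j n x, g n x) : L × E) ∈ T := fun n x =>
    StarSubalgebra.le_topologicalClosure _ ⟨n, x, rfl⟩
  have hsurj : Function.Surjective f := by
    intro y
    have : y ∈ closure (Set.range f) := by
      rw [Metric.mem_closure_iff]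
      intro ε hε
      obtain ⟨n, x, hx⟩ := h.dense y ε hε
      exact ⟨j n x, ⟨⟨_, hmemT n x⟩, rfl⟩, by rwa [dist_eq_norm]⟩
    rwa [hrange.closure_eq] at this
  set e : T ≃⋆ₐ[ℂ] L := StarAlgEquiv.ofBijective f ⟨hinj, hsurj⟩ with he
  refine ⟨((StarAlgHom.snd ℂ L E).comp T.subtype).comp (e.symm : L →⋆ₐ[ℂ] T), fun n x => ?_⟩
  have h1 : e.symm (j n x) = ⟨_, hmemT n x⟩ := by
    rw [StarAlgEquiv.symm_apply_eq]
    rfl
  show ((e.symm (j n x) : T) : L × E).2 = g n x
  rw [h1]

theorem IsLim.hom_ext (h : IsLim φ j) {E : Type} [CStarAlgebra E] {f g : L →⋆ₐ[ℂ] E}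
    (hfg : ∀ n x, f (j n x) = g (j n x)) : f = g := by
  have hc : IsClosed {y : L | f y = g y} := isClosed_eq
    (AddMonoidHomClass.continuous_of_bound f 1 (fun x => by simpa using norm_map_le' f x))
    (AddMonoidHomClass.continuous_of_bound g 1 (fun x => by simpa using norm_map_le' g x))
  apply StarAlgHom.ext
  intro y
  have : y ∈ closure {y : L | f y = g y} := by
    rw [Metric.mem_closure_iff]
    intro ε hε
    obtain ⟨n, x, hx⟩ := h.dense y ε hε
    exact ⟨j n x, hfg n x, by rwa [dist_eq_norm]⟩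
  rwa [hc.closure_eq] at this

/-- if every nonzero element of every stage generates a later stage as an ideal, the limit is
simple -/
theorem IsLim.simple (h : IsLim φ j) [Nontrivial L]
    (hfull : ∀ n (x : A n), x ≠ 0 → ∃ m, n ≤ m ∧ ∀ I : TwoSidedIdeal (A m),
      trans φ n m x ∈ I → I = ⊤) : IsSimpleRing L := by
  refine ⟨⟨fun J => ?_⟩⟩
  by_contra hJ
  push Not at hJ
  obtain ⟨hJ0, hJ1⟩ := hJ
  -- `J` is proper, so it meets the stages trivially
  have h1 : (1 : L) ∉ J := fun h1 => hJ1 ((TwoSidedIdeal.one_mem_iff J).1 h1)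
  -- closure of `J`
  let I : Submodule ℂ L := (Submodule.span ℂ (J : Set L)).topologicalClosure
  have hspan : ∀ y ∈ Submodule.span ℂ (J : Set L), y ∈ J := by
    intro y hy
    induction hy using Submodule.span_induction with
    | mem x hx => exact hx
    | zero => exact J.zero_mem
    | add x y _ _ hx hy => exact J.add_mem hx hy
    | smul c x _ hx =>
      have : c • x = algebraMap ℂ L c * x := Algebra.smul_def c x
      rw [this]
      exact J.mul_mem_left _ _ hx
  have hIcl : ∀ y, y ∈ I ↔ y ∈ closure (J : Set L) := by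
    intro y
    have h2 : (Submodule.span ℂ (J : Set L) : Set L) = (J : Set L) := by
      apply Set.Subset.antisymm
      · exact hspan
      · exact Submodule.subset_span
    show y ∈ closure (Submodule.span ℂ (J : Set L) : Set L) ↔ _
    rw [h2]
  have hCI : CI I := by
    refine ⟨Submodule.isClosed_topologicalClosure _, ?_, ?_⟩
    · intro a x hx
      rw [hIcl] at hx ⊢
      exact map_mem_closure (f := fun y => a * y) (continuous_const_mul a) hx
        (fun y hy => J.mul_mem_left _ _ hy)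
    · intro a x hx
      rw [hIcl] at hx ⊢
      exact map_mem_closure (f := fun y => y * a) (continuous_mul_const a) hx
        (fun y hy => J.mul_mem_right _ _ hy)
  have h1I : (1 : L) ∉ I := by
    rw [hIcl, Metric.mem_closure_iff]
    intro hc
    obtain ⟨b, hb, hb'⟩ := hc 1 one_pos
    rw [dist_eq_norm] at hb'
    have hu : IsUnit b := by
      have := isUnit_one_sub_of_norm_lt_one hb'
      simpa using this
    obtain ⟨u, rfl⟩ := hu
    apply h1
    have := J.mul_mem_left (↑u⁻¹ : L) _ hb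
    simpa using this
  -- the quotient map is isometric on stages
  set π : L →ₐ[ℂ] Q hCI := mkHom hCI with hπ
  have hπstar : ∀ x, π (star x) = star (π x) := fun x => mk_star hCI x
  let πs : L →⋆ₐ[ℂ] Q hCI := { π with map_star' := hπstar }
  have hstage : ∀ n (x : A n), πs (j n x) = 0 → x = 0 := by
    intro n x hx
    by_contra hx0
    obtain ⟨m, hnm, hm⟩ := hfull n x hx0
    -- the kernel of `πs ∘ j m`
    have h2 : πs (j m (trans φ n m x)) = 0 := by rw [comp_trans j h.comp hnm]; exact hx
    let K : TwoSidedIdeal (A m) := TwoSidedIdeal.ker ((πs.comp (j m)) : A m →⋆ₐ[ℂ] Q hCI)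
    have h3 : trans φ n m x ∈ K := by
      rw [TwoSidedIdeal.mem_ker]
      exact h2
    have h4 := hm K h3
    have h5 : (1 : A m) ∈ K := by rw [h4]; trivial
    rw [TwoSidedIdeal.mem_ker, map_one] at h5
    have h6 : mkHom hCI 1 = 0 := by rw [map_one]; exact h5
    exact h1I ((mkHom_eq_zero hCI 1).1 h6)
  have hinj : ∀ n, Function.Injective (πs.comp (j n)) := by
    intro n
    rw [injective_iff_map_eq_zero]
    intro x hx
    exact hstage n x hx
  have hnorm : ∀ y : L, ‖πs y‖ = ‖y‖ := by
    intro y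
    have hc : IsClosed {y : L | ‖πs y‖ = ‖y‖} := isClosed_eq
      ((AddMonoidHomClass.continuous_of_bound πs 1
        (fun x => by simpa using norm_map_le' πs x)).norm) continuous_norm
    have : y ∈ closure {y : L | ‖πs y‖ = ‖y‖} := by
      rw [Metric.mem_closure_iff]
      intro ε hε
      obtain ⟨n, x, hx⟩ := h.dense y ε hε
      refine ⟨j n x, ?_, by rwa [dist_eq_norm]⟩
      show ‖(πs.comp (j n)) x‖ = ‖j n x‖
      rw [norm_map_inj _ (hinj n), norm_map_inj _ (h.inj n)]
    rwa [hc.closure_eq] at this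
  apply hJ0
  rw [eq_bot_iff]
  intro y hy
  have h7 : y ∈ I := (hIcl y).2 (subset_closure hy)
  have h8 : πs y = 0 := (mkHom_eq_zero hCI y).2 h7
  have h9 : ‖y‖ = 0 := by rw [← hnorm y, h8, norm_zero]
  have h10 : y = 0 := norm_eq_zero.1 h9
  subst h10
  exact TwoSidedIdeal.zero_mem _

end

end Pool.Agent.H188R3
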