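import Mathlib

/-!
Definitions: C*-tensor products, the minimal tensor product, Rokhlin properties.
-/

set_option autoImplicit false

noncomputable section

open scoped TensorProduct

namespace Pool.Agent.H188R3

/-- For unital `*`-homomorphisms `f : A → D` and `g : B → D` the linear map `A ⊗ B → D` from the
algebraic tensor product with `a ⊗ b ↦ f a * g b`. -/
def prodMap {A B D : Type} [CStarAlgebra A] [CStarAlgebra B] [CStarAlgebra D]
    (f : A →⋆ₐ[ℂ] D) (g : B →⋆ₐ[ℂ] D) : A ⊗[ℂ] B →ₗ[ℂ] D :=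
  TensorProduct.lift (LinearMap.compl₁₂ (LinearMap.mul ℂ D) f.toAlgHom.toLinearMap
    g.toAlgHom.toLinearMap)

/-- `f : A → D` and `g : B → D` commute and `A ⊗ B → D` is injective; so `‖prodMap f g x‖` is a
C*-norm on the algebraic tensor product `A ⊗ B`, and all C*-norms on `A ⊗ B` are of this form. -/
structure IsCStarNormed {A B D : Type} [CStarAlgebra A] [CStarAlgebra B] [CStarAlgebra D]
    (f : A →⋆ₐ[ℂ] D) (g : B →⋆ₐ[ℂ] D) : Prop where
  commute : ∀ a b, f a * g b = g b * f a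
  injective : Function.Injective (prodMap f g)

/-- `D`, with the embeddings `f : A → D`, `a ↦ a ⊗ 1`, and `g : B → D`, `b ↦ 1 ⊗ b`, is the minimal
(spatial) tensor product of `A` and `B`: the completion of the algebraic tensor product `A ⊗ B`
with respect to the smallest C*-norm. -/
structure IsMinTensor {A B D : Type} [CStarAlgebra A] [CStarAlgebra B] [CStarAlgebra D]
    (f : A →⋆ₐ[ℂ] D) (g : B →⋆ₐ[ℂ] D) : Prop where
  normed : IsCStarNormed f g
  dense : DenseRange (prodMap f g)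
  minimal : ∀ (E : Type) [CStarAlgebra E] (f' : A →⋆ₐ[ℂ] E) (g' : B →⋆ₐ[ℂ] E),
    IsCStarNormed f' g' → ∀ x, ‖prodMap f g x‖ ≤ ‖prodMap f' g' x‖

/-- Every matrix algebra `M_n(D)` is finite: every isometry is unitary. -/
def StablyFinite (D : Type) [CStarAlgebra D] : Prop :=
  ∀ (n : ℕ) (v : Matrix (Fin n) (Fin n) D), star v * v = 1 → v * star v = 1

/-- The Rokhlin property of an action `σ` of a finite group `K` on a unital C*-algebra `D`. -/
def Rokhlin {K D : Type} [Group K] [Fintype K] [CStarAlgebra D] (σ : K →* (D ≃⋆ₐ[ℂ] D)) : Prop :=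
  ∀ (F : Finset D) (ε : ℝ), 0 < ε → ∃ e : K → D,
    (∀ k, IsStarProjection (e k)) ∧
    (∀ k l, k ≠ l → e k * e l = 0) ∧
    (∀ k l, ‖σ k (e l) - e (k * l)‖ < ε) ∧
    (∀ k, ∀ a ∈ F, ‖e k * a - a * e k‖ < ε) ∧
    ∑ k, e k = 1

/-- The tracial Rokhlin property of an action `σ` of a finite group `K` on a unital C*-algebra `D`
(`x` is a nonzero positive element, and `1 - ∑ e k` is Murray-von Neumann equivalent to a
projection in the hereditary subalgebra `closure (x D x)`). -/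
def TracialRokhlin {K D : Type} [Group K] [Fintype K] [CStarAlgebra D]
    (σ : K →* (D ≃⋆ₐ[ℂ] D)) : Prop :=
  ∀ (F : Finset D) (ε : ℝ), 0 < ε → ∀ x : D, (∃ b : D, x = star b * b) → x ≠ 0 → ∃ e : K → D,
    (∀ k, IsStarProjection (e k)) ∧
    (∀ k l, k ≠ l → e k * e l = 0) ∧
    (∀ k l, ‖σ k (e l) - e (k * l)‖ < ε) ∧
    (∀ k, ∀ a ∈ F, ‖e k * a - a * e k‖ < ε) ∧
    ∃ v : D, star v * v = 1 - ∑ k, e k ∧ v * star v ∈ closure {y : D | ∃ a, y = x * a * x}

/-- `γ` is the tensor product action `(g, h) ↦ α_g ⊗ β_h` of `G × H` on the tensor product `D`. -/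
def IsTensorAction {A B D G H : Type} [CStarAlgebra A] [CStarAlgebra B] [CStarAlgebra D]
    [Group G] [Group H] (f : A →⋆ₐ[ℂ] D) (g : B →⋆ₐ[ℂ] D) (α : G →* (A ≃⋆ₐ[ℂ] A))
    (β : H →* (B ≃⋆ₐ[ℂ] B)) (γ : G × H →* (D ≃⋆ₐ[ℂ] D)) : Prop :=
  ∀ s t a b, γ (s, t) (f a * g b) = f (α s a) * g (β t b)

lemma prodMap_tmul {A B D : Type} [CStarAlgebra A] [CStarAlgebra B] [CStarAlgebra D]
    (f : A →⋆ₐ[ℂ] D) (g : B →⋆ₐ[ℂ] D) (a : A) (b : B) : prodMap f g (a ⊗ₜ[ℂ] b) = f a * g b := rfl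

end Pool.Agent.H188R3
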