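import Mathlib
import Pool.Agent.H188R3.TensorDefs
import Pool.Agent.H188R3.IndLim

/-!
Commuting embeddings of `A` and of a simple unital C*-algebra `B` embed the algebraic tensor product.
-/

set_option autoImplicit false

noncomputable section

open scoped TensorProduct

namespace Pool.Agent.H188R3

lemma central_scalar {B : Type} [CStarAlgebra B] [IsSimpleRing B] (c : B)
    (hc : ∀ b, c * b = b * c) : ∃ l : ℂ, c = algebraMap ℂ B l := by
  obtain ⟨l, hl⟩ := spectrum.nonempty c
  refine ⟨l, ?_⟩
  by_contra hne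
  have hcen : algebraMap ℂ B l - c ∈ Subring.center B := by
    rw [Subring.mem_center_iff]
    intro g
    rw [mul_sub, sub_mul, hc, Algebra.commutes]
  have hf := IsSimpleRing.isField_center B
  have hne' : (⟨algebraMap ℂ B l - c, hcen⟩ : Subring.center B) ≠ 0 := by
    intro h
    have := congrArg Subtype.val h
    exact hne (sub_eq_zero.1 this).symm
  obtain ⟨d, hd⟩ := hf.mul_inv_cancel hne'
  have hd' : (algebraMap ℂ B l - c) * (d : B) = 1 := congrArg Subtype.val hd
  have hd'' : (d : B) * (algebraMap ℂ B l - c) = 1 := by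
    have := (Subring.mem_center_iff.1 hcen) (d : B)
    rw [this]; exact hd'
  exact hl ⟨⟨_, (d : B), hd', hd''⟩, rfl⟩

section

variable {A B D : Type} [CStarAlgebra A] [CStarAlgebra B] [CStarAlgebra D]

/-- the value of a coefficient family -/
def fval {ι : Type} (b : ι → A) (f : A →⋆ₐ[ℂ] D) (g : B →⋆ₐ[ℂ] D) (y : ι →₀ B) : D :=
  y.sum fun i z => f (b i) * g z

lemma fval_add {ι : Type} (b : ι → A) (f : A →⋆ₐ[ℂ] D) (g : B →⋆ₐ[ℂ] D) (y z : ι →₀ B) :
    fval b f g (y + z) = fval b f g y + fval b f g z := by
  classical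
  unfold fval
  rw [Finsupp.sum_add_index']
  · intro i; simp
  · intro i u v; rw [map_add, mul_add]

lemma fval_neg {ι : Type} (b : ι → A) (f : A →⋆ₐ[ℂ] D) (g : B →⋆ₐ[ℂ] D) (y : ι →₀ B) :
    fval b f g (-y) = - fval b f g y := by
  have h := fval_add b f g y (-y)
  rw [add_neg_cancel] at h
  have h0 : fval b f g (0 : ι →₀ B) = 0 := by unfold fval; simp
  rw [h0] at h
  exact (neg_eq_of_add_eq_zero_right h.symm).symm

lemma fval_mul_left {ι : Type} (b : ι → A) (f : A →⋆ₐ[ℂ] D) (g : B →⋆ₐ[ℂ] D)
    (hc : ∀ x y, f x * g y = g y * f x) (c : B) (y : ι →₀ B) :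
    fval b f g (y.mapRange (fun z => c * z) (mul_zero c)) = g c * fval b f g y := by
  unfold fval
  rw [Finsupp.sum_mapRange_index (by intro i; simp), Finsupp.mul_sum]
  refine Finset.sum_congr rfl fun i _ => ?_
  simp only
  rw [map_mul, ← mul_assoc, hc, mul_assoc]

lemma fval_mul_right {ι : Type} (b : ι → A) (f : A →⋆ₐ[ℂ] D) (g : B →⋆ₐ[ℂ] D)
    (c : B) (y : ι →₀ B) :
    fval b f g (y.mapRange (fun z => z * c) (zero_mul c)) = fval b f g y * g c := by
  unfold fval
  rw [Finsupp.sum_mapRange_index (by intro i; simp), Finsupp.sum_mul]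
  refine Finset.sum_congr rfl fun i _ => ?_
  simp only
  rw [map_mul, ← mul_assoc]

theorem fval_injective [IsSimpleRing B] {ι : Type} (b : ι → A) (hb : LinearIndependent ℂ b)
    (f : A →⋆ₐ[ℂ] D) (g : B →⋆ₐ[ℂ] D) (hc : ∀ x y, f x * g y = g y * f x)
    (hf : Function.Injective f) (y : ι →₀ B) (hy : fval b f g y = 0) : y = 0 := by
  classical
  induction hn : y.support.card using Nat.strong_induction_on generalizing y with
  | _ n ih =>
  by_contra hy0
  obtain ⟨i₀, hi₀⟩ := Finsupp.support_nonempty_iff.2 hy0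
  have hyi : y i₀ ≠ 0 := Finsupp.mem_support_iff.1 hi₀
  -- find `y'` with coefficient one
  have key : ∀ z ∈ TwoSidedIdeal.span {y i₀}, ∃ y' : ι →₀ B, y'.support ⊆ y.support ∧
      fval b f g y' = 0 ∧ y' i₀ = z := by
    intro z hz
    induction hz using TwoSidedIdeal.span_induction with
    | mem x hx =>
      refine ⟨y, subset_rfl, hy, ?_⟩
      have : x = y i₀ := by simpa using hx
      exact this.symm
    | zero => exact ⟨0, by simp, by unfold fval; simp, rfl⟩
    | add u v _ _ hu hv =>
      obtain ⟨u', h1, h2, h3⟩ := hu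
      obtain ⟨v', h4, h5, h6⟩ := hv
      refine ⟨u' + v', (Finsupp.support_add).trans (Finset.union_subset h1 h4), ?_, ?_⟩
      · rw [fval_add, h2, h5, add_zero]
      · rw [Finsupp.add_apply, h3, h6]
    | neg u _ hu =>
      obtain ⟨u', h1, h2, h3⟩ := hu
      refine ⟨-u', by rw [Finsupp.support_neg]; exact h1, ?_, ?_⟩
      · rw [fval_neg, h2, neg_zero]
      · rw [Finsupp.neg_apply, h3]
    | left_absorb a u _ hu =>
      obtain ⟨u', h1, h2, h3⟩ := hu
      refine ⟨u'.mapRange (fun z => a * z) (mul_zero a),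
        (Finsupp.support_mapRange).trans h1, ?_, ?_⟩
      · rw [fval_mul_left b f g hc, h2, mul_zero]
      · rw [Finsupp.mapRange_apply, h3]
    | right_absorb a u _ hu =>
      obtain ⟨u', h1, h2, h3⟩ := hu
      refine ⟨u'.mapRange (fun z => z * a) (zero_mul a),
        (Finsupp.support_mapRange).trans h1, ?_, ?_⟩
      · rw [fval_mul_right b f g, h2, zero_mul]
      · rw [Finsupp.mapRange_apply, h3]
  have htop : TwoSidedIdeal.span {y i₀} = ⊤ := by
    rcases eq_bot_or_eq_top (TwoSidedIdeal.span {y i₀}) with h | h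
    · exfalso
      apply hyi
      have : y i₀ ∈ TwoSidedIdeal.span {y i₀} := TwoSidedIdeal.subset_span (by simp)
      rw [h] at this
      simpa using this
    · exact h
  obtain ⟨y', h1, h2, h3⟩ := key 1 (by rw [htop]; trivial)
  -- all coefficients of `y'` are central
  have hcen : ∀ i, ∀ c : B, y' i * c = c * y' i := by
    intro i c
    set w : ι →₀ B := y'.mapRange (fun z => c * z) (mul_zero c) +
      -(y'.mapRange (fun z => z * c) (zero_mul c)) with hw
    have hw0 : fval b f g w = 0 := by
      rw [hw, fval_add, fval_neg, fval_mul_left b f g hc, fval_mul_right b f g, h2]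
      simp
    have hwi : w i₀ = 0 := by
      rw [hw]
      simp [h3]
    have hws : w.support ⊆ y'.support := by
      intro k hk
      rw [Finsupp.mem_support_iff] at hk ⊢
      intro h0
      apply hk
      rw [hw]
      simp [h0]
    have hlt : w.support.card < n := by
      rw [← hn]
      refine (Finset.card_lt_card ?_).trans_le (Finset.card_le_card (subset_refl _))
      refine ⟨hws.trans h1, fun hsub => ?_⟩
      have := hsub hi₀
      rw [Finsupp.mem_support_iff] at this
      exact this hwi
    have hwz := ih _ hlt w hw0 rfl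
    have := DFunLike.congr_fun hwz i
    rw [hw] at this
    simp at this
    exact (add_neg_eq_zero.1 this).symm
  choose l hl using fun i => central_scalar (y' i) (hcen i)
  have hfin : f (∑ i ∈ y'.support, l i • b i) = 0 := by
    rw [map_sum, ← h2]
    unfold fval Finsupp.sum
    refine Finset.sum_congr rfl fun i _ => ?_
    show f (l i • b i) = f (b i) * g (y' i)
    rw [hl i, AlgHomClass.commutes, map_smul, ← Algebra.commutes, Algebra.smul_def]
  have hz : ∑ i ∈ y'.support, l i • b i = 0 := by
    apply hf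
    rw [hfin, map_zero]
  have hi₀' : i₀ ∈ y'.support := by
    rw [Finsupp.mem_support_iff, h3]
    exact one_ne_zero
  have h4 := (linearIndependent_iff'.1 hb) _ _ hz i₀ hi₀'
  have h5 := hl i₀
  rw [h3, h4, map_zero] at h5
  exact one_ne_zero h5

theorem prodMap_injective [IsSimpleRing B] (f : A →⋆ₐ[ℂ] D) (g : B →⋆ₐ[ℂ] D)
    (hc : ∀ x y, f x * g y = g y * f x) (hf : Function.Injective f) :
    Function.Injective (prodMap f g) := by
  classical
  set b := Module.Basis.ofVectorSpace ℂ A with hb
  rw [injective_iff_map_eq_zero]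
  intro x hx
  set e := TensorProduct.equivFinsuppOfBasisLeft (N := B) b with he
  have h1 : ∀ y, prodMap f g (e.symm y) = fval b f g y := by
    intro y
    rw [he, TensorProduct.equivFinsuppOfBasisLeft_symm_apply]
    unfold fval
    rw [map_finsuppSum]
    refine Finset.sum_congr rfl fun i _ => ?_
    rfl
  have h2 : fval b f g (e x) = 0 := by
    rw [← h1, LinearEquiv.symm_apply_apply, hx]
  have h3 := fval_injective b b.linearIndependent f g hc hf _ h2
  exact (LinearEquiv.map_eq_zero_iff e).1 h3

end

end Pool.Agent.H188R3
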