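import Mathlib

/-!
Matrix algebras over C*-algebras.
-/

set_option autoImplicit false
set_option linter.unusedSectionVars false
set_option linter.unusedSimpArgs false

noncomputable section

namespace Pool.Agent.H188R3

/-- the C*-algebra `M_I(C)` -/
def MA (I : Type) (C : Type) : Type := CStarMatrix I I C

variable {I : Type} [Fintype I] [DecidableEq I] {C : Type} [CStarAlgebra C]

instance instMA : CStarAlgebra (MA I C) :=
  letI : PartialOrder C := CStarAlgebra.spectralOrder C
  letI : StarOrderedRing C := CStarAlgebra.spectralOrderedRing C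
  inferInstanceAs (CStarAlgebra (CStarMatrix I I C))

/-- make an element of `M_I(C)` -/
def MA.of (f : I → I → C) : MA I C := CStarMatrix.ofMatrix (Matrix.of f)

/-- entries -/
def MA.en (x : MA I C) (i j : I) : C := (show CStarMatrix I I C from x) i j

namespace MA

@[simp] lemma en_of (f : I → I → C) (i j : I) : (of f).en i j = f i j := rfl

@[ext] lemma ext {x y : MA I C} (h : ∀ i j, x.en i j = y.en i j) : x = y :=
  CStarMatrix.ext h

@[simp] lemma en_add (x y : MA I C) (i j : I) : (x + y).en i j = x.en i j + y.en i j := rfl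
@[simp] lemma en_sub (x y : MA I C) (i j : I) : (x - y).en i j = x.en i j - y.en i j := rfl
@[simp] lemma en_neg (x : MA I C) (i j : I) : (-x).en i j = -x.en i j := rfl
@[simp] lemma en_zero (i j : I) : (0 : MA I C).en i j = 0 := rfl
@[simp] lemma en_smul (c : ℂ) (x : MA I C) (i j : I) : (c • x).en i j = c • x.en i j := rfl
@[simp] lemma en_star (x : MA I C) (i j : I) : (star x).en i j = star (x.en j i) := rfl
lemma en_one (i j : I) : (1 : MA I C).en i j = if i = j then 1 else 0 := rfl
lemma en_mul (x y : MA I C) (i j : I) : (x * y).en i j = ∑ k, x.en i k * y.en k j := rfl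
lemma en_algebraMap (c : ℂ) (i j : I) :
    (algebraMap ℂ (MA I C) c).en i j = if i = j then algebraMap ℂ C c else 0 := by
  rw [Algebra.algebraMap_eq_smul_one, en_smul, en_one, Algebra.algebraMap_eq_smul_one]
  split_ifs <;> simp

lemma en_sum {ι : Type*} (s : Finset ι) (f : ι → MA I C) (i j : I) :
    (∑ k ∈ s, f k).en i j = ∑ k ∈ s, (f k).en i j := by
  classical
  induction s using Finset.induction_on with
  | empty => simp
  | insert a s ha ih => rw [Finset.sum_insert ha, Finset.sum_insert ha, en_add, ih]

instance [Nonempty I] [Nontrivial C] : Nontrivial (MA I C) :=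
  inferInstanceAs (Nontrivial (CStarMatrix I I C))

/-- entrywise application -/
def map {C' : Type} [CStarAlgebra C'] (g : C →⋆ₐ[ℂ] C') : MA I C →⋆ₐ[ℂ] MA I C' where
  toFun x := of fun i j => g (x.en i j)
  map_one' := by
    ext i j
    simp only [en_of, en_one]
    split_ifs <;> simp
  map_mul' x y := by
    ext i j
    simp only [en_of, en_mul, map_sum, map_mul]
  map_zero' := by
    ext i j
    simp
  map_add' x y := by
    ext i j
    simp
  commutes' c := by
    ext i j
    simp only [en_of, en_algebraMap]
    split_ifs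
    · exact AlgHomClass.commutes g c
    · simp
  map_star' x := by
    ext i j
    simp only [en_of, en_star, map_star]

@[simp] lemma en_map {C' : Type} [CStarAlgebra C'] (g : C →⋆ₐ[ℂ] C') (x : MA I C) (i j : I) :
    (map g x).en i j = g (x.en i j) := rfl

/-- constant diagonal matrices -/
def diag : C →⋆ₐ[ℂ] MA I C where
  toFun x := of fun i j => if i = j then x else 0
  map_one' := by
    ext i j
    simp only [en_of, en_one]
  map_mul' x y := by
    ext i j
    simp only [en_of, en_mul]
    rw [Finset.sum_eq_single i]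
    · by_cases h : i = j
      · simp [h]
      · simp [h]
    · intro k _ hk
      simp [Ne.symm hk]
    · simp
  map_zero' := by
    ext i j
    simp
  map_add' x y := by
    ext i j
    simp only [en_of, en_add]
    split_ifs <;> simp
  commutes' c := by
    ext i j
    simp only [en_of, en_algebraMap]
  map_star' x := by
    ext i j
    simp only [en_of, en_star]
    by_cases h : i = j
    · simp [h]
    · simp [h, Ne.symm h]

lemma en_diag (x : C) (i j : I) : (diag x : MA I C).en i j = if i = j then x else 0 := rfl

/-- `x ↦ x ⊗ 1` -/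
def amp : MA I C →⋆ₐ[ℂ] MA (I × Bool) C where
  toFun x := of fun p q => if p.2 = q.2 then x.en p.1 q.1 else 0
  map_one' := by
    ext p q
    simp only [en_of, en_one]
    by_cases h : p.2 = q.2
    · by_cases h' : p.1 = q.1
      · simp [h, h', Prod.ext h' h]
      · have : p ≠ q := fun e => h' (by rw [e])
        simp [h, h', this]
    · have : p ≠ q := fun e => h (by rw [e])
      simp [h, this]
  map_mul' x y := by
    ext p q
    simp only [en_of, en_mul]
    rw [Fintype.sum_prod_type]
    by_cases h : p.2 = q.2
    · rw [if_pos h]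
      refine Finset.sum_congr rfl fun k _ => ?_
      rw [Finset.sum_eq_single p.2]
      · simp [h]
      · intro b _ hb
        simp [Ne.symm hb]
      · simp
    · rw [if_neg h]
      symm
      refine Finset.sum_eq_zero fun k _ => Finset.sum_eq_zero fun b _ => ?_
      by_cases hb : p.2 = b
      · subst hb
        simp [h]
      · simp [hb]
  map_zero' := by
    ext i j
    simp
  map_add' x y := by
    ext i j
    simp only [en_of, en_add]
    split_ifs <;> simp
  commutes' c := by
    ext p q
    simp only [en_of, en_algebraMap]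
    by_cases h : p.2 = q.2
    · by_cases h' : p.1 = q.1
      · simp [h, h', Prod.ext h' h]
      · have : p ≠ q := fun e => h' (by rw [e])
        simp [h, h', this]
    · have : p ≠ q := fun e => h (by rw [e])
      simp [h, this]
  map_star' x := by
    ext i j
    simp only [en_of, en_star]
    by_cases h : i.2 = j.2
    · simp [h]
    · simp [h, Ne.symm h]

lemma en_amp (x : MA I C) (p q : I × Bool) :
    (amp x).en p q = if p.2 = q.2 then x.en p.1 q.1 else 0 := rfl

lemma amp_injective : Function.Injective (amp : MA I C →⋆ₐ[ℂ] MA (I × Bool) C) := by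
  intro x y h
  ext i j
  have := congrArg (fun z => z.en (i, true) (j, true)) h
  simpa [en_amp] using this

lemma amp_diag (x : C) : amp (diag x : MA I C) = diag x := by
  ext p q
  simp only [en_amp, en_diag]
  by_cases h : p.2 = q.2
  · by_cases h' : p.1 = q.1
    · simp [h, h', Prod.ext h' h]
    · have : p ≠ q := fun e => h' (by rw [e])
      simp [h, h', this]
  · have : p ≠ q := fun e => h (by rw [e])
    simp [h, this]

lemma amp_map {C' : Type} [CStarAlgebra C'] (g : C →⋆ₐ[ℂ] C') (x : MA I C) :
    amp (map g x) = map g (amp x) := by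
  ext p q
  simp only [en_amp, en_map]
  split_ifs <;> simp

/-- matrix units -/
def unit (i j : I) : MA I ℂ := of fun k l => if k = i ∧ l = j then 1 else 0

lemma en_unit (i j k l : I) : (unit i j).en k l = if k = i ∧ l = j then 1 else 0 := rfl

lemma unit_mul (i j k l : I) : unit i j * unit k l = if j = k then unit i l else 0 := by
  ext a b
  rw [en_mul]
  simp only [en_unit]
  rw [Finset.sum_eq_single j]
  · by_cases h : j = k
    · subst h
      by_cases h1 : a = i <;> by_cases h2 : b = l <;> simp [h1, h2, en_unit]
    · simp [h]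
  · intro c _ hc
    simp [hc]
  · simp

lemma star_unit (i j : I) : star (unit i j) = unit j i := by
  ext a b
  simp only [en_star, en_unit]
  by_cases h1 : a = j <;> by_cases h2 : b = i <;> simp [h1, h2]

lemma sum_unit : ∑ i : I, unit i i = (1 : MA I ℂ) := by
  ext a b
  rw [en_sum, en_one]
  simp only [en_unit]
  by_cases h : a = b
  · subst h
    rw [Finset.sum_eq_single a]
    · simp
    · intro c _ hc
      simp [Ne.symm hc]
    · simp
  · rw [if_neg h]
    refine Finset.sum_eq_zero fun c _ => ?_
    rw [if_neg]
    rintro ⟨rfl, rfl⟩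
    exact h rfl

lemma eq_sum_unit (x : MA I ℂ) : x = ∑ i, ∑ j, (x.en i j) • unit i j := by
  ext a b
  rw [en_sum]
  simp only [en_sum, en_smul, en_unit]
  rw [Finset.sum_eq_single a]
  · rw [Finset.sum_eq_single b]
    · simp
    · intro c _ hc
      simp [Ne.symm hc]
    · simp
  · intro c _ hc
    refine Finset.sum_eq_zero fun d _ => ?_
    simp [Ne.symm hc]
  · simp

/-- The homomorphism `M_I(C) → E` given by a homomorphism `f` of `C` and commuting matrix units. -/
def ofUnits {E : Type} [CStarAlgebra E] (f : C →⋆ₐ[ℂ] E) (g : MA I ℂ →⋆ₐ[ℂ] E)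
    (hc : ∀ x y, f x * g y = g y * f x) : MA I C →⋆ₐ[ℂ] E where
  toFun x := ∑ i, ∑ j, f (x.en i j) * g (unit i j)
  map_one' := by
    have : ∀ i : I, ∑ j, f ((1 : MA I C).en i j) * g (unit i j) = g (unit i i) := by
      intro i
      rw [Finset.sum_eq_single i]
      · simp [en_one]
      · intro b _ hb
        simp [en_one, Ne.symm hb]
      · simp
    simp only [this]
    rw [← map_sum, sum_unit, map_one]
  map_mul' x y := by
    have h1 : ∀ i j k l : I, (f (x.en i j) * g (unit i j)) * (f (y.en k l) * g (unit k l)) =
        if j = k then f (x.en i j * y.en k l) * g (unit i l) else 0 := by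
      intro i j k l
      rw [mul_assoc, ← mul_assoc (g (unit i j)), ← hc, mul_assoc, ← mul_assoc (f (x.en i j)),
        ← map_mul, ← map_mul, unit_mul]
      by_cases h : j = k
      · simp [h]
      · simp [h]
    have h2 : (∑ i, ∑ j, f (x.en i j) * g (unit i j)) * (∑ k, ∑ l, f (y.en k l) * g (unit k l)) =
        ∑ i, ∑ j, ∑ l, f (x.en i j * y.en j l) * g (unit i l) := by
      rw [Finset.sum_mul]
      refine Finset.sum_congr rfl fun i _ => ?_
      rw [Finset.sum_mul]
      refine Finset.sum_congr rfl fun j _ => ?_
      rw [Finset.mul_sum, Finset.sum_eq_single j]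
      · rw [Finset.mul_sum]
        refine Finset.sum_congr rfl fun l _ => ?_
        rw [h1, if_pos rfl]
      · intro k _ hk
        rw [Finset.mul_sum]
        refine Finset.sum_eq_zero fun l _ => ?_
        rw [h1, if_neg (Ne.symm hk)]
      · simp
    rw [h2]
    refine Finset.sum_congr rfl fun i _ => ?_
    rw [Finset.sum_comm]
    refine Finset.sum_congr rfl fun l _ => ?_
    rw [en_mul, map_sum, Finset.sum_mul]
  map_zero' := by simp
  map_add' x y := by simp [add_mul, Finset.sum_add_distrib]
  commutes' c := by
    have : ∀ i : I, ∑ j, f ((algebraMap ℂ (MA I C) c).en i j) * g (unit i j) =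
        algebraMap ℂ E c * g (unit i i) := by
      intro i
      rw [Finset.sum_eq_single i]
      · rw [en_algebraMap, if_pos rfl, AlgHomClass.commutes]
      · intro b _ hb
        simp [en_algebraMap, Ne.symm hb]
      · simp
    simp only [this]
    rw [← Finset.mul_sum, ← map_sum, sum_unit, map_one, mul_one]
  map_star' x := by
    simp only [star_sum, star_mul, ← map_star, en_star, star_unit]
    rw [Finset.sum_comm]
    refine Finset.sum_congr rfl fun i _ => Finset.sum_congr rfl fun j _ => ?_
    rw [hc]

lemma ofUnits_apply {E : Type} [CStarAlgebra E] (f : C →⋆ₐ[ℂ] E) (g : MA I ℂ →⋆ₐ[ℂ] E)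
    (hc : ∀ x y, f x * g y = g y * f x) (x : MA I C) :
    ofUnits f g hc x = ∑ i, ∑ j, f (x.en i j) * g (unit i j) := rfl

lemma ofUnits_diag {E : Type} [CStarAlgebra E] (f : C →⋆ₐ[ℂ] E) (g : MA I ℂ →⋆ₐ[ℂ] E)
    (hc : ∀ x y, f x * g y = g y * f x) (x : C) :
    ofUnits f g hc (diag x) = f x := by
  rw [ofUnits_apply]
  have : ∀ i : I, ∑ j, f ((diag x : MA I C).en i j) * g (unit i j) = f x * g (unit i i) := by
    intro i
    rw [Finset.sum_eq_single i]
    · simp [en_diag]
    · intro b _ hb
      simp [en_diag, Ne.symm hb]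
    · simp
  simp only [this]
  rw [← Finset.mul_sum, ← map_sum, sum_unit, map_one, mul_one]

/-- scalars -/
def sc (C : Type) [CStarAlgebra C] : ℂ →⋆ₐ[ℂ] C := StarAlgHom.ofId ℂ C

lemma sc_apply (c : ℂ) : sc C c = algebraMap ℂ C c := rfl

lemma ofUnits_sc {E : Type} [CStarAlgebra E] (f : C →⋆ₐ[ℂ] E) (g : MA I ℂ →⋆ₐ[ℂ] E)
    (hc : ∀ x y, f x * g y = g y * f x) (x : C) (y : MA I ℂ) :
    ofUnits f g hc (diag x * map (sc C) y) = f x * g y := by
  rw [map_mul, ofUnits_diag]
  congr 1
  rw [ofUnits_apply]
  conv_rhs => rw [eq_sum_unit y]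
  simp only [map_sum, map_smul]
  refine Finset.sum_congr rfl fun i _ => Finset.sum_congr rfl fun j _ => ?_
  rw [en_map, sc_apply, AlgHomClass.commutes, Algebra.smul_def]

lemma ofUnits_injective [Nonempty I] {E : Type} [CStarAlgebra E] (f : C →⋆ₐ[ℂ] E)
    (g : MA I ℂ →⋆ₐ[ℂ] E) (hc : ∀ x y, f x * g y = g y * f x) (hf : Function.Injective f) :
    Function.Injective (ofUnits f g hc) := by
  rw [injective_iff_map_eq_zero]
  intro x hx
  ext i j
  rw [en_zero]
  apply hf
  rw [map_zero]
  have h1 : ∀ k : I, g (unit k i) * ofUnits f g hc x * g (unit j k) =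
      f (x.en i j) * g (unit k k) := by
    intro k
    rw [ofUnits_apply, Finset.mul_sum, Finset.sum_mul, Finset.sum_eq_single i]
    · rw [Finset.mul_sum, Finset.sum_mul, Finset.sum_eq_single j]
      · rw [← mul_assoc, ← hc, mul_assoc, mul_assoc, ← map_mul, ← map_mul, unit_mul, if_pos rfl,
          unit_mul, if_pos rfl]
      · intro b _ hb
        rw [mul_assoc, mul_assoc, ← map_mul, unit_mul, if_neg hb]
        simp
      · simp
    · intro a _ ha
      rw [Finset.mul_sum, Finset.sum_mul]
      refine Finset.sum_eq_zero fun b _ => ?_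
      rw [← mul_assoc, ← hc, mul_assoc, mul_assoc, ← mul_assoc (g (unit k i)), ← map_mul,
        unit_mul, if_neg (Ne.symm ha)]
      simp
    · simp
  have h2 : ∑ k : I, g (unit k i) * ofUnits f g hc x * g (unit j k) = f (x.en i j) := by
    simp only [h1]
    rw [← Finset.mul_sum, ← map_sum, sum_unit, map_one, mul_one]
  rw [← h2, hx]
  simp

end MA

end Pool.Agent.H188R3
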