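import Mathlib
import Pool.Agent.H188R3.MatAlg
import Pool.Agent.H188R3.Inj
import Pool.Agent.H188R3.IndLim2

/-!
The tower `M_{2^n}(C)`, the UHF algebra `M_{2^∞}` and the tensor product `C ⊗ M_{2^∞}`.
-/

set_option autoImplicit false
set_option linter.unusedSectionVars false

noncomputable section

open scoped TensorProduct

namespace Pool.Agent.H188R3

/-- index sets of size `2^n` -/
def Ix : ℕ → Type
  | 0 => Unit
  | n + 1 => Ix n × Bool

instance instFintypeIx : ∀ n, Fintype (Ix n)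
  | 0 => inferInstanceAs (Fintype Unit)
  | n + 1 => letI := instFintypeIx n; inferInstanceAs (Fintype (Ix n × Bool))

instance instDecEqIx : ∀ n, DecidableEq (Ix n)
  | 0 => inferInstanceAs (DecidableEq Unit)
  | n + 1 => letI := instDecEqIx n; inferInstanceAs (DecidableEq (Ix n × Bool))

instance instNonemptyIx : ∀ n, Nonempty (Ix n)
  | 0 => inferInstanceAs (Nonempty Unit)
  | n + 1 => letI := instNonemptyIx n; inferInstanceAs (Nonempty (Ix n × Bool))

/-- the connecting maps `M_{2^n}(C) → M_{2^{n+1}}(C)` -/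
def tw (C : Type) [CStarAlgebra C] (n : ℕ) : MA (Ix n) C →⋆ₐ[ℂ] MA (Ix (n + 1)) C :=
  (MA.amp : MA (Ix n) C →⋆ₐ[ℂ] MA (Ix n × Bool) C)

lemma tw_injective (C : Type) [CStarAlgebra C] (n : ℕ) : Function.Injective (tw C n) :=
  MA.amp_injective

lemma tw_diag (C : Type) [CStarAlgebra C] (n : ℕ) (x : C) :
    tw C n (MA.diag x) = MA.diag x := MA.amp_diag x

lemma tw_map {C C' : Type} [CStarAlgebra C] [CStarAlgebra C'] (g : C →⋆ₐ[ℂ] C') (n : ℕ)
    (x : MA (Ix n) C) : tw C' n (MA.map g x) = MA.map g (tw C n x) := MA.amp_map g x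

section

variable {C : Type} [CStarAlgebra C] [Nontrivial C]
variable {B : Type} [CStarAlgebra B] {jB : ∀ n, MA (Ix n) ℂ →⋆ₐ[ℂ] B}
variable {D : Type} [CStarAlgebra D] {jD : ∀ n, MA (Ix n) C →⋆ₐ[ℂ] D}

/-- `C → D` -/
def iA (jD : ∀ n, MA (Ix n) C →⋆ₐ[ℂ] D) : C →⋆ₐ[ℂ] D := (jD 0).comp MA.diag

lemma iA_eq (hD : IsLim (tw C) jD) (n : ℕ) (x : C) : iA jD x = jD n (MA.diag x) := by
  induction n with
  | zero => rfl
  | succ n ih => rw [ih, ← hD.comp, tw_diag]

lemma diag_injective {I : Type} [Fintype I] [DecidableEq I] [Nonempty I] :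
    Function.Injective (MA.diag : C →⋆ₐ[ℂ] MA I C) := by
  intro x y h
  obtain ⟨i⟩ := (inferInstance : Nonempty I)
  have := congrArg (fun z => z.en i i) h
  simpa [MA.en_diag] using this

lemma iA_injective (hD : IsLim (tw C) jD) : Function.Injective (iA jD) := by
  intro x y h
  exact diag_injective (hD.inj 0 h)

theorem exists_iB (hB : IsLim (tw ℂ) jB) (hD : IsLim (tw C) jD) :
    ∃ iB : B →⋆ₐ[ℂ] D, ∀ n (b : MA (Ix n) ℂ), iB (jB n b) = jD n (MA.map (MA.sc C) b) := by
  obtain ⟨G, hG⟩ := hB.lift (fun n => (jD n).comp (MA.map (MA.sc C))) (fun n x => by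
    show jD (n + 1) (MA.map (MA.sc C) (tw ℂ n x)) = jD n (MA.map (MA.sc C) x)
    rw [← tw_map, hD.comp])
  exact ⟨G, fun n b => hG n b⟩

lemma diag_map_comm {I : Type} [Fintype I] [DecidableEq I] (x : C) (b : MA I ℂ) :
    MA.diag x * MA.map (MA.sc C) b = MA.map (MA.sc C) b * MA.diag x := by
  ext i j
  rw [MA.en_mul, MA.en_mul, Finset.sum_eq_single i, Finset.sum_eq_single j]
  · simp only [MA.en_diag, MA.en_map, if_true, MA.sc_apply]
    exact (Algebra.commutes _ _).symm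
  · intro k _ hk
    simp [MA.en_diag, hk]
  · simp
  · intro k _ hk
    simp [MA.en_diag, Ne.symm hk]
  · simp

lemma isLim_continuous {E : Type} [CStarAlgebra E] (f : B →⋆ₐ[ℂ] E) : Continuous f :=
  AddMonoidHomClass.continuous_of_bound f 1 (fun x => by simpa using norm_map_le' f x)

lemma iA_comm (hB : IsLim (tw ℂ) jB) (hD : IsLim (tw C) jD) (iB : B →⋆ₐ[ℂ] D)
    (hiB : ∀ n (b : MA (Ix n) ℂ), iB (jB n b) = jD n (MA.map (MA.sc C) b)) (x : C) (y : B) :
    iA jD x * iB y = iB y * iA jD x := by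
  have hc : IsClosed {y : B | iA jD x * iB y = iB y * iA jD x} :=
    isClosed_eq (continuous_const.mul (isLim_continuous iB))
      ((isLim_continuous iB).mul continuous_const)
  have : y ∈ closure {y : B | iA jD x * iB y = iB y * iA jD x} := by
    rw [Metric.mem_closure_iff]
    intro ε hε
    obtain ⟨n, b, hb⟩ := hB.dense y ε hε
    refine ⟨jB n b, ?_, by rwa [dist_eq_norm]⟩
    show iA jD x * iB (jB n b) = iB (jB n b) * iA jD x
    rw [hiB, iA_eq hD n, ← map_mul, diag_map_comm, map_mul]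
  rwa [hc.closure_eq] at this

/-- every element of `M_I(C)` as a tensor -/
def toTen {I : Type} [Fintype I] [DecidableEq I] (j : MA I ℂ →⋆ₐ[ℂ] B) (x : MA I C) :
    C ⊗[ℂ] B := ∑ i, ∑ k, x.en i k ⊗ₜ[ℂ] j (MA.unit i k)

lemma prodMap_toTen {I : Type} [Fintype I] [DecidableEq I] {E : Type} [CStarAlgebra E]
    (j : MA I ℂ →⋆ₐ[ℂ] B) (f : C →⋆ₐ[ℂ] E) (g : B →⋆ₐ[ℂ] E)
    (hc : ∀ x y, f x * g y = g y * f x) (x : MA I C) :
    prodMap f g (toTen j x) = MA.ofUnits f (g.comp j) (fun a b => hc a (j b)) x := by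
  unfold toTen
  simp only [map_sum, prodMap_tmul]
  rfl

lemma ofUnits_self {I : Type} [Fintype I] [DecidableEq I] (x : MA I C) :
    MA.ofUnits MA.diag (MA.map (MA.sc C)) diag_map_comm x = x := by
  rw [MA.ofUnits_apply]
  ext a b
  rw [MA.en_sum]
  simp only [MA.en_sum]
  have h1 : ∀ i k, ((MA.diag (x.en i k) : MA I C) * MA.map (MA.sc C) (MA.unit i k)).en a b =
      if a = i ∧ b = k then x.en i k else 0 := by
    intro i k
    rw [MA.en_mul, Finset.sum_eq_single a]
    · rw [MA.en_diag, if_pos rfl, MA.en_map, MA.en_unit]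
      split_ifs <;> simp [MA.sc_apply]
    · intro c _ hc
      simp [MA.en_diag, Ne.symm hc]
    · simp
  simp only [h1]
  rw [Finset.sum_eq_single a]
  · rw [Finset.sum_eq_single b]
    · simp
    · intro c _ hc
      simp [Ne.symm hc]
    · simp
  · intro c _ hc
    refine Finset.sum_eq_zero fun d _ => ?_
    simp [Ne.symm hc]
  · simp

lemma prodMap_toTen_D (hB : IsLim (tw ℂ) jB) (hD : IsLim (tw C) jD) (iB : B →⋆ₐ[ℂ] D)
    (hiB : ∀ n (b : MA (Ix n) ℂ), iB (jB n b) = jD n (MA.map (MA.sc C) b)) (n : ℕ)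
    (x : MA (Ix n) C) : prodMap (iA jD) iB (toTen (jB n) x) = jD n x := by
  unfold toTen
  simp only [map_sum, prodMap_tmul]
  conv_rhs => rw [← ofUnits_self x, MA.ofUnits_apply]
  simp only [map_sum, map_mul]
  refine Finset.sum_congr rfl fun i _ => Finset.sum_congr rfl fun k _ => ?_
  rw [hiB, iA_eq hD n]

lemma prodMap_norm_le {E : Type} [CStarAlgebra E] (f : C →⋆ₐ[ℂ] E) (g : B →⋆ₐ[ℂ] E)
    (a : C) (b : B) : ‖prodMap f g (a ⊗ₜ[ℂ] b)‖ ≤ ‖a‖ * ‖b‖ := by
  rw [prodMap_tmul]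
  exact (norm_mul_le _ _).trans (mul_le_mul (norm_map_le' f a) (norm_map_le' g b)
    (norm_nonneg _) (norm_nonneg _))

/-- approximation of tensors at a stage, uniformly in all products -/
lemma approx_ten (hB : IsLim (tw ℂ) jB) (x : C ⊗[ℂ] B) {ε : ℝ} (hε : 0 < ε) :
    ∃ N, ∀ n, N ≤ n → ∃ y : MA (Ix n) C, ∀ (E : Type) [CStarAlgebra E] (f : C →⋆ₐ[ℂ] E)
      (g : B →⋆ₐ[ℂ] E), ‖prodMap f g x - prodMap f g (toTen (jB n) y)‖ < ε := by
  induction x using TensorProduct.induction_on generalizing ε with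
  | zero =>
    refine ⟨0, fun n _ => ⟨0, fun E _ f g => ?_⟩⟩
    have : toTen (jB n) (0 : MA (Ix n) C) = 0 := by
      unfold toTen
      simp
    rw [this]
    simpa using hε
  | tmul a b =>
    have hpos : 0 < ε / (‖a‖ + 1) := by positivity
    obtain ⟨n₀, b₀, hb₀⟩ := hB.dense b _ hpos
    refine ⟨n₀, fun n hn => ?_⟩
    obtain ⟨b', hb'⟩ := hB.up hn b₀
    rw [← hb'] at hb₀
    refine ⟨MA.diag a * MA.map (MA.sc C) b', fun E _ f g => ?_⟩
    have h1 : toTen (jB n) (MA.diag a * MA.map (MA.sc C) b') = a ⊗ₜ[ℂ] jB n b' := by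
      unfold toTen
      conv_rhs => rw [MA.eq_sum_unit b']
      simp only [map_sum, TensorProduct.tmul_sum, map_smul, TensorProduct.tmul_smul]
      refine Finset.sum_congr rfl fun i _ => Finset.sum_congr rfl fun k _ => ?_
      have h2 : ((MA.diag a : MA (Ix n) C) * MA.map (MA.sc C) b').en i k = b'.en i k • a := by
        rw [MA.en_mul, Finset.sum_eq_single i]
        · rw [MA.en_diag, if_pos rfl, MA.en_map, MA.sc_apply, ← Algebra.commutes,
            Algebra.smul_def]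
        · intro c _ hc
          simp [MA.en_diag, Ne.symm hc]
        · simp
      rw [h2, TensorProduct.smul_tmul']
    rw [h1, ← map_sub, ← TensorProduct.tmul_sub]
    calc _ ≤ ‖a‖ * ‖b - jB n b'‖ := prodMap_norm_le f g _ _
      _ ≤ ‖a‖ * (ε / (‖a‖ + 1)) := by gcongr
      _ < ε := by
        rw [← mul_div_assoc, div_lt_iff₀ (by positivity)]
        nlinarith [norm_nonneg a]
  | add x y hx hy =>
    obtain ⟨N₁, h₁⟩ := hx (half_pos hε)
    obtain ⟨N₂, h₂⟩ := hy (half_pos hε)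
    refine ⟨max N₁ N₂, fun n hn => ?_⟩
    obtain ⟨u, hu⟩ := h₁ n ((le_max_left _ _).trans hn)
    obtain ⟨v, hv⟩ := h₂ n ((le_max_right _ _).trans hn)
    refine ⟨u + v, fun E _ f g => ?_⟩
    have h3 : toTen (jB n) (u + v) = toTen (jB n) u + toTen (jB n) v := by
      unfold toTen
      simp [TensorProduct.add_tmul, Finset.sum_add_distrib]
    rw [h3, map_add, map_add]
    calc _ = ‖(prodMap f g x - prodMap f g (toTen (jB n) u)) +
          (prodMap f g y - prodMap f g (toTen (jB n) v))‖ := by congr 1; abel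
      _ ≤ _ := norm_add_le _ _
      _ < ε := by linarith [hu E f g, hv E f g]

theorem isMinTensor (hB : IsLim (tw ℂ) jB) [IsSimpleRing B] (hD : IsLim (tw C) jD)
    (iB : B →⋆ₐ[ℂ] D)
    (hiB : ∀ n (b : MA (Ix n) ℂ), iB (jB n b) = jD n (MA.map (MA.sc C) b)) :
    IsMinTensor (iA jD) iB where
  normed := ⟨iA_comm hB hD iB hiB,
    prodMap_injective _ _ (iA_comm hB hD iB hiB) (iA_injective hD)⟩
  dense := by
    intro y
    rw [Metric.mem_closure_iff]
    intro ε hε
    obtain ⟨n, x, hx⟩ := hD.dense y ε hε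
    exact ⟨_, ⟨toTen (jB n) x, rfl⟩, by
      rw [dist_eq_norm, prodMap_toTen_D hB hD iB hiB]; exact hx⟩
  minimal := by
    intro E _ f' g' h x
    have hf' : Function.Injective f' := by
      rw [injective_iff_map_eq_zero]
      intro a ha
      have h1 : prodMap f' g' (a ⊗ₜ[ℂ] (1 : B)) = 0 := by
        rw [prodMap_tmul, ha, zero_mul]
      have h2 : a ⊗ₜ[ℂ] (1 : B) = 0 := h.injective (by rw [h1, map_zero])
      have h3 : prodMap (iA jD) iB (a ⊗ₜ[ℂ] (1 : B)) = 0 := by rw [h2, map_zero]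
      rw [prodMap_tmul, map_one, mul_one] at h3
      exact iA_injective hD (by rw [h3, map_zero])
    apply le_of_forall_pos_le_add
    intro ε hε
    obtain ⟨N, hN⟩ := approx_ten (C := C) hB x (half_pos hε)
    obtain ⟨y, hy⟩ := hN N le_rfl
    have e1 := hy D (iA jD) iB
    have e2 := hy E f' g'
    rw [prodMap_toTen_D hB hD iB hiB] at e1
    rw [prodMap_toTen (jB N) f' g' h.commute] at e2
    have e3 : ‖jD N y‖ = ‖y‖ := norm_map_inj _ (hD.inj N) y
    have e4 : ‖MA.ofUnits f' (g'.comp (jB N)) (fun a b => h.commute a (jB N b)) y‖ = ‖y‖ :=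
      norm_map_inj _ (MA.ofUnits_injective _ _ _ hf') y
    have e5 : ‖prodMap (iA jD) iB x‖ ≤ ‖jD N y‖ + ε / 2 := by
      have := norm_sub_norm_le (prodMap (iA jD) iB x) (jD N y)
      linarith
    have e6 : ‖MA.ofUnits f' (g'.comp (jB N)) (fun a b => h.commute a (jB N b)) y‖ ≤
        ‖prodMap f' g' x‖ + ε / 2 := by
      have := norm_sub_norm_le
        (MA.ofUnits f' (g'.comp (jB N)) (fun a b => h.commute a (jB N b)) y) (prodMap f' g' x)
      rw [norm_sub_rev] at this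
      linarith
    linarith

end

end Pool.Agent.H188R3
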