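import Mathlib
import Pool.Agent.H188R3.Tower

/-!
Stable finiteness of inductive limits; simplicity of the UHF algebra.
-/

set_option autoImplicit false
set_option linter.unusedSectionVars false

noncomputable section

namespace Pool.Agent.H188R3

instance instSFMA {I : Type} [Fintype I] [DecidableEq I] {C : Type} [CStarAlgebra C]
    [IsStablyFiniteRing C] : IsStablyFiniteRing (MA I C) :=
  inferInstanceAs (IsStablyFiniteRing (Matrix I I C))

theorem sf_of_injective {R S : Type} [Ring R] [Ring S] (f : R →+* S) (hf : Function.Injective f)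
    [IsStablyFiniteRing S] : IsStablyFiniteRing R := by
  refine ⟨fun n => ?_⟩
  refine IsDedekindFiniteMonoid.of_injective (RingHom.mapMatrix (m := Fin n) f) ?_
  intro x y h
  exact Matrix.map_injective hf h

lemma norm_unit_le {I : Type} [Fintype I] [DecidableEq I] (i j : I) :
    ‖(MA.unit i j : MA I ℂ)‖ ≤ 1 := by
  have h1 : ∀ k : I, ‖(MA.unit k k : MA I ℂ)‖ ≤ 1 := by
    intro k
    have h2 : ‖star (MA.unit k k : MA I ℂ) * MA.unit k k‖ = ‖(MA.unit k k : MA I ℂ)‖ := by
      rw [MA.star_unit, MA.unit_mul, if_pos rfl]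
    rw [CStarRing.norm_star_mul_self] at h2
    by_contra hc
    push Not at hc
    nlinarith
  have h3 : ‖star (MA.unit i j : MA I ℂ) * MA.unit i j‖ ≤ 1 := by
    rw [MA.star_unit, MA.unit_mul, if_pos rfl]
    exact h1 j
  rw [CStarRing.norm_star_mul_self] at h3
  by_contra hc
  push Not at hc
  nlinarith

lemma norm_le_sum {I : Type} [Fintype I] [DecidableEq I] {C : Type} [CStarAlgebra C]
    [Nontrivial C] (x : MA I C) :
    ‖x‖ ≤ ∑ i, ∑ j, ‖x.en i j‖ := by
  conv_lhs => rw [← ofUnits_self x, MA.ofUnits_apply]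
  refine (norm_sum_le _ _).trans (Finset.sum_le_sum fun i _ => ?_)
  refine (norm_sum_le _ _).trans (Finset.sum_le_sum fun j _ => ?_)
  refine (norm_mul_le _ _).trans ?_
  calc _ ≤ ‖x.en i j‖ * 1 := by
        gcongr
        · exact norm_map_le' _ _
        · exact (norm_map_le' _ _).trans (norm_unit_le i j)
    _ = _ := mul_one _

theorem IsLim.stablyFinite {A : ℕ → Type} [∀ n, CStarAlgebra (A n)] [∀ n, Nontrivial (A n)]
    {φ : ∀ n, A n →⋆ₐ[ℂ] A (n + 1)} {L : Type} [CStarAlgebra L] {j : ∀ n, A n →⋆ₐ[ℂ] L}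
    (h : IsLim φ j) [∀ n, IsStablyFiniteRing (A n)] : IsStablyFiniteRing L := by
  have _ : Nontrivial L := (h.inj 0).nontrivial
  refine ⟨fun k => ⟨fun {x₀ y₀} hxy₀ => ?_⟩⟩
  set x : MA (Fin k) L := x₀ with hx0
  set y : MA (Fin k) L := y₀ with hy0
  have hxy : x * y = 1 := hxy₀
  suffices hgoal : y * x = 1 from hgoal
  -- constants
  set c : ℝ := ‖(1 : MA (Fin k) L)‖ + 1 with hc
  have hc1 : 1 ≤ c := by rw [hc]; linarith [norm_nonneg (1 : MA (Fin k) L)]
  set K : ℝ := 2 * (‖x‖ + ‖y‖ + 1) + 2 * c * (‖y‖ + 1) + 1 with hK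
  have hK1 : 1 ≤ K := by
    rw [hK]
    have := norm_nonneg x
    have := norm_nonneg y
    nlinarith
  -- approximation
  have happ : ∀ (z : MA (Fin k) L) (ε : ℝ), 0 < ε → ∃ N, ∀ n, N ≤ n →
      ∃ z' : MA (Fin k) (A n), ‖z - MA.map (j n) z'‖ < ε := by
    intro z ε hε
    have hpos : 0 < ε / (k * k + 1) := by positivity
    obtain ⟨N, hN⟩ := h.approx_finset (Finset.univ : Finset (Fin k × Fin k))
      (fun p => z.en p.1 p.2) hpos
    refine ⟨N, fun n hn => ?_⟩
    obtain ⟨x', hx'⟩ := hN n hn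
    refine ⟨MA.of fun a b => x' (a, b), ?_⟩
    refine (norm_le_sum _).trans_lt ?_
    calc ∑ a, ∑ b, ‖(z - MA.map (j n) (MA.of fun a b => x' (a, b))).en a b‖
        ≤ ∑ _a : Fin k, ∑ _b : Fin k, ε / (k * k + 1) := by
          refine Finset.sum_le_sum fun a _ => Finset.sum_le_sum fun b _ => ?_
          exact (hx' (a, b) (Finset.mem_univ _)).le
      _ = (k * k) * (ε / (k * k + 1)) := by simp; ring
      _ < ε := by
          rw [← mul_div_assoc, div_lt_iff₀ (by positivity)]
          nlinarith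
  have hKpos : 0 < 1 / K := by positivity
  obtain ⟨N₁, hN₁⟩ := happ x (1 / K) hKpos
  obtain ⟨N₂, hN₂⟩ := happ y (1 / K) hKpos
  set n := max N₁ N₂ with hn
  obtain ⟨x', hx'⟩ := hN₁ n (le_max_left _ _)
  obtain ⟨y', hy'⟩ := hN₂ n (le_max_right _ _)
  have hK' : 1 / K ≤ 1 := by
    rw [div_le_one (by positivity)]; exact hK1
  set J : MA (Fin k) (A n) →⋆ₐ[ℂ] MA (Fin k) L := MA.map (j n) with hJ
  have hJi : Function.Injective J := by
    intro u v huv
    ext a b
    exact h.inj n (congrArg (fun z => z.en a b) huv)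
  have hJn : ∀ z, ‖J z‖ = ‖z‖ := fun z => norm_map_inj J hJi z
  have hy'n : ‖y'‖ ≤ ‖y‖ + 1 := by
    rw [← hJn]
    have := norm_sub_norm_le (J y') y
    rw [norm_sub_rev] at this
    linarith
  have h1 : ‖1 - x' * y'‖ ≤ 1 / 2 := by
    rw [← hJn, map_sub, map_one, map_mul, ← hxy]
    have e : x * y - J x' * J y' = (x - J x') * J y' + x * (y - J y') := by noncomm_ring
    rw [e]
    calc _ ≤ ‖x - J x'‖ * ‖J y'‖ + ‖x‖ * ‖y - J y'‖ :=
          (norm_add_le _ _).trans (add_le_add (norm_mul_le _ _) (norm_mul_le _ _))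
      _ ≤ (1 / K) * (‖y‖ + 1) + ‖x‖ * (1 / K) := by
          rw [hJn]
          gcongr
      _ = (‖x‖ + ‖y‖ + 1) / K := by ring
      _ ≤ 1 / 2 := by
          rw [div_le_div_iff₀ (by positivity) (by norm_num)]
          rw [hK]
          have := norm_nonneg y
          have : 0 ≤ 2 * c * (‖y‖ + 1) := by positivity
          linarith
  have hu : IsUnit (x' * y') := by
    have := isUnit_one_sub_of_norm_lt_one (show ‖1 - x' * y'‖ < 1 by linarith)
    simpa using this
  obtain ⟨u, hu⟩ := hu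
  set z : MA (Fin k) (A n) := (↑u⁻¹ : MA (Fin k) (A n)) with hz
  have hz1 : x' * y' * z = 1 := by rw [hz, ← hu]; exact u.mul_inv
  have h1n : ‖(1 : MA (Fin k) (A n))‖ ≤ c := by
    rw [← hJn, map_one, hc]; linarith
  have hzn : ‖z‖ ≤ 2 * c := by
    have e : z = 1 + (1 - x' * y') * z := by rw [sub_mul, hz1, one_mul]; abel
    have : ‖z‖ ≤ c + 1 / 2 * ‖z‖ := by
      calc ‖z‖ = ‖1 + (1 - x' * y') * z‖ := by rw [← e]
        _ ≤ ‖(1 : MA (Fin k) (A n))‖ + ‖1 - x' * y'‖ * ‖z‖ :=
          (norm_add_le _ _).trans (add_le_add le_rfl (norm_mul_le _ _))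
        _ ≤ c + 1 / 2 * ‖z‖ := by gcongr
    linarith
  have hw1 : x' * (y' * z) = 1 := by rw [← mul_assoc]; exact hz1
  have hw2 : (y' * z) * x' = 1 := by
    have hsf : IsStablyFiniteRing (A n) := inferInstance
    exact (hsf.isDedekindFiniteMonoid k).mul_eq_one_symm hw1
  have hwn : ‖y' * z‖ ≤ (‖y‖ + 1) * (2 * c) :=
    (norm_mul_le _ _).trans (mul_le_mul hy'n hzn (norm_nonneg _) (by positivity))
  have h2 : ‖1 - J (y' * z) * x‖ < 1 := by
    have e : 1 - J (y' * z) * x = J (y' * z) * (J x' - x) := by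
      rw [mul_sub, ← map_mul, hw2, map_one]
    rw [e]
    calc _ ≤ ‖J (y' * z)‖ * ‖J x' - x‖ := norm_mul_le _ _
      _ ≤ ((‖y‖ + 1) * (2 * c)) * (1 / K) := by
          rw [hJn, norm_sub_rev]
          gcongr
      _ = ((‖y‖ + 1) * (2 * c)) / K := by ring
      _ < 1 := by
          rw [div_lt_one (by positivity), hK]
          have := norm_nonneg x
          have := norm_nonneg y
          linarith
  have hu2 : IsUnit (J (y' * z) * x) := by
    have := isUnit_one_sub_of_norm_lt_one h2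
    simpa using this
  obtain ⟨v, hv⟩ := hu2
  have hleft : ((↑v⁻¹ : MA (Fin k) L) * J (y' * z)) * x = 1 := by
    rw [mul_assoc, ← hv]
    exact v.inv_mul
  have : (↑v⁻¹ : MA (Fin k) L) * J (y' * z) = y := by
    calc ((↑v⁻¹ : MA (Fin k) L) * J (y' * z))
        = ((↑v⁻¹ : MA (Fin k) L) * J (y' * z)) * (x * y) := by rw [hxy, mul_one]
      _ = y := by rw [← mul_assoc, hleft, one_mul]
  rw [← this]
  exact hleft

/-! ### simplicity -/

lemma diag_mem_of_mem {I : Type} [Fintype I] [DecidableEq I] {C : Type} [CStarAlgebra C]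
    (J : TwoSidedIdeal (MA I C)) {x : MA I C} (hx : x ∈ J) (a b : I) :
    (MA.diag (x.en a b) : MA I C) ∈ J := by
  have h : (MA.diag (x.en a b) : MA I C) = ∑ k : I, MA.map (MA.sc C) (MA.unit k a) * x *
      MA.map (MA.sc C) (MA.unit b k) := by
    ext p q
    rw [MA.en_sum]
    have h1 : ∀ k : I, (MA.map (MA.sc C) (MA.unit k a) * x *
        MA.map (MA.sc C) (MA.unit b k)).en p q = if p = k ∧ q = k then x.en a b else 0 := by
      intro k
      rw [MA.en_mul, Finset.sum_eq_single b]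
      · rw [MA.en_mul, Finset.sum_eq_single a]
        · simp only [MA.en_map, MA.en_unit]
          by_cases h1 : p = k <;> by_cases h2 : q = k <;> simp [h1, h2, MA.sc_apply]
        · intro c _ hc
          simp [MA.en_map, MA.en_unit, hc]
        · simp
      · intro c _ hc
        simp [MA.en_map, MA.en_unit, hc]
      · simp
    simp only [h1, MA.en_diag]
    by_cases h : p = q
    · subst h
      rw [Finset.sum_eq_single p]
      · simp
      · intro c _ hc
        simp [Ne.symm hc]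
      · simp
    · rw [if_neg h]
      symm
      refine Finset.sum_eq_zero fun k _ => ?_
      rw [if_neg]
      rintro ⟨rfl, rfl⟩
      exact h rfl
  rw [h]
  refine sum_mem fun k _ => ?_
  exact J.mul_mem_right _ _ (J.mul_mem_left _ _ hx)

lemma eq_top_of_one {R : Type} [Ring R] (J : TwoSidedIdeal R) (h : (1 : R) ∈ J) : J = ⊤ :=
  (TwoSidedIdeal.one_mem_iff J).1 h

lemma full_scalar {I : Type} [Fintype I] [DecidableEq I] (J : TwoSidedIdeal (MA I ℂ))
    {x : MA I ℂ} (hx : x ∈ J) (hx0 : x ≠ 0) : J = ⊤ := by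
  have : ∃ a b, x.en a b ≠ 0 := by
    by_contra hcon
    push Not at hcon
    exact hx0 (MA.ext fun a b => by rw [hcon a b, MA.en_zero])
  obtain ⟨a, b, hab⟩ := this
  apply eq_top_of_one
  have h1 := diag_mem_of_mem J hx a b
  have h2 := J.mul_mem_left (MA.diag ((x.en a b)⁻¹)) _ h1
  rw [← map_mul, inv_mul_cancel₀ hab, map_one] at h2
  exact h2

theorem uhf_simple {B : Type} [CStarAlgebra B] {jB : ∀ n, MA (Ix n) ℂ →⋆ₐ[ℂ] B}
    (hB : IsLim (tw ℂ) jB) [Nontrivial B] : IsSimpleRing B := by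
  refine hB.simple fun n x hx => ⟨n, le_rfl, fun J hJ => ?_⟩
  rw [trans_self] at hJ
  exact full_scalar J hJ hx

end Pool.Agent.H188R3
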