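import Mathlib
import Pool.Agent.H188R3.Finite

/-!
Central unitaries with `α(u) = -u` give Rokhlin projections in the tensor product with `M_{2^∞}`.
-/

set_option autoImplicit false
set_option linter.unusedSectionVars false

noncomputable section

open scoped TensorProduct

namespace Pool.Agent.H188R3

/-- the action of `ℤˣ = {1, -1}` given by an automorphism of order two -/
def act {A : Type} [CStarAlgebra A] (α : A ≃⋆ₐ[ℂ] A) (h : α * α = 1) : ℤˣ →* (A ≃⋆ₐ[ℂ] A) where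
  toFun u := if u = 1 then 1 else α
  map_one' := if_pos rfl
  map_mul' u v := by
    rcases Int.units_eq_one_or u with rfl | rfl
    · rw [one_mul, if_pos rfl, one_mul]
    · rcases Int.units_eq_one_or v with rfl | rfl
      · rw [mul_one]
        simp
      · have h1 : (-1 : ℤˣ) * -1 = 1 := by decide
        have h2 : (-1 : ℤˣ) ≠ 1 := by decide
        rw [h1, if_pos rfl, if_neg h2, h]

lemma act_one {A : Type} [CStarAlgebra A] (α : A ≃⋆ₐ[ℂ] A) (h : α * α = 1) (a : A) :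
    act α h 1 a = a := by
  rw [map_one]; rfl

lemma act_neg {A : Type} [CStarAlgebra A] (α : A ≃⋆ₐ[ℂ] A) (h : α * α = 1) (a : A) :
    act α h (-1) a = α a := by
  have h2 : (-1 : ℤˣ) ≠ 1 := by decide
  show (if (-1 : ℤˣ) = 1 then (1 : A ≃⋆ₐ[ℂ] A) else α) a = α a
  rw [if_neg h2]

/-- there are approximately central unitaries `u` with `α(u) = -u` -/
def FlipCentral {A : Type} [CStarAlgebra A] (α : A ≃⋆ₐ[ℂ] A) : Prop :=
  ∀ (F : Finset A) (ε : ℝ), 0 < ε → ∃ u : A, star u * u = 1 ∧ u * star u = 1 ∧ α u = -u ∧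
    ∀ a ∈ F, ‖u * a - a * u‖ < ε

/-- `1 ⊗ σ_x` -/
def sX (I : Type) [Fintype I] [DecidableEq I] : MA (I × Bool) ℂ :=
  MA.of fun p q => if p.1 = q.1 ∧ p.2 ≠ q.2 then 1 else 0

/-- `1 ⊗ σ_z` -/
def sZ (I : Type) [Fintype I] [DecidableEq I] : MA (I × Bool) ℂ :=
  MA.of fun p q => if p = q then (if p.2 then 1 else -1) else 0

section

variable {I : Type} [Fintype I] [DecidableEq I]

lemma sX_sa : star (sX I) = sX I := by
  ext p q
  simp only [MA.en_star, sX, MA.en_of]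
  by_cases h1 : p.1 = q.1
  · by_cases h2 : p.2 = q.2
    · simp [h1, h2]
    · simp [h1, h2, Ne.symm h2]
  · simp [h1, Ne.symm h1]

lemma sZ_sa : star (sZ I) = sZ I := by
  ext p q
  simp only [MA.en_star, sZ, MA.en_of]
  by_cases h1 : p = q
  · subst h1
    cases p.2 <;> simp
  · simp [h1, Ne.symm h1]

lemma en_sX (p q : I × Bool) :
    (sX I).en p q = if p.1 = q.1 ∧ p.2 ≠ q.2 then 1 else 0 := rfl

lemma en_sZ (p q : I × Bool) :
    (sZ I).en p q = if p = q then (if p.2 then 1 else -1) else 0 := rfl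

lemma sX_sq : sX I * sX I = 1 := by
  ext ⟨i, a⟩ ⟨j, b⟩
  rw [MA.en_mul, Fintype.sum_prod_type, Finset.sum_eq_single i]
  · simp only [en_sX, MA.en_one]
    cases a <;> cases b <;> by_cases h : i = j <;> simp [h]
  · intro k _ hk
    simp [en_sX, Ne.symm hk]
  · simp

lemma sZ_sq : sZ I * sZ I = 1 := by
  ext p q
  rw [MA.en_mul, Finset.sum_eq_single p]
  · simp only [en_sZ, MA.en_one]
    by_cases h : p = q
    · subst h
      cases p.2 <;> simp
    · simp [h]
  · intro k _ hk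
    simp [en_sZ, Ne.symm hk]
  · simp

lemma sXZ : sX I * sZ I = - (sZ I * sX I) := by
  ext ⟨i, a⟩ ⟨j, b⟩
  rw [MA.en_neg, MA.en_mul, MA.en_mul, Finset.sum_eq_single (j, b), Finset.sum_eq_single (i, a)]
  · simp only [en_sX, en_sZ]
    cases a <;> cases b <;> by_cases h : i = j <;> simp [h]
  · intro k _ hk
    simp [en_sZ, Ne.symm hk]
  · simp
  · intro k _ hk
    simp [en_sZ, hk]
  · simp

lemma sX_amp {C : Type} [CStarAlgebra C] (x : MA I C) :
    MA.map (MA.sc C) (sX I) * MA.amp x = MA.amp x * MA.map (MA.sc C) (sX I) := by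
  ext ⟨i, a⟩ ⟨j, b⟩
  rw [MA.en_mul, MA.en_mul, Finset.sum_eq_single (i, !a), Finset.sum_eq_single (j, !b)]
  · simp only [en_sX, MA.en_amp, MA.en_map]
    cases a <;> cases b <;> simp
  · rintro ⟨k, c⟩ _ hk
    simp only [en_sX, MA.en_amp, MA.en_map]
    by_cases h : k = j
    · subst h
      cases b <;> cases c <;> simp_all
    · simp [h]
  · simp
  · rintro ⟨k, c⟩ _ hk
    simp only [en_sX, MA.en_amp, MA.en_map]
    by_cases h : i = k
    · subst h
      cases a <;> cases c <;> simp_all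
    · simp [h]
  · simp

lemma sZ_amp {C : Type} [CStarAlgebra C] (x : MA I C) :
    MA.map (MA.sc C) (sZ I) * MA.amp x = MA.amp x * MA.map (MA.sc C) (sZ I) := by
  ext ⟨i, a⟩ ⟨j, b⟩
  rw [MA.en_mul, MA.en_mul, Finset.sum_eq_single (i, a), Finset.sum_eq_single (j, b)]
  · simp only [en_sZ, MA.en_amp, MA.en_map]
    cases a <;> cases b <;> simp
  · rintro ⟨k, c⟩ _ hk
    simp [en_sZ, MA.en_map, hk]
  · simp
  · rintro ⟨k, c⟩ _ hk
    simp [en_sZ, MA.en_map, Ne.symm hk]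
  · simp

end

section

variable {C : Type} [CStarAlgebra C] [Nontrivial C]
variable {B : Type} [CStarAlgebra B] {jB : ∀ n, MA (Ix n) ℂ →⋆ₐ[ℂ] B}
variable {D : Type} [CStarAlgebra D] {jD : ∀ n, MA (Ix n) C →⋆ₐ[ℂ] D}

theorem exists_tensor_aut (hD : IsLim (tw C) jD) (α : C ≃⋆ₐ[ℂ] C) (hα : α * α = 1) :
    ∃ γ : D ≃⋆ₐ[ℂ] D, γ * γ = 1 ∧
      ∀ n x, γ (jD n x) = jD n (MA.map (α : C →⋆ₐ[ℂ] C) x) := by
  obtain ⟨G, hG⟩ := hD.lift (fun n => (jD n).comp (MA.map (α : C →⋆ₐ[ℂ] C))) (fun n x => by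
    show jD (n + 1) (MA.map (α : C →⋆ₐ[ℂ] C) (tw C n x)) = jD n (MA.map (α : C →⋆ₐ[ℂ] C) x)
    rw [← tw_map, hD.comp])
  have hG' : ∀ n x, G (jD n x) = jD n (MA.map (α : C →⋆ₐ[ℂ] C) x) := fun n x => hG n x
  have hαα : ∀ c, α (α c) = c := fun c => by
    have := DFunLike.congr_fun hα c
    exact this
  have hGG : G.comp G = StarAlgHom.id ℂ D := by
    refine hD.hom_ext fun n x => ?_
    show G (G (jD n x)) = jD n x
    rw [hG', hG']
    congr 1
    ext i j
    show α (α (x.en i j)) = x.en i j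
    exact hαα _
  have hGG' : ∀ y, G (G y) = y := fun y => DFunLike.congr_fun hGG y
  refine ⟨StarAlgEquiv.ofBijective G ⟨fun x y h => ?_, fun y => ⟨G y, hGG' y⟩⟩, ?_, ?_⟩
  · rw [← hGG' x, ← hGG' y, h]
  · apply StarAlgEquiv.ext
    intro y
    exact hGG' y
  · intro n x
    exact hG' n x

/-- algebra: the flip element -/
lemma flip_sq {E : Type} [Ring E] (c s X Z : E) (hcX : c * X = X * c) (hcZ : c * Z = Z * c)
    (hsX : s * X = X * s) (hsZ : s * Z = Z * s) (hcs : c * s = s * c) (hXX : X * X = 1)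
    (hZZ : Z * Z = 1) (hXZ : X * Z = -(Z * X)) (h1 : c * c + s * s = 1) :
    (c * X + s * Z) * (c * X + s * Z) = 1 := by
  have e1 : c * X * (c * X) = c * c := by
    rw [mul_assoc, ← mul_assoc X c X, ← hcX, mul_assoc, hXX, mul_one]
  have e2 : s * Z * (s * Z) = s * s := by
    rw [mul_assoc, ← mul_assoc Z s Z, ← hsZ, mul_assoc, hZZ, mul_one]
  have e3 : c * X * (s * Z) = c * s * (X * Z) := by
    rw [mul_assoc, ← mul_assoc X s Z, ← hsX]
    simp only [mul_assoc]
  have e4 : s * Z * (c * X) = c * s * (Z * X) := by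
    rw [mul_assoc, ← mul_assoc Z c X, ← hcZ, hcs]
    simp only [mul_assoc]
  calc _ = c * X * (c * X) + s * Z * (s * Z) + (c * X * (s * Z) + s * Z * (c * X)) := by
        noncomm_ring
    _ = c * c + s * s + (c * s * (X * Z) + c * s * (Z * X)) := by rw [e1, e2, e3, e4]
    _ = 1 := by rw [h1, hXZ]; noncomm_ring

end

end Pool.Agent.H188R3
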