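import Mathlib
import Pool.Agent.H188R3.Rok
import Pool.Agent.H188R3.CentralProj2

/-!
Central unitaries with `α(u) = -u` give Rokhlin projections in the tensor product with `M_{2^∞}`.
-/

set_option autoImplicit false
set_option linter.unusedSectionVars false

noncomputable section

open scoped TensorProduct

namespace Pool.Agent.H188R3

variable {C : Type} [CStarAlgebra C] [Nontrivial C]
variable {B : Type} [CStarAlgebra B] {jB : ∀ n, MA (Ix n) ℂ →⋆ₐ[ℂ] B}
variable {D : Type} [CStarAlgebra D] {jD : ∀ n, MA (Ix n) C →⋆ₐ[ℂ] D}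

/-- `1 ⊗ σ_x` at stage `n + 1` -/
def sX' (n : ℕ) : MA (Ix (n + 1)) ℂ := (sX (Ix n) : MA (Ix n × Bool) ℂ)

/-- `1 ⊗ σ_z` at stage `n + 1` -/
def sZ' (n : ℕ) : MA (Ix (n + 1)) ℂ := (sZ (Ix n) : MA (Ix n × Bool) ℂ)

lemma sX'_sa (n : ℕ) : star (sX' n) = sX' n := sX_sa (I := Ix n)
lemma sZ'_sa (n : ℕ) : star (sZ' n) = sZ' n := sZ_sa (I := Ix n)
lemma sX'_sq (n : ℕ) : sX' n * sX' n = 1 := sX_sq (I := Ix n)
lemma sZ'_sq (n : ℕ) : sZ' n * sZ' n = 1 := sZ_sq (I := Ix n)
lemma sXZ' (n : ℕ) : sX' n * sZ' n = -(sZ' n * sX' n) := sXZ (I := Ix n)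
lemma sX'_tw (n : ℕ) (y : MA (Ix n) C) :
    MA.map (MA.sc C) (sX' n) * tw C n y = tw C n y * MA.map (MA.sc C) (sX' n) := sX_amp y
lemma sZ'_tw (n : ℕ) (y : MA (Ix n) C) :
    MA.map (MA.sc C) (sZ' n) * tw C n y = tw C n y * MA.map (MA.sc C) (sZ' n) := sZ_amp y

lemma comm_unitary_le {E : Type} [CStarAlgebra E] {u d : E} (h1 : star u * u = 1)
    (h2 : u * star u = 1) : ‖star u * d - d * star u‖ ≤ ‖u * d - d * u‖ := by
  have hn : ‖star u‖ ≤ 1 := by
    rcases subsingleton_or_nontrivial E with hE | hE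
    · rw [Subsingleton.elim (star u) 0]; simp
    · have h3 : ‖star u * u‖ = 1 := by rw [h1]; exact norm_one
      rw [CStarRing.norm_star_mul_self] at h3
      rw [norm_star]
      nlinarith [norm_nonneg u]
  have e : star u * d - d * star u = star u * (-(u * d - d * u)) * star u := by
    have : star u * (-(u * d - d * u)) * star u =
        star u * d * (u * star u) - (star u * u) * d * star u := by noncomm_ring
    rw [this, h1, h2, mul_one, one_mul]
  rw [e]
  calc _ ≤ ‖star u * (-(u * d - d * u))‖ * ‖star u‖ := norm_mul_le _ _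
    _ ≤ (‖star u‖ * ‖-(u * d - d * u)‖) * ‖star u‖ := by gcongr; exact norm_mul_le _ _
    _ ≤ (1 * ‖-(u * d - d * u)‖) * 1 := by gcongr
    _ = ‖u * d - d * u‖ := by rw [norm_neg]; ring

lemma norm_sq_one_le {E : Type} [CStarAlgebra E] {X : E} (h1 : star X = X)
    (h2 : X * X = 1) : ‖X‖ ≤ 1 := by
  rcases subsingleton_or_nontrivial E with hE | hE
  · rw [Subsingleton.elim X 0]; simp
  · have h3 : ‖star X * X‖ = 1 := by rw [h1, h2]; exact norm_one
    rw [CStarRing.norm_star_mul_self] at h3
    nlinarith [norm_nonneg X]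

theorem rokhlin_of_flip (hB : IsLim (tw ℂ) jB) (hD : IsLim (tw C) jD) (iB : B →⋆ₐ[ℂ] D)
    (hiB : ∀ n (b : MA (Ix n) ℂ), iB (jB n b) = jD n (MA.map (MA.sc C) b))
    (α : C ≃⋆ₐ[ℂ] C) (hflip : FlipCentral α) (γ : D ≃⋆ₐ[ℂ] D) (hγ2 : γ * γ = 1)
    (hγ : ∀ n x, γ (jD n x) = jD n (MA.map (α : C →⋆ₐ[ℂ] C) x)) : Rokhlin (act γ hγ2) := by
  classical
  have _ : Nontrivial D := (hD.inj 0).nontrivial
  intro F ε hε
  obtain ⟨n, hn⟩ := hD.approx_finset F (fun d => d) (show 0 < ε / 8 by positivity)
  obtain ⟨x, hx⟩ := hn n le_rfl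
  -- the entries
  set S : Finset C := F.biUnion fun d => Finset.univ.image
    fun p : Ix n × Ix n => (x d).en p.1 p.2 with hS
  set m : ℝ := (Fintype.card (Ix n) : ℝ) with hm
  have hm0 : 0 ≤ m := by rw [hm]; positivity
  obtain ⟨u, hu1, hu2, hαu, hu⟩ := hflip S (ε / (4 * (m * m + 1))) (by positivity)
  set U : D := iA jD u with hU
  have hU1 : star U * U = 1 := by rw [hU, ← map_star, ← map_mul, hu1, map_one]
  have hU2 : U * star U = 1 := by rw [hU, ← map_star, ← map_mul, hu2, map_one]
  have hUd : ∀ d ∈ F, ‖U * jD n (x d) - jD n (x d) * U‖ ≤ ε / 4 := by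
    intro d hd
    rw [hU, iA_eq hD n, ← map_mul, ← map_mul, ← map_sub, norm_map_inj _ (hD.inj n)]
    refine (norm_le_sum _).trans ?_
    have h1 : ∀ i k, ‖(MA.diag u * x d - x d * MA.diag u).en i k‖ ≤
        ε / (4 * (m * m + 1)) := by
      intro i k
      have h2 : (MA.diag u * x d - x d * MA.diag u).en i k =
          u * (x d).en i k - (x d).en i k * u := by
        rw [MA.en_sub, MA.en_mul, MA.en_mul, Finset.sum_eq_single i, Finset.sum_eq_single k]
        · simp [MA.en_diag]
        · intro l _ hl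
          simp [MA.en_diag, hl]
        · simp
        · intro l _ hl
          simp [MA.en_diag, Ne.symm hl]
        · simp
      rw [h2]
      refine (hu _ ?_).le
      rw [hS, Finset.mem_biUnion]
      exact ⟨d, hd, Finset.mem_image.2 ⟨(i, k), Finset.mem_univ _, rfl⟩⟩
    calc _ ≤ ∑ _i : Ix n, ∑ _k : Ix n, ε / (4 * (m * m + 1)) :=
          Finset.sum_le_sum fun i _ => Finset.sum_le_sum fun k _ => h1 i k
      _ = m * m * (ε / (4 * (m * m + 1))) := by
          simp only [Finset.sum_const, Finset.card_univ, nsmul_eq_mul]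
          ring
      _ ≤ ε / 4 := by
          rw [← mul_div_assoc, div_le_div_iff₀ (by positivity) (by norm_num)]
          nlinarith
  -- the elements
  set c : D := (1 / 2 : ℂ) • (U + star U) with hc
  set s : D := (-Complex.I / 2 : ℂ) • (U - star U) with hs
  set X : D := jD (n + 1) (MA.map (MA.sc C) (sX' n)) with hX
  set Z : D := jD (n + 1) (MA.map (MA.sc C) (sZ' n)) with hZ
  have hXB : X = iB (jB (n + 1) (sX' n)) := by rw [hiB, hX]
  have hZB : Z = iB (jB (n + 1) (sZ' n)) := by rw [hiB, hZ]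
  have hXs : star X = X := by rw [hXB, ← map_star, ← map_star, sX'_sa]
  have hZs : star Z = Z := by rw [hZB, ← map_star, ← map_star, sZ'_sa]
  have hXX : X * X = 1 := by
    rw [hXB, ← map_mul, ← map_mul, sX'_sq, map_one, map_one]
  have hZZ : Z * Z = 1 := by
    rw [hZB, ← map_mul, ← map_mul, sZ'_sq, map_one, map_one]
  have hXZ : X * Z = -(Z * X) := by
    rw [hXB, hZB, ← map_mul, ← map_mul, ← map_mul, ← map_mul, sXZ', map_neg, map_neg]
  have hXd : ∀ y : MA (Ix n) C, X * jD n y = jD n y * X := by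
    intro y
    rw [hX, ← hD.comp n y, ← map_mul, ← map_mul, sX'_tw]
  have hZd : ∀ y : MA (Ix n) C, Z * jD n y = jD n y * Z := by
    intro y
    rw [hZ, ← hD.comp n y, ← map_mul, ← map_mul, sZ'_tw]
  have hUX : U * X = X * U := by rw [hU, hXB]; exact iA_comm hB hD iB hiB _ _
  have hUZ : U * Z = Z * U := by rw [hU, hZB]; exact iA_comm hB hD iB hiB _ _
  have hUX' : star U * X = X * star U := by
    have := congrArg star hUX
    rw [star_mul, star_mul, hXs] at this
    exact this.symm
  have hUZ' : star U * Z = Z * star U := by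
    have := congrArg star hUZ
    rw [star_mul, star_mul, hZs] at this
    exact this.symm
  have hcX : c * X = X * c := by
    rw [hc, smul_mul_assoc, mul_smul_comm, add_mul, mul_add, hUX, hUX']
  have hcZ : c * Z = Z * c := by
    rw [hc, smul_mul_assoc, mul_smul_comm, add_mul, mul_add, hUZ, hUZ']
  have hsX : s * X = X * s := by
    rw [hs, smul_mul_assoc, mul_smul_comm, sub_mul, mul_sub, hUX, hUX']
  have hsZ : s * Z = Z * s := by
    rw [hs, smul_mul_assoc, mul_smul_comm, sub_mul, mul_sub, hUZ, hUZ']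
  have hcs : c * s = s * c := by
    rw [hc, hs, smul_mul_smul_comm, smul_mul_smul_comm, mul_comm (1 / 2 : ℂ)]
    congr 1
    have e1 : (U + star U) * (U - star U) = U * U - U * star U + star U * U - star U * star U := by
      noncomm_ring
    have e2 : (U - star U) * (U + star U) = U * U + U * star U - star U * U - star U * star U := by
      noncomm_ring
    rw [e1, e2, hU1, hU2]
    abel
  have hcs1 : c * c + s * s = 1 := by
    rw [hc, hs, smul_mul_smul_comm, smul_mul_smul_comm]
    have hI : (-Complex.I / 2 : ℂ) * (-Complex.I / 2) = -(1 / 4) := by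
      have := Complex.I_mul_I
      linear_combination (1 / 4 : ℂ) * this
    have hQ : (1 / 2 : ℂ) * (1 / 2) = 1 / 4 := by norm_num
    rw [hI, hQ, neg_smul, ← sub_eq_add_neg, ← smul_sub]
    have e1 : (U + star U) * (U + star U) - (U - star U) * (U - star U) =
        (2 : ℂ) • (U * star U) + (2 : ℂ) • (star U * U) := by
      rw [two_smul, two_smul]
      noncomm_ring
    rw [e1, hU1, hU2, ← add_smul, smul_smul]
    norm_num
  have hcst : star c = c := by
    rw [hc, star_smul, star_add, star_star, add_comm]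
    congr 1
    simp
  have hsst : star s = s := by
    rw [hs, star_smul, star_sub, star_star]
    have : star (-Complex.I / 2 : ℂ) = -(-Complex.I / 2) := by
      simp
      ring
    rw [this, neg_smul, ← smul_neg, neg_sub]
  set w : D := c * X + s * Z with hw
  have hww : w * w = 1 := flip_sq c s X Z hcX hcZ hsX hsZ hcs hXX hZZ hXZ hcs1
  have hws : star w = w := by
    rw [hw, star_add, star_mul, star_mul, hcst, hsst, hXs, hZs, hcX, hsZ]
  have hγU : γ U = -U := by
    rw [hU]
    show γ (jD 0 (MA.diag u)) = -(jD 0 (MA.diag u))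
    rw [hγ, ← map_neg]
    congr 1
    ext i j
    simp only [MA.en_map, MA.en_neg, MA.en_diag]
    split_ifs
    · exact hαu
    · simp
  have hγX : γ X = X := by
    rw [hX, hγ]
    congr 1
    ext i j
    simp only [MA.en_map, MA.sc_apply]
    exact AlgHomClass.commutes (α : C →⋆ₐ[ℂ] C) _
  have hγZ : γ Z = Z := by
    rw [hZ, hγ]
    congr 1
    ext i j
    simp only [MA.en_map, MA.sc_apply]
    exact AlgHomClass.commutes (α : C →⋆ₐ[ℂ] C) _
  have hγc : γ c = -c := by
    rw [hc, map_smul, map_add, map_star, hγU, star_neg, ← neg_add, smul_neg]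
  have hγs : γ s = -s := by
    rw [hs, map_smul, map_sub, map_star, hγU, star_neg, ← smul_neg]
    congr 1
    abel
  have hγw : γ w = -w := by
    rw [hw, map_add, map_mul, map_mul, hγc, hγs, hγX, hγZ]
    noncomm_ring
  have hXn : ‖X‖ ≤ 1 := norm_sq_one_le hXs hXX
  have hZn : ‖Z‖ ≤ 1 := norm_sq_one_le hZs hZZ
  have hwd : ∀ d ∈ F, ‖w * jD n (x d) - jD n (x d) * w‖ ≤ ε / 2 := by
    intro d hd
    set y := jD n (x d) with hy
    have h1 := hUd d hd
    have h2 := (comm_unitary_le (d := y) hU1 hU2).trans h1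
    have h3 : ‖c * y - y * c‖ ≤ ε / 4 := by
      have e : c * y - y * c = (1 / 2 : ℂ) • ((U * y - y * U) + (star U * y - y * star U)) := by
        rw [hc, smul_mul_assoc, mul_smul_comm, ← smul_sub]
        congr 1
        noncomm_ring
      rw [e, norm_smul]
      have : ‖(1 / 2 : ℂ)‖ = 1 / 2 := by simp
      rw [this]
      have := norm_add_le (U * y - y * U) (star U * y - y * star U)
      linarith
    have h4 : ‖s * y - y * s‖ ≤ ε / 4 := by
      have e : s * y - y * s =
          (-Complex.I / 2 : ℂ) • ((U * y - y * U) - (star U * y - y * star U)) := by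
        rw [hs, smul_mul_assoc, mul_smul_comm, ← smul_sub]
        congr 1
        noncomm_ring
      rw [e, norm_smul]
      have : ‖(-Complex.I / 2 : ℂ)‖ = 1 / 2 := by simp
      rw [this]
      have := norm_sub_le (U * y - y * U) (star U * y - y * star U)
      linarith
    have e : w * y - y * w = (c * y - y * c) * X + (s * y - y * s) * Z := by
      have e1 : w * y = c * (X * y) + s * (Z * y) := by rw [hw]; noncomm_ring
      rw [e1, hXd, hZd, hw]
      noncomm_ring
    rw [e]
    calc _ ≤ ‖c * y - y * c‖ * ‖X‖ + ‖s * y - y * s‖ * ‖Z‖ :=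
          (norm_add_le _ _).trans (add_le_add (norm_mul_le _ _) (norm_mul_le _ _))
      _ ≤ (ε / 4) * 1 + (ε / 4) * 1 := by gcongr
      _ = ε / 2 := by ring
  -- the projections
  set p : D := (1 / 2 : ℂ) • (1 + w) with hp
  set q : D := (1 / 2 : ℂ) • (1 - w) with hq
  have hhalf : star (1 / 2 : ℂ) = 1 / 2 := by simp
  have hpp : IsStarProjection p := by
    refine ⟨?_, ?_⟩
    · show p * p = p
      rw [hp, smul_mul_smul_comm]
      have e : (1 + w) * (1 + w) = (2 : ℂ) • (1 + w) := by
        have : (1 + w) * (1 + w) = 1 + w + w + w * w := by noncomm_ring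
        rw [this, hww, two_smul]
        abel
      rw [e, smul_smul]
      norm_num
    · show star p = p
      rw [hp, star_smul, hhalf, star_add, star_one, hws]
  have hqq : IsStarProjection q := by
    refine ⟨?_, ?_⟩
    · show q * q = q
      rw [hq, smul_mul_smul_comm]
      have e : (1 - w) * (1 - w) = (2 : ℂ) • (1 - w) := by
        have : (1 - w) * (1 - w) = 1 - w - w + w * w := by noncomm_ring
        rw [this, hww, two_smul]
        abel
      rw [e, smul_smul]
      norm_num
    · show star q = q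
      rw [hq, star_smul, hhalf, star_sub, star_one, hws]
  have hpq : p * q = 0 := by
    rw [hp, hq, smul_mul_smul_comm]
    have : (1 + w) * (1 - w) = 1 - w * w := by noncomm_ring
    rw [this, hww, sub_self, smul_zero]
  have hqp : q * p = 0 := by
    rw [hp, hq, smul_mul_smul_comm]
    have : (1 - w) * (1 + w) = 1 - w * w := by noncomm_ring
    rw [this, hww, sub_self, smul_zero]
  have hadd : p + q = 1 := by
    rw [hp, hq, ← smul_add]
    have : (1 + w) + (1 - w) = (2 : ℂ) • (1 : D) := by rw [two_smul]; abel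
    rw [this, smul_smul]
    norm_num
  have hγp : γ p = q := by rw [hp, hq, map_smul, map_add, map_one, hγw, ← sub_eq_add_neg]
  have hγq : γ q = p := by rw [hp, hq, map_smul, map_sub, map_one, hγw, sub_neg_eq_add]
  have hpn : ‖p‖ ≤ 1 := norm_proj_le_one hpp.isSelfAdjoint hpp.isIdempotentElem
  have hqn : ‖q‖ ≤ 1 := norm_proj_le_one hqq.isSelfAdjoint hqq.isIdempotentElem
  have hpd : ∀ d ∈ F, ‖p * d - d * p‖ < ε ∧ ‖q * d - d * q‖ < ε := by
    intro d hd
    set y := jD n (x d) with hy
    have h1 := hwd d hd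
    have h2 : ‖d - y‖ < ε / 8 := hx d hd
    have e1 : p * y - y * p = (1 / 2 : ℂ) • (w * y - y * w) := by
      rw [hp, smul_mul_assoc, mul_smul_comm, ← smul_sub]
      congr 1
      noncomm_ring
    have e2 : q * y - y * q = (-(1 / 2) : ℂ) • (w * y - y * w) := by
      rw [hq, smul_mul_assoc, mul_smul_comm, ← smul_sub, neg_smul, ← smul_neg]
      congr 1
      noncomm_ring
    have h3 : ‖p * y - y * p‖ ≤ ε / 4 := by
      rw [e1, norm_smul]
      have : ‖(1 / 2 : ℂ)‖ = 1 / 2 := by simp
      rw [this]; linarith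
    have h4 : ‖q * y - y * q‖ ≤ ε / 4 := by
      rw [e2, norm_smul]
      have : ‖(-(1 / 2) : ℂ)‖ = 1 / 2 := by simp
      rw [this]; linarith
    have gen : ∀ r : D, ‖r‖ ≤ 1 → ‖r * y - y * r‖ ≤ ε / 4 → ‖r * d - d * r‖ < ε := by
      intro r hr hry
      have e : r * d - d * r = (r * y - y * r) + (r * (d - y) - (d - y) * r) := by noncomm_ring
      rw [e]
      calc _ ≤ ‖r * y - y * r‖ + (‖r‖ * ‖d - y‖ + ‖d - y‖ * ‖r‖) :=
            (norm_add_le _ _).trans (add_le_add le_rfl ((norm_sub_le _ _).trans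
              (add_le_add (norm_mul_le _ _) (norm_mul_le _ _))))
        _ ≤ ε / 4 + (1 * (ε / 8) + (ε / 8) * 1) := by gcongr
        _ < ε := by linarith
    exact ⟨gen p hpn h3, gen q hqn h4⟩
  have hne : (-1 : ℤˣ) ≠ 1 := by decide
  set e : ℤˣ → D := fun k => if k = 1 then p else q with he
  have he1 : e 1 = p := if_pos rfl
  have he2 : e (-1) = q := if_neg hne
  refine ⟨e, ?_, ?_, ?_, ?_, ?_⟩
  · intro k
    rcases Int.units_eq_one_or k with rfl | rfl
    · rw [he1]; exact hpp
    · rw [he2]; exact hqq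
  · intro k l hkl
    rcases Int.units_eq_one_or k with rfl | rfl <;> rcases Int.units_eq_one_or l with rfl | rfl
    · exact absurd rfl hkl
    · rw [he1, he2]; exact hpq
    · rw [he1, he2]; exact hqp
    · exact absurd rfl hkl
  · intro k l
    have h1 : (-1 : ℤˣ) * -1 = 1 := by decide
    rcases Int.units_eq_one_or k with rfl | rfl <;> rcases Int.units_eq_one_or l with rfl | rfl
    · rw [act_one, one_mul, sub_self, norm_zero]; exact hε
    · rw [act_one, one_mul, sub_self, norm_zero]; exact hε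
    · rw [act_neg, mul_one, he1, he2, hγp, sub_self, norm_zero]; exact hε
    · rw [act_neg, h1, he1, he2, hγq, sub_self, norm_zero]; exact hε
  · intro k a ha
    rcases Int.units_eq_one_or k with rfl | rfl
    · rw [he1]; exact (hpd a ha).1
    · rw [he2]; exact (hpd a ha).2
  · have : (Finset.univ : Finset ℤˣ) = {1, -1} := by decide
    rw [this, Finset.sum_pair hne.symm, he1, he2, hadd]

end Pool.Agent.H188R3
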