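import Mathlib
import Pool.Agent.H188R3.Rok2

/-!
Inductive systems with central unitaries flipped by an automorphism of order two.
-/

set_option autoImplicit false
set_option linter.unusedSectionVars false

noncomputable section

open scoped TensorProduct

namespace Pool.Agent.H188R3

/-- a flip system -/
structure FlipSys {A : ℕ → Type} [∀ n, CStarAlgebra (A n)] (φ : ∀ n, A n →⋆ₐ[ℂ] A (n + 1))
    (σ : ∀ n, A n →⋆ₐ[ℂ] A n) : Prop where
  inj : ∀ n, Function.Injective (φ n)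
  comm : ∀ n x, σ (n + 1) (φ n x) = φ n (σ n x)
  invol : ∀ n x, σ n (σ n x) = x
  flip : ∀ n, ∃ u : A n, star u * u = 1 ∧ u * star u = 1 ∧ (∀ x, u * x = x * u) ∧ σ n u = -u
  full : ∀ n (x : A n), x ≠ 0 → ∃ m, n ≤ m ∧ ∀ I : TwoSidedIdeal (A m),
    trans φ n m x ∈ I → I = ⊤
  sf : ∀ n, IsStablyFiniteRing (A n)

section

variable {A : ℕ → Type} [∀ n, CStarAlgebra (A n)] [∀ n, Nontrivial (A n)]
  {φ : ∀ n, A n →⋆ₐ[ℂ] A (n + 1)} {σ : ∀ n, A n →⋆ₐ[ℂ] A n}

theorem FlipSys.lim (h : FlipSys φ σ) : ∃ (C : Type) (_ : CStarAlgebra C)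
    (j : ∀ n, A n →⋆ₐ[ℂ] C) (α : C ≃⋆ₐ[ℂ] C), IsLim φ j ∧ Nontrivial C ∧ IsSimpleRing C ∧
      IsStablyFiniteRing C ∧ α * α = 1 ∧ (∀ n x, α (j n x) = j n (σ n x)) ∧ FlipCentral α := by
  obtain ⟨C, _, j, hj⟩ := exists_lim φ h.inj
  have hC : Nontrivial C := (hj.inj 0).nontrivial
  have hsf : ∀ n, IsStablyFiniteRing (A n) := h.sf
  obtain ⟨G, hG⟩ := hj.lift (fun n => (j n).comp (σ n)) (fun n x => by
    show j (n + 1) (σ (n + 1) (φ n x)) = j n (σ n x)
    rw [h.comm, hj.comp])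
  have hG' : ∀ n x, G (j n x) = j n (σ n x) := fun n x => hG n x
  have hGG : G.comp G = StarAlgHom.id ℂ C := by
    refine hj.hom_ext fun n x => ?_
    show G (G (j n x)) = j n x
    rw [hG', hG', h.invol]
  have hGG' : ∀ y, G (G y) = y := fun y => DFunLike.congr_fun hGG y
  refine ⟨C, inferInstance, j, StarAlgEquiv.ofBijective G
    ⟨fun x y h => ?_, fun y => ⟨G y, hGG' y⟩⟩, hj, hC, hj.simple h.full, hj.stablyFinite,
    ?_, ?_, ?_⟩
  · rw [← hGG' x, ← hGG' y, h]
  · apply StarAlgEquiv.ext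
    intro y
    exact hGG' y
  · intro n x
    exact hG' n x
  · intro F ε hε
    obtain ⟨n, hn⟩ := hj.approx_finset F (fun d => d) (show 0 < ε / 4 by positivity)
    obtain ⟨x, hx⟩ := hn n le_rfl
    obtain ⟨u, hu1, hu2, hu3, hu4⟩ := h.flip n
    have h1 : star (j n u) * j n u = 1 := by rw [← map_star, ← map_mul, hu1, map_one]
    have h2 : j n u * star (j n u) = 1 := by rw [← map_star, ← map_mul, hu2, map_one]
    have hun : ‖j n u‖ ≤ 1 := by
      have h3 : ‖star (j n u) * j n u‖ = 1 := by rw [h1]; exact norm_one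
      rw [CStarRing.norm_star_mul_self] at h3
      nlinarith [norm_nonneg (j n u)]
    refine ⟨j n u, h1, h2, ?_, ?_⟩
    · show G (j n u) = -j n u
      rw [hG', hu4, map_neg]
    · intro a ha
      have h3 := hx a ha
      have e : j n u * a - a * j n u = j n u * (a - j n (x a)) - (a - j n (x a)) * j n u := by
        have : j n u * j n (x a) = j n (x a) * j n u := by rw [← map_mul, hu3, map_mul]
        rw [mul_sub, sub_mul, this]
        abel
      rw [e]
      calc _ ≤ ‖j n u‖ * ‖a - j n (x a)‖ + ‖a - j n (x a)‖ * ‖j n u‖ :=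
            (norm_sub_le _ _).trans (add_le_add (norm_mul_le _ _) (norm_mul_le _ _))
        _ ≤ 1 * (ε / 4) + (ε / 4) * 1 := by gcongr
        _ < ε := by linarith

end

lemma stablyFinite_of (D : Type) [CStarAlgebra D] [h : IsStablyFiniteRing D] : StablyFinite D := by
  intro n v hv
  exact (h.isDedekindFiniteMonoid n).mul_eq_one_symm hv

theorem main_of_flip {C : Type} [CStarAlgebra C] [Nontrivial C] [IsStablyFiniteRing C]
    (α : C ≃⋆ₐ[ℂ] C) (hα : α * α = 1) (hflip : FlipCentral α) :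
    ∃ (B D : Type) (_ : CStarAlgebra B) (_ : CStarAlgebra D) (f : C →⋆ₐ[ℂ] D) (g : B →⋆ₐ[ℂ] D)
      (γ : ℤˣ × Unit →* (D ≃⋆ₐ[ℂ] D)),
      IsSimpleRing B ∧ IsMinTensor f g ∧ StablyFinite D ∧
      IsTensorAction f g (act α hα) (1 : Unit →* (B ≃⋆ₐ[ℂ] B)) γ ∧ Rokhlin γ := by
  obtain ⟨B, _, jB, hB⟩ := exists_lim (tw ℂ) (tw_injective ℂ)
  obtain ⟨D, _, jD, hD⟩ := exists_lim (tw C) (tw_injective C)
  have _ : Nontrivial B := (hB.inj 0).nontrivial
  have _ : Nontrivial D := (hD.inj 0).nontrivial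
  have hBs : IsSimpleRing B := uhf_simple hB
  have hDs : IsStablyFiniteRing D := hD.stablyFinite
  obtain ⟨iB, hiB⟩ := exists_iB hB hD
  obtain ⟨γ, hγ2, hγ⟩ := exists_tensor_aut hD α hα
  have hR := rokhlin_of_flip hB hD iB hiB α hflip γ hγ2 hγ
  refine ⟨B, D, inferInstance, inferInstance, iA jD, iB,
    (act γ hγ2).comp (MonoidHom.fst ℤˣ Unit), hBs, isMinTensor hB hD iB hiB,
    stablyFinite_of D, ?_, ?_⟩
  · -- the action
    have h1 : ∀ a, γ (iA jD a) = iA jD (α a) := by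
      intro a
      show γ (jD 0 (MA.diag a)) = jD 0 (MA.diag (α a))
      rw [hγ]
      congr 1
    have h2 : (γ : D →⋆ₐ[ℂ] D).comp iB = iB := by
      refine hB.hom_ext fun n b => ?_
      show γ (iB (jB n b)) = iB (jB n b)
      rw [hiB, hγ]
      congr 1
      ext i k
      simp only [MA.en_map, MA.sc_apply]
      exact AlgHomClass.commutes (α : C →⋆ₐ[ℂ] C) _
    have h3 : ∀ b, γ (iB b) = iB b := fun b => DFunLike.congr_fun h2 b
    intro s t a b
    show act γ hγ2 s (iA jD a * iB b) = iA jD (act α hα s a) * iB b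
    rcases Int.units_eq_one_or s with rfl | rfl
    · rw [act_one, act_one]
    · rw [act_neg, act_neg, map_mul, h1, h3]
  · intro F ε hε
    obtain ⟨e, he1, he2, he3, he4, he5⟩ := hR F ε hε
    refine ⟨fun k => e k.1, fun k => he1 k.1, ?_, ?_, fun k => he4 k.1, ?_⟩
    · rintro ⟨k, a⟩ ⟨l, b⟩ hkl
      exact he2 k l fun h => hkl (by rw [h])
    · rintro ⟨k, a⟩ ⟨l, b⟩
      exact he3 k l
    · rw [Fintype.sum_prod_type, ← he5]
      refine Finset.sum_congr rfl fun k _ => ?_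
      simp

end Pool.Agent.H188R3
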