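import Mathlib
import Pool.Agent.H188R3.Abs

/-!
Block diagonal maps between matrix algebras.
-/

set_option autoImplicit false
set_option linter.unusedSectionVars false
set_option linter.unusedSimpArgs false

noncomputable section

namespace Pool.Agent.H188R3

variable {I R : Type} [Fintype I] [DecidableEq I] [Fintype R] [DecidableEq R]
variable {C C' : Type} [CStarAlgebra C] [CStarAlgebra C']

/-- `x ↦ ⊕_r θ_r(x)` -/
def bdiag (θ : R → (C →⋆ₐ[ℂ] C')) : MA I C →⋆ₐ[ℂ] MA (I × R) C' where
  toFun x := MA.of fun p q => if p.2 = q.2 then θ p.2 (x.en p.1 q.1) else 0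
  map_one' := by
    ext p q
    simp only [MA.en_of, MA.en_one]
    by_cases h : p.2 = q.2
    · by_cases h' : p.1 = q.1
      · simp [h, h', Prod.ext h' h]
      · have : p ≠ q := fun e => h' (by rw [e])
        simp [h, h', this]
    · have : p ≠ q := fun e => h (by rw [e])
      simp [h, this]
  map_mul' x y := by
    ext p q
    simp only [MA.en_of, MA.en_mul]
    rw [Fintype.sum_prod_type]
    by_cases h : p.2 = q.2
    · rw [if_pos h, map_sum]
      refine Finset.sum_congr rfl fun k _ => ?_
      rw [Finset.sum_eq_single p.2]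
      · simp [h]
      · intro b _ hb
        simp [Ne.symm hb]
      · simp
    · rw [if_neg h]
      symm
      refine Finset.sum_eq_zero fun k _ => Finset.sum_eq_zero fun b _ => ?_
      by_cases hb : p.2 = b
      · subst hb
        simp [h]
      · simp [hb]
  map_zero' := by
    ext i j
    simp
  map_add' x y := by
    ext i j
    simp only [MA.en_of, MA.en_add]
    split_ifs <;> simp
  commutes' c := by
    ext p q
    simp only [MA.en_of, MA.en_algebraMap]
    by_cases h : p.2 = q.2
    · by_cases h' : p.1 = q.1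
      · simp only [h, h', Prod.ext h' h, if_true]
        exact AlgHomClass.commutes _ _
      · have : p ≠ q := fun e => h' (by rw [e])
        simp [h, h', this]
    · have : p ≠ q := fun e => h (by rw [e])
      simp [h, this]
  map_star' x := by
    ext i j
    simp only [MA.en_of, MA.en_star]
    by_cases h : i.2 = j.2
    · simp [h, map_star]
    · simp [h, Ne.symm h]

lemma en_bdiag (θ : R → (C →⋆ₐ[ℂ] C')) (x : MA I C) (p q : I × R) :
    (bdiag θ x).en p q = if p.2 = q.2 then θ p.2 (x.en p.1 q.1) else 0 := rfl

lemma bdiag_injective (θ : R → (C →⋆ₐ[ℂ] C')) (r : R) (hr : Function.Injective (θ r)) :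
    Function.Injective (bdiag θ : MA I C →⋆ₐ[ℂ] MA (I × R) C') := by
  intro x y h
  ext i j
  have := congrArg (fun z => z.en (i, r) (j, r)) h
  simp only [en_bdiag, if_true] at this
  exact hr this

lemma bdiag_map (θ : R → (C →⋆ₐ[ℂ] C')) (g : C →⋆ₐ[ℂ] C) (g' : C' →⋆ₐ[ℂ] C')
    (h : ∀ r x, θ r (g x) = g' (θ r x)) (x : MA I C) :
    bdiag θ (MA.map g x) = MA.map g' (bdiag θ x) := by
  ext p q
  simp only [en_bdiag, MA.en_map]
  split_ifs
  · exact h _ _
  · simp

end Pool.Agent.H188R3
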