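import Mathlib
import Pool.Agent.H188R3.BDiag

/-!
The inductive system of circle algebras.
-/

set_option autoImplicit false
set_option linter.unusedSectionVars false
set_option linter.unusedSimpArgs false

noncomputable section

namespace Pool.Agent.H188R3

/-- index sets of odd size -/
def Kx : ℕ → Type
  | 0 => Unit
  | n + 1 => Kx n × Fin (2 * n + 1)

instance instFintypeKx : ∀ n, Fintype (Kx n)
  | 0 => inferInstanceAs (Fintype Unit)
  | n + 1 => letI := instFintypeKx n; inferInstanceAs (Fintype (Kx n × Fin (2 * n + 1)))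

instance instDecEqKx : ∀ n, DecidableEq (Kx n)
  | 0 => inferInstanceAs (DecidableEq Unit)
  | n + 1 => letI := instDecEqKx n; inferInstanceAs (DecidableEq (Kx n × Fin (2 * n + 1)))

instance instNonemptyKx : ∀ n, Nonempty (Kx n)
  | 0 => inferInstanceAs (Nonempty Unit)
  | n + 1 => letI := instNonemptyKx n; inferInstanceAs (Nonempty (Kx n × Fin (2 * n + 1)))

lemma card_Kx_odd : ∀ n, Odd (Fintype.card (Kx n))
  | 0 => by
    show Odd (Fintype.card Unit)
    simp
  | n + 1 => by
    show Odd (Fintype.card (Kx n × Fin (2 * n + 1)))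
    rw [Fintype.card_prod, Fintype.card_fin]
    exact (card_Kx_odd n).mul (odd_two_mul_add_one n)

/-- continuous functions on the circle -/
abbrev CC : Type := C(Circle, ℂ)

/-- rotation -/
def rot (c : Circle) : CC →⋆ₐ[ℂ] CC :=
  ContinuousMap.compStarAlgHom' ℂ ℂ ⟨fun z => c * z, by fun_prop⟩

lemma rot_apply (c z : Circle) (f : CC) : rot c f z = f (c * z) := rfl

/-- a dense sequence of points of the circle starting with `1` -/
def cr : ℕ → Circle
  | 0 => 1
  | n + 1 => TopologicalSpace.denseSeq Circle n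

lemma rot_inj (c : Circle) : Function.Injective (rot c) := by
  intro f g h
  ext z
  have := DFunLike.congr_fun h (c⁻¹ * z)
  rw [rot_apply, rot_apply, mul_inv_cancel_left] at this
  exact this

/-- the connecting maps -/
def cphi (n : ℕ) : MA (Kx n) CC →⋆ₐ[ℂ] MA (Kx (n + 1)) CC :=
  (bdiag (fun r : Fin (2 * n + 1) => rot (cr r)) :
    MA (Kx n) CC →⋆ₐ[ℂ] MA (Kx n × Fin (2 * n + 1)) CC)

/-- the automorphisms -/
def csig (n : ℕ) : MA (Kx n) CC →⋆ₐ[ℂ] MA (Kx n) CC := MA.map (rot (-1))

lemma top_of_cover {X I R : Type} [TopologicalSpace X] [CompactSpace X] [Fintype I]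
    [DecidableEq I] [Fintype R] (J : TwoSidedIdeal (MA I C(X, ℂ))) (h : R → C(X, ℂ))
    (hmem : ∀ r, (MA.diag (h r) : MA I C(X, ℂ)) ∈ J) (hne : ∀ z, ∃ r, h r z ≠ 0) : J = ⊤ := by
  apply eq_top_of_one
  set g : C(X, ℂ) := ∑ r, star (h r) * h r with hg
  have h1 : (MA.diag g : MA I C(X, ℂ)) ∈ J := by
    rw [hg, map_sum]
    refine sum_mem fun r _ => ?_
    rw [map_mul]
    exact J.mul_mem_left _ _ (hmem r)
  have h2 : ∀ z, g z ≠ 0 := by
    intro z
    obtain ⟨r, hr⟩ := hne z
    have h3 : g z = ((∑ r, Complex.normSq (h r z) : ℝ) : ℂ) := by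
      rw [hg, ContinuousMap.sum_apply]
      push_cast
      refine Finset.sum_congr rfl fun r _ => ?_
      show star (h r z) * h r z = _
      exact (Complex.normSq_eq_conj_mul_self).symm
    rw [h3]
    have h4 : 0 < ∑ r, Complex.normSq (h r z) :=
      Finset.sum_pos' (fun r _ => Complex.normSq_nonneg _)
        ⟨r, Finset.mem_univ _, Complex.normSq_pos.2 hr⟩
    exact_mod_cast h4.ne'
  obtain ⟨u, hu⟩ := (ContinuousMap.isUnit_iff_forall_ne_zero g).2 h2
  have h5 := J.mul_mem_left (MA.diag (↑u⁻¹ : C(X, ℂ))) _ h1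
  rw [← map_mul, ← hu, u.inv_mul, map_one] at h5
  exact h5

lemma cover_circle (V : Set Circle) (hV : IsOpen V) (hne : V.Nonempty) :
    ∃ N, ∀ z, ∃ r < N, cr r * z ∈ V := by
  have h1 : ∀ r, IsOpen {z | cr r * z ∈ V} := fun r => hV.preimage (by fun_prop)
  have h2 : (Set.univ : Set Circle) ⊆ ⋃ r, {z | cr r * z ∈ V} := by
    intro z _
    have h3 : IsOpen {c | c * z ∈ V} := hV.preimage (by fun_prop)
    have h4 : {c | c * z ∈ V}.Nonempty := by
      obtain ⟨v, hv⟩ := hne
      exact ⟨v * z⁻¹, by simpa using hv⟩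
    obtain ⟨n, hn⟩ := (TopologicalSpace.denseRange_denseSeq Circle).exists_mem_open h3 h4
    rw [Set.mem_iUnion]
    exact ⟨n + 1, hn⟩
  obtain ⟨t, ht⟩ := isCompact_univ.elim_finite_subcover _ h1 h2
  refine ⟨t.sup id + 1, fun z => ?_⟩
  have h3 := ht (Set.mem_univ z)
  simp only [Set.mem_iUnion] at h3
  obtain ⟨r, hr, hz⟩ := h3
  exact ⟨r, Nat.lt_succ_of_le (Finset.le_sup (f := id) hr), hz⟩

lemma trans_en (n : ℕ) (x : MA (Kx n) CC) (a b : Kx n) {m : ℕ} (h : n ≤ m) :
    ∃ a' b' : Kx m, (trans cphi n m x).en a' b' = x.en a b := by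
  induction m, h using Nat.le_induction with
  | base => exact ⟨a, b, by rw [trans_self]⟩
  | succ m hm ih =>
    obtain ⟨a', b', hab⟩ := ih
    refine ⟨(a', (0 : Fin (2 * m + 1))), (b', (0 : Fin (2 * m + 1))), ?_⟩
    rw [trans_succ cphi hm]
    show (if (0 : Fin (2 * m + 1)) = 0 then rot (cr ((0 : Fin (2 * m + 1)) : ℕ))
      ((trans cphi n m x).en a' b') else 0) = x.en a b
    rw [if_pos rfl, hab]
    ext z
    rw [rot_apply]
    show x.en a b (1 * z) = x.en a b z
    rw [one_mul]

theorem circ_full (n : ℕ) (x : MA (Kx n) CC) (hx : x ≠ 0) : ∃ m, n ≤ m ∧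
    ∀ I : TwoSidedIdeal (MA (Kx m) CC), trans cphi n m x ∈ I → I = ⊤ := by
  have h1 : ∃ a b z, x.en a b z ≠ 0 := by
    by_contra hcon
    push Not at hcon
    exact hx (MA.ext fun a b => by ext z; rw [hcon a b z]; rfl)
  obtain ⟨a, b, z, hz⟩ := h1
  obtain ⟨N, hN⟩ := cover_circle {w | x.en a b w ≠ 0}
    (isOpen_ne.preimage (x.en a b).continuous) ⟨z, hz⟩
  set m := max n N with hm
  have hnm : n ≤ m := le_max_left _ _
  obtain ⟨a', b', hab⟩ := trans_en n x a b hnm
  refine ⟨m + 1, by omega, fun I hI => ?_⟩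
  refine top_of_cover (R := Fin (2 * m + 1)) I (fun r => rot (cr r) (x.en a b)) ?_ ?_
  · intro r
    have h2 := diag_mem_of_mem (I := Kx (m + 1)) I hI (a', r) (b', r)
    rw [trans_succ cphi hnm] at h2
    have h3 : (cphi m (trans cphi n m x)).en (a', r) (b', r) = rot (cr r) (x.en a b) := by
      show (if r = r then rot (cr (r : ℕ)) ((trans cphi n m x).en a' b') else 0) = _
      rw [if_pos rfl, hab]
    rw [h3] at h2
    exact h2
  · intro w
    obtain ⟨r, hr, hw⟩ := hN w
    have : r < 2 * m + 1 := by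
      have := le_max_right n N
      omega
    exact ⟨⟨r, this⟩, hw⟩

/-- the coordinate function -/
def zf : CC := ⟨fun z => (z : ℂ), by fun_prop⟩

instance : IsStablyFiniteRing CC := inferInstance

theorem circ_flip : FlipSys cphi csig where
  inj n := bdiag_injective _ (0 : Fin (2 * n + 1)) (rot_inj _)
  comm n x := by
    refine (bdiag_map (fun r : Fin (2 * n + 1) => rot (cr r)) (rot (-1)) (rot (-1)) ?_ x).symm
    intro r f
    ext z
    simp only [rot_apply]
    congr 1
    exact mul_left_comm _ _ _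
  invol n x := by
    ext a b z
    show (x.en a b) ((-1) * ((-1) * z)) = x.en a b z
    rw [neg_one_mul, neg_one_mul, neg_neg]
  flip n := by
    have h1 : star zf * zf = 1 := by
      ext z
      show star (z : ℂ) * (z : ℂ) = 1
      have := Complex.normSq_eq_conj_mul_self (z := (z : ℂ))
      rw [Circle.normSq_coe] at this
      simpa using this.symm
    refine ⟨MA.diag zf, ?_, ?_, ?_, ?_⟩
    · rw [← map_star, ← map_mul, h1, map_one]
    · rw [← map_star, ← map_mul, mul_comm, h1, map_one]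
    · intro x
      ext a b
      rw [MA.en_mul, MA.en_mul, Finset.sum_eq_single a, Finset.sum_eq_single b]
      · rw [MA.en_diag, MA.en_diag, if_pos rfl, if_pos rfl, mul_comm]
      · intro c _ hc
        simp [MA.en_diag, hc]
      · simp
      · intro c _ hc
        simp [MA.en_diag, Ne.symm hc]
      · simp
    · ext a b z
      show rot (-1) ((MA.diag zf : MA (Kx n) CC).en a b) z = (-(MA.diag zf : MA (Kx n) CC)).en a b z
      rw [MA.en_neg, MA.en_diag, rot_apply]
      split_ifs
      · show (((-1) * z : Circle) : ℂ) = -(z : ℂ)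
        rw [neg_one_mul]
        rfl
      · simp
  full := circ_full
  sf n := inferInstance

end Pool.Agent.H188R3
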