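import Mathlib
import Pool.Agent.H188R3.Circ

/-!
The rotation by `-1` on the limit of circle algebras of odd size does not have the Rokhlin property.
-/

set_option autoImplicit false
set_option linter.unusedSectionVars false
set_option linter.unusedSimpArgs false

noncomputable section

namespace Pool.Agent.H188R3

section

variable {I : Type} [Fintype I] [DecidableEq I]

/-- as a matrix -/
def toMat (x : MA I ℂ) : Matrix I I ℂ := Matrix.of fun i k => x.en i k

lemma toMat_mul (x y : MA I ℂ) : toMat (x * y) = toMat x * toMat y := by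
  ext i k
  simp [toMat, Matrix.mul_apply, MA.en_mul]

lemma toMat_one : toMat (1 : MA I ℂ) = 1 := by
  ext i k
  simp [toMat, Matrix.one_apply, MA.en_one]

lemma det_ne_of_mul_isUnit {x y : MA I ℂ} (h : IsUnit (x * y)) : (toMat x).det ≠ 0 := by
  obtain ⟨u, hu⟩ := h
  have h1 : toMat x * (toMat y * toMat (↑u⁻¹ : MA I ℂ)) = 1 := by
    rw [← mul_assoc, ← toMat_mul, ← toMat_mul, ← hu, u.mul_inv, toMat_one]
  intro h0
  have h2 := congrArg Matrix.det h1
  rw [Matrix.det_mul, h0, zero_mul, Matrix.det_one] at h2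
  exact zero_ne_one h2

/-- evaluation -/
def ev (z : Circle) : MA I CC →⋆ₐ[ℂ] MA I ℂ := MA.map (ContinuousMap.evalStarAlgHom ℂ ℂ z)

lemma en_ev (z : Circle) (x : MA I CC) (i k : I) : (ev z x).en i k = x.en i k z := rfl

lemma det_im_eq_zero {x : MA I ℂ} (h : star x = x) : (toMat x).det.im = 0 := by
  have h1 : (toMat x).conjTranspose = toMat x := by
    ext i k
    have := congrArg (fun z => z.en i k) h
    exact this
  have h2 := Matrix.det_conjTranspose (toMat x)
  rw [h1] at h2
  exact Complex.conj_eq_iff_im.1 h2.symm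

theorem det_key (hI : Odd (Fintype.card I)) (y : MA I CC) (h1 : star y = y)
    (h2 : ‖y * y - 1‖ ≤ 1 / 7) (h3 : ‖y + MA.map (rot (-1)) y‖ ≤ 3 / 8) (h4 : ‖y‖ ≤ 17 / 16) :
    False := by
  -- the path of matrices
  set M : Circle × unitInterval → MA I ℂ := fun p =>
    ev p.1 y - ((p.2 : ℝ) : ℂ) • (ev p.1 (y + MA.map (rot (-1)) y)) with hM
  have hMu : ∀ p, (toMat (M p)).det ≠ 0 := by
    intro p
    apply det_ne_of_mul_isUnit (y := ev p.1 y)
    have e : M p * ev p.1 y = 1 - (-(ev p.1 (y * y - 1)) +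
        ((p.2 : ℝ) : ℂ) • (ev p.1 (y + MA.map (rot (-1)) y) * ev p.1 y)) := by
      rw [hM]
      simp only
      rw [sub_mul, smul_mul_assoc, map_sub, map_mul, map_one]
      abel
    rw [e]
    apply isUnit_one_sub_of_norm_lt_one
    have h5 : ‖ev p.1 (y * y - 1)‖ ≤ 1 / 7 := (norm_map_le' _ _).trans h2
    have h6 : ‖ev p.1 (y + MA.map (rot (-1)) y)‖ ≤ 3 / 8 := (norm_map_le' _ _).trans h3
    have h7 : ‖ev p.1 y‖ ≤ 17 / 16 := (norm_map_le' _ _).trans h4
    have h8 : ‖((p.2 : ℝ) : ℂ)‖ ≤ 1 := by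
      rw [Complex.norm_real, Real.norm_eq_abs, abs_of_nonneg p.2.2.1]
      exact p.2.2.2
    calc _ ≤ ‖-(ev p.1 (y * y - 1))‖ +
          ‖((p.2 : ℝ) : ℂ) • (ev p.1 (y + MA.map (rot (-1)) y) * ev p.1 y)‖ := norm_add_le _ _
      _ ≤ 1 / 7 + 1 * ((3 / 8) * (17 / 16)) := by
          rw [norm_neg, norm_smul]
          gcongr
          exact (norm_mul_le _ _).trans (mul_le_mul h6 h7 (norm_nonneg _) (by norm_num))
      _ < 1 := by norm_num
  have hMs : ∀ p, star (M p) = M p := by
    intro p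
    rw [hM]
    simp only
    rw [star_sub, star_smul, ← map_star, ← map_star, star_add, ← map_star, h1]
    congr 2
    exact Complex.conj_ofReal _
  have hre : ∀ p, (toMat (M p)).det.re ≠ 0 := by
    intro p h
    apply hMu p
    exact Complex.ext h (det_im_eq_zero (hMs p))
  have hcont : Continuous fun p => (toMat (M p)).det.re := by
    refine Complex.continuous_re.comp (Continuous.matrix_det ?_)
    refine continuous_matrix fun i k => ?_
    show Continuous fun p : Circle × unitInterval =>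
      y.en i k p.1 - ((p.2 : ℝ) : ℂ) * (y.en i k p.1 + y.en i k ((-1) * p.1))
    fun_prop
  have hA : (toMat (M (1, 0))).det.re = (toMat (ev 1 y)).det.re := by
    have : M (1, 0) = ev 1 y := by
      rw [hM]
      simp
    rw [this]
  have hB : (toMat (M (-1, 1))).det.re = -(toMat (ev 1 y)).det.re := by
    have : toMat (M (-1, 1)) = -toMat (ev 1 y) := by
      ext i k
      show y.en i k (-1) - (((1 : unitInterval) : ℝ) : ℂ) *
        (y.en i k (-1) + y.en i k ((-1) * (-1))) = -(y.en i k 1)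
      have e : ((-1 : Circle) * (-1)) = 1 := by rw [neg_one_mul, neg_neg]
      rw [e]
      simp
    rw [this, Matrix.det_neg, hI.neg_one_pow, neg_one_mul, Complex.neg_re]
  set d := (toMat (ev 1 y)).det.re with hd
  have hd0 : d ≠ 0 := by
    rw [← hA]
    exact hre _
  have hzero : (0 : ℝ) ∈ Set.range fun p => (toMat (M p)).det.re := by
    rcases lt_or_gt_of_ne hd0 with h | h
    · exact mem_range_of_exists_le_of_exists_ge hcont ⟨(1, 0), by rw [hA]; exact h.le⟩
        ⟨(-1, 1), by rw [hB]; linarith⟩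
    · exact mem_range_of_exists_le_of_exists_ge hcont ⟨(-1, 1), by rw [hB]; linarith⟩
        ⟨(1, 0), by rw [hA]; exact h.le⟩
  obtain ⟨p, hp⟩ := hzero
  exact hre p hp

end

theorem circ_not_rokhlin {L : Type} [CStarAlgebra L] {j : ∀ n, MA (Kx n) CC →⋆ₐ[ℂ] L}
    (h : IsLim cphi j) (α : L ≃⋆ₐ[ℂ] L) (hα : α * α = 1)
    (hj : ∀ n x, α (j n x) = j n (csig n x)) : ¬ Rokhlin (act α hα) := by
  intro hR
  have _ : Nontrivial L := (h.inj 0).nontrivial
  obtain ⟨e, he1, he2, he3, -, he5⟩ := hR ∅ (1 / 8) (by norm_num)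
  have huniv : (Finset.univ : Finset ℤˣ) = {1, -1} := by decide
  have hne : (1 : ℤˣ) ≠ -1 := by decide
  rw [huniv, Finset.sum_pair hne] at he5
  have h1 : ‖α (e 1) - e (-1)‖ < 1 / 8 := by
    have := he3 (-1) 1
    rwa [act_neg, mul_one] at this
  set p := e 1 with hp
  have hpp : p * p = p := (he1 1).isIdempotentElem
  have hps : star p = p := (he1 1).isSelfAdjoint
  have hq : e (-1) = 1 - p := by rw [← he5]; abel
  rw [hq] at h1
  set v : L := (2 : ℂ) • p - 1 with hv
  have hvv : v * v = 1 := by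
    have e1 : v * v = (4 : ℂ) • (p * p) - (4 : ℂ) • p + 1 := by
      rw [hv, sub_mul, mul_sub, smul_mul_smul_comm, mul_one, one_mul]
      have : (2 : ℂ) * 2 = 4 := by norm_num
      rw [this, show (4 : ℂ) • p = (2 : ℂ) • p + (2 : ℂ) • p by rw [← add_smul]; norm_num]
      abel
    rw [e1, hpp]
    abel
  have hvs : star v = v := by
    rw [hv, star_sub, star_smul, hps, star_one]
    simp
  have hvn : ‖v‖ ≤ 1 := norm_sq_one_le hvs hvv
  have hαv : ‖α v + v‖ ≤ 1 / 4 := by
    have e1 : α v + v = (2 : ℂ) • (α p - (1 - p)) := by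
      rw [hv, map_sub, map_smul, map_one, smul_sub, smul_sub, two_smul ℂ (1 : L)]
      abel
    rw [e1, norm_smul]
    have : ‖(2 : ℂ)‖ = 2 := by simp
    rw [this]
    linarith
  clear_value v
  clear hv
  -- approximation
  obtain ⟨n, y₀, hy₀⟩ := h.dense v (1 / 16) (by norm_num)
  set y : MA (Kx n) CC := (1 / 2 : ℂ) • (y₀ + star y₀) with hy
  have hys : star y = y := by
    rw [hy, star_smul, star_add, star_star, add_comm]
    congr 1
    simp
  have hvy : ‖v - j n y‖ ≤ 1 / 16 := by
    have e1 : v - j n y = (1 / 2 : ℂ) • ((v - j n y₀) + star (v - j n y₀)) := by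
      rw [hy, map_smul, map_add, map_star, star_sub, hvs]
      have : v = (1 / 2 : ℂ) • (v + v) := by
        rw [← two_smul ℂ v, smul_smul]
        norm_num
      conv_lhs => rw [this]
      rw [← smul_sub]
      congr 1
      abel
    rw [e1, norm_smul]
    have h5 : ‖(1 / 2 : ℂ)‖ = 1 / 2 := by simp
    have h6 := norm_add_le (v - j n y₀) (star (v - j n y₀))
    rw [norm_star] at h6
    rw [h5]
    linarith
  have hyn : ‖y‖ ≤ 17 / 16 := by
    rw [← norm_map_inj _ (h.inj n)]
    have := norm_sub_norm_le (j n y) v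
    rw [norm_sub_rev (j n y) v] at this
    linarith
  refine det_key (card_Kx_odd n) y hys ?_ ?_ hyn
  · rw [← norm_map_inj _ (h.inj n), map_sub, map_mul, map_one, ← hvv]
    have e1 : j n y * j n y - v * v = -((v - j n y) * j n y + v * (v - j n y)) := by
      noncomm_ring
    rw [e1, norm_neg]
    calc _ ≤ ‖v - j n y‖ * ‖j n y‖ + ‖v‖ * ‖v - j n y‖ :=
          (norm_add_le _ _).trans (add_le_add (norm_mul_le _ _) (norm_mul_le _ _))
      _ ≤ (1 / 16) * (17 / 16) + 1 * (1 / 16) := by
          rw [norm_map_inj _ (h.inj n) y]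
          gcongr
      _ ≤ 1 / 7 := by norm_num
  · rw [← norm_map_inj _ (h.inj n), map_add]
    have h7 : j n (MA.map (rot (-1)) y) = α (j n y) := (hj n y).symm
    rw [h7]
    have e1 : j n y + α (j n y) = (α v + v) - (v - j n y) - α (v - j n y) := by
      rw [map_sub]
      abel
    rw [e1]
    have h8 : ‖α (v - j n y)‖ ≤ ‖v - j n y‖ := norm_map_le' (α : L →⋆ₐ[ℂ] L) _
    calc _ ≤ ‖(α v + v) - (v - j n y)‖ + ‖α (v - j n y)‖ := norm_sub_le _ _
      _ ≤ (‖α v + v‖ + ‖v - j n y‖) + ‖v - j n y‖ := add_le_add (norm_sub_le _ _) h8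
      _ ≤ 3 / 8 := by linarith

end Pool.Agent.H188R3
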