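import Mathlib
import Pool.Agent.H188R3.CircDet

/-!
Embeddings `m ↦ m ⊗ 1`, `m ↦ 1 ⊗ m`, traces of projections.
-/

set_option autoImplicit false
set_option linter.unusedSectionVars false
set_option linter.unusedSimpArgs false

noncomputable section

namespace Pool.Agent.H188R3

section

variable {I J : Type} [Fintype I] [DecidableEq I] [Fintype J] [DecidableEq J]
variable {C C' : Type} [CStarAlgebra C] [CStarAlgebra C']

/-- reindexing -/
def reix (e : I ≃ J) : MA I C →⋆ₐ[ℂ] MA J C where
  toFun x := MA.of fun a b => x.en (e.symm a) (e.symm b)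
  map_one' := by
    ext a b
    simp only [MA.en_of, MA.en_one, EmbeddingLike.apply_eq_iff_eq]
  map_mul' x y := by
    ext a b
    simp only [MA.en_of, MA.en_mul]
    exact (Equiv.sum_comp e.symm fun k => x.en (e.symm a) k * y.en k (e.symm b)).symm
  map_zero' := rfl
  map_add' x y := rfl
  commutes' c := by
    ext a b
    simp only [MA.en_of, MA.en_algebraMap, EmbeddingLike.apply_eq_iff_eq]
  map_star' x := rfl

lemma en_reix (e : I ≃ J) (x : MA I C) (a b : J) :
    (reix e x).en a b = x.en (e.symm a) (e.symm b) := rfl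

lemma reix_injective (e : I ≃ J) : Function.Injective (reix e : MA I C →⋆ₐ[ℂ] MA J C) := by
  intro x y h
  ext a b
  have := congrArg (fun z => z.en (e a) (e b)) h
  simpa [en_reix] using this

end

section

variable {I P Q : Type} [Fintype I] [DecidableEq I] [Fintype P] [DecidableEq P] [Fintype Q]
  [DecidableEq Q] {C C' : Type} [CStarAlgebra C] [CStarAlgebra C']

/-- `m ↦ m ⊗ 1` in the coordinates given by `e` -/
def emb (e : I ≃ P × Q) : MA P C →⋆ₐ[ℂ] MA I C :=
  (reix e.symm).comp (bdiag fun _ : Q => StarAlgHom.id ℂ C)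

lemma en_emb (e : I ≃ P × Q) (m : MA P C) (r s : I) :
    (emb e m).en r s = if (e r).2 = (e s).2 then m.en (e r).1 (e s).1 else 0 := rfl

lemma emb_diag (e : I ≃ P × Q) (x : C) : emb e (MA.diag x) = MA.diag x := by
  ext r s
  rw [en_emb, MA.en_diag, MA.en_diag]
  by_cases h : r = s
  · subst h
    simp
  · rw [if_neg h]
    by_cases h2 : (e r).2 = (e s).2
    · rw [if_pos h2, if_neg]
      intro h1
      exact h (e.injective (Prod.ext h1 h2))
    · rw [if_neg h2]

lemma emb_map (g : C →⋆ₐ[ℂ] C') (e : I ≃ P × Q) (x : MA P C) :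
    MA.map g (emb e x) = emb e (MA.map g x) := by
  ext r s
  simp only [MA.en_map, en_emb]
  split_ifs
  · rfl
  · exact map_zero g

lemma emb_injective [Nonempty Q] (e : I ≃ P × Q) :
    Function.Injective (emb e : MA P C →⋆ₐ[ℂ] MA I C) := by
  obtain ⟨q⟩ := (inferInstance : Nonempty Q)
  intro x y h
  ext a b
  have := congrArg (fun z => z.en (e.symm (a, q)) (e.symm (b, q))) h
  simpa [en_emb] using this

/-- the trace -/
def tr (m : MA I ℂ) : ℂ := ∑ i, m.en i i

lemma tr_emb (e : I ≃ P × Q) (m : MA P ℂ) : tr (emb e m) = (Fintype.card Q : ℂ) * tr m := by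
  unfold tr
  rw [← Equiv.sum_comp e.symm, Fintype.sum_prod_type, Finset.mul_sum]
  refine Finset.sum_congr rfl fun a _ => ?_
  simp [en_emb]

lemma tr_proj {m : MA I ℂ} (h : m * m = m) : ∃ N : ℕ, tr m = N := by
  have h1 : IsIdempotentElem (Matrix.toLin' (toMat m)) := by
    show Matrix.toLin' (toMat m) * Matrix.toLin' (toMat m) = _
    rw [Module.End.mul_eq_comp, ← Matrix.toLin'_mul, ← toMat_mul, h]
  have h2 := (LinearMap.IsIdempotentElem.isProj_range _ h1).trace
  rw [Matrix.trace_toLin'_eq] at h2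
  exact ⟨_, h2⟩

lemma tr_sub (x y : MA I ℂ) : tr (x - y) = tr x - tr y := by
  simp [tr]

lemma tr_one : tr (1 : MA I ℂ) = Fintype.card I := by
  simp [tr, MA.en_one]

lemma eq_zero_of_tr {m : MA I ℂ} (h : m * m = m) (hs : star m = m) (ht : tr m = 0) : m = 0 := by
  have h1 : tr m = ((∑ i, ∑ j, Complex.normSq (m.en i j) : ℝ) : ℂ) := by
    conv_lhs => rw [← h]
    unfold tr
    push_cast
    refine Finset.sum_congr rfl fun i _ => ?_
    rw [MA.en_mul]
    refine Finset.sum_congr rfl fun j _ => ?_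
    have h2 : m.en j i = star (m.en i j) := by
      conv_lhs => rw [← hs]
      rfl
    rw [h2]
    exact Complex.mul_conj _
  rw [ht] at h1
  have h3 : ∑ i, ∑ j, Complex.normSq (m.en i j) = 0 := by exact_mod_cast h1.symm
  ext i j
  have h4 := (Finset.sum_eq_zero_iff_of_nonneg (fun i _ =>
    Finset.sum_nonneg fun j _ => Complex.normSq_nonneg _)).1 h3 i (Finset.mem_univ _)
  have h5 := (Finset.sum_eq_zero_iff_of_nonneg (fun j _ => Complex.normSq_nonneg _)).1 h4 j
    (Finset.mem_univ _)
  exact Complex.normSq_eq_zero.1 h5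

end

end Pool.Agent.H188R3
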