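import Mathlib
import Pool.Agent.H188R3.Emb

/-!
Dimension drop algebras over the circle: functions `f : 𝕋 → M_P ⊗ M_Q` with `f(z) ∈ M_P ⊗ 1` if
`(Im z)² = 0` and `f(z) ∈ 1 ⊗ M_Q` if `(Im z)² = 1`.
-/

set_option autoImplicit false
set_option linter.unusedSectionVars false
set_option linter.unusedSimpArgs false

noncomputable section

namespace Pool.Agent.H188R3

section

variable {I P Q : Type} [Fintype I] [DecidableEq I] [Fintype P] [DecidableEq P] [Fintype Q]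
  [DecidableEq Q]

/-- the dimension drop algebra -/
def DDs (e : I ≃ P × Q) (T₁ T₂ : Set Circle) : StarSubalgebra ℂ (MA I CC) where
  carrier := {f | (∀ z ∈ T₁, ∃ m : MA P ℂ, ev z f = emb e m) ∧
    ∀ z ∈ T₂, ∃ m : MA Q ℂ, ev z f = emb (e.trans (Equiv.prodComm P Q)) m}
  mul_mem' := by
    rintro a b ⟨ha, ha'⟩ ⟨hb, hb'⟩
    refine ⟨fun z hz => ?_, fun z hz => ?_⟩
    · obtain ⟨m, hm⟩ := ha z hz
      obtain ⟨n, hn⟩ := hb z hz
      exact ⟨m * n, by rw [map_mul, map_mul, hm, hn]⟩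
    · obtain ⟨m, hm⟩ := ha' z hz
      obtain ⟨n, hn⟩ := hb' z hz
      exact ⟨m * n, by rw [map_mul, map_mul, hm, hn]⟩
  add_mem' := by
    rintro a b ⟨ha, ha'⟩ ⟨hb, hb'⟩
    refine ⟨fun z hz => ?_, fun z hz => ?_⟩
    · obtain ⟨m, hm⟩ := ha z hz
      obtain ⟨n, hn⟩ := hb z hz
      exact ⟨m + n, by rw [map_add, map_add, hm, hn]⟩
    · obtain ⟨m, hm⟩ := ha' z hz
      obtain ⟨n, hn⟩ := hb' z hz
      exact ⟨m + n, by rw [map_add, map_add, hm, hn]⟩
  algebraMap_mem' c := ⟨fun z _ => ⟨algebraMap ℂ _ c, by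
      rw [AlgHomClass.commutes, AlgHomClass.commutes]⟩,
    fun z _ => ⟨algebraMap ℂ _ c, by rw [AlgHomClass.commutes, AlgHomClass.commutes]⟩⟩
  star_mem' := by
    rintro a ⟨ha, ha'⟩
    refine ⟨fun z hz => ?_, fun z hz => ?_⟩
    · obtain ⟨m, hm⟩ := ha z hz
      exact ⟨star m, by rw [map_star, map_star, hm]⟩
    · obtain ⟨m, hm⟩ := ha' z hz
      exact ⟨star m, by rw [map_star, map_star, hm]⟩

lemma mem_DDs (e : I ≃ P × Q) (T₁ T₂ : Set Circle) (f : MA I CC) :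
    f ∈ DDs e T₁ T₂ ↔ (∀ z ∈ T₁, ∃ m : MA P ℂ, ev z f = emb e m) ∧
      ∀ z ∈ T₂, ∃ m : MA Q ℂ, ev z f = emb (e.trans (Equiv.prodComm P Q)) m := Iff.rfl

lemma emb_swap_swap (e : I ≃ P × Q) (m : MA P ℂ) :
    emb ((e.trans (Equiv.prodComm P Q)).trans (Equiv.prodComm Q P)) m = emb e m := by
  ext r s
  rfl

lemma mem_DDs_swap (e : I ≃ P × Q) (T₁ T₂ : Set Circle) (f : MA I CC) :
    f ∈ DDs e T₁ T₂ ↔ f ∈ DDs (e.trans (Equiv.prodComm P Q)) T₂ T₁ := by
  rw [mem_DDs, mem_DDs, and_comm]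
  simp only [emb_swap_swap]

lemma continuous_ev (z : Circle) : Continuous (ev z : MA I CC →⋆ₐ[ℂ] MA I ℂ) :=
  AddMonoidHomClass.continuous_of_bound (ev z) 1 (fun x => by simpa using norm_map_le' (ev z) x)

lemma isClosed_range_emb [Nonempty Q] (e : I ≃ P × Q) :
    IsClosed {x : MA I ℂ | ∃ m : MA P ℂ, x = emb e m} := by
  have h : Isometry (emb e : MA P ℂ →⋆ₐ[ℂ] MA I ℂ) :=
    NonUnitalStarAlgHom.isometry ((emb e : MA P ℂ →⋆ₐ[ℂ] MA I ℂ) : MA P ℂ →⋆ₙₐ[ℂ] MA I ℂ)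
      (emb_injective e)
  have h2 := h.isClosedEmbedding.isClosed_range
  convert h2 using 1
  ext x
  exact ⟨fun ⟨m, hm⟩ => ⟨m, hm.symm⟩, fun ⟨m, hm⟩ => ⟨m, hm.symm⟩⟩

lemma isClosed_DDs [Nonempty P] [Nonempty Q] (e : I ≃ P × Q) (T₁ T₂ : Set Circle) :
    IsClosed (DDs e T₁ T₂ : Set (MA I CC)) := by
  have h : (DDs e T₁ T₂ : Set (MA I CC)) =
      (⋂ z ∈ T₁, ev z ⁻¹' {x : MA I ℂ | ∃ m : MA P ℂ, x = emb e m}) ∩
      ⋂ z ∈ T₂, ev z ⁻¹' {x : MA I ℂ | ∃ m : MA Q ℂ,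
        x = emb (e.trans (Equiv.prodComm P Q)) m} := by
    ext f
    simp only [Set.mem_inter_iff, Set.mem_iInter]
    exact mem_DDs e T₁ T₂ f
  rw [h]
  refine IsClosed.inter ?_ ?_
  · exact isClosed_biInter fun z _ => (isClosed_range_emb e).preimage (continuous_ev z)
  · exact isClosed_biInter fun z _ => (isClosed_range_emb _).preimage (continuous_ev z)

lemma diag_mem_DDs (e : I ≃ P × Q) (T₁ T₂ : Set Circle) (h : CC) :
    (MA.diag h : MA I CC) ∈ DDs e T₁ T₂ := by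
  have h1 : ∀ z, ev z (MA.diag h : MA I CC) = MA.diag (h z) := by
    intro z
    ext r s
    rw [en_ev, MA.en_diag, MA.en_diag]
    split_ifs <;> rfl
  exact ⟨fun z _ => ⟨MA.diag (h z), by rw [h1, emb_diag]⟩,
    fun z _ => ⟨MA.diag (h z), by rw [h1, emb_diag]⟩⟩

lemma ev_diag_mul (k : CC) (M : MA I CC) (z : Circle) :
    ev z (MA.diag k * M) = k z • ev z M := by
  ext r s
  rw [map_mul, MA.en_mul, Finset.sum_eq_single r]
  · rw [en_ev, MA.en_diag, if_pos rfl]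
    rfl
  · intro b _ hb
    rw [en_ev, MA.en_diag, if_neg (Ne.symm hb)]
    simp
  · simp

lemma mul_mem_DDs_of_vanish (e : I ≃ P × Q) (T₁ T₂ : Set Circle) (k : CC) (M : MA I CC)
    (h1 : ∀ z ∈ T₁, k z = 0) (h2 : ∀ z ∈ T₂, k z = 0) : MA.diag k * M ∈ DDs e T₁ T₂ := by
  refine ⟨fun z hz => ⟨0, ?_⟩, fun z hz => ⟨0, ?_⟩⟩
  · rw [ev_diag_mul, h1 z hz, zero_smul, map_zero]
  · rw [ev_diag_mul, h2 z hz, zero_smul, map_zero]

/-- an ideal of a subalgebra -/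
structure IdealIn (S : StarSubalgebra ℂ (MA I CC)) (J : Set (MA I CC)) : Prop where
  zero : (0 : MA I CC) ∈ J
  add : ∀ x ∈ J, ∀ y ∈ J, x + y ∈ J
  left : ∀ a ∈ S, ∀ x ∈ J, a * x ∈ J
  right : ∀ a ∈ S, ∀ x ∈ J, x * a ∈ J

lemma IdealIn.sum {S : StarSubalgebra ℂ (MA I CC)} {J : Set (MA I CC)} (hJ : IdealIn S J)
    {ι : Type} (s : Finset ι) (f : ι → MA I CC) (h : ∀ i ∈ s, f i ∈ J) : (∑ i ∈ s, f i) ∈ J := by
  classical
  induction s using Finset.induction_on with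
  | empty => simpa using hJ.zero
  | insert a s ha ih =>
    rw [Finset.sum_insert ha]
    exact hJ.add _ (h a (Finset.mem_insert_self _ _)) _
      (ih fun i hi => h i (Finset.mem_insert_of_mem hi))

/-- matrix with one nonzero entry `k` -/
def ku (k : CC) (a b : P) : MA P CC := MA.of fun c d => if c = a ∧ d = b then k else 0

lemma en_ku (k : CC) (a b c d : P) : (ku k a b).en c d = if c = a ∧ d = b then k else 0 := rfl

lemma sum_ku_mul (F : MA P CC) (k : CC) (a b : P) :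
    ∑ c : P, ku k c a * F * ku k b c = MA.diag (k * k * F.en a b) := by
  ext r s : 1
  rw [MA.en_sum]
  have h : ∀ c : P, (ku k c a * F * ku k b c).en r s =
      if r = c ∧ s = c then k * k * F.en a b else 0 := by
    intro c
    rw [MA.en_mul, Finset.sum_eq_single b]
    · rw [MA.en_mul, Finset.sum_eq_single a]
      · simp only [en_ku]
        by_cases h1 : r = c <;> by_cases h2 : s = c <;> simp [h1, h2]
        ring
      · intro d _ hd
        simp [en_ku, hd]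
      · simp
    · intro d _ hd
      simp [en_ku, hd]
    · simp
  rw [MA.en_diag, Finset.sum_congr rfl fun c _ => h c]
  by_cases hrs : r = s
  · subst hrs
    simp
  · rw [if_neg hrs]
    apply Finset.sum_eq_zero
    intro c _
    rw [if_neg]
    rintro ⟨h1, h2⟩
    exact hrs (h1.trans h2.symm)

/-- generic points -/
lemma scalar_generic (e : I ≃ P × Q) {T₁ T₂ : Set Circle} {J : Set (MA I CC)}
    (hJ : IdealIn (DDs e T₁ T₂) J) {F : MA I CC} (hF : F ∈ J) (k : CC)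
    (h1 : ∀ z ∈ T₁, k z = 0) (h2 : ∀ z ∈ T₂, k z = 0) (a b : I) :
    (MA.diag (k * k * F.en a b) : MA I CC) ∈ J := by
  rw [← sum_ku_mul]
  have hku : ∀ c d : I, ku k c d ∈ DDs e T₁ T₂ := by
    intro c d
    have h3 : ku k c d = MA.diag k * ku 1 c d := by
      ext r s : 1
      rw [MA.en_mul, Finset.sum_eq_single r]
      · rw [MA.en_diag, if_pos rfl, en_ku, en_ku]
        split_ifs <;> simp
      · intro x _ hx
        rw [MA.en_diag, if_neg (Ne.symm hx), zero_mul]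
      · simp
    rw [h3]
    exact mul_mem_DDs_of_vanish e T₁ T₂ k _ h1 h2
  exact hJ.sum _ _ fun c _ => hJ.right _ (hku _ _) _ (hJ.left _ (hku _ _) _ hF)

end

end Pool.Agent.H188R3
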