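import Mathlib
import Pool.Agent.H188R3.DD

/-!
Ideals of dimension drop algebras over the circle.
-/

set_option autoImplicit false
set_option linter.unusedSectionVars false
set_option linter.unusedSimpArgs false

noncomputable section

namespace Pool.Agent.H188R3

section

variable {I P Q : Type} [Fintype I] [DecidableEq I] [Fintype P] [DecidableEq P] [Fintype Q]
  [DecidableEq Q]

lemma ev_emb (e : I ≃ P × Q) (m : MA P CC) (z : Circle) : ev z (emb e m) = emb e (ev z m) :=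
  emb_map _ e m

lemma sum_emb_ku (e : I ≃ P × Q) (F : MA I CC) (k : CC) (y y' : P) :
    ∑ c : P, emb e (ku k c y) * F * emb e (ku k y' c) =
      emb (e.trans (Equiv.prodComm P Q)) (MA.of fun x x' : Q =>
        k * k * F.en (e.symm (y, x)) (e.symm (y', x'))) := by
  ext r s : 1
  rw [MA.en_sum]
  have h : ∀ c : P, (emb e (ku k c y) * F * emb e (ku k y' c)).en r s =
      if (e r).1 = c ∧ (e s).1 = c then
        k * k * F.en (e.symm (y, (e r).2)) (e.symm (y', (e s).2)) else 0 := by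
    intro c
    rw [MA.en_mul, Finset.sum_eq_single (e.symm (y', (e s).2))]
    · rw [MA.en_mul, Finset.sum_eq_single (e.symm (y, (e r).2))]
      · simp only [en_emb, en_ku, Equiv.apply_symm_apply, if_true, and_true, true_and]
        by_cases h1 : (e r).1 = c <;> by_cases h2 : (e s).1 = c <;> simp [h1, h2]
        ring
      · intro d _ hd
        rw [en_emb, en_ku]
        by_cases h1 : (e r).2 = (e d).2
        · rw [if_pos h1, if_neg, zero_mul]
          rintro ⟨-, h2⟩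
          exact hd (by rw [← h2, h1]; simp)
        · rw [if_neg h1, zero_mul]
      · simp
    · intro d _ hd
      rw [en_emb, en_ku]
      by_cases h1 : (e d).2 = (e s).2
      · rw [if_pos h1, if_neg, mul_zero]
        rintro ⟨h2, -⟩
        exact hd (by rw [← h2, ← h1]; simp)
      · rw [if_neg h1, mul_zero]
    · simp
  rw [Finset.sum_congr rfl fun c _ => h c]
  show _ = if (e r).1 = (e s).1 then _ else _
  by_cases hrs : (e r).1 = (e s).1
  · rw [if_pos hrs, Finset.sum_eq_single (e r).1]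
    · rw [if_pos ⟨rfl, hrs.symm⟩]
      rfl
    · intro c _ hc
      rw [if_neg]
      rintro ⟨h1, -⟩
      exact hc h1.symm
    · simp
  · rw [if_neg hrs]
    apply Finset.sum_eq_zero
    intro c _
    rw [if_neg]
    rintro ⟨h1, h2⟩
    exact hrs (h1.trans h2.symm)

/-- special points -/
theorem scalar_special (e : I ≃ P × Q) {T₁ T₂ : Set Circle} {S : StarSubalgebra ℂ (MA I CC)}
    (hS : ∀ f, f ∈ S ↔ f ∈ DDs e T₁ T₂) {J : Set (MA I CC)} (hJ : IdealIn S J) {F : MA I CC}
    (hFS : F ∈ S) (hF : F ∈ J) (k : CC) (h2 : ∀ z ∈ T₂, k z = 0) {z₀ : Circle} (hz₀ : z₀ ∈ T₁)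
    (hk : k z₀ ≠ 0) (hne : ev z₀ F ≠ 0) : ∃ h : CC, h z₀ ≠ 0 ∧ (MA.diag h : MA I CC) ∈ J := by
  have hFS' := (mem_DDs e T₁ T₂ F).1 ((hS F).1 hFS)
  obtain ⟨H₀, hH₀⟩ := hFS'.1 z₀ hz₀
  have hex : ∃ y y', H₀.en y y' ≠ 0 := by
    by_contra hcon
    push Not at hcon
    apply hne
    rw [hH₀, show H₀ = 0 from MA.ext fun a b => by rw [hcon a b, MA.en_zero], map_zero]
  obtain ⟨y, y', hy⟩ := hex
  set G : MA Q CC := MA.of fun x x' : Q =>
    k * k * F.en (e.symm (y, x)) (e.symm (y', x')) with hG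
  set Gm : Matrix Q Q CC := Matrix.of fun i j => G.en i j with hGm
  set W : MA Q CC := MA.of fun i j => Gm.adjugate i j with hW
  have hku : ∀ a b : P, emb e (ku k a b) ∈ S := by
    intro a b
    rw [hS, mem_DDs]
    refine ⟨fun z _ => ⟨_, ev_emb e _ z⟩, fun z hz => ⟨0, ?_⟩⟩
    rw [ev_emb, map_zero]
    have : ev z (ku k a b) = 0 := by
      ext c d
      rw [en_ev, en_ku]
      split_ifs
      · exact h2 z hz
      · rfl
    rw [this, map_zero]
  have hGJ : emb (e.trans (Equiv.prodComm P Q)) G ∈ J := by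
    rw [hG, ← sum_emb_ku e F k y y']
    exact hJ.sum _ _ fun c _ => hJ.right _ (hku _ _) _ (hJ.left _ (hku _ _) _ hF)
  have hWG : W * G = MA.diag Gm.det := by
    ext i j : 1
    rw [MA.en_mul, MA.en_diag]
    have h3 := congrFun (congrFun (Matrix.adjugate_mul Gm) i) j
    rw [Matrix.mul_apply, Matrix.smul_apply, Matrix.one_apply] at h3
    rw [show (if i = j then Gm.det else 0) = Gm.det • (if i = j then (1 : CC) else 0) by
      split_ifs <;> simp]
    exact h3
  -- evaluation at points of `T₁`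
  have hev : ∀ z ∈ T₁, ∀ H : MA P ℂ, ev z F = emb e H →
      (ContinuousMap.evalStarAlgHom ℂ ℂ z : CC →⋆ₐ[ℂ] ℂ).toAlgHom.toRingHom.mapMatrix Gm =
        (k z * k z * H.en y y') • (1 : Matrix Q Q ℂ) := by
    intro z _ H hH
    ext i j
    have h3 : F.en (e.symm (y, i)) (e.symm (y', j)) z = if i = j then H.en y y' else 0 := by
      have h4 := congrArg (fun m => m.en (e.symm (y, i)) (e.symm (y', j))) hH
      simpa [en_emb, en_ev] using h4
    show (k z * k z * F.en (e.symm (y, i)) (e.symm (y', j)) z) = _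
    rw [h3, Matrix.smul_apply, Matrix.one_apply]
    split_ifs <;> simp
  have hWS : emb (e.trans (Equiv.prodComm P Q)) W ∈ S := by
    rw [hS, mem_DDs]
    refine ⟨fun z hz => ?_, fun z _ => ⟨_, ev_emb _ _ z⟩⟩
    obtain ⟨H, hH⟩ := hFS'.1 z hz
    have h3 := hev z hz H hH
    set c : ℂ := k z * k z * H.en y y' with hc
    have h4 : ev z W = MA.diag (c ^ (Fintype.card Q - 1)) := by
      ext i j
      have h5 := RingHom.map_adjugate
        (ContinuousMap.evalStarAlgHom ℂ ℂ z : CC →⋆ₐ[ℂ] ℂ).toAlgHom.toRingHom Gm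
      rw [h3, Matrix.adjugate_smul, Matrix.adjugate_one] at h5
      have h6 := congrFun (congrFun h5 i) j
      rw [Matrix.smul_apply, Matrix.one_apply] at h6
      show (ev z W).en i j = if i = j then c ^ (Fintype.card Q - 1) else 0
      refine Eq.trans h6 ?_
      split_ifs <;> simp
    exact ⟨MA.diag (c ^ (Fintype.card Q - 1)), by rw [ev_emb, h4, emb_diag, emb_diag]⟩
  refine ⟨Gm.det, ?_, ?_⟩
  · have h3 := hev z₀ hz₀ H₀ hH₀
    have h4 := RingHom.map_det
      (ContinuousMap.evalStarAlgHom ℂ ℂ z₀ : CC →⋆ₐ[ℂ] ℂ).toAlgHom.toRingHom Gm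
    rw [h3, Matrix.det_smul, Matrix.det_one, mul_one] at h4
    have h5 : (Gm.det) z₀ = (k z₀ * k z₀ * H₀.en y y') ^ Fintype.card Q := h4
    rw [h5]
    exact pow_ne_zero _ (mul_ne_zero (mul_ne_zero hk hk) hy)
  · rw [← emb_diag (e.trans (Equiv.prodComm P Q)), ← hWG, map_mul]
    exact hJ.left _ hWS _ hGJ

theorem ideal_top (e : I ≃ P × Q) {T₁ T₂ : Set Circle} {J : Set (MA I CC)}
    (hJ : IdealIn (DDs e T₁ T₂) J) {F : MA I CC} (hFS : F ∈ DDs e T₁ T₂) (hF : F ∈ J)
    (hne : ∀ z, ev z F ≠ 0) (k₁ k₂ : CC) (hk₁ : ∀ z, k₁ z = 0 ↔ z ∈ T₂)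
    (hk₂ : ∀ z, k₂ z = 0 ↔ z ∈ T₁) (hd : ∀ z ∈ T₁, z ∉ T₂) : (1 : MA I CC) ∈ J := by
  have h1 : ∀ z, ∃ h : CC, h z ≠ 0 ∧ (MA.diag h : MA I CC) ∈ J := by
    intro z
    by_cases hz1 : z ∈ T₁
    · exact scalar_special e (fun _ => Iff.rfl) hJ hFS hF k₁ (fun w hw => (hk₁ w).2 hw) hz1
        (fun h => hd z hz1 ((hk₁ z).1 h)) (hne z)
    · by_cases hz2 : z ∈ T₂
      · exact scalar_special (e.trans (Equiv.prodComm P Q)) (fun f => mem_DDs_swap e T₁ T₂ f) hJ
          hFS hF k₂ (fun w hw => (hk₂ w).2 hw) hz2 (fun h => hz1 ((hk₂ z).1 h)) (hne z)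
      · have hex : ∃ a b, F.en a b z ≠ 0 := by
          by_contra hcon
          push Not at hcon
          exact hne z (MA.ext fun a b => hcon a b)
        obtain ⟨a, b, hab⟩ := hex
        refine ⟨(k₁ * k₂) * (k₁ * k₂) * F.en a b, ?_, ?_⟩
        · have h3 : k₁ z ≠ 0 := fun h => hz2 ((hk₁ z).1 h)
          have h4 : k₂ z ≠ 0 := fun h => hz1 ((hk₂ z).1 h)
          exact mul_ne_zero (mul_ne_zero (mul_ne_zero h3 h4) (mul_ne_zero h3 h4)) hab
        · refine scalar_generic e hJ hF _ ?_ ?_ a b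
          · intro w hw
            show k₁ w * k₂ w = 0
            rw [(hk₂ w).2 hw, mul_zero]
          · intro w hw
            show k₁ w * k₂ w = 0
            rw [(hk₁ w).2 hw, zero_mul]
  choose h hh hhJ using h1
  obtain ⟨t, ht⟩ := isCompact_univ.elim_finite_subcover (fun z : Circle => {w | h z w ≠ 0})
    (fun z => isOpen_ne.preimage (h z).continuous)
    (fun z _ => Set.mem_iUnion.2 ⟨z, hh z⟩)
  set g : CC := ∑ z ∈ t, star (h z) * h z with hg
  have hgJ : (MA.diag g : MA I CC) ∈ J := by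
    rw [hg, map_sum]
    refine hJ.sum _ _ fun z _ => ?_
    rw [map_mul]
    exact hJ.left _ (diag_mem_DDs e T₁ T₂ _) _ (hhJ z)
  have h2 : ∀ w, g w ≠ 0 := by
    intro w
    have h3 := ht (Set.mem_univ w)
    simp only [Set.mem_iUnion] at h3
    obtain ⟨z, hz, hzw⟩ := h3
    have h4 : g w = ((∑ z ∈ t, Complex.normSq (h z w) : ℝ) : ℂ) := by
      rw [hg, ContinuousMap.sum_apply]
      push_cast
      refine Finset.sum_congr rfl fun r _ => ?_
      show star (h r w) * h r w = _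
      exact (Complex.normSq_eq_conj_mul_self).symm
    rw [h4]
    have h5 : 0 < ∑ z ∈ t, Complex.normSq (h z w) :=
      Finset.sum_pos' (fun r _ => Complex.normSq_nonneg _) ⟨z, hz, Complex.normSq_pos.2 hzw⟩
    exact_mod_cast h5.ne'
  obtain ⟨u, hu⟩ := (ContinuousMap.isUnit_iff_forall_ne_zero g).2 h2
  have h5 := hJ.left (MA.diag (↑u⁻¹ : CC)) (diag_mem_DDs e T₁ T₂ _) _ hgJ
  rw [← map_mul, ← hu, u.inv_mul, map_one] at h5
  exact h5

end

end Pool.Agent.H188R3
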