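import Mathlib
import Pool.Agent.H188R3.DD2

/-!
The connecting maps of the dimension drop algebras over the circle.
-/

set_option autoImplicit false
set_option linter.unusedSectionVars false
set_option linter.unusedSimpArgs false

noncomputable section

namespace Pool.Agent.H188R3

/-! ### the function `(Im z)²` -/

/-- `(Im z)²` -/
def tt : C(Circle, ℝ) := ⟨fun z => (z : ℂ).im ^ 2, by fun_prop⟩

lemma tt_apply (z : Circle) : tt z = (z : ℂ).im ^ 2 := rfl

lemma tt_nonneg (z : Circle) : 0 ≤ tt z := by rw [tt_apply]; positivity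

lemma tt_le_one (z : Circle) : tt z ≤ 1 := by
  have h := Circle.normSq_coe z
  rw [Complex.normSq_apply] at h
  rw [tt_apply]
  nlinarith [mul_self_nonneg (z : ℂ).re]

lemma tt_neg (z : Circle) : tt (-z) = tt z := by
  rw [tt_apply, tt_apply]
  have : ((-z : Circle) : ℂ) = -(z : ℂ) := rfl
  rw [this, Complex.neg_im]
  ring

lemma tt_neg' (z : Circle) : tt ((-1) * z) = tt z := by
  rw [neg_one_mul, tt_neg]

/-- the points where `(Im z)² = 0` -/
def T1 : Set Circle := {z | tt z = 0}
/-- the points where `(Im z)² = 1` -/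
def T2 : Set Circle := {z | tt z = 1}

/-! ### conjugation by unitaries -/

section

variable {E : Type} [CStarAlgebra E]

/-- conjugation by a unitary -/
def conjU (V : E) (h1 : star V * V = 1) (h2 : V * star V = 1) : E →⋆ₐ[ℂ] E where
  toFun x := V * x * star V
  map_one' := by rw [mul_one, h2]
  map_mul' x y := by
    have : V * x * star V * (V * y * star V) = V * x * (star V * V) * y * star V := by
      simp only [mul_assoc]
    rw [this, h1, mul_one]
    simp only [mul_assoc]
  map_zero' := by simp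
  map_add' x y := by rw [mul_add, add_mul]
  commutes' c := by
    rw [← Algebra.commutes, mul_assoc, h2, mul_one]
  map_star' x := by
    simp only [star_mul, star_star, mul_assoc]

lemma conjU_apply (V : E) (h1 : star V * V = 1) (h2 : V * star V = 1) (x : E) :
    conjU V h1 h2 x = V * x * star V := rfl

lemma conjU_injective (V : E) (h1 : star V * V = 1) (h2 : V * star V = 1) :
    Function.Injective (conjU V h1 h2) := by
  rw [injective_iff_map_eq_zero]
  intro x hx
  rw [conjU_apply] at hx
  calc x = (star V * V) * x * (star V * V) := by rw [h1, one_mul, mul_one]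
    _ = star V * (V * x * star V) * V := by simp only [mul_assoc]
    _ = 0 := by rw [hx, mul_zero, zero_mul]

end

/-! ### permutation matrices and paths of unitaries -/

section

variable {I : Type} [Fintype I] [DecidableEq I]

/-- the matrix of an involution -/
def Wm (π : I → I) : MA I ℂ := MA.of fun r s => if s = π r then 1 else 0

lemma Wm_mul (π : I → I) (M : MA I ℂ) (r s : I) : (Wm π * M).en r s = M.en (π r) s := by
  rw [MA.en_mul, Finset.sum_eq_single (π r)]
  · simp [Wm]
  · intro b _ hb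
    simp [Wm, hb]
  · simp

lemma mul_Wm (π : I → I) (hπ : ∀ r, π (π r) = r) (M : MA I ℂ) (r s : I) :
    (M * Wm π).en r s = M.en r (π s) := by
  rw [MA.en_mul, Finset.sum_eq_single (π s)]
  · simp [Wm, hπ]
  · intro b _ hb
    have : s ≠ π b := fun h => hb (by rw [h, hπ])
    simp [Wm, this]
  · simp

lemma Wm_star (π : I → I) (hπ : ∀ r, π (π r) = r) : star (Wm π) = Wm π := by
  ext r s
  simp only [MA.en_star, Wm, MA.en_of]
  by_cases h : s = π r
  · have : r = π s := by rw [h, hπ]
    rw [if_pos h, if_pos this, star_one]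
  · have : r ≠ π s := fun h' => h (by rw [h', hπ])
    rw [if_neg h, if_neg this, star_zero]

lemma Wm_sq (π : I → I) (hπ : ∀ r, π (π r) = r) : Wm π * Wm π = 1 := by
  ext r s
  rw [Wm_mul]
  simp only [Wm, MA.en_of, MA.en_one, hπ]
  by_cases h : s = r
  · simp [h]
  · simp [h, Ne.symm h]

lemma ev_map_sc (z : Circle) (M : MA I ℂ) : ev z (MA.map (MA.sc CC) M) = M := by
  ext r s
  rfl

lemma path_alg {R : Type} [Ring R] (W s s' : R) (hW : W * W = 1) (hs : s * W = W * s)
    (hs' : s' * W = W * s') (hss : s * s' = 1) :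
    ((1 + W) + s * (1 - W)) * ((1 + W) + s' * (1 - W)) = 4 := by
  have e1 : (1 + W) * (1 + W) = 2 * (1 + W) := by
    have : (1 + W) * (1 + W) = 1 + 2 * W + W * W := by noncomm_ring
    rw [this, hW]
    noncomm_ring
  have e2 : (1 - W) * (1 - W) = 2 * (1 - W) := by
    have : (1 - W) * (1 - W) = 1 - 2 * W + W * W := by noncomm_ring
    rw [this, hW]
    noncomm_ring
  have e3 : (1 + W) * (1 - W) = 0 := by
    have : (1 + W) * (1 - W) = 1 - W * W := by noncomm_ring
    rw [this, hW, sub_self]
  have e4 : (1 - W) * (1 + W) = 0 := by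
    have : (1 - W) * (1 + W) = 1 - W * W := by noncomm_ring
    rw [this, hW, sub_self]
  have e5 : (1 + W) * s' = s' * (1 + W) := by rw [add_mul, mul_add, hs']; simp
  have e6 : (1 - W) * s' = s' * (1 - W) := by rw [sub_mul, mul_sub, hs']; simp
  calc _ = (1 + W) * (1 + W) + (1 + W) * s' * (1 - W) + s * ((1 - W) * (1 + W)) +
        s * ((1 - W) * s') * (1 - W) := by noncomm_ring
    _ = 2 * (1 + W) + s' * ((1 + W) * (1 - W)) + 0 + (s * s') * ((1 - W) * (1 - W)) := by
        rw [e1, e4, e5, e6]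
        noncomm_ring
    _ = 4 := by
        rw [e3, hss, e2]
        noncomm_ring
        simp

/-- `((1 + W) + s (1 - W)) / 2` -/
def pathU (π : I → I) (s : CC) : MA I CC :=
  (1 / 2 : ℂ) • ((1 + MA.map (MA.sc CC) (Wm π)) + MA.diag s * (1 - MA.map (MA.sc CC) (Wm π)))

lemma pathU_star (π : I → I) (hπ : ∀ r, π (π r) = r) (s : CC) :
    star (pathU π s) = pathU π (star s) := by
  unfold pathU
  rw [star_smul, star_add, star_mul, star_add, star_sub, star_one, ← map_star, ← map_star,
    Wm_star π hπ, mul_sub, sub_mul, one_mul, mul_one, ← diag_map_comm]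
  congr 1
  simp

lemma pathU_mul (π : I → I) (hπ : ∀ r, π (π r) = r) (s s' : CC) (h : s * s' = 1) :
    pathU π s * pathU π s' = 1 := by
  unfold pathU
  rw [smul_mul_smul_comm, path_alg]
  · have : (4 : MA I CC) = (4 : ℂ) • 1 := by
      rw [← Algebra.algebraMap_eq_smul_one, map_ofNat]
    rw [this, smul_smul]
    norm_num
  · rw [← map_mul, Wm_sq π hπ, map_one]
  · exact diag_map_comm s _
  · exact diag_map_comm s' _
  · rw [← map_mul, h, map_one]

lemma ev_pathU_one (π : I → I) (s : CC) (z : Circle) (hs : s z = 1) : ev z (pathU π s) = 1 := by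
  unfold pathU
  rw [map_smul, map_add, ev_diag_mul, hs, one_smul, map_add, map_sub, map_one]
  have : (1 : MA I ℂ) + ev z (MA.map (MA.sc CC) (Wm π)) +
      (1 - ev z (MA.map (MA.sc CC) (Wm π))) = (2 : ℂ) • 1 := by
    rw [two_smul]
    abel
  rw [this, smul_smul]
  norm_num

lemma ev_pathU_neg (π : I → I) (s : CC) (z : Circle) (hs : s z = -1) :
    ev z (pathU π s) = Wm π := by
  unfold pathU
  rw [map_smul, map_add, ev_diag_mul, hs, map_add, map_sub, map_one, ev_map_sc]
  have : (1 : MA I ℂ) + Wm π + (-1 : ℂ) • (1 - Wm π) = (2 : ℂ) • Wm π := by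
    rw [two_smul, neg_one_smul]
    abel
  rw [this, smul_smul]
  norm_num

lemma map_pathU (π : I → I) (s : CC) (hs : rot (-1) s = s) :
    MA.map (rot (-1)) (pathU π s) = pathU π s := by
  have h1 : MA.map (rot (-1)) (MA.map (MA.sc CC) (Wm π)) = MA.map (MA.sc CC) (Wm π) := by
    ext r s' z
    rfl
  have h2 : MA.map (rot (-1)) (MA.diag s : MA I CC) = MA.diag s := by
    ext a b : 1
    rw [MA.en_map, MA.en_diag]
    split_ifs
    · exact hs
    · exact map_zero _
  unfold pathU
  rw [map_smul, map_add, map_mul, map_add, map_sub, map_one, h1, h2]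

end

/-- `exp(iπ(1 - t))` -/
def s0 : CC := ⟨fun z => Complex.exp (((Real.pi * (1 - tt z) : ℝ) : ℂ) * Complex.I), by fun_prop⟩
/-- `exp(iπt)` -/
def s1 : CC := ⟨fun z => Complex.exp (((Real.pi * tt z : ℝ) : ℂ) * Complex.I), by fun_prop⟩

lemma exp_mul_star (x : ℝ) : Complex.exp ((x : ℂ) * Complex.I) *
    star (Complex.exp ((x : ℂ) * Complex.I)) = 1 := by
  have h : Complex.exp ((x : ℂ) * Complex.I) * (starRingEnd ℂ) (Complex.exp ((x : ℂ) * Complex.I))
      = 1 := by
    rw [Complex.mul_conj, Complex.normSq_eq_norm_sq, Complex.norm_exp_ofReal_mul_I]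
    simp
  exact h

lemma s0_mul_star : s0 * star s0 = 1 := by
  ext z
  exact exp_mul_star _

lemma s1_mul_star : s1 * star s1 = 1 := by
  ext z
  exact exp_mul_star _

lemma s0_T1 {z : Circle} (hz : z ∈ T1) : s0 z = -1 := by
  have h : tt z = 0 := hz
  show Complex.exp (((Real.pi * (1 - tt z) : ℝ) : ℂ) * Complex.I) = -1
  rw [h, sub_zero, mul_one, Complex.exp_pi_mul_I]

lemma s1_T1 {z : Circle} (hz : z ∈ T1) : s1 z = 1 := by
  have h : tt z = 0 := hz
  show Complex.exp (((Real.pi * tt z : ℝ) : ℂ) * Complex.I) = 1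
  rw [h, mul_zero]
  simp

lemma s0_T2 {z : Circle} (hz : z ∈ T2) : s0 z = 1 := by
  have h : tt z = 1 := hz
  show Complex.exp (((Real.pi * (1 - tt z) : ℝ) : ℂ) * Complex.I) = 1
  rw [h, sub_self, mul_zero]
  simp

lemma s1_T2 {z : Circle} (hz : z ∈ T2) : s1 z = -1 := by
  have h : tt z = 1 := hz
  show Complex.exp (((Real.pi * tt z : ℝ) : ℂ) * Complex.I) = -1
  rw [h, mul_one, Complex.exp_pi_mul_I]

lemma rot_s0 : rot (-1) s0 = s0 := by
  ext z
  show Complex.exp (((Real.pi * (1 - tt ((-1) * z)) : ℝ) : ℂ) * Complex.I) = s0 z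
  rw [tt_neg']
  rfl

lemma rot_s1 : rot (-1) s1 = s1 := by
  ext z
  show Complex.exp (((Real.pi * tt ((-1) * z) : ℝ) : ℂ) * Complex.I) = s1 z
  rw [tt_neg']
  rfl

end Pool.Agent.H188R3
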