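import Mathlib
import Pool.Agent.H188R3.DD3

/-!
The connecting maps of the dimension drop algebras over the circle, continued.
-/

set_option autoImplicit false
set_option linter.unusedSectionVars false
set_option linter.unusedSimpArgs false

noncomputable section

namespace Pool.Agent.H188R3

/-- composition with a continuous map of the circle -/
def cm (g : C(Circle, Circle)) : CC →⋆ₐ[ℂ] CC := ContinuousMap.compStarAlgHom' ℂ ℂ g

lemma cm_apply (g : C(Circle, Circle)) (f : CC) (z : Circle) : cm g f z = f (g z) := rfl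

section

variable (P Q : Type) [Fintype P] [DecidableEq P] [Fintype Q] [DecidableEq Q] (c c' : ℕ)

/-- new first index set -/
abbrev PP : Type := P × Option (Q × Fin c)
/-- new second index set -/
abbrev QQ : Type := Q × Option (P × Fin c')

variable {P Q}

/-- a dense sequence of real numbers -/
def ang (k : ℕ) : ℝ := TopologicalSpace.denseSeq ℝ k

variable {c c'}

/-- angles -/
def th : Option (Q × Fin c) → ℝ
  | none => 0
  | some (_, k) => ang k

/-- the maps of the circle: `z ↦ z exp(i((1 - t) θ_i + t θ'_j))` -/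
def gg (r : Option (Q × Fin c) × Option (P × Fin c')) : C(Circle, Circle) :=
  ⟨fun z => z * Circle.exp ((1 - tt z) * th r.1 + tt z * th r.2), by fun_prop⟩

lemma gg_apply (r : Option (Q × Fin c) × Option (P × Fin c')) (z : Circle) :
    gg r z = z * Circle.exp ((1 - tt z) * th r.1 + tt z * th r.2) := rfl

lemma gg_none (z : Circle) :
    gg ((none, none) : Option (Q × Fin c) × Option (P × Fin c')) z = z := by
  rw [gg_apply]
  simp [th]

lemma gg_neg (r : Option (Q × Fin c) × Option (P × Fin c')) (z : Circle) :
    gg r ((-1) * z) = (-1) * gg r z := by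
  rw [gg_apply, gg_apply, tt_neg', mul_assoc]

/-- the block diagonal part of the connecting map -/
def psi0 : MA (P × Q) CC →⋆ₐ[ℂ] MA (PP P Q c × QQ P Q c') CC :=
  (reix (Equiv.prodProdProdComm P Q (Option (Q × Fin c)) (Option (P × Fin c')))).comp
    (bdiag fun r => cm (gg r))

lemma en_psi0 (f : MA (P × Q) CC) (r s : PP P Q c × QQ P Q c') :
    (psi0 f).en r s = if (r.1.2, r.2.2) = (s.1.2, s.2.2) then
      cm (gg (r.1.2, r.2.2)) (f.en (r.1.1, r.2.1) (s.1.1, s.2.1)) else 0 := rfl

lemma psi0_injective :
    Function.Injective (psi0 : MA (P × Q) CC →⋆ₐ[ℂ] MA (PP P Q c × QQ P Q c') CC) := by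
  have h1 : Function.Injective (cm (gg ((none, none) : Option (Q × Fin c) ×
      Option (P × Fin c')))) := by
    intro f g h
    ext z
    have := DFunLike.congr_fun h z
    rw [cm_apply, cm_apply, gg_none] at this
    exact this
  intro x y h
  exact bdiag_injective (fun r : Option (Q × Fin c) × Option (P × Fin c') => cm (gg r))
    (none, none) h1 (reix_injective _ h)

lemma map_psi0 (f : MA (P × Q) CC) :
    (MA.map (rot (-1)) (psi0 f) : MA (PP P Q c × QQ P Q c') CC) =
      psi0 (MA.map (rot (-1)) f) := by
  ext r s z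
  rw [MA.en_map, en_psi0, en_psi0]
  split_ifs
  · show (f.en _ _) (gg _ ((-1) * z)) = (f.en _ _) ((-1) * gg _ z)
    rw [gg_neg]
  · simp

/-- the involution exchanging the index `x` and the index `l` -/
def pi0 (r : PP P Q c × QQ P Q c') : PP P Q c × QQ P Q c' :=
  match r with
  | ((y, none), (x, j)) => ((y, none), (x, j))
  | ((y, some (l, k)), (x, j)) => ((y, some (x, k)), (l, j))

/-- the involution exchanging the index `y` and the index `l'` -/
def pi1 (r : PP P Q c × QQ P Q c') : PP P Q c × QQ P Q c' :=
  match r with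
  | ((y, i), (x, none)) => ((y, i), (x, none))
  | ((y, i), (x, some (l, k))) => ((l, i), (x, some (y, k)))

lemma pi0_pi0 (r : PP P Q c × QQ P Q c') : pi0 (pi0 r) = r := by
  rcases r with ⟨⟨y, _ | ⟨l, k⟩⟩, x, j⟩ <;> rfl

lemma pi1_pi1 (r : PP P Q c × QQ P Q c') : pi1 (pi1 r) = r := by
  rcases r with ⟨⟨y, i⟩, x, _ | ⟨l, k⟩⟩ <;> rfl

lemma mul_four {R : Type} [Monoid R] {a b a' b' : R} (h1 : a' * a = 1) (h2 : b' * b = 1) :
    b' * a' * (a * b) = 1 := by
  rw [mul_assoc, ← mul_assoc a', h1, one_mul, h2]

/-- the unitary -/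
def VV : MA (PP P Q c × QQ P Q c') CC := pathU pi0 s0 * pathU pi1 s1

lemma VV_star_mul : star (VV : MA (PP P Q c × QQ P Q c') CC) * VV = 1 := by
  unfold VV
  rw [star_mul, pathU_star _ pi0_pi0, pathU_star _ pi1_pi1]
  have h0 : star s0 * s0 = 1 := by rw [mul_comm]; exact s0_mul_star
  have h1 : star s1 * s1 = 1 := by rw [mul_comm]; exact s1_mul_star
  exact mul_four (pathU_mul _ pi0_pi0 _ _ h0) (pathU_mul _ pi1_pi1 _ _ h1)

lemma VV_mul_star : (VV : MA (PP P Q c × QQ P Q c') CC) * star VV = 1 := by
  unfold VV
  rw [star_mul, pathU_star _ pi0_pi0, pathU_star _ pi1_pi1]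
  exact mul_four (pathU_mul _ pi1_pi1 _ _ s1_mul_star) (pathU_mul _ pi0_pi0 _ _ s0_mul_star)

lemma ev_VV_T1 {z : Circle} (hz : z ∈ T1) :
    ev z (VV : MA (PP P Q c × QQ P Q c') CC) = Wm pi0 := by
  unfold VV
  rw [map_mul, ev_pathU_neg _ _ _ (s0_T1 hz), ev_pathU_one _ _ _ (s1_T1 hz), mul_one]

lemma ev_VV_T2 {z : Circle} (hz : z ∈ T2) :
    ev z (VV : MA (PP P Q c × QQ P Q c') CC) = Wm pi1 := by
  unfold VV
  rw [map_mul, ev_pathU_one _ _ _ (s0_T2 hz), ev_pathU_neg _ _ _ (s1_T2 hz), one_mul]

lemma map_VV : MA.map (rot (-1)) (VV : MA (PP P Q c × QQ P Q c') CC) = VV := by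
  unfold VV
  rw [map_mul, map_pathU _ _ rot_s0, map_pathU _ _ rot_s1]

/-- the connecting map -/
def psi : MA (P × Q) CC →⋆ₐ[ℂ] MA (PP P Q c × QQ P Q c') CC :=
  (conjU VV VV_star_mul VV_mul_star).comp psi0

lemma psi_apply (f : MA (P × Q) CC) :
    (psi f : MA (PP P Q c × QQ P Q c') CC) = VV * psi0 f * star VV := rfl

lemma psi_injective :
    Function.Injective (psi : MA (P × Q) CC →⋆ₐ[ℂ] MA (PP P Q c × QQ P Q c') CC) :=
  fun _ _ h => psi0_injective (conjU_injective VV VV_star_mul VV_mul_star h)

lemma map_psi (f : MA (P × Q) CC) :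
    (MA.map (rot (-1)) (psi f) : MA (PP P Q c × QQ P Q c') CC) = psi (MA.map (rot (-1)) f) := by
  rw [psi_apply, psi_apply, map_mul, map_mul, map_star, map_VV, map_psi0]

lemma ev_psi_ne {f : MA (P × Q) CC} {z : Circle}
    (r : Option (Q × Fin c) × Option (P × Fin c')) (h : ev (gg r z) f ≠ 0) :
    ev z (psi f : MA (PP P Q c × QQ P Q c') CC) ≠ 0 := by
  intro h0
  apply h
  have h1 : ev z (psi0 f : MA (PP P Q c × QQ P Q c') CC) = 0 := by
    have h2 : (psi0 f : MA (PP P Q c × QQ P Q c') CC) = star VV * psi f * VV := by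
      rw [psi_apply]
      calc psi0 f = (star VV * VV) * psi0 f * (star VV * VV) := by
            rw [VV_star_mul, one_mul, mul_one]
        _ = _ := by simp only [mul_assoc]
    rw [h2, map_mul, map_mul, h0, mul_zero, zero_mul]
  ext a b
  have h2 := congrArg (fun m => m.en ((a.1, r.1), (a.2, r.2)) ((b.1, r.1), (b.2, r.2))) h1
  simp only [en_ev, en_psi0, if_true] at h2
  exact h2

/-- the connecting map respects the boundary conditions -/
theorem psi_mem {f : MA (P × Q) CC} (hf : f ∈ DDs (Equiv.refl (P × Q)) T1 T2) :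
    (psi f : MA (PP P Q c × QQ P Q c') CC) ∈
      DDs (Equiv.refl (PP P Q c × QQ P Q c')) T1 T2 := by
  refine ⟨fun z hz => ?_, fun z hz => ?_⟩
  · obtain ⟨h, hh⟩ := hf.1 z hz
    have ht : tt z = 0 := hz
    -- the coefficients
    set H : MA (PP P Q c) ℂ := MA.of fun a b => match a, b with
      | (y, none), (y', none) => h.en y y'
      | (y, some (l, k)), (y', some (l', k')) =>
          if k = k' then f.en (y, l) (y', l') (z * Circle.exp (ang k)) else 0
      | (_, none), (_, some _) => 0
      | (_, some _), (_, none) => 0 with hH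
    refine ⟨H, ?_⟩
    rw [psi_apply, map_mul, map_mul, map_star, ev_VV_T1 hz, Wm_star _ pi0_pi0]
    ext r s
    rw [mul_Wm _ pi0_pi0, Wm_mul, en_ev, en_psi0, en_emb]
    rcases r with ⟨⟨y, _ | ⟨l, k⟩⟩, x, j⟩ <;> rcases s with ⟨⟨y', _ | ⟨l', k'⟩⟩, x', j'⟩
    · show ((if ((none : Option (Q × Fin c)), j) = (none, j') then
        cm (gg (none, j)) (f.en (y, x) (y', x')) else 0 : CC) z) =
          if (x, j) = (x', j') then h.en y y' else 0
      have h1 := congrArg (fun m => m.en (y, x) (y', x')) hh
      simp only [en_ev, en_emb, Equiv.refl_apply] at h1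
      by_cases hj : j = j'
      · subst hj
        rw [if_pos rfl, cm_apply]
        have h2 : gg (P := P) (Q := Q) (c := c) (c' := c') (none, j) z = z := by
          rw [gg_apply, ht]
          simp [th]
        rw [h2, h1]
        by_cases hx : x = x'
        · simp [hx]
        · simp [hx]
      · rw [if_neg (by simp [hj]), if_neg (by simp [hj])]
        rfl
    · show ((if ((none : Option (Q × Fin c)), j) = (some (x', k'), j') then
        cm (gg (none, j)) (f.en (y, x) (y', l')) else 0 : CC) z) =
          if (x, j) = (x', j') then 0 else 0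
      simp
    · show ((if ((some (x, k) : Option (Q × Fin c)), j) = (none, j') then
        cm (gg (some (x, k), j)) (f.en (y, l) (y', x')) else 0 : CC) z) =
          if (x, j) = (x', j') then 0 else 0
      simp
    · show ((if ((some (x, k) : Option (Q × Fin c)), j) = (some (x', k'), j') then
        cm (gg (some (x, k), j)) (f.en (y, l) (y', l')) else 0 : CC) z) =
          if (x, j) = (x', j') then
            (if k = k' then f.en (y, l) (y', l') (z * Circle.exp (ang k)) else 0) else 0
      by_cases hj : j = j'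
      · by_cases hx : x = x'
        · by_cases hk : k = k'
          · subst hj hx hk
            rw [if_pos rfl, if_pos rfl, if_pos rfl, cm_apply, gg_apply, ht]
            simp [th]
          · simp [hk]
        · simp [hx]
      · simp [hj]
  · obtain ⟨h, hh⟩ := hf.2 z hz
    have ht : tt z = 1 := hz
    set H : MA (QQ P Q c') ℂ := MA.of fun a b => match a, b with
      | (x, none), (x', none) => h.en x x'
      | (x, some (l, k)), (x', some (l', k')) =>
          if k = k' then f.en (l, x) (l', x') (z * Circle.exp (ang k)) else 0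
      | (_, none), (_, some _) => 0
      | (_, some _), (_, none) => 0 with hH
    refine ⟨H, ?_⟩
    rw [psi_apply, map_mul, map_mul, map_star, ev_VV_T2 hz, Wm_star _ pi1_pi1]
    ext r s
    rw [mul_Wm _ pi1_pi1, Wm_mul, en_ev, en_psi0, en_emb]
    rcases r with ⟨⟨y, i⟩, x, _ | ⟨l, k⟩⟩ <;> rcases s with ⟨⟨y', i'⟩, x', _ | ⟨l', k'⟩⟩
    · show ((if (i, (none : Option (P × Fin c'))) = (i', none) then
        cm (gg (i, none)) (f.en (y, x) (y', x')) else 0 : CC) z) =
          if (y, i) = (y', i') then h.en x x' else 0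
      have h1 := congrArg (fun m => m.en (y, x) (y', x')) hh
      have h1' : f.en (y, x) (y', x') z = if y = y' then h.en x x' else 0 := h1
      by_cases hi : i = i'
      · subst hi
        rw [if_pos rfl, cm_apply]
        have h2 : gg (P := P) (Q := Q) (c := c) (c' := c') (i, none) z = z := by
          rw [gg_apply, ht]
          simp [th]
        rw [h2, h1']
        by_cases hy : y = y'
        · simp [hy]
        · simp [hy]
      · rw [if_neg (by simp [hi]), if_neg (by simp [hi])]
        rfl
    · show ((if (i, (none : Option (P × Fin c'))) = (i', some (y', k')) then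
        cm (gg (i, none)) (f.en (y, x) (l', x')) else 0 : CC) z) =
          if (y, i) = (y', i') then 0 else 0
      simp
    · show ((if (i, (some (y, k) : Option (P × Fin c'))) = (i', none) then
        cm (gg (i, some (y, k))) (f.en (l, x) (y', x')) else 0 : CC) z) =
          if (y, i) = (y', i') then 0 else 0
      simp
    · show ((if (i, (some (y, k) : Option (P × Fin c'))) = (i', some (y', k')) then
        cm (gg (i, some (y, k))) (f.en (l, x) (l', x')) else 0 : CC) z) =
          if (y, i) = (y', i') then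
            (if k = k' then f.en (l, x) (l', x') (z * Circle.exp (ang k)) else 0) else 0
      by_cases hi : i = i'
      · by_cases hy : y = y'
        · by_cases hk : k = k'
          · subst hi hy hk
            rw [if_pos rfl, if_pos rfl, if_pos rfl, cm_apply, gg_apply, ht]
            simp [th]
          · simp [hk]
        · simp [hy]
      · simp [hi]

/-- the flip preserves the boundary conditions -/
lemma flip_mem {f : MA (P × Q) CC} (hf : f ∈ DDs (Equiv.refl (P × Q)) T1 T2) :
    MA.map (rot (-1)) f ∈ DDs (Equiv.refl (P × Q)) T1 T2 := by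
  have h : ∀ z, ev z (MA.map (rot (-1)) f) = ev ((-1) * z) f := fun z => rfl
  refine ⟨fun z hz => ?_, fun z hz => ?_⟩
  · rw [h]
    refine hf.1 _ ?_
    show tt ((-1) * z) = 0
    rw [tt_neg']
    exact hz
  · rw [h]
    refine hf.2 _ ?_
    show tt ((-1) * z) = 1
    rw [tt_neg']
    exact hz

end

end Pool.Agent.H188R3
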