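import Mathlib
import Pool.Agent.H188R3.DD4

/-!
The inductive system of dimension drop algebras over the circle.
-/

set_option autoImplicit false
set_option linter.unusedSectionVars false
set_option linter.unusedSimpArgs false

noncomputable section

namespace Pool.Agent.H188R3

/-- index data -/
structure Idx where
  P : Type
  Q : Type
  fP : Fintype P
  dP : DecidableEq P
  nP : Nonempty P
  fQ : Fintype Q
  dQ : DecidableEq Q
  nQ : Nonempty Q
  cop : Nat.Coprime (Fintype.card P) (Fintype.card Q)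

attribute [instance] Idx.fP Idx.dP Idx.nP Idx.fQ Idx.dQ Idx.nQ

/-- next index data -/
def Idx.step (X : Idx) (n : ℕ) : Idx where
  P := PP X.P X.Q (n + 1)
  Q := QQ X.P X.Q ((Fintype.card X.Q * (n + 1) + 1) * (n + 1))
  fP := inferInstance
  dP := inferInstance
  nP := inferInstance
  fQ := inferInstance
  dQ := inferInstance
  nQ := inferInstance
  cop := by
    simp only [Fintype.card_prod, Fintype.card_option, Fintype.card_fin]
    have h := X.cop
    refine Nat.Coprime.mul_left (Nat.Coprime.mul_right h ?_) (Nat.Coprime.mul_right ?_ ?_)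
    · simp
    · simp
    · rw [show Fintype.card X.P * ((Fintype.card X.Q * (n + 1) + 1) * (n + 1)) + 1 =
        (Fintype.card X.Q * (n + 1) + 1) * (Fintype.card X.P * (n + 1)) + 1 by ring]
      simp

/-- the sequence of index data -/
def idx : ℕ → Idx
  | 0 => ⟨Unit, Unit, inferInstance, inferInstance, inferInstance, inferInstance, inferInstance,
      inferInstance, by simp⟩
  | n + 1 => (idx n).step n

/-- the dimension drop algebra -/
def DA (X : Idx) : Type := DDs (Equiv.refl (X.P × X.Q)) T1 T2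

instance instDA (X : Idx) : CStarAlgebra (DA X) :=
  StarSubalgebra.cstarAlgebra (DDs (Equiv.refl (X.P × X.Q)) T1 T2)
    (h_closed := isClosed_DDs (Equiv.refl (X.P × X.Q)) T1 T2)

/-- inclusion -/
def DA.inc (X : Idx) : DA X →⋆ₐ[ℂ] MA (X.P × X.Q) CC :=
  StarSubalgebra.subtype (DDs (Equiv.refl (X.P × X.Q)) T1 T2)

lemma DA.inc_injective (X : Idx) : Function.Injective (DA.inc X) := Subtype.val_injective

lemma DA.inc_mem (X : Idx) (x : DA X) : DA.inc X x ∈ DDs (Equiv.refl (X.P × X.Q)) T1 T2 := x.2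

/-- elements -/
def DA.mk (X : Idx) (x : MA (X.P × X.Q) CC) (h : x ∈ DDs (Equiv.refl (X.P × X.Q)) T1 T2) : DA X :=
  ⟨x, h⟩

lemma DA.inc_mk (X : Idx) (x : MA (X.P × X.Q) CC)
    (h : x ∈ DDs (Equiv.refl (X.P × X.Q)) T1 T2) : DA.inc X (DA.mk X x h) = x := rfl

lemma DA.mk_inc (X : Idx) (x : DA X) : DA.mk X (DA.inc X x) (DA.inc_mem X x) = x := rfl

instance (X : Idx) : Nontrivial (DA X) := by
  refine ⟨⟨1, 0, fun h => ?_⟩⟩
  have h1 := congrArg (DA.inc X) h
  rw [map_one, map_zero] at h1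
  exact one_ne_zero h1

lemma DA.mk_add (X : Idx) (x y : MA (X.P × X.Q) CC) (hx hy hxy) :
    DA.mk X (x + y) hxy = DA.mk X x hx + DA.mk X y hy := rfl

lemma DA.mk_mul (X : Idx) (x y : MA (X.P × X.Q) CC) (hx hy hxy) :
    DA.mk X (x * y) hxy = DA.mk X x hx * DA.mk X y hy := rfl

theorem DA.top_of_ne (X : Idx) (I : TwoSidedIdeal (DA X)) (F : DA X) (hF : F ∈ I)
    (hne : ∀ w, ev w (DA.inc X F) ≠ 0) : I = ⊤ := by
  set J : Set (MA (X.P × X.Q) CC) :=
    {M | ∃ h : M ∈ DDs (Equiv.refl (X.P × X.Q)) T1 T2, DA.mk X M h ∈ I} with hJ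
  have hJI : IdealIn (DDs (Equiv.refl (X.P × X.Q)) T1 T2) J := by
    refine ⟨⟨zero_mem _, I.zero_mem⟩, ?_, ?_, ?_⟩
    · rintro a ⟨ha, ha'⟩ b ⟨hb, hb'⟩
      refine ⟨add_mem ha hb, ?_⟩
      rw [DA.mk_add X a b ha hb]
      exact I.add_mem ha' hb'
    · rintro a ha b ⟨hb, hb'⟩
      refine ⟨mul_mem ha hb, ?_⟩
      rw [DA.mk_mul X a b ha hb]
      exact I.mul_mem_left _ _ hb'
    · rintro a ha b ⟨hb, hb'⟩
      refine ⟨mul_mem hb ha, ?_⟩
      rw [DA.mk_mul X b a hb ha]
      exact I.mul_mem_right _ _ hb'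
  have hone := ideal_top (Equiv.refl (X.P × X.Q)) hJI (F := DA.inc X F) (DA.inc_mem X F)
    ⟨DA.inc_mem X F, hF⟩ hne
    ⟨fun z => ((1 - tt z : ℝ) : ℂ), by fun_prop⟩ ⟨fun z => ((tt z : ℝ) : ℂ), by fun_prop⟩
    (fun z => by
      show ((1 - tt z : ℝ) : ℂ) = 0 ↔ tt z = 1
      rw [Complex.ofReal_eq_zero, sub_eq_zero, eq_comm])
    (fun z => by
      show ((tt z : ℝ) : ℂ) = 0 ↔ tt z = 0
      rw [Complex.ofReal_eq_zero])
    (fun z h1 h2 => by
      have h3 : tt z = 0 := h1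
      have h4 : tt z = 1 := h2
      rw [h3] at h4
      exact zero_ne_one h4)
  obtain ⟨h, hI1⟩ := hone
  exact eq_top_of_one I hI1

/-- lifting homomorphisms -/
def DA.lift {E : Type} [CStarAlgebra E] (X : Idx) (f : E →⋆ₐ[ℂ] MA (X.P × X.Q) CC)
    (h : ∀ x, f x ∈ DDs (Equiv.refl (X.P × X.Q)) T1 T2) : E →⋆ₐ[ℂ] DA X :=
  f.codRestrict _ h

lemma DA.inc_lift {E : Type} [CStarAlgebra E] (X : Idx) (f : E →⋆ₐ[ℂ] MA (X.P × X.Q) CC)
    (h : ∀ x, f x ∈ DDs (Equiv.refl (X.P × X.Q)) T1 T2) (x : E) :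
    DA.inc X (DA.lift X f h x) = f x := rfl

/-- the connecting map -/
def dstep (X : Idx) (n : ℕ) : DA X →⋆ₐ[ℂ] DA (X.step n) :=
  DA.lift (X.step n) ((psi : MA (X.P × X.Q) CC →⋆ₐ[ℂ]
    MA ((X.step n).P × (X.step n).Q) CC).comp (DA.inc X)) fun x => psi_mem (DA.inc_mem X x)

lemma inc_dstep (X : Idx) (n : ℕ) (x : DA X) :
    DA.inc (X.step n) (dstep X n x) = (psi (DA.inc X x) :
      MA (PP X.P X.Q (n + 1) × QQ X.P X.Q ((Fintype.card X.Q * (n + 1) + 1) * (n + 1))) CC) := rfl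

/-- the flip -/
def dflip (X : Idx) : DA X →⋆ₐ[ℂ] DA X :=
  DA.lift X ((MA.map (rot (-1))).comp (DA.inc X)) fun x => flip_mem (DA.inc_mem X x)

lemma inc_dflip (X : Idx) (x : DA X) : DA.inc X (dflip X x) = MA.map (rot (-1)) (DA.inc X x) := rfl

/-- the connecting maps -/
def dphi (n : ℕ) : DA (idx n) →⋆ₐ[ℂ] DA (idx (n + 1)) := dstep (idx n) n

/-- the flips -/
def dsig (n : ℕ) : DA (idx n) →⋆ₐ[ℂ] DA (idx n) := dflip (idx n)

lemma cover_lemma (V : Set Circle) (hV : IsOpen V) (hne : V.Nonempty) :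
    ∃ N, ∀ z : Circle, ∀ s : ℝ, 1 / 2 ≤ s → s ≤ 1 → ∃ k < N, z * Circle.exp (s * ang k) ∈ V := by
  have h1 : ∀ k, IsOpen {p : Circle × Set.Icc (1 / 2 : ℝ) 1 |
      p.1 * Circle.exp ((p.2 : ℝ) * ang k) ∈ V} := fun k => hV.preimage (by fun_prop)
  have h2 : (Set.univ : Set (Circle × Set.Icc (1 / 2 : ℝ) 1)) ⊆
      ⋃ k, {p | p.1 * Circle.exp ((p.2 : ℝ) * ang k) ∈ V} := by
    rintro ⟨z, s, hs1, hs2⟩ _
    have hs0 : s ≠ 0 := by
      intro h
      rw [h] at hs1
      norm_num at hs1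
    have h3 : IsOpen {x : ℝ | z * Circle.exp (s * x) ∈ V} := hV.preimage (by fun_prop)
    have h4 : {x : ℝ | z * Circle.exp (s * x) ∈ V}.Nonempty := by
      obtain ⟨v, hv⟩ := hne
      obtain ⟨a, ha⟩ := Circle.exp_surjective (z⁻¹ * v)
      refine ⟨a / s, ?_⟩
      show z * Circle.exp (s * (a / s)) ∈ V
      rw [mul_div_cancel₀ _ hs0, ha]
      simpa using hv
    obtain ⟨n, hn⟩ := (TopologicalSpace.denseRange_denseSeq ℝ).exists_mem_open h3 h4
    rw [Set.mem_iUnion]
    exact ⟨n, hn⟩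
  obtain ⟨t, ht⟩ := isCompact_univ.elim_finite_subcover _ h1 h2
  refine ⟨t.sup id + 1, fun z s hs1 hs2 => ?_⟩
  have h3 := ht (Set.mem_univ (z, ⟨s, hs1, hs2⟩))
  simp only [Set.mem_iUnion] at h3
  obtain ⟨r, hr, hz⟩ := h3
  exact ⟨r, Nat.lt_succ_of_le (Finset.le_sup (f := id) hr), hz⟩

lemma trans_ne (n : ℕ) (x : DA (idx n)) {m : ℕ} (h : n ≤ m) (z : Circle)
    (hz : ev z (DA.inc (idx n) x) ≠ 0) : ev z (DA.inc (idx m) (trans dphi n m x)) ≠ 0 := by
  induction m, h using Nat.le_induction with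
  | base => rwa [trans_self]
  | succ m hm ih =>
    rw [trans_succ dphi hm]
    refine ev_psi_ne (P := (idx m).P) (Q := (idx m).Q) (none, none) ?_
    rw [gg_none]
    exact ih

theorem dd_full (n : ℕ) (x : DA (idx n)) (hx : x ≠ 0) : ∃ m, n ≤ m ∧
    ∀ I : TwoSidedIdeal (DA (idx m)), trans dphi n m x ∈ I → I = ⊤ := by
  have h1 : ∃ a b z, (DA.inc (idx n) x).en a b z ≠ 0 := by
    by_contra hcon
    push Not at hcon
    apply hx
    apply DA.inc_injective
    rw [map_zero]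
    ext a b z
    rw [hcon a b z]
    rfl
  obtain ⟨a, b, z, hz⟩ := h1
  obtain ⟨N, hN⟩ := cover_lemma {w | (DA.inc (idx n) x).en a b w ≠ 0}
    (isOpen_ne.preimage ((DA.inc (idx n) x).en a b).continuous) ⟨z, hz⟩
  set m := max n N with hm
  have hnm : n ≤ m := le_max_left _ _
  have hNm : N ≤ m := le_max_right _ _
  set y := trans dphi n m x with hy
  have hyV : ∀ w, (DA.inc (idx n) x).en a b w ≠ 0 → ev w (DA.inc (idx m) y) ≠ 0 := by
    intro w hw
    refine trans_ne n x hnm w fun h => hw ?_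
    exact congrArg (fun M => M.en a b) h
  -- nonvanishing at the next stage
  have hne : ∀ w, ev w (DA.inc (idx (m + 1)) (dphi m y)) ≠ 0 := by
    intro w
    by_cases hw : tt w ≤ 1 / 2
    · obtain ⟨k, hk, hkV⟩ := hN w (1 - tt w) (by linarith) (by linarith [tt_nonneg w])
      obtain ⟨l⟩ := (idx m).nQ
      refine ev_psi_ne (P := (idx m).P) (Q := (idx m).Q) (some (l, ⟨k, by omega⟩), none) ?_
      apply hyV
      rw [gg_apply]
      simp only [th, mul_zero, add_zero]
      exact hkV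
    · obtain ⟨k, hk, hkV⟩ := hN w (tt w) (by linarith) (tt_le_one w)
      obtain ⟨l⟩ := (idx m).nP
      have hk' : k < (Fintype.card (idx m).Q * (m + 1) + 1) * (m + 1) := by
        have : 1 * (m + 1) ≤ (Fintype.card (idx m).Q * (m + 1) + 1) * (m + 1) :=
          Nat.mul_le_mul_right _ (by omega)
        omega
      refine ev_psi_ne (P := (idx m).P) (Q := (idx m).Q) (none, some (l, ⟨k, hk'⟩)) ?_
      apply hyV
      rw [gg_apply]
      simp only [th, mul_zero, zero_add]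
      exact hkV
  refine ⟨m + 1, by omega, fun I hI => ?_⟩
  rw [trans_succ dphi hnm] at hI
  exact DA.top_of_ne (idx (m + 1)) I _ hI hne

instance (X : Idx) : IsStablyFiniteRing (DA X) :=
  sf_of_injective ((DA.inc X : DA X →⋆ₐ[ℂ] MA (X.P × X.Q) CC).toAlgHom.toRingHom)
    (DA.inc_injective X)

theorem dd_flip : FlipSys dphi dsig where
  inj n x y h := by
    apply DA.inc_injective
    exact psi_injective (congrArg (DA.inc (idx (n + 1))) h)
  comm n x := by
    apply DA.inc_injective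
    exact map_psi _
  invol n x := by
    apply DA.inc_injective
    ext a b z
    show ((DA.inc _ x).en a b) ((-1) * ((-1) * z)) = (DA.inc _ x).en a b z
    rw [neg_one_mul, neg_one_mul, neg_neg]
  flip n := by
    have h1 : star zf * zf = 1 := by
      ext z
      show star (z : ℂ) * (z : ℂ) = 1
      have := Complex.normSq_eq_conj_mul_self (z := (z : ℂ))
      rw [Circle.normSq_coe] at this
      simpa using this.symm
    refine ⟨DA.mk (idx n) (MA.diag zf) (diag_mem_DDs _ _ _ _), ?_, ?_, ?_, ?_⟩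
    · apply DA.inc_injective
      rw [map_mul, map_star, map_one, DA.inc_mk, ← map_star, ← map_mul, h1, map_one]
    · apply DA.inc_injective
      rw [map_mul, map_star, map_one, DA.inc_mk, ← map_star, ← map_mul, mul_comm, h1, map_one]
    · intro x
      apply DA.inc_injective
      rw [map_mul, map_mul, DA.inc_mk]
      ext a b : 1
      rw [MA.en_mul, MA.en_mul, Finset.sum_eq_single a, Finset.sum_eq_single b]
      · rw [MA.en_diag, MA.en_diag, if_pos rfl, if_pos rfl, mul_comm]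
      · intro c _ hc
        simp [MA.en_diag, hc]
      · simp
      · intro c _ hc
        simp [MA.en_diag, Ne.symm hc]
      · simp
    · apply DA.inc_injective
      rw [map_neg]
      ext a b z
      show rot (-1) ((MA.diag zf : MA ((idx n).P × (idx n).Q) CC).en a b) z =
        (-(MA.diag zf : MA ((idx n).P × (idx n).Q) CC)).en a b z
      rw [MA.en_neg, MA.en_diag, rot_apply]
      split_ifs
      · show (((-1) * z : Circle) : ℂ) = -(z : ℂ)
        rw [neg_one_mul]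
        rfl
      · simp
  full := dd_full
  sf n := inferInstance

end Pool.Agent.H188R3
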