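import Mathlib
import Pool.Agent.H188R3.DD5

/-!
The limit of the dimension drop algebras over the circle has no nontrivial projections, so the flip
does not have the tracial Rokhlin property.
-/

set_option autoImplicit false
set_option linter.unusedSectionVars false
set_option linter.unusedSimpArgs false

noncomputable section

namespace Pool.Agent.H188R3

lemma continuous_tr_ev {I : Type} [Fintype I] [DecidableEq I] (F : MA I CC) :
    Continuous fun z : Circle => tr (ev z F) := by
  have h : (fun z : Circle => tr (ev z F)) = fun z => ∑ i, F.en i i z := rfl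
  rw [h]
  fun_prop

/-- the point `i` of the circle -/
def ptI : Circle := Circle.exp (Real.pi / 2)

lemma tt_ptI : tt ptI = 1 := by
  rw [tt_apply]
  show (Circle.exp (Real.pi / 2) : ℂ).im ^ 2 = 1
  rw [Circle.coe_exp, Complex.exp_ofReal_mul_I_im, Real.sin_pi_div_two]
  norm_num

lemma tt_one : tt 1 = 0 := by
  rw [tt_apply]
  simp

theorem proj_trivial (X : Idx) (x : DA X) (h : x * x = x) (hs : star x = x) :
    x = 0 ∨ x = 1 := by
  set F := DA.inc X x with hF
  have hFF : F * F = F := by rw [hF, ← map_mul, h]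
  have hFs : star F = F := by rw [hF, ← map_star, hs]
  have hP : ∀ z, ev z F * ev z F = ev z F := fun z => by rw [← map_mul, hFF]
  have hS : ∀ z, star (ev z F) = ev z F := fun z => by rw [← map_star, hFs]
  choose N hN using fun z => tr_proj (hP z)
  have hcont : Continuous N := by
    rw [Nat.isClosedEmbedding_coe_real.isEmbedding.continuous_iff]
    have h1 : ((fun n : ℕ => (n : ℝ)) ∘ N) = fun z => (tr (ev z F)).re := by
      funext z
      rw [hN z]
      simp
    rw [h1]
    exact Complex.continuous_re.comp (continuous_tr_ev F)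
  have hconst : ∀ z w, N z = N w := fun z w =>
    (inferInstance : PreconnectedSpace Circle).constant hcont
  have hmem := DA.inc_mem X x
  -- divisibility
  have hQ : Fintype.card X.Q ∣ N 1 := by
    obtain ⟨m, hm⟩ := hmem.1 1 tt_one
    have hmm : m * m = m := by
      apply emb_injective (Equiv.refl (X.P × X.Q))
      rw [map_mul, ← hm]
      exact hP 1
    obtain ⟨M, hM⟩ := tr_proj hmm
    have h1 := hN 1
    rw [show ev 1 F = emb (Equiv.refl (X.P × X.Q)) m from hm, tr_emb, hM] at h1
    exact ⟨M, by exact_mod_cast h1.symm⟩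
  have hPd : Fintype.card X.P ∣ N 1 := by
    rw [hconst 1 ptI]
    obtain ⟨m, hm⟩ := hmem.2 ptI tt_ptI
    have hmm : m * m = m := by
      apply emb_injective ((Equiv.refl (X.P × X.Q)).trans (Equiv.prodComm X.P X.Q))
      rw [map_mul, ← hm]
      exact hP ptI
    obtain ⟨M, hM⟩ := tr_proj hmm
    have h1 := hN ptI
    rw [show ev ptI F = emb ((Equiv.refl (X.P × X.Q)).trans (Equiv.prodComm X.P X.Q)) m from hm,
      tr_emb, hM] at h1
    exact ⟨M, by exact_mod_cast h1.symm⟩
  have hdvd : Fintype.card X.P * Fintype.card X.Q ∣ N 1 :=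
    X.cop.mul_dvd_of_dvd_of_dvd hPd hQ
  -- the complementary projection
  have hP' : ∀ z, (1 - ev z F) * (1 - ev z F) = 1 - ev z F := by
    intro z
    exact IsIdempotentElem.one_sub (hP z)
  have hle : N 1 ≤ Fintype.card X.P * Fintype.card X.Q := by
    obtain ⟨M, hM⟩ := tr_proj (hP' 1)
    rw [tr_sub, tr_one, hN 1, Fintype.card_prod] at hM
    have h1 : (Fintype.card X.P * Fintype.card X.Q : ℕ) = M + N 1 := by
      have : ((Fintype.card X.P * Fintype.card X.Q : ℕ) : ℂ) = ((M + N 1 : ℕ) : ℂ) := by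
        push_cast at hM ⊢
        rw [← hM]
        ring
      exact_mod_cast this
    omega
  rcases Nat.eq_zero_or_pos (N 1) with h0 | h0
  · left
    apply DA.inc_injective
    rw [map_zero, ← hF]
    have h1 : ∀ z, ev z F = 0 := by
      intro z
      apply eq_zero_of_tr (hP z) (hS z)
      rw [hN z, hconst z 1, h0, Nat.cast_zero]
    ext a b z
    exact congrArg (fun m => m.en a b) (h1 z)
  · right
    have h2 : N 1 = Fintype.card X.P * Fintype.card X.Q :=
      le_antisymm hle (Nat.le_of_dvd h0 hdvd)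
    apply DA.inc_injective
    rw [map_one, ← hF]
    have h1 : ∀ z, 1 - ev z F = 0 := by
      intro z
      apply eq_zero_of_tr (hP' z) (by rw [star_sub, star_one, hS z])
      rw [tr_sub, tr_one, hN z, hconst z 1, h2, Fintype.card_prod, sub_self]
    ext a b z
    have h3 := congrArg (fun m => m.en a b) (h1 z)
    have h4 : (1 : MA (X.P × X.Q) ℂ).en a b = F.en a b z := by
      have : (1 - ev z F).en a b = 0 := h3
      rw [MA.en_sub, sub_eq_zero] at this
      exact this
    rw [← h4, MA.en_one, MA.en_one]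
    split_ifs <;> rfl

/-- projections near almost projections -/
lemma approx_proj {E : Type} [CStarAlgebra E] (y : E) (hs : star y = y)
    (h : ‖y * y - y‖ ≤ 1 / 8) : ∃ e : E, e * e = e ∧ star e = e ∧ ‖e - y‖ ≤ 1 / 4 := by
  have hsa : IsSelfAdjoint y := hs
  have hspec : ∀ x ∈ spectrum ℝ y, |x * x - x| ≤ 1 / 8 := by
    intro x hx
    have h1 : cfc (fun x : ℝ => x * x - x) y = y * y - y := by
      rw [cfc_sub (fun x : ℝ => x * x) (fun x => x) y, cfc_mul (fun x : ℝ => x) (fun x => x) y,
        cfc_id' ℝ y]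
    have h2 := norm_apply_le_norm_cfc (fun x : ℝ => x * x - x) y hx
    rw [h1] at h2
    exact h2.trans h
  set f : ℝ → ℝ := fun x => max 0 (min 1 (2 * x - 1 / 2)) with hf
  have hfc : Continuous f := by fun_prop
  have hval : ∀ x ∈ spectrum ℝ y, (f x = 0 ∧ |x| ≤ 1 / 4) ∨ (f x = 1 ∧ |1 - x| ≤ 1 / 4) := by
    intro x hx
    have h1 := abs_le.1 (hspec x hx)
    rcases le_or_gt x (1 / 2) with h2 | h2
    · left
      have h3 : x ≤ 1 / 4 := by nlinarith
      have h4 : -(1 / 4) ≤ x := by nlinarith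
      refine ⟨?_, abs_le.2 ⟨h4, h3⟩⟩
      rw [hf]
      simp only
      rw [min_eq_right (by linarith), max_eq_left (by linarith)]
    · right
      have h3 : 3 / 4 ≤ x := by nlinarith
      have h4 : x ≤ 5 / 4 := by nlinarith
      refine ⟨?_, abs_le.2 ⟨by linarith, by linarith⟩⟩
      rw [hf]
      simp only
      rw [min_eq_left (by linarith), max_eq_right (by linarith)]
  refine ⟨cfc f y, ?_, ?_, ?_⟩
  · rw [← cfc_mul f f y]
    refine cfc_congr fun x hx => ?_
    rcases hval x hx with ⟨h1, -⟩ | ⟨h1, -⟩ <;> simp only [h1] <;> norm_num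
  · exact (cfc_predicate f y : IsSelfAdjoint (cfc f y))
  · have h1 : cfc f y - y = cfc (fun x => f x - x) y := by
      rw [cfc_sub f (fun x => x) y, cfc_id' ℝ y]
    rw [h1]
    refine norm_cfc_le (by norm_num) fun x hx => ?_
    rcases hval x hx with ⟨h1, h2⟩ | ⟨h1, h2⟩
    · rw [h1, zero_sub, norm_neg]; exact h2
    · rw [h1]; exact h2

lemma proj_norm_lt {E : Type} [CStarAlgebra E] {e : E} (h : e * e = e) (hs : star e = e)
    (hn : ‖e‖ < 1) : e = 0 := by
  have h1 : ‖star e * e‖ = ‖e‖ := by rw [hs, h]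
  rw [CStarRing.norm_star_mul_self] at h1
  by_contra hne
  have h2 : 0 < ‖e‖ := norm_pos_iff.2 hne
  nlinarith

theorem lim_projectionless {L : Type} [CStarAlgebra L] {j : ∀ n, DA (idx n) →⋆ₐ[ℂ] L}
    (hj : IsLim dphi j) (e : L) (h : e * e = e) (hs : star e = e) : e = 0 ∨ e = 1 := by
  have _ : Nontrivial L := (hj.inj 0).nontrivial
  obtain ⟨n, y₀, hy₀⟩ := hj.dense e (1 / 32) (by norm_num)
  set y : DA (idx n) := (1 / 2 : ℂ) • (y₀ + star y₀) with hy
  have hys : star y = y := by
    rw [hy, star_smul, star_add, star_star, add_comm]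
    congr 1
    simp
  have hvy : ‖e - j n y‖ ≤ 1 / 32 := by
    have e1 : e - j n y = (1 / 2 : ℂ) • ((e - j n y₀) + star (e - j n y₀)) := by
      rw [hy, map_smul, map_add, map_star, star_sub, hs]
      have : e = (1 / 2 : ℂ) • (e + e) := by
        rw [← two_smul ℂ e, smul_smul]
        norm_num
      conv_lhs => rw [this]
      rw [← smul_sub]
      congr 1
      abel
    rw [e1, norm_smul]
    have h5 : ‖(1 / 2 : ℂ)‖ = 1 / 2 := by simp
    have h6 := norm_add_le (e - j n y₀) (star (e - j n y₀))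
    rw [norm_star] at h6
    rw [h5]
    linarith
  have hen : ‖e‖ ≤ 1 := by
    have h1 : ‖star e * e‖ = ‖e‖ := by rw [hs, h]
    rw [CStarRing.norm_star_mul_self] at h1
    by_contra hcon
    push Not at hcon
    nlinarith
  have hyy : ‖y * y - y‖ ≤ 1 / 8 := by
    rw [← norm_map_inj _ (hj.inj n), map_sub, map_mul]
    set d := e - j n y with hd
    have e1 : j n y * j n y - j n y = -(e * d) - d * e + d * d + d := by
      have e2 : j n y = e - d := by rw [hd]; abel
      rw [e2]
      have e3 : (e - d) * (e - d) - (e - d) = (e * e - e) - (e * d) - d * e + d * d + d := by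
        noncomm_ring
      rw [e3, h]
      abel
    rw [e1]
    calc _ ≤ ‖e‖ * ‖d‖ + ‖d‖ * ‖e‖ + ‖d‖ * ‖d‖ + ‖d‖ := by
          refine (norm_add_le _ _).trans (add_le_add ?_ le_rfl)
          refine (norm_add_le _ _).trans (add_le_add ?_ (norm_mul_le _ _))
          refine (norm_sub_le _ _).trans (add_le_add ?_ (norm_mul_le _ _))
          rw [norm_neg]
          exact norm_mul_le _ _
      _ ≤ 1 * (1 / 32) + (1 / 32) * 1 + (1 / 32) * (1 / 32) + 1 / 32 := by gcongr
      _ ≤ 1 / 8 := by norm_num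
  obtain ⟨p, hp1, hp2, hp3⟩ := approx_proj y hys hyy
  have hclose : ‖e - j n p‖ < 1 := by
    have e1 : e - j n p = (e - j n y) - j n (p - y) := by rw [map_sub]; abel
    rw [e1]
    have h7 : ‖j n (p - y)‖ ≤ 1 / 4 := (norm_map_le' _ _).trans hp3
    have := norm_sub_le (e - j n y) (j n (p - y))
    linarith
  rcases proj_trivial (idx n) p hp1 hp2 with h0 | h1
  · left
    rw [h0, map_zero, sub_zero] at hclose
    exact proj_norm_lt h hs hclose
  · right
    rw [h1, map_one] at hclose
    have h8 : (1 - e) * (1 - e) = 1 - e := IsIdempotentElem.one_sub h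
    have h9 := proj_norm_lt h8 (by rw [star_sub, star_one, hs]) (by rwa [norm_sub_rev] at hclose)
    exact (sub_eq_zero.1 h9).symm

/-- `max (Re z) 0` -/
def bp : CC := ⟨fun z => ((max (z : ℂ).re 0 : ℝ) : ℂ), by fun_prop⟩
/-- `max (-Re z) 0` -/
def bm : CC := ⟨fun z => ((max (-(z : ℂ).re) 0 : ℝ) : ℂ), by fun_prop⟩

lemma bm_bp : bm * bp = 0 := by
  ext z
  show ((max (-(z : ℂ).re) 0 : ℝ) : ℂ) * ((max (z : ℂ).re 0 : ℝ) : ℂ) = 0
  rcases le_total (z : ℂ).re 0 with h | h
  · rw [max_eq_right h]; simp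
  · rw [max_eq_right (by linarith : -(z : ℂ).re ≤ 0)]; simp

lemma star_bp : star bp = bp := by
  ext z
  exact Complex.conj_ofReal _

theorem dd_not_tracialRokhlin {L : Type} [CStarAlgebra L] {j : ∀ n, DA (idx n) →⋆ₐ[ℂ] L}
    (hj : IsLim dphi j) (α : L ≃⋆ₐ[ℂ] L) (hα : α * α = 1) : ¬ TracialRokhlin (act α hα) := by
  intro hR
  have _ : Nontrivial L := (hj.inj 0).nontrivial
  set b : DA (idx 0) := DA.mk (idx 0) (MA.diag bp) (diag_mem_DDs _ _ _ _) with hb
  set b' : DA (idx 0) := DA.mk (idx 0) (MA.diag bm) (diag_mem_DDs _ _ _ _) with hb'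
  have hbb : b' * b = 0 := by
    apply DA.inc_injective
    rw [map_mul, map_zero, hb, hb', DA.inc_mk, DA.inc_mk, ← map_mul, bm_bp, map_zero]
  have hbs : star b = b := by
    apply DA.inc_injective
    rw [map_star, hb, DA.inc_mk, ← map_star, star_bp]
  have hb'0 : b' ≠ 0 := by
    intro h
    have h1 := congrArg (DA.inc (idx 0)) h
    rw [map_zero, hb', DA.inc_mk] at h1
    have h2 := congrArg (fun m => m.en ((), ()) ((), ()) (-1)) h1
    have h3 : bm (-1) = 0 := h2
    have h4 : bm (-1) = ((max (-((-1 : Circle) : ℂ).re) 0 : ℝ) : ℂ) := rfl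
    rw [h4] at h3
    have h5 : ((-1 : Circle) : ℂ) = -1 := rfl
    rw [h5] at h3
    simp at h3
  have hb0 : b ≠ 0 := by
    intro h
    have h1 := congrArg (DA.inc (idx 0)) h
    rw [map_zero, hb, DA.inc_mk] at h1
    have h2 := congrArg (fun m => m.en ((), ()) ((), ()) 1) h1
    have h3 : bp 1 = 0 := h2
    have h4 : bp 1 = ((max ((1 : Circle) : ℂ).re 0 : ℝ) : ℂ) := rfl
    rw [h4] at h3
    have h5 : ((1 : Circle) : ℂ) = 1 := rfl
    rw [h5] at h3
    simp at h3
  set x : L := star (j 0 b) * j 0 b with hx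
  have hx0 : x ≠ 0 := by
    intro h
    rw [hx, CStarRing.star_mul_self_eq_zero_iff] at h
    exact hb0 (hj.inj 0 (by rw [h, map_zero]))
  obtain ⟨e, he1, he2, he3, -, v, hv1, hv2⟩ := hR ∅ (1 / 2) (by norm_num) x ⟨_, hx⟩ hx0
  have htriv : ∀ k, e k = 0 ∨ e k = 1 := fun k =>
    lim_projectionless hj (e k) (he1 k).isIdempotentElem (he1 k).isSelfAdjoint
  have huniv : (Finset.univ : Finset ℤˣ) = {1, -1} := by decide
  have hne : (1 : ℤˣ) ≠ -1 := by decide
  have h1 : ‖α (e 1) - e (-1)‖ < 1 / 2 := by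
    have := he3 (-1) 1
    rwa [act_neg, mul_one] at this
  have hzero : e 1 = 0 ∧ e (-1) = 0 := by
    rcases htriv 1 with h2 | h2
    · rw [h2, map_zero, zero_sub, norm_neg] at h1
      refine ⟨h2, ?_⟩
      rcases htriv (-1) with h3 | h3
      · exact h3
      · rw [h3, norm_one] at h1
        norm_num at h1
    · exfalso
      rw [h2, map_one] at h1
      have h4 := he2 1 (-1) hne
      rw [h2, one_mul] at h4
      rw [h4, sub_zero, norm_one] at h1
      norm_num at h1
  rw [huniv, Finset.sum_pair hne, hzero.1, hzero.2, add_zero, sub_zero] at hv1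
  -- `v v* = 1`
  have hvv : v * star v = 0 ∨ v * star v = 1 := by
    apply lim_projectionless hj
    · calc v * star v * (v * star v) = v * (star v * v) * star v := by simp only [mul_assoc]
        _ = v * star v := by rw [hv1, mul_one]
    · rw [star_mul, star_star]
  have hvv1 : v * star v = 1 := by
    rcases hvv with h2 | h2
    · exfalso
      have h3 : (1 : L) = 0 := by
        calc (1 : L) = (star v * v) * (star v * v) := by rw [hv1, mul_one]
          _ = star v * (v * star v) * v := by simp only [mul_assoc]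
          _ = 0 := by rw [h2, mul_zero, zero_mul]
      exact one_ne_zero h3
    · exact h2
  rw [hvv1, Metric.mem_closure_iff] at hv2
  obtain ⟨_, ⟨a, rfl⟩, ha⟩ := hv2 1 one_pos
  rw [dist_eq_norm] at ha
  have hu : IsUnit (x * a * x) := by
    have := isUnit_one_sub_of_norm_lt_one ha
    simpa using this
  have h5 : j 0 b' * (x * a * x) = 0 := by
    have h6 : j 0 b' * x = 0 := by
      rw [hx, ← map_star, hbs, ← mul_assoc, ← map_mul, hbb, map_zero, zero_mul]
    rw [mul_assoc, ← mul_assoc, h6, zero_mul]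
  have h7 : j 0 b' = 0 := by
    obtain ⟨u, hu⟩ := hu
    rw [← hu] at h5
    calc j 0 b' = j 0 b' * (u : L) * (↑u⁻¹ : L) := by rw [mul_assoc, u.mul_inv, mul_one]
      _ = 0 := by rw [h5, zero_mul]
  exact hb'0 (hj.inj 0 (by rw [h7, map_zero]))

end Pool.Agent.H188R3
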