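import Mathlib

/-!
Semicrossed products `C_0(Ω) ×_σ ℤ⁺` of dynamical systems `(Ω, σ)`, defined as the tensor algebra
of the C*-correspondence of the system, and approximately local derivations.
-/

set_option autoImplicit false

noncomputable section

open scoped ZeroAtInfty
open Filter Topology

namespace Pool.Agent.H188R3.LD

/-- the algebra `C_0(Ω)` -/
abbrev Czero (Ω : Type) [TopologicalSpace Ω] : Type := C₀(Ω, ℂ)

variable {Ω : Type} [TopologicalSpace Ω]

/-- `f ∘ σ` for a continuous proper map `σ` -/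
def pull (σ : CocompactMap Ω Ω) (f : Czero Ω) : Czero Ω := f.comp σ

/-- A Toeplitz representation `(π, t)` in a C*-algebra `T` of the C*-correspondence
`X = C_0(Ω)` over `C_0(Ω)` with left action `(f ξ)(x) = f(σ(x)) ξ(x)`, right action
`(ξ f)(x) = ξ(x) f(x)` and inner product `⟨ξ | η⟩ = conj(ξ) η`. -/
structure ToeplitzRep (σ : CocompactMap Ω Ω) (T : Type) [NonUnitalCStarAlgebra T] where
  /-- the *-homomorphism `π : C_0(Ω) → T` -/
  pi : Czero Ω →⋆ₙₐ[ℂ] T
  /-- the linear map `t : X → T` -/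
  t : Czero Ω →ₗ[ℂ] T
  left : ∀ f ξ, pi f * t ξ = t (pull σ f * ξ)
  right : ∀ ξ f, t ξ * pi f = t (ξ * f)
  inner : ∀ ξ η, star (t ξ) * t η = pi (star ξ * η)

variable {σ : CocompactMap Ω Ω} {T : Type} [NonUnitalCStarAlgebra T]

/-- `R = (π_∞, t_∞)` is the universal Toeplitz representation and `T` is the Toeplitz algebra
`𝒯_X`: every Toeplitz representation in a C*-algebra `E` factors through a *-homomorphism
`T → E`, and `T` is generated as a C*-algebra by the images of `π_∞` and `t_∞`. -/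
structure IsUniversal (R : ToeplitzRep σ T) : Prop where
  lift : ∀ (E : Type) [NonUnitalCStarAlgebra E] (R' : ToeplitzRep σ E),
    ∃ θ : T →⋆ₙₐ[ℂ] E, (∀ f, θ (R.pi f) = R'.pi f) ∧ ∀ ξ, θ (R.t ξ) = R'.t ξ
  dense : (NonUnitalStarAlgebra.adjoin ℂ (Set.range R.pi ∪ Set.range R.t)).topologicalClosure = ⊤

/-- The tensor algebra `𝒯_X⁺`, that is, the semicrossed product `C_0(Ω) ×_σ ℤ⁺`: the norm-closed
subalgebra of `𝒯_X` generated by all `π_∞(f)` and `t_∞(ξ)`. -/
def tensorAlg (R : ToeplitzRep σ T) : NonUnitalSubalgebra ℂ T :=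
  (NonUnitalAlgebra.adjoin ℂ (Set.range R.pi ∪ Set.range R.t)).topologicalClosure

/-- a bounded derivation -/
def IsDeriv {A : Type} [NonUnitalNormedRing A] [Module ℂ A] (D : A →L[ℂ] A) : Prop :=
  ∀ a b, D (a * b) = D a * b + a * D b

/-- a bounded approximately local derivation: every `δ a` is the norm limit of `D_n a` for some
sequence of bounded derivations `D_n` depending on `a` -/
def IsApproxLocal {A : Type} [NonUnitalNormedRing A] [Module ℂ A] (δ : A →L[ℂ] A) : Prop :=
  ∀ a, ∃ D : ℕ → A →L[ℂ] A, (∀ n, IsDeriv (D n)) ∧ Tendsto (fun n => D n a) atTop (𝓝 (δ a))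

end Pool.Agent.H188R3.LD
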