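import Mathlib
import Pool.Agent.H188R3.LD0

/-!
Toeplitz representations of the correspondence of a dynamical system, the tensor algebra
(semicrossed product), derivations and approximately local derivations.
-/

set_option autoImplicit false
set_option linter.unusedSectionVars false

noncomputable section

open scoped ZeroAtInfty
open Filter Topology

namespace Pool.Agent.H188R3.LD

variable {Ω : Type} [TopologicalSpace Ω]

lemma pull_apply (σ : CocompactMap Ω Ω) (f : Czero Ω) (v : Ω) : pull σ f v = f (σ v) := rfl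

section

variable {σ : CocompactMap Ω Ω} {T : Type} [NonUnitalCStarAlgebra T] (R : ToeplitzRep σ T)

/-- words `t(ξ_l) ⋯ t(ξ_1) π(f)` and `t(ξ_l) ⋯ t(ξ_1)` with their length and symbol -/
inductive Wd : ℕ → T → Czero Ω → Prop
  | pi (f : Czero Ω) : Wd 0 (R.pi f) f
  | t (ξ : Czero Ω) : Wd 1 (R.t ξ) ξ
  | mulL (ξ : Czero Ω) {l : ℕ} {x : T} {F : Czero Ω} (h : Wd l x F) :
      Wd (l + 1) (R.t ξ * x) ((pull σ)^[l] ξ * F)

lemma pull_mul (f g : Czero Ω) : pull σ (f * g) = pull σ f * pull σ g := rfl

lemma pull_iter_mul (l : ℕ) (f g : Czero Ω) :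
    (pull σ)^[l] (f * g) = (pull σ)^[l] f * (pull σ)^[l] g := by
  induction l generalizing f g with
  | zero => rfl
  | succ l ih => rw [Function.iterate_succ_apply, Function.iterate_succ_apply,
      Function.iterate_succ_apply, pull_mul, ih]

lemma pull_iter_apply (l : ℕ) (f : Czero Ω) (v : Ω) : (pull σ)^[l] f v = f (σ^[l] v) := by
  induction l generalizing f v with
  | zero => rfl
  | succ l ih => rw [Function.iterate_succ_apply, ih, pull_apply, Function.iterate_succ_apply']

lemma pull_iter_star (l : ℕ) (f : Czero Ω) :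
    (pull σ)^[l] (star f) = star ((pull σ)^[l] f) := by
  ext v
  rw [ZeroAtInftyContinuousMap.star_apply, pull_iter_apply, pull_iter_apply,
    ZeroAtInftyContinuousMap.star_apply]

lemma star_mul_C0 (f g : Czero Ω) : star (f * g) = star g * star f := by
  ext v
  show star (f v * g v) = star (g v) * star (f v)
  exact StarMul.star_mul _ _

variable {R}

lemma Wd.pi_mul {l : ℕ} {x : T} {F : Czero Ω} (h : Wd R l x F) (g : Czero Ω) :
    Wd R l (R.pi g * x) ((pull σ)^[l] g * F) := by
  cases h with
  | pi f =>
    rw [← map_mul]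
    exact Wd.pi _
  | t ξ =>
    rw [R.left]
    exact Wd.t _
  | @mulL ξ l x F h =>
    rw [← mul_assoc, R.left, Function.iterate_succ_apply, ← mul_assoc, ← pull_iter_mul]
    exact Wd.mulL _ h

/-- products of words -/
lemma Wd.mul {l l' : ℕ} {x y : T} {F G : Czero Ω} (h : Wd R l x F) (h' : Wd R l' y G) :
    Wd R (l + l') (x * y) ((pull σ)^[l'] F * G) := by
  induction h with
  | pi f =>
    rw [Nat.zero_add]
    exact h'.pi_mul f
  | t ξ =>
    rw [Nat.add_comm]
    exact Wd.mulL ξ h'
  | @mulL ξ l x F h ih =>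
    rw [mul_assoc, pull_iter_mul, mul_assoc, show l + 1 + l' = (l + l') + 1 by omega]
    have h2 := Wd.mulL (R := R) ξ ih
    rw [← Function.iterate_add_apply, Nat.add_comm l' l]
    exact h2

/-- inner products of words -/
lemma Wd.star_mul {l : ℕ} {x : T} {F : Czero Ω} (h : Wd R l x F) :
    ∀ {y : T} {G : Czero Ω}, Wd R l y G → star x * y = R.pi (star F * G) := by
  induction h with
  | pi f =>
    intro y G h'
    cases h' with
    | pi g => rw [← map_star, ← map_mul]
  | t ξ =>
    intro y G h'
    cases h' with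
    | t _ => exact R.inner ξ _
    | @mulL η l y G h' =>
      cases h' with
      | pi g =>
        rw [← mul_assoc, R.inner, ← map_mul]
        congr 1
        rw [mul_assoc]
        rfl
  | @mulL ξ l x F h ih =>
    intro y G h'
    cases h' with
    | t η =>
      cases h with
      | pi f =>
        rw [StarMul.star_mul, mul_assoc, R.inner, ← map_star, ← map_mul]
        congr 1
        rw [star_mul_C0, mul_assoc]
        rfl
    | @mulL η l y G h' =>
      rw [StarMul.star_mul, mul_assoc, ← mul_assoc (star (R.t ξ)), R.inner]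
      rw [ih (h'.pi_mul _)]
      congr 1
      rw [pull_iter_mul, pull_iter_star, star_mul_C0]
      simp only [mul_assoc]

variable (R)

/-- linear combinations of words of length `l`, with their symbols -/
def WS (l : ℕ) : Submodule ℂ (T × Czero Ω) := Submodule.span ℂ {p | Wd R l p.1 p.2}

variable {R}

lemma Wd.mem {l : ℕ} {x : T} {F : Czero Ω} (h : Wd R l x F) : (x, F) ∈ WS R l :=
  Submodule.subset_span h

lemma pull_iter_add (l : ℕ) (f g : Czero Ω) :
    (pull σ)^[l] (f + g) = (pull σ)^[l] f + (pull σ)^[l] g := by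
  ext v
  rw [ZeroAtInftyContinuousMap.add_apply, pull_iter_apply, pull_iter_apply, pull_iter_apply,
    ZeroAtInftyContinuousMap.add_apply]

lemma pull_iter_smul (l : ℕ) (c : ℂ) (f : Czero Ω) :
    (pull σ)^[l] (c • f) = c • (pull σ)^[l] f := by
  ext v
  rw [ZeroAtInftyContinuousMap.smul_apply, pull_iter_apply, pull_iter_apply,
    ZeroAtInftyContinuousMap.smul_apply]

lemma pull_iter_zero (l : ℕ) : (pull σ)^[l] (0 : Czero Ω) = 0 := by
  ext v
  rw [pull_iter_apply]
  rfl

/-- products -/
lemma WS_mul {l l' : ℕ} {p q : T × Czero Ω} (hp : p ∈ WS R l) (hq : q ∈ WS R l') :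
    (p.1 * q.1, (pull σ)^[l'] p.2 * q.2) ∈ WS R (l + l') := by
  induction hp using Submodule.span_induction with
  | mem p hp =>
    induction hq using Submodule.span_induction with
    | mem q hq => exact (Wd.mul hp hq).mem
    | zero =>
      simp only [Prod.fst_zero, Prod.snd_zero, mul_zero]
      exact Submodule.zero_mem _
    | add q q' _ _ ih ih' =>
      simp only [Prod.fst_add, Prod.snd_add, mul_add]
      exact Submodule.add_mem _ ih ih'
    | smul c q _ ih =>
      simp only [Prod.smul_fst, Prod.smul_snd, mul_smul_comm]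
      exact Submodule.smul_mem _ c ih
  | zero =>
    simp only [Prod.fst_zero, Prod.snd_zero, pull_iter_zero, zero_mul]
    exact Submodule.zero_mem _
  | add p p' _ _ ih ih' =>
    simp only [Prod.fst_add, Prod.snd_add, pull_iter_add, add_mul]
    exact Submodule.add_mem _ ih ih'
  | smul c p _ ih =>
    simp only [Prod.smul_fst, Prod.smul_snd, pull_iter_smul, smul_mul_assoc]
    exact Submodule.smul_mem _ c ih

/-- inner products -/
lemma WS_star_mul {l : ℕ} {p q : T × Czero Ω} (hp : p ∈ WS R l) (hq : q ∈ WS R l) :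
    star p.1 * q.1 = R.pi (star p.2 * q.2) := by
  induction hp using Submodule.span_induction with
  | mem p hp =>
    induction hq using Submodule.span_induction with
    | mem q hq => exact Wd.star_mul hp hq
    | zero => simp
    | add q q' _ _ ih ih' =>
      simp only [Prod.fst_add, Prod.snd_add, mul_add, map_add, ih, ih']
    | smul c q _ ih =>
      simp only [Prod.smul_fst, Prod.smul_snd, mul_smul_comm, map_smul, ih]
  | zero => simp
  | add p p' _ _ ih ih' =>
    simp only [Prod.fst_add, Prod.snd_add, star_add, add_mul, map_add, ih, ih']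
  | smul c p _ ih =>
    simp only [Prod.smul_fst, Prod.smul_snd, star_smul, smul_mul_assoc, map_smul, ih]

lemma norm_pi_le (f : Czero Ω) : ‖R.pi f‖ ≤ ‖f‖ :=
  NonUnitalStarAlgHom.norm_apply_le R.pi f

lemma WS_norm_le {l : ℕ} {p : T × Czero Ω} (hp : p ∈ WS R l) : ‖p.1‖ ≤ ‖p.2‖ := by
  have h1 : ‖p.1‖ * ‖p.1‖ ≤ ‖p.2‖ * ‖p.2‖ := by
    rw [← CStarRing.norm_star_mul_self, ← CStarRing.norm_star_mul_self, WS_star_mul hp hp]
    exact norm_pi_le _
  exact abs_le_of_sq_le_sq' (by nlinarith) (norm_nonneg _) |>.2

end

end Pool.Agent.H188R3.LD
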