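import Mathlib
import Pool.Agent.H188R3.LD1

/-!
The orbit representations of a dynamical system on `ℓ²(ℕ)`.
-/

set_option autoImplicit false
set_option linter.unusedSectionVars false

noncomputable section

open scoped ZeroAtInfty ENNReal InnerProductSpace
open Filter Topology

namespace Pool.Agent.H188R3.LD

/-- the Hilbert space `ℓ²(ℕ)` -/
abbrev Hs : Type := lp (fun _ : ℕ => ℂ) 2

lemma memlp_two {f : ℕ → ℂ} (h : Summable fun i => ‖f i‖ ^ 2) : Memℓp f 2 := by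
  refine memℓp_gen ?_
  simpa using h

lemma summable_sq (ξ : Hs) : Summable fun i => ‖ξ i‖ ^ 2 := by
  have h := (lp.memℓp ξ).summable (by norm_num)
  simpa using h

lemma norm_sq_eq (ξ : Hs) : ‖ξ‖ ^ 2 = ∑' i, ‖ξ i‖ ^ 2 := by
  have h := lp.norm_rpow_eq_tsum (p := 2) (by norm_num) ξ
  simpa using h

/-- diagonal operators -/
def dg (b : ℕ → ℂ) (C : ℝ) (hb : ∀ j, ‖b j‖ ≤ C) : Hs →L[ℂ] Hs :=
  LinearMap.mkContinuous
    { toFun := fun ξ => ⟨fun j => b j * ξ j, memlp_two (by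
        refine Summable.of_nonneg_of_le (fun _ => by positivity) (fun j => ?_)
          ((summable_sq ξ).mul_left (C ^ 2))
        rw [norm_mul, mul_pow]
        gcongr
        exact hb j)⟩
      map_add' := fun ξ η => by
        ext j
        exact mul_add _ _ _
      map_smul' := fun c ξ => by
        ext j
        show b j * (c * ξ j) = c * (b j * ξ j)
        ring }
    C (fun ξ => by
      have hC : 0 ≤ C := (norm_nonneg _).trans (hb 0)
      refine abs_le_of_sq_le_sq' ?_ (by positivity) |>.2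
      rw [mul_pow, norm_sq_eq, norm_sq_eq, ← tsum_mul_left]
      refine Summable.tsum_le_tsum (fun j => ?_) (summable_sq _) ((summable_sq ξ).mul_left _)
      show ‖b j * ξ j‖ ^ 2 ≤ C ^ 2 * ‖ξ j‖ ^ 2
      rw [norm_mul, mul_pow]
      gcongr
      exact hb j)

lemma dg_apply (b : ℕ → ℂ) (C : ℝ) (hb : ∀ j, ‖b j‖ ≤ C) (ξ : Hs) (j : ℕ) :
    (dg b C hb ξ) j = b j * ξ j := rfl

/-- the shifted sequence -/
def shf (ξ : ℕ → ℂ) : ℕ → ℂ
  | 0 => 0
  | n + 1 => ξ n

/-- the unilateral shift -/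
def Sh : Hs →L[ℂ] Hs :=
  LinearMap.mkContinuous
    { toFun := fun ξ => ⟨shf ξ, memlp_two (by
        rw [← summable_nat_add_iff 1]
        exact summable_sq ξ)⟩
      map_add' := fun ξ η => by
        ext j
        cases j with
        | zero => exact (add_zero (0 : ℂ)).symm
        | succ j => rfl
      map_smul' := fun c ξ => by
        ext j
        cases j with
        | zero => exact (mul_zero c).symm
        | succ j => rfl }
    1 (fun ξ => by
      rw [one_mul]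
      refine abs_le_of_sq_le_sq' ?_ (by positivity) |>.2
      rw [norm_sq_eq, norm_sq_eq, (summable_sq _).tsum_eq_zero_add]
      show ‖(0 : ℂ)‖ ^ 2 + ∑' i, ‖ξ i‖ ^ 2 ≤ _
      simp)

lemma Sh_zero (ξ : Hs) : (Sh ξ) 0 = 0 := rfl
lemma Sh_succ (ξ : Hs) (j : ℕ) : (Sh ξ) (j + 1) = ξ j := rfl

lemma norm_Sh (ξ : Hs) : ‖Sh ξ‖ = ‖ξ‖ := by
  have h : ‖Sh ξ‖ ^ 2 = ‖ξ‖ ^ 2 := by
    rw [norm_sq_eq, norm_sq_eq, (summable_sq _).tsum_eq_zero_add]
    show ‖(0 : ℂ)‖ ^ 2 + ∑' i, ‖ξ i‖ ^ 2 = _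
    simp
  exact (sq_eq_sq₀ (norm_nonneg _) (norm_nonneg _)).1 h

lemma inner_dg (b : ℕ → ℂ) (C : ℝ) (hb : ∀ j, ‖b j‖ ≤ C) (b' : ℕ → ℂ) (C' : ℝ)
    (hb' : ∀ j, ‖b' j‖ ≤ C') (hbb : ∀ j, b' j = star (b j)) (x y : Hs) :
    ⟪dg b C hb x, y⟫_ℂ = ⟪x, dg b' C' hb' y⟫_ℂ := by
  rw [lp.inner_eq_tsum, lp.inner_eq_tsum]
  congr 1
  funext j
  rw [dg_apply, dg_apply, hbb, RCLike.inner_apply, RCLike.inner_apply, map_mul]
  show y j * (star (b j) * _) = star (b j) * y j * _
  ring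

lemma inner_Sh (x y : Hs) : ⟪Sh x, Sh y⟫_ℂ = ⟪x, y⟫_ℂ := by
  rw [lp.inner_eq_tsum, lp.inner_eq_tsum]
  have h := (lp.summable_inner (𝕜 := ℂ) (Sh x) (Sh y)).tsum_eq_zero_add
  rw [h]
  have h0 : ⟪(Sh x) 0, (Sh y) 0⟫_ℂ = 0 := by rw [Sh_zero]; simp
  rw [h0, zero_add]
  rfl

lemma dg_star (b : ℕ → ℂ) (C : ℝ) (hb : ∀ j, ‖b j‖ ≤ C) (b' : ℕ → ℂ) (C' : ℝ)
    (hb' : ∀ j, ‖b' j‖ ≤ C') (hbb : ∀ j, b' j = star (b j)) :
    star (dg b C hb) = dg b' C' hb' := by
  rw [ContinuousLinearMap.star_eq_adjoint]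
  symm
  rw [ContinuousLinearMap.eq_adjoint_iff]
  intro x y
  refine inner_dg b' C' hb' b C hb (fun j => ?_) x y
  rw [hbb, star_star]

lemma star_Sh_mul : star Sh * Sh = 1 := by
  rw [ContinuousLinearMap.star_eq_adjoint]
  ext x : 1
  refine ext_inner_left ℂ fun y => ?_
  show ⟪y, ContinuousLinearMap.adjoint Sh (Sh x)⟫_ℂ = ⟪y, x⟫_ℂ
  rw [ContinuousLinearMap.adjoint_inner_right, inner_Sh]

variable {Ω : Type} [TopologicalSpace Ω] {σ : CocompactMap Ω Ω}

lemma norm_apply_le' (f : Czero Ω) (v : Ω) : ‖f v‖ ≤ ‖f‖ :=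
  BoundedContinuousFunction.norm_coe_le_norm f.toBCF v

/-- diagonal operator of a function along the orbit of `w` -/
def od (σ : CocompactMap Ω Ω) (w : Ω) (f : Czero Ω) : Hs →L[ℂ] Hs :=
  dg (fun j => f (σ^[j] w)) ‖f‖ fun _ => norm_apply_le' f _

lemma od_apply (w : Ω) (f : Czero Ω) (ξ : Hs) (j : ℕ) :
    (od σ w f ξ) j = f (σ^[j] w) * ξ j := rfl

lemma od_mul (w : Ω) (f g : Czero Ω) : od σ w (f * g) = od σ w f * od σ w g := by
  ext ξ j
  show (f (σ^[j] w) * g (σ^[j] w)) * ξ j = f (σ^[j] w) * (g (σ^[j] w) * ξ j)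
  ring

lemma od_star (w : Ω) (f : Czero Ω) : od σ w (star f) = star (od σ w f) :=
  (dg_star _ _ _ _ _ _ fun _ => rfl).symm

lemma od_Sh (w : Ω) (f : Czero Ω) : od σ w f * Sh = Sh * od σ w (pull σ f) := by
  ext ξ j
  cases j with
  | zero => exact mul_zero _
  | succ j =>
    show f (σ^[j + 1] w) * ξ j = f (σ (σ^[j] w)) * ξ j
    rw [Function.iterate_succ_apply']

/-- the orbit representation -/
def orb (σ : CocompactMap Ω Ω) (w : Ω) : ToeplitzRep σ (Hs →L[ℂ] Hs) where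
  pi :=
    { toFun := od σ w
      map_smul' := fun c f => by
        ext ξ j
        show (c * f (σ^[j] w)) * ξ j = c * (f (σ^[j] w) * ξ j)
        ring
      map_zero' := by
        ext ξ j
        exact zero_mul _
      map_add' := fun f g => by
        ext ξ j
        exact add_mul _ _ _
      map_mul' := od_mul w
      map_star' := od_star w }
  t :=
    { toFun := fun f => Sh * od σ w f
      map_add' := fun f g => by
        rw [← mul_add]
        congr 1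
        ext ξ j
        exact add_mul _ _ _
      map_smul' := fun c f => by
        rw [RingHom.id_apply, ← mul_smul_comm]
        congr 1
        ext ξ j
        show (c * f (σ^[j] w)) * ξ j = c * (f (σ^[j] w) * ξ j)
        ring }
  left f ξ := by
    show od σ w f * (Sh * od σ w ξ) = Sh * od σ w (pull σ f * ξ)
    rw [← mul_assoc, od_Sh, od_mul, mul_assoc]
  right ξ f := by
    show Sh * od σ w ξ * od σ w f = Sh * od σ w (ξ * f)
    rw [od_mul, mul_assoc]
  inner ξ η := by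
    show star (Sh * od σ w ξ) * (Sh * od σ w η) = od σ w (star ξ * η)
    rw [StarMul.star_mul, mul_assoc, ← mul_assoc (star Sh), star_Sh_mul, one_mul, od_mul, od_star]

end Pool.Agent.H188R3.LD
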