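import Mathlib
import Pool.Agent.H188R3.LD2

/-!
The universal Toeplitz representation, the tensor algebra, and Fourier coefficients.
-/

set_option autoImplicit false
set_option linter.unusedSectionVars false

noncomputable section

open scoped ZeroAtInfty ENNReal InnerProductSpace
open Filter Topology

namespace Pool.Agent.H188R3.LD

variable {Ω : Type} [TopologicalSpace Ω] {σ : CocompactMap Ω Ω}
variable {T : Type} [NonUnitalCStarAlgebra T]

/-- the linear span of all words -/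
def PP (R : ToeplitzRep σ T) : Submodule ℂ T := Submodule.span ℂ {x | ∃ l F, Wd R l x F}

lemma PP_mul {R : ToeplitzRep σ T} {x y : T} (hx : x ∈ PP R) (hy : y ∈ PP R) :
    x * y ∈ PP R := by
  induction hx using Submodule.span_induction with
  | mem x hx =>
    obtain ⟨l, F, hx⟩ := hx
    induction hy using Submodule.span_induction with
    | mem y hy =>
      obtain ⟨l', G, hy⟩ := hy
      exact Submodule.subset_span ⟨_, _, hx.mul hy⟩
    | zero => rw [mul_zero]; exact Submodule.zero_mem _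
    | add y z _ _ ih ih' => rw [mul_add]; exact Submodule.add_mem _ ih ih'
    | smul c y _ ih => rw [mul_smul_comm]; exact Submodule.smul_mem _ c ih
  | zero => rw [zero_mul]; exact Submodule.zero_mem _
  | add y z _ _ ih ih' => rw [add_mul]; exact Submodule.add_mem _ ih ih'
  | smul c y _ ih => rw [smul_mul_assoc]; exact Submodule.smul_mem _ c ih

/-- the span of the words as a subalgebra -/
def PPa (R : ToeplitzRep σ T) : NonUnitalSubalgebra ℂ T where
  toNonUnitalSubsemiring :=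
    { carrier := PP R
      add_mem' := fun ha hb => Submodule.add_mem _ ha hb
      zero_mem' := Submodule.zero_mem _
      mul_mem' := fun ha hb => PP_mul ha hb }
  smul_mem' := fun c _ hx => Submodule.smul_mem _ c hx

lemma adjoin_le_PPa (R : ToeplitzRep σ T) :
    NonUnitalAlgebra.adjoin ℂ (Set.range R.pi ∪ Set.range R.t) ≤ PPa R := by
  apply NonUnitalAlgebra.adjoin_le
  rintro _ (⟨f, rfl⟩ | ⟨ξ, rfl⟩)
  · exact Submodule.subset_span ⟨_, _, Wd.pi f⟩
  · exact Submodule.subset_span ⟨_, _, Wd.t ξ⟩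

lemma approx_PP {R : ToeplitzRep σ T} {a : T} (ha : a ∈ tensorAlg R) {ε : ℝ} (hε : 0 < ε) :
    ∃ p ∈ PP R, ‖a - p‖ < ε := by
  have h : a ∈ closure ((NonUnitalAlgebra.adjoin ℂ (Set.range R.pi ∪ Set.range R.t) :
    NonUnitalSubalgebra ℂ T) : Set T) := ha
  rw [Metric.mem_closure_iff] at h
  obtain ⟨p, hp, hp'⟩ := h ε hε
  exact ⟨p, adjoin_le_PPa R hp, by rwa [dist_eq_norm] at hp'⟩

lemma mem_tensorAlg_of_adjoin {R : ToeplitzRep σ T} {a : T}
    (ha : a ∈ NonUnitalAlgebra.adjoin ℂ (Set.range R.pi ∪ Set.range R.t)) : a ∈ tensorAlg R :=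
  NonUnitalSubalgebra.le_topologicalClosure _ ha

lemma Wd.mem_adjoin {R : ToeplitzRep σ T} {l : ℕ} {x : T} {F : Czero Ω} (h : Wd R l x F) :
    x ∈ NonUnitalAlgebra.adjoin ℂ (Set.range R.pi ∪ Set.range R.t) := by
  induction h with
  | pi f => exact NonUnitalAlgebra.subset_adjoin ℂ (Or.inl ⟨f, rfl⟩)
  | t ξ => exact NonUnitalAlgebra.subset_adjoin ℂ (Or.inr ⟨ξ, rfl⟩)
  | mulL ξ h ih =>
    exact mul_mem (NonUnitalAlgebra.subset_adjoin ℂ (Or.inr ⟨ξ, rfl⟩)) ih

lemma WS_mem {R : ToeplitzRep σ T} {l : ℕ} {p : T × Czero Ω} (h : p ∈ WS R l) :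
    p.1 ∈ tensorAlg R := by
  induction h using Submodule.span_induction with
  | mem p hp => exact mem_tensorAlg_of_adjoin hp.mem_adjoin
  | zero => exact zero_mem _
  | add p q _ _ ih ih' => exact add_mem ih ih'
  | smul c p _ ih => exact SMulMemClass.smul_mem c ih

lemma pi_mem (R : ToeplitzRep σ T) (f : Czero Ω) : R.pi f ∈ tensorAlg R :=
  WS_mem (Wd.pi f).mem

/-- a decomposition into homogeneous parts -/
def IsDec (R : ToeplitzRep σ T) (N : ℕ) (X : ℕ → T × Czero Ω) : Prop :=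
  (∀ l, X l ∈ WS R l) ∧ ∀ l, N ≤ l → X l = 0

/-- the sum of the parts -/
def val (N : ℕ) (X : ℕ → T × Czero Ω) : T := ∑ l ∈ Finset.range N, (X l).1

lemma val_mono {R : ToeplitzRep σ T} {N M : ℕ} {X : ℕ → T × Czero Ω} (h : IsDec R N X)
    (hNM : N ≤ M) : val M X = val N X := by
  unfold val
  symm
  apply Finset.sum_subset
  · intro l hl
    rw [Finset.mem_range] at hl ⊢
    omega
  · intro l _ hl
    rw [Finset.mem_range, not_lt] at hl
    rw [h.2 l hl]
    rfl

lemma IsDec.mono {R : ToeplitzRep σ T} {N M : ℕ} {X : ℕ → T × Czero Ω} (h : IsDec R N X)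
    (hNM : N ≤ M) : IsDec R M X := ⟨h.1, fun l hl => h.2 l (hNM.trans hl)⟩

lemma IsDec.sub {R : ToeplitzRep σ T} {N M : ℕ} {X Y : ℕ → T × Czero Ω} (h : IsDec R N X)
    (h' : IsDec R M Y) : IsDec R (max N M) (fun l => X l - Y l) ∧
      val (max N M) (fun l => X l - Y l) = val N X - val M Y := by
  refine ⟨⟨fun l => Submodule.sub_mem _ (h.1 l) (h'.1 l), fun l hl => ?_⟩, ?_⟩
  · show X l - Y l = 0
    rw [h.2 l ((le_max_left _ _).trans hl), h'.2 l ((le_max_right _ _).trans hl), sub_zero]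
  · rw [← val_mono h (le_max_left N M), ← val_mono h' (le_max_right N M)]
    unfold val
    rw [← Finset.sum_sub_distrib]
    rfl

lemma exists_dec {R : ToeplitzRep σ T} {p : T} (hp : p ∈ PP R) :
    ∃ N X, IsDec R N X ∧ val N X = p := by
  induction hp using Submodule.span_induction with
  | mem x hx =>
    obtain ⟨l, F, hx⟩ := hx
    refine ⟨l + 1, fun k => if k = l then (x, F) else 0, ⟨fun k => ?_, fun k hk => ?_⟩, ?_⟩
    · show (if k = l then (x, F) else 0) ∈ _
      by_cases h : k = l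
      · subst h
        rw [if_pos rfl]
        exact hx.mem
      · rw [if_neg h]
        exact Submodule.zero_mem _
    · show (if k = l then (x, F) else 0) = 0
      rw [if_neg (by omega)]
    · unfold val
      rw [Finset.sum_eq_single l]
      · show (if l = l then (x, F) else 0).1 = x
        rw [if_pos rfl]
      · intro k _ hk
        show (if k = l then (x, F) else 0).1 = 0
        rw [if_neg hk]
        rfl
      · intro h
        exact absurd (Finset.mem_range.2 (Nat.lt_succ_self l)) h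
  | zero => exact ⟨0, fun _ => 0, ⟨fun _ => Submodule.zero_mem _, fun _ _ => rfl⟩, rfl⟩
  | add x y _ _ ih ih' =>
    obtain ⟨N, X, hX, rfl⟩ := ih
    obtain ⟨M, Y, hY, rfl⟩ := ih'
    refine ⟨max N M, fun l => X l + Y l, ⟨fun l => Submodule.add_mem _ (hX.1 l) (hY.1 l),
      fun l hl => ?_⟩, ?_⟩
    · show X l + Y l = 0
      rw [hX.2 l ((le_max_left _ _).trans hl), hY.2 l ((le_max_right _ _).trans hl), add_zero]
    · rw [← val_mono hX (le_max_left N M), ← val_mono hY (le_max_right N M)]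
      unfold val
      rw [← Finset.sum_add_distrib]
      rfl
  | smul c x _ ih =>
    obtain ⟨N, X, hX, rfl⟩ := ih
    refine ⟨N, fun l => c • X l, ⟨fun l => Submodule.smul_mem _ c (hX.1 l), fun l hl => ?_⟩, ?_⟩
    · show c • X l = 0
      rw [hX.2 l hl, smul_zero]
    · unfold val
      rw [Finset.smul_sum]
      rfl

/-! ### Fourier coefficients -/

section

variable {R : ToeplitzRep σ T} (hU : IsUniversal R)

/-- the homomorphism to `B(ℓ²(ℕ))` given by the orbit of `w` -/
def Th (w : Ω) : T →⋆ₙₐ[ℂ] (Hs →L[ℂ] Hs) := Classical.choose (hU.lift _ (orb σ w))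

lemma Th_pi (w : Ω) (f : Czero Ω) : Th hU w (R.pi f) = od σ w f :=
  (Classical.choose_spec (hU.lift _ (orb σ w))).1 f

lemma Th_t (w : Ω) (f : Czero Ω) : Th hU w (R.t f) = Sh * od σ w f :=
  (Classical.choose_spec (hU.lift _ (orb σ w))).2 f

lemma od_Sh_pow (w : Ω) (l : ℕ) (f : Czero Ω) :
    od σ w f * Sh ^ l = Sh ^ l * od σ w ((pull σ)^[l] f) := by
  induction l generalizing f with
  | zero => simp
  | succ l ih =>
    rw [pow_succ', ← mul_assoc, od_Sh, mul_assoc, ih, Function.iterate_succ_apply, mul_assoc]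

lemma Th_Wd (w : Ω) {l : ℕ} {x : T} {F : Czero Ω} (h : Wd R l x F) :
    Th hU w x = Sh ^ l * od σ w F := by
  induction h with
  | pi f => rw [Th_pi, pow_zero, one_mul]
  | t ξ => rw [Th_t, pow_one]
  | @mulL ξ l x F h ih =>
    rw [map_mul, Th_t, ih, mul_assoc, ← mul_assoc (od σ w ξ), od_Sh_pow, mul_assoc, ← od_mul,
      ← mul_assoc, ← pow_succ']

lemma od_add (w : Ω) (f g : Czero Ω) : od σ w (f + g) = od σ w f + od σ w g := by
  ext ξ j
  exact add_mul _ _ _

lemma od_smul (w : Ω) (c : ℂ) (f : Czero Ω) : od σ w (c • f) = c • od σ w f := by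
  ext ξ j
  show (c * f (σ^[j] w)) * ξ j = c * (f (σ^[j] w) * ξ j)
  ring

lemma Th_WS (w : Ω) {l : ℕ} {p : T × Czero Ω} (h : p ∈ WS R l) :
    Th hU w p.1 = Sh ^ l * od σ w p.2 := by
  induction h using Submodule.span_induction with
  | mem p hp => exact Th_Wd hU w hp
  | zero =>
    rw [Prod.fst_zero, Prod.snd_zero, map_zero]
    ext ξ j
    have : od σ w (0 : Czero Ω) = 0 := by
      ext ξ j
      exact zero_mul _
    rw [this, mul_zero]
  | add p q _ _ ih ih' => rw [Prod.fst_add, Prod.snd_add, map_add, ih, ih', od_add, mul_add]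
  | smul c p _ ih => rw [Prod.smul_fst, Prod.smul_snd, map_smul, ih, od_smul, mul_smul_comm]

/-- the first basis vector -/
def e0 : Hs := lp.single 2 0 (1 : ℂ)

lemma norm_e0 : ‖e0‖ = 1 := by
  unfold e0
  rw [lp.norm_single (by norm_num)]
  exact norm_one

lemma e0_apply (j : ℕ) : e0 j = if j = 0 then 1 else 0 := by
  unfold e0
  rw [lp.single_apply]
  by_cases h : j = 0
  · subst h
    simp
  · simp [h]

lemma Sh_pow_apply (l : ℕ) (ξ : Hs) (j : ℕ) :
    (Sh ^ l) ξ j = if l ≤ j then ξ (j - l) else 0 := by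
  induction l generalizing j with
  | zero => simp
  | succ l ih =>
    rw [pow_succ']
    show (Sh ((Sh ^ l) ξ)) j = _
    cases j with
    | zero => rw [Sh_zero]; simp
    | succ j =>
      rw [Sh_succ, ih]
      by_cases h : l ≤ j
      · rw [if_pos h, if_pos (by omega), Nat.add_sub_add_right]
      · rw [if_neg h, if_neg (by omega)]

/-- the coordinate of a vector is bounded by the norm -/
lemma coord_le (ξ : Hs) (j : ℕ) : ‖ξ j‖ ≤ ‖ξ‖ := lp.norm_apply_le_norm (by norm_num) ξ j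

/-- Fourier coefficients -/
def co (w : Ω) (l : ℕ) : T →ₗ[ℂ] ℂ where
  toFun a := (Th hU w a e0) l
  map_add' a b := by rw [map_add]; rfl
  map_smul' c a := by rw [map_smul]; rfl

lemma co_apply (w : Ω) (l : ℕ) (a : T) : co hU w l a = (Th hU w a e0) l := rfl

lemma norm_co_le (w : Ω) (l : ℕ) (a : T) : ‖co hU w l a‖ ≤ ‖a‖ := by
  rw [co_apply]
  refine (coord_le _ _).trans ?_
  refine ((Th hU w a).le_opNorm e0).trans ?_
  rw [norm_e0, mul_one]
  exact NonUnitalStarAlgHom.norm_apply_le (Th hU w) a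

lemma co_WS (w : Ω) (k : ℕ) {l : ℕ} {p : T × Czero Ω} (h : p ∈ WS R l) :
    co hU w k p.1 = if k = l then p.2 w else 0 := by
  rw [co_apply, Th_WS hU w h]
  show ((Sh ^ l) (od σ w p.2 e0)) k = _
  rw [Sh_pow_apply]
  by_cases h1 : l ≤ k
  · rw [if_pos h1, od_apply, e0_apply]
    by_cases h2 : k = l
    · subst h2
      simp
    · rw [if_neg h2, if_neg (by omega), mul_zero]
  · rw [if_neg h1, if_neg (by omega)]

lemma co_val (w : Ω) (k : ℕ) {N : ℕ} {X : ℕ → T × Czero Ω} (h : IsDec R N X) :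
    co hU w k (val N X) = (X k).2 w := by
  unfold val
  rw [map_sum]
  by_cases hk : k < N
  · rw [Finset.sum_eq_single k]
    · rw [co_WS hU w k (h.1 k), if_pos rfl]
    · intro l _ hl
      rw [co_WS hU w k (h.1 l), if_neg (Ne.symm hl)]
    · intro h'
      exact absurd (Finset.mem_range.2 hk) h'
  · rw [Finset.sum_eq_zero]
    · rw [h.2 k (not_lt.1 hk)]
      rfl
    · intro l hl
      rw [Finset.mem_range] at hl
      rw [co_WS hU w k (h.1 l), if_neg (by omega)]

lemma norm_C0_le {F : Czero Ω} {c : ℝ} (hc : 0 ≤ c) (h : ∀ v, ‖F v‖ ≤ c) : ‖F‖ ≤ c := by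
  have h2 : ‖F.toBCF‖ ≤ c := (BoundedContinuousFunction.norm_le hc).2 h
  exact h2

/-- the parts of a polynomial are controlled by its Fourier coefficients -/
lemma part_norm_le {N : ℕ} {X : ℕ → T × Czero Ω} (h : IsDec R N X) (k : ℕ) {c : ℝ} (hc : 0 ≤ c)
    (hv : ∀ w, ‖co hU w k (val N X)‖ ≤ c) : ‖(X k).1‖ ≤ c := by
  refine (WS_norm_le (h.1 k)).trans (norm_C0_le hc fun w => ?_)
  rw [← co_val hU w k h]
  exact hv w

/-! ### the gauge action -/

/-- the rotated representation -/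
def rotRep (R : ToeplitzRep σ T) (ζ : ℂ) (hζ : star ζ * ζ = 1) : ToeplitzRep σ T where
  pi := R.pi
  t := ζ • R.t
  left f ξ := by
    rw [LinearMap.smul_apply, LinearMap.smul_apply, mul_smul_comm, R.left]
  right ξ f := by
    rw [LinearMap.smul_apply, LinearMap.smul_apply, smul_mul_assoc, R.right]
  inner ξ η := by
    rw [LinearMap.smul_apply, LinearMap.smul_apply, star_smul, smul_mul_smul_comm, hζ, one_smul,
      R.inner]

/-- the gauge automorphism -/
def gam (ζ : ℂ) (hζ : star ζ * ζ = 1) : T →⋆ₙₐ[ℂ] T :=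
  Classical.choose (hU.lift T (rotRep R ζ hζ))

lemma gam_pi (ζ : ℂ) (hζ : star ζ * ζ = 1) (f : Czero Ω) : gam hU ζ hζ (R.pi f) = R.pi f :=
  (Classical.choose_spec (hU.lift T (rotRep R ζ hζ))).1 f

lemma gam_t (ζ : ℂ) (hζ : star ζ * ζ = 1) (f : Czero Ω) : gam hU ζ hζ (R.t f) = ζ • R.t f :=
  (Classical.choose_spec (hU.lift T (rotRep R ζ hζ))).2 f

lemma gam_Wd (ζ : ℂ) (hζ : star ζ * ζ = 1) {l : ℕ} {x : T} {F : Czero Ω} (h : Wd R l x F) :
    gam hU ζ hζ x = ζ ^ l • x := by
  induction h with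
  | pi f => rw [gam_pi, pow_zero, one_smul]
  | t ξ => rw [gam_t, pow_one]
  | mulL ξ h ih => rw [map_mul, gam_t, ih, smul_mul_smul_comm, ← pow_succ']

lemma gam_WS (ζ : ℂ) (hζ : star ζ * ζ = 1) {l : ℕ} {p : T × Czero Ω} (h : p ∈ WS R l) :
    gam hU ζ hζ p.1 = ζ ^ l • p.1 := by
  induction h using Submodule.span_induction with
  | mem p hp => exact gam_Wd hU ζ hζ hp
  | zero => simp
  | add p q _ _ ih ih' => rw [Prod.fst_add, map_add, ih, ih', smul_add]
  | smul c p _ ih => rw [Prod.smul_fst, map_smul, ih, smul_comm]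

lemma norm_gam_le (ζ : ℂ) (hζ : star ζ * ζ = 1) (a : T) : ‖gam hU ζ hζ a‖ ≤ ‖a‖ :=
  NonUnitalStarAlgHom.norm_apply_le (gam hU ζ hζ) a

end

end Pool.Agent.H188R3.LD
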