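import Mathlib
import Pool.Agent.H188R3.LD3

/-!
Fejer means and separation of points by Fourier coefficients.
-/

set_option autoImplicit false
set_option linter.unusedSectionVars false

noncomputable section

open scoped ZeroAtInfty ENNReal InnerProductSpace
open Filter Topology

namespace Pool.Agent.H188R3.LD

lemma star_mul_self_root {n : ℕ} {ζ : ℂ} (hn : n ≠ 0) (h : ζ ^ n = 1) : star ζ * ζ = 1 := by
  have h1 : ‖ζ‖ = 1 := Complex.norm_eq_one_of_pow_eq_one h hn
  have h2 : star ζ * ζ = ((‖ζ‖ ^ 2 : ℝ) : ℂ) := by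
    have := Complex.conj_mul' ζ
    rw [Complex.ofReal_pow]
    exact this
  rw [h2, h1]
  norm_num

lemma root_sum {n : ℕ} {ζ : ℂ} (hζ : IsPrimitiveRoot ζ n) (m : ℕ) :
    ∑ r ∈ Finset.range n, (ζ ^ r) ^ m = if n ∣ m then (n : ℂ) else 0 := by
  have h1 : ∀ r, (ζ ^ r) ^ m = (ζ ^ m) ^ r := fun r => by rw [← pow_mul, ← pow_mul, mul_comm]
  simp only [h1]
  by_cases h : n ∣ m
  · rw [if_pos h, (hζ.pow_eq_one_iff_dvd m).2 h]
    simp
  · rw [if_neg h]
    have h2 : ζ ^ m ≠ 1 := fun h' => h ((hζ.pow_eq_one_iff_dvd m).1 h')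
    have h3 := mul_neg_geom_sum (ζ ^ m) n
    rw [← pow_mul, mul_comm m n, pow_mul, hζ.pow_eq_one, one_pow, sub_self] at h3
    rcases mul_eq_zero.1 h3 with h4 | h4
    · exact absurd (sub_eq_zero.1 h4).symm h2
    · exact h4

/-- the Dirichlet sum -/
def Ker (M : ℕ) (z : ℂ) : ℂ := ∑ j ∈ Finset.range M, z ^ j

lemma count_eq (M l : ℕ) :
    ∑ j' ∈ Finset.range M, ∑ j ∈ Finset.range M, (if j + l = j' then (1 : ℂ) else 0) =
      ((M - l : ℕ) : ℂ) := by
  rw [Finset.sum_comm]
  have h1 : ∀ j ∈ Finset.range M, ∑ j' ∈ Finset.range M, (if j + l = j' then (1 : ℂ) else 0) =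
      if j + l < M then 1 else 0 := by
    intro j _
    rw [Finset.sum_ite_eq]
    simp only [Finset.mem_range]
  rw [Finset.sum_congr rfl h1, Finset.sum_boole]
  congr 1
  have h2 : (Finset.range M).filter (fun j => j + l < M) = Finset.range (M - l) := by
    ext j
    rw [Finset.mem_filter, Finset.mem_range, Finset.mem_range]
    omega
  rw [h2, Finset.card_range]

lemma kernel_sum {n M N l : ℕ} {ζ : ℂ} (hn : n = N + M) (hM : 0 < M)
    (hζ : IsPrimitiveRoot ζ n) (hl : l ≤ N) :
    ∑ r ∈ Finset.range n, (star (Ker M (ζ ^ r)) * Ker M (ζ ^ r)) * (ζ ^ r) ^ l =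
      (n : ℂ) * ((M - l : ℕ) : ℂ) := by
  have hn0 : n ≠ 0 := by omega
  have hζr : ∀ r, (ζ ^ r) ^ n = 1 := fun r => by
    rw [← pow_mul, mul_comm, pow_mul, hζ.pow_eq_one, one_pow]
  have key : ∀ r, (star (Ker M (ζ ^ r)) * Ker M (ζ ^ r)) * (ζ ^ r) ^ l =
      ∑ j' ∈ Finset.range M, ∑ j ∈ Finset.range M, (ζ ^ r) ^ (j + l + (n - j')) := by
    intro r
    have hs := star_mul_self_root hn0 (hζr r)
    generalize hz : ζ ^ r = z at *
    unfold Ker
    rw [star_sum, Finset.sum_mul_sum, Finset.sum_mul]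
    refine Finset.sum_congr rfl fun j' hj' => ?_
    rw [Finset.sum_mul]
    refine Finset.sum_congr rfl fun j _ => ?_
    rw [Finset.mem_range] at hj'
    have h1 : star (z ^ j') = z ^ (n - j') := by
      have h2 : star (z ^ j') * z ^ j' = 1 := by
        rw [star_pow, ← mul_pow, hs, one_pow]
      calc star (z ^ j') = star (z ^ j') * z ^ n := by rw [← hz, hζr r, mul_one]
        _ = star (z ^ j') * (z ^ j' * z ^ (n - j')) := by
            rw [← pow_add]
            congr 2
            omega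
        _ = z ^ (n - j') := by rw [← mul_assoc, h2, one_mul]
    rw [h1, ← pow_add, ← pow_add]
    congr 1
    ring
  rw [Finset.sum_congr rfl fun r _ => key r, Finset.sum_comm]
  rw [← count_eq, Finset.mul_sum]
  refine Finset.sum_congr rfl fun j' hj' => ?_
  rw [Finset.sum_comm, Finset.mul_sum]
  refine Finset.sum_congr rfl fun j hj => ?_
  rw [root_sum hζ]
  rw [Finset.mem_range] at hj hj'
  by_cases h : j + l = j'
  · rw [if_pos h, if_pos, mul_one]
    rw [h]
    exact ⟨1, by omega⟩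
  · rw [if_neg h, if_neg, mul_zero]
    rintro ⟨c, hc⟩
    rcases c with _ | _ | c
    · omega
    · omega
    · have : n * (c + 2) = n * c + 2 * n := by ring
      have h3 : j + l + (n - j') = n * c + 2 * n := by rw [hc]; ring
      have : 0 ≤ n * c := Nat.zero_le _
      omega

variable {Ω : Type} [TopologicalSpace Ω] {σ : CocompactMap Ω Ω}
variable {T : Type} [NonUnitalCStarAlgebra T]
variable {R : ToeplitzRep σ T} (hU : IsUniversal R)

/-- the Fejer means -/
def fej (M N : ℕ) (X : ℕ → T × Czero Ω) : T :=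
  ∑ l ∈ Finset.range N, (((M - l : ℕ) : ℂ) / (M : ℂ)) • (X l).1

include hU in
lemma fejer_le {N : ℕ} {X : ℕ → T × Czero Ω} (h : IsDec R N X) {M : ℕ} (hM : 0 < M) :
    ‖fej M N X‖ ≤ ‖val N X‖ := by
  set n := N + M with hn
  have hn0 : n ≠ 0 := by omega
  obtain ⟨ζ, hζ⟩ : ∃ ζ : ℂ, IsPrimitiveRoot ζ n := ⟨_, Complex.isPrimitiveRoot_exp n hn0⟩
  have hζr : ∀ r, (ζ ^ r) ^ n = 1 := fun r => by
    rw [← pow_mul, mul_comm, pow_mul, hζ.pow_eq_one, one_pow]
  have hs : ∀ r, star (ζ ^ r) * ζ ^ r = 1 := fun r => star_mul_self_root hn0 (hζr r)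
  have hg : ∀ r, gam hU (ζ ^ r) (hs r) (val N X) =
      ∑ l ∈ Finset.range N, (ζ ^ r) ^ l • (X l).1 := by
    intro r
    unfold val
    rw [map_sum]
    exact Finset.sum_congr rfl fun l _ => gam_WS hU _ (hs r) (h.1 l)
  have h1 : ∑ r ∈ Finset.range n, (star (Ker M (ζ ^ r)) * Ker M (ζ ^ r)) •
      gam hU (ζ ^ r) (hs r) (val N X) = ((n : ℂ) * (M : ℂ)) • fej M N X := by
    unfold fej
    rw [Finset.smul_sum]
    simp only [hg, Finset.smul_sum]
    rw [Finset.sum_comm]
    refine Finset.sum_congr rfl fun l hl => ?_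
    rw [Finset.mem_range] at hl
    simp only [smul_smul]
    rw [← Finset.sum_smul, kernel_sum hn hM hζ hl.le]
    congr 1
    have : (M : ℂ) ≠ 0 := by exact_mod_cast hM.ne'
    field_simp
  have h2 : ‖((n : ℂ) * (M : ℂ)) • fej M N X‖ ≤ ((n : ℝ) * M) * ‖val N X‖ := by
    rw [← h1]
    refine (norm_sum_le _ _).trans ?_
    have h3 : ∀ r ∈ Finset.range n, ‖(star (Ker M (ζ ^ r)) * Ker M (ζ ^ r)) •
        gam hU (ζ ^ r) (hs r) (val N X)‖ ≤
        ‖star (Ker M (ζ ^ r)) * Ker M (ζ ^ r)‖ * ‖val N X‖ := by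
      intro r _
      rw [norm_smul]
      exact mul_le_mul_of_nonneg_left (norm_gam_le hU _ _ _) (norm_nonneg _)
    refine (Finset.sum_le_sum h3).trans ?_
    rw [← Finset.sum_mul]
    refine mul_le_mul_of_nonneg_right ?_ (norm_nonneg _)
    have h4 := kernel_sum (l := 0) hn hM hζ (Nat.zero_le _)
    simp only [pow_zero, mul_one, Nat.sub_zero] at h4
    have h5 : ∀ r, star (Ker M (ζ ^ r)) * Ker M (ζ ^ r) =
        ((‖star (Ker M (ζ ^ r)) * Ker M (ζ ^ r)‖ : ℝ) : ℂ) := by
      intro r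
      rw [norm_mul, norm_star]
      have := Complex.conj_mul' (Ker M (ζ ^ r))
      rw [← sq, Complex.ofReal_pow]
      exact this
    rw [Finset.sum_congr rfl fun r _ => h5 r, ← Complex.ofReal_sum] at h4
    apply le_of_eq
    exact_mod_cast h4
  rw [norm_smul] at h2
  have h6 : ‖(n : ℂ) * (M : ℂ)‖ = (n : ℝ) * M := by
    rw [norm_mul, Complex.norm_natCast, Complex.norm_natCast]
  rw [h6] at h2
  have h7 : 0 < (n : ℝ) * M := by
    have : 0 < n := by omega
    positivity
  exact le_of_mul_le_mul_left h2 h7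

lemma fej_mono {N N' M : ℕ} {X : ℕ → T × Czero Ω} (h : IsDec R N X) (hN : N ≤ N') :
    fej M N' X = fej M N X := by
  unfold fej
  symm
  apply Finset.sum_subset
  · intro l hl
    rw [Finset.mem_range] at hl ⊢
    omega
  · intro l _ hl
    rw [Finset.mem_range, not_lt] at hl
    rw [h.2 l hl, Prod.fst_zero, smul_zero]

/-- elements of the tensor algebra are determined by their Fourier coefficients -/
theorem eq_zero_of_co {a : T} (ha : a ∈ tensorAlg R) (h : ∀ w l, co hU w l a = 0) : a = 0 := by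
  by_contra hne
  have hpos : 0 < ‖a‖ := norm_pos_iff.2 hne
  set ε := ‖a‖ / 6 with hε
  have hε0 : 0 < ε := by positivity
  obtain ⟨p, hp, hap⟩ := approx_PP ha hε0
  obtain ⟨N, X, hX, rfl⟩ := exists_dec hp
  obtain ⟨M0, hM0⟩ := exists_nat_gt ((∑ l ∈ Finset.range N, (l : ℝ) * ‖(X l).1‖) / ε)
  set M := M0 + 1 with hM
  have hMpos : 0 < M := by omega
  have hMr : (0 : ℝ) < M := by exact_mod_cast hMpos
  have h1 : ‖val N X - fej M N X‖ ≤ ε := by
    unfold val fej
    rw [← Finset.sum_sub_distrib]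
    have h2 : ∀ l ∈ Finset.range N, ‖(X l).1 - (((M - l : ℕ) : ℂ) / (M : ℂ)) • (X l).1‖ ≤
        ((l : ℝ) * ‖(X l).1‖) / M := by
      intro l _
      have h3 : (X l).1 - (((M - l : ℕ) : ℂ) / (M : ℂ)) • (X l).1 =
          (((1 - ((M - l : ℕ) : ℝ) / (M : ℝ) : ℝ)) : ℂ) • (X l).1 := by
        push_cast
        rw [sub_smul, one_smul]
      rw [h3, norm_smul, Complex.norm_real]
      rw [mul_div_right_comm]
      refine mul_le_mul_of_nonneg_right ?_ (norm_nonneg _)
      rw [Real.norm_eq_abs, abs_le]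
      have h4 : ((M - l : ℕ) : ℝ) ≤ M := by exact_mod_cast Nat.sub_le _ _
      have h5 : (M : ℝ) - l ≤ ((M - l : ℕ) : ℝ) := by
        rw [sub_le_iff_le_add]
        exact_mod_cast (by omega : M ≤ M - l + l)
      have h6 : ((M - l : ℕ) : ℝ) / M ≤ 1 := by rw [div_le_one hMr]; exact h4
      constructor
      · have : 0 ≤ (l : ℝ) / M := by positivity
        linarith
      · rw [sub_le_iff_le_add, ← add_div, le_div_iff₀ hMr, one_mul]
        linarith
    refine (norm_sum_le _ _).trans ((Finset.sum_le_sum h2).trans ?_)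
    rw [← Finset.sum_div, div_le_iff₀ hMr]
    rw [div_lt_iff₀ hε0] at hM0
    have : (M0 : ℝ) ≤ M := by exact_mod_cast (by omega : M0 ≤ M)
    nlinarith
  obtain ⟨p', hp', hap'⟩ := approx_PP ha (show 0 < ε / M by positivity)
  obtain ⟨N', X', hX', rfl⟩ := exists_dec hp'
  have hεM : ε / M ≤ ε := by
    apply div_le_self hε0.le
    exact_mod_cast hMpos
  have h7 : ∀ l, ‖(X' l).1‖ ≤ ε / M := by
    intro l
    refine part_norm_le hU hX' l (by positivity) fun w => ?_
    have h8 : co hU w l (val N' X') = - co hU w l (a - val N' X') := by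
      rw [map_sub, h, zero_sub, neg_neg]
    rw [h8, norm_neg]
    exact (norm_co_le hU w l _).trans hap'.le
  have h9 : ‖fej M N' X'‖ ≤ ε := by
    have h10 : fej M N' X' = fej M (min N' M) X' := by
      unfold fej
      symm
      apply Finset.sum_subset
      · intro l hl
        rw [Finset.mem_range] at hl ⊢
        omega
      · intro l hl hl'
        rw [Finset.mem_range] at hl
        rw [Finset.mem_range, not_lt] at hl'
        have : M - l = 0 := by omega
        rw [this]
        simp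
    rw [h10]
    unfold fej
    have h11 : ∀ l ∈ Finset.range (min N' M), ‖(((M - l : ℕ) : ℂ) / (M : ℂ)) • (X' l).1‖ ≤
        ε / M := by
      intro l _
      rw [norm_smul, norm_div, Complex.norm_natCast, Complex.norm_natCast]
      have h4 : ((M - l : ℕ) : ℝ) ≤ M := by exact_mod_cast Nat.sub_le _ _
      have h6 : ((M - l : ℕ) : ℝ) / M ≤ 1 := by rw [div_le_one hMr]; exact h4
      calc ((M - l : ℕ) : ℝ) / M * ‖(X' l).1‖ ≤ 1 * (ε / M) :=
            mul_le_mul h6 (h7 l) (norm_nonneg _) (by norm_num)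
        _ = ε / M := one_mul _
    refine (norm_sum_le _ _).trans ((Finset.sum_le_sum h11).trans ?_)
    rw [Finset.sum_const, Finset.card_range, nsmul_eq_mul]
    have h12 : ((min N' M : ℕ) : ℝ) ≤ M := by exact_mod_cast min_le_right _ _
    calc ((min N' M : ℕ) : ℝ) * (ε / M) ≤ M * (ε / M) :=
          mul_le_mul_of_nonneg_right h12 (by positivity)
      _ = ε := by field_simp
  have h13 : ‖fej M N X - fej M N' X'‖ ≤ 2 * ε := by
    obtain ⟨h14, h15⟩ := hX.sub hX'
    have h16 := fejer_le hU h14 hMpos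
    rw [h15] at h16
    have h17 : fej M (max N N') (fun l => X l - X' l) = fej M N X - fej M N' X' := by
      rw [← fej_mono hX (le_max_left N N'), ← fej_mono hX' (le_max_right N N')]
      unfold fej
      rw [← Finset.sum_sub_distrib]
      refine Finset.sum_congr rfl fun l _ => ?_
      rw [← smul_sub]
      rfl
    rw [h17] at h16
    refine h16.trans ?_
    have h18 : val N X - val N' X' = (a - val N' X') - (a - val N X) := by abel
    rw [h18]
    refine (norm_sub_le _ _).trans ?_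
    linarith
  have h19 : a = (a - val N X) + (val N X - fej M N X) + (fej M N X - fej M N' X') +
      fej M N' X' := by abel
  have h20 : ‖a‖ ≤ ε + ε + 2 * ε + ε := by
    conv_lhs => rw [h19]
    refine (norm_add_le _ _).trans (add_le_add ?_ h9)
    refine (norm_add_le _ _).trans (add_le_add ?_ h13)
    exact (norm_add_le _ _).trans (add_le_add hap.le h1)
  have h21 : ‖a‖ = 6 * ε := by rw [hε]; ring
  linarith

end Pool.Agent.H188R3.LD
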