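import Mathlib
import Pool.Agent.H188R3.LD4

/-!
Derivations and approximately local derivations; passage to finite-dimensional representations.
-/

set_option autoImplicit false
set_option linter.unusedSectionVars false

noncomputable section

open scoped ZeroAtInfty ENNReal InnerProductSpace
open Filter Topology

namespace Pool.Agent.H188R3.LD

section

variable {A : Type} [NonUnitalNormedRing A] [Module ℂ A] [IsScalarTower ℂ A A]
  [SMulCommClass ℂ A A]
variable {M : Type} [Ring M] [Algebra ℂ M] [TopologicalSpace M] [T2Space M] [ContinuousMul M]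
variable {ρ : A →ₗ[ℂ] M} (hc : Continuous ρ) (hm : ∀ a b, ρ (a * b) = ρ a * ρ b)
variable (H1 : ∀ D : A →L[ℂ] A, IsDeriv D → ∀ a, ρ a = 0 → ρ (D a) = 0)
variable {δ : A →L[ℂ] A} (hδ : IsApproxLocal δ)

include hc H1 hδ in
lemma abs_zero (a : A) (h : ρ a = 0) : ρ (δ a) = 0 := by
  obtain ⟨D, hD, hlim⟩ := hδ a
  have h1 : Tendsto (fun n => ρ (D n a)) atTop (𝓝 (ρ (δ a))) :=
    (hc.tendsto _).comp hlim
  have h2 : (fun n => ρ (D n a)) = fun _ => 0 := funext fun n => H1 _ (hD n) a h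
  rw [h2] at h1
  exact (tendsto_nhds_unique h1 tendsto_const_nhds)

include hc H1 hδ in
lemma abs_congr {a b : A} (h : ρ a = ρ b) : ρ (δ a) = ρ (δ b) := by
  have h1 := abs_zero hc H1 hδ (a - b) (by rw [map_sub, h, sub_self])
  rw [map_sub, map_sub, sub_eq_zero] at h1
  exact h1

include hc hm H1 hδ in
lemma abs_unit {u : A} (hu : ρ u = 1) : ρ (δ u) = 0 := by
  obtain ⟨D, hD, hlim⟩ := hδ u
  have h1 : Tendsto (fun n => ρ (D n u)) atTop (𝓝 (ρ (δ u))) :=
    (hc.tendsto _).comp hlim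
  have h2 : (fun n => ρ (D n u)) = fun _ => 0 := by
    funext n
    have h3 := H1 _ (hD n) (u * u - u) (by rw [map_sub, hm, hu, mul_one, sub_self])
    rw [map_sub, map_sub, hD n, map_add, hm, hm, hu, mul_one, one_mul, add_sub_cancel_right] at h3
    exact h3
  rw [h2] at h1
  exact (tendsto_nhds_unique h1 tendsto_const_nhds)

include hc hm hδ in
lemma abs_key {e f : A} (he : ρ e * ρ e = ρ e) (hf : ρ f * ρ f = ρ f) :
    (1 - ρ e) * ρ (δ (e * f)) * (1 - ρ f) = 0 := by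
  obtain ⟨D, hD, hlim⟩ := hδ (e * f)
  have h1 : Tendsto (fun n => (1 - ρ e) * ρ (D n (e * f)) * (1 - ρ f)) atTop
      (𝓝 ((1 - ρ e) * ρ (δ (e * f)) * (1 - ρ f))) :=
    ((((hc.tendsto _).comp hlim).const_mul _).mul_const _)
  have h2 : (fun n => (1 - ρ e) * ρ (D n (e * f)) * (1 - ρ f)) = fun _ => 0 := by
    funext n
    rw [hD n, map_add, hm, hm, mul_add, add_mul]
    have h3 : (1 - ρ e) * (ρ (D n e) * ρ f) * (1 - ρ f) = 0 := by
      rw [mul_assoc, mul_assoc, mul_sub, hf, mul_one, sub_self, mul_zero, mul_zero]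
    have h4 : (1 - ρ e) * (ρ e * ρ (D n f)) * (1 - ρ f) = 0 := by
      rw [← mul_assoc (1 - ρ e), sub_mul, he, one_mul, sub_self, zero_mul, zero_mul]
    rw [h3, h4, add_zero]
  rw [h2] at h1
  exact (tendsto_nhds_unique h1 tendsto_const_nhds)

include hc hm H1 hδ in
lemma abs_key2 {u : A} (hu : ρ u = 1) {e f : A} (he : ρ e * ρ e = ρ e) (hf : ρ f * ρ f = ρ f) :
    ρ (δ (e * f)) * (1 - ρ f) = ρ e * ρ (δ f) * (1 - ρ f) := by
  have h1 := abs_key hc hm hδ he hf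
  have he' : ρ (u - e) * ρ (u - e) = ρ (u - e) := by
    rw [map_sub, hu, mul_sub, mul_one, sub_mul, one_mul, he, sub_self, sub_zero]
  have h2 := abs_key hc hm hδ he' hf
  have h3 : ρ (δ ((u - e) * f)) = ρ (δ f) - ρ (δ (e * f)) := by
    rw [← map_sub, ← map_sub]
    apply abs_congr hc H1 hδ
    rw [hm, map_sub, map_sub, hm, hu, sub_mul, one_mul]
  rw [h3, map_sub, hu, sub_sub_cancel] at h2
  rw [sub_mul, sub_mul, one_mul, sub_eq_zero] at h1
  rw [mul_sub (ρ e), sub_mul, sub_eq_zero] at h2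
  rw [h1, h2]

include hc hm H1 hδ in
lemma abs_idem {u : A} (hu : ρ u = 1) {e f : A} (he : ρ e * ρ e = ρ e) (hf : ρ f * ρ f = ρ f) :
    ρ (δ (e * f)) = ρ (δ e) * ρ f + ρ e * ρ (δ f) := by
  have h1 := abs_key2 hc hm H1 hδ hu he hf
  have hf' : ρ (u - f) * ρ (u - f) = ρ (u - f) := by
    rw [map_sub, hu, mul_sub, mul_one, sub_mul, one_mul, hf, sub_self, sub_zero]
  have h2 := abs_key2 hc hm H1 hδ hu he hf'
  have h3 : ρ (δ (e * (u - f))) = ρ (δ e) - ρ (δ (e * f)) := by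
    rw [← map_sub, ← map_sub]
    apply abs_congr hc H1 hδ
    rw [hm, map_sub, map_sub, hm, hu, mul_sub, mul_one]
  have h4 : ρ (δ (u - f)) = - ρ (δ f) := by
    rw [map_sub, map_sub, abs_unit hc hm H1 hδ hu, zero_sub]
  rw [h3, h4, map_sub, hu, sub_sub_cancel] at h2
  rw [mul_sub, mul_sub, mul_one, mul_one] at h1
  rw [sub_mul, mul_neg, neg_mul] at h2
  have h5 : ρ (δ (e * f)) = ρ e * ρ (δ f) - ρ e * ρ (δ f) * ρ f + ρ (δ (e * f)) * ρ f := by
    rw [← h1]; abel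
  rw [h5]
  have h6 : ρ (δ (e * f)) * ρ f = ρ (δ e) * ρ f + ρ e * ρ (δ f) * ρ f := by
    have h7 : ρ (δ e) * ρ f - ρ (δ (e * f)) * ρ f + ρ e * ρ (δ f) * ρ f = 0 := by
      rw [h2]; abel
    have h8 : ρ (δ (e * f)) * ρ f = (ρ (δ e) * ρ f + ρ e * ρ (δ f) * ρ f) -
      (ρ (δ e) * ρ f - ρ (δ (e * f)) * ρ f + ρ e * ρ (δ f) * ρ f) := by abel
    rw [h8, h7, sub_zero]
  rw [h6]
  abel

/-- the left variable -/
def Kl (ρ : A →ₗ[ℂ] M) (δ : A →L[ℂ] A) (f : A) : Submodule ℂ A where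
  carrier := {a | ρ (δ (a * f)) = ρ (δ a) * ρ f + ρ a * ρ (δ f)}
  add_mem' := by
    intro a b ha hb
    simp only [Set.mem_ofPred_eq] at *
    rw [add_mul, map_add, map_add, ha, hb, map_add, map_add, map_add, add_mul, add_mul]
    abel
  zero_mem' := by
    simp
  smul_mem' := by
    intro c a ha
    simp only [Set.mem_ofPred_eq] at *
    rw [smul_mul_assoc, map_smul, map_smul, ha, map_smul, map_smul, map_smul, smul_add,
      smul_mul_assoc, smul_mul_assoc]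

/-- the right variable -/
def Kr (ρ : A →ₗ[ℂ] M) (δ : A →L[ℂ] A) (a : A) : Submodule ℂ A where
  carrier := {f | ρ (δ (a * f)) = ρ (δ a) * ρ f + ρ a * ρ (δ f)}
  add_mem' := by
    intro f g hf hg
    simp only [Set.mem_ofPred_eq] at *
    rw [mul_add, map_add, map_add, hf, hg, map_add, map_add, map_add, mul_add, mul_add]
    abel
  zero_mem' := by
    simp
  smul_mem' := by
    intro c f hf
    simp only [Set.mem_ofPred_eq] at *
    rw [mul_smul_comm, map_smul, map_smul, hf, map_smul, map_smul, map_smul, smul_add,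
      mul_smul_comm, mul_smul_comm]

include hc hm H1 hδ in
theorem abs_main {u : A} (hu : ρ u = 1)
    (hspan : ∀ a, ρ a ∈ Submodule.span ℂ {m | m * m = m ∧ ∃ e, ρ e = m}) (a b : A) :
    ρ (δ (a * b)) = ρ (δ a) * ρ b + ρ a * ρ (δ b) := by
  have h1 : ∀ f, ρ f * ρ f = ρ f → ∀ a, a ∈ Kl ρ δ f := by
    intro f hf a
    have h2 : Submodule.span ℂ {m | m * m = m ∧ ∃ e, ρ e = m} ≤ (Kl ρ δ f).map ρ := by
      rw [Submodule.span_le]
      rintro m ⟨hmm, e, rfl⟩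
      exact ⟨e, abs_idem hc hm H1 hδ hu hmm hf, rfl⟩
    obtain ⟨a', ha', haa⟩ := h2 (hspan a)
    have ha'' : ρ (δ (a' * f)) = ρ (δ a') * ρ f + ρ a' * ρ (δ f) := ha'
    show ρ (δ (a * f)) = ρ (δ a) * ρ f + ρ a * ρ (δ f)
    rw [abs_congr hc H1 hδ haa.symm, ← haa, ← ha'']
    apply abs_congr hc H1 hδ
    rw [hm, hm, haa]
  have h2 : Submodule.span ℂ {m | m * m = m ∧ ∃ e, ρ e = m} ≤ (Kr ρ δ a).map ρ := by
    rw [Submodule.span_le]
    rintro m ⟨hmm, e, rfl⟩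
    exact ⟨e, h1 e hmm a, rfl⟩
  obtain ⟨b', hb', hbb⟩ := h2 (hspan b)
  have hb'' : ρ (δ (a * b')) = ρ (δ a) * ρ b' + ρ a * ρ (δ b') := hb'
  rw [abs_congr hc H1 hδ hbb.symm, ← hbb, ← hb'']
  apply abs_congr hc H1 hδ
  rw [hm, hm, hbb]

end

end Pool.Agent.H188R3.LD
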