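import Mathlib
import Pool.Agent.H188R3.LD5

/-!
Functions in `C_0(Ω)` and words with prescribed symbols.
-/

set_option autoImplicit false
set_option linter.unusedSectionVars false

noncomputable section

open scoped ZeroAtInfty ENNReal InnerProductSpace
open Filter Topology

namespace Pool.Agent.H188R3.LD

variable {Ω : Type} [TopologicalSpace Ω] {σ : CocompactMap Ω Ω}
variable {T : Type} [NonUnitalCStarAlgebra T]
variable {R : ToeplitzRep σ T}

lemma exists_c0 [T2Space Ω] [LocallyCompactSpace Ω] (A B : Set Ω) (hA : A.Finite)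
    (hB : B.Finite) (hd : Disjoint A B) :
    ∃ c : Czero Ω, (∀ v ∈ A, c v = 1) ∧ (∀ v ∈ B, c v = 0) ∧ ‖c‖ ≤ 1 := by
  obtain ⟨f, h1, h2, h3, h4⟩ := exists_continuous_one_zero_of_isCompact hA.isCompact
    hB.isClosed hd
  have h5 : HasCompactSupport fun v => ((f v : ℝ) : ℂ) :=
    h3.comp_left (g := fun x : ℝ => (x : ℂ)) Complex.ofReal_zero
  refine ⟨⟨⟨fun v => ((f v : ℝ) : ℂ), by fun_prop⟩, h5.is_zero_at_infty⟩, fun v hv => ?_,
    fun v hv => ?_, norm_C0_le zero_le_one fun v => ?_⟩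
  · show ((f v : ℝ) : ℂ) = 1
    rw [h1 hv]
    simp
  · show ((f v : ℝ) : ℂ) = 0
    rw [h2 hv]
    simp
  · show ‖((f v : ℝ) : ℂ)‖ ≤ 1
    rw [Complex.norm_real, Real.norm_eq_abs, abs_le]
    have := h4 v
    exact ⟨by linarith [this.1], this.2⟩

/-- the function `|F| / (|F| + ε)` -/
def cut (F : Czero Ω) (ε : ℝ) (hε : 0 < ε) : Czero Ω :=
  ⟨⟨fun v => ((‖F v‖ / (‖F v‖ + ε) : ℝ) : ℂ), by
    refine Complex.continuous_ofReal.comp (Continuous.div ?_ ?_ ?_)
    · exact continuous_norm.comp F.continuous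
    · exact (continuous_norm.comp F.continuous).add continuous_const
    · intro v
      have : 0 ≤ ‖F v‖ := norm_nonneg _
      positivity⟩, by
    have h1 : Tendsto (fun v => ‖F v‖) (cocompact Ω) (𝓝 0) := by
      have := F.zero_at_infty'.norm
      rwa [norm_zero] at this
    have h2 : Tendsto (fun v => ‖F v‖ / (‖F v‖ + ε)) (cocompact Ω) (𝓝 (0 / (0 + ε))) :=
      h1.div (h1.add_const ε) (by rw [zero_add]; exact hε.ne')
    rw [zero_div] at h2
    have h3 := (Complex.continuous_ofReal.tendsto 0).comp h2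
    rw [Complex.ofReal_zero] at h3
    exact h3⟩

lemma cut_apply (F : Czero Ω) (ε : ℝ) (hε : 0 < ε) (v : Ω) :
    cut F ε hε v = ((‖F v‖ / (‖F v‖ + ε) : ℝ) : ℂ) := rfl

lemma cut_zero {F : Czero Ω} {ε : ℝ} (hε : 0 < ε) {v : Ω} (h : F v = 0) : cut F ε hε v = 0 := by
  rw [cut_apply, h]
  simp

lemma norm_sub_cut (F : Czero Ω) (ε : ℝ) (hε : 0 < ε) : ‖F - F * cut F ε hε‖ ≤ ε := by
  refine norm_C0_le hε.le fun v => ?_
  show ‖F v - F v * cut F ε hε v‖ ≤ ε
  rw [cut_apply]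
  have h0 : 0 ≤ ‖F v‖ := norm_nonneg _
  have h1 : F v - F v * ((‖F v‖ / (‖F v‖ + ε) : ℝ) : ℂ) =
      F v * ((ε / (‖F v‖ + ε) : ℝ) : ℂ) := by
    have h2 : (ε / (‖F v‖ + ε) : ℝ) = 1 - ‖F v‖ / (‖F v‖ + ε) := by
      field_simp
      ring
    rw [h2]
    push_cast
    ring
  rw [h1, norm_mul, Complex.norm_real, Real.norm_eq_abs,
    abs_of_nonneg (by positivity : 0 ≤ ε / (‖F v‖ + ε))]
  rw [mul_div_assoc', div_le_iff₀ (by positivity)]
  nlinarith

/-- words with prescribed symbols -/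
lemma exists_word (R : ToeplitzRep σ T) {c : Czero Ω} (hc : ‖c‖ ≤ 1) (l : ℕ) :
    ∃ p ∈ WS R l, ‖p.2‖ ≤ 1 ∧ (∀ v, c v = 0 → p.2 v = 0) ∧
      ∀ v, (∀ s ≤ l, c (σ^[s] v) = 1) → p.2 v = 1 := by
  induction l with
  | zero =>
    exact ⟨(R.pi c, c), (Wd.pi c).mem, hc, fun v h => h, fun v h => h 0 le_rfl⟩
  | succ l ih =>
    obtain ⟨p, hp, h1, h2, h3⟩ := ih
    have h4 := WS_mul (Wd.t (R := R) c).mem hp
    rw [Nat.add_comm 1 l] at h4
    refine ⟨_, h4, ?_, ?_, ?_⟩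
    · refine norm_C0_le zero_le_one fun v => ?_
      show ‖(pull σ)^[l] c v * p.2 v‖ ≤ 1
      rw [norm_mul, pull_iter_apply]
      have h5 : ‖c (σ^[l] v)‖ ≤ 1 := (norm_apply_le' c _).trans hc
      have h6 : ‖p.2 v‖ ≤ 1 := (norm_apply_le' p.2 _).trans h1
      exact mul_le_one₀ h5 (norm_nonneg _) h6
    · intro v hv
      show (pull σ)^[l] c v * p.2 v = 0
      rw [h2 v hv, mul_zero]
    · intro v hv
      show (pull σ)^[l] c v * p.2 v = 1
      rw [pull_iter_apply, hv l (Nat.le_succ l), h3 v fun s hs => hv s (hs.trans (Nat.le_succ l)),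
        mul_one]

/-- words whose symbol is a delta function on a finite set -/
lemma exists_delta [T2Space Ω] [LocallyCompactSpace Ω] (R : ToeplitzRep σ T) (S : Finset Ω)
    (j : Ω) (l : ℕ) :
    ∃ p ∈ WS R l, p.2 j = 1 ∧ ∀ i ∈ S, i ≠ j → p.2 i = 0 := by
  classical
  obtain ⟨c, hc1, -, hc3⟩ := exists_c0 ((fun s => σ^[s] j) '' (Finset.range (l + 1) : Set ℕ)) ∅
    ((Finset.finite_toSet _).image _) Set.finite_empty (Set.disjoint_empty _)
  obtain ⟨f, hf1, hf2, -⟩ := exists_c0 {j} ((S.erase j : Finset Ω) : Set Ω)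
    (Set.finite_singleton j) (Finset.finite_toSet _) (by
      rw [Set.disjoint_singleton_left]
      simp)
  obtain ⟨p, hp, -, -, h3⟩ := exists_word R hc3 l
  have h4 := WS_mul hp (Wd.pi (R := R) f).mem
  rw [Nat.add_zero] at h4
  refine ⟨_, h4, ?_, ?_⟩
  · show p.2 j * f j = 1
    rw [hf1 j rfl, mul_one]
    refine h3 j fun s hs => hc1 _ ⟨s, ?_, rfl⟩
    rw [Finset.mem_coe, Finset.mem_range]
    omega
  · intro i hi hij
    show p.2 i * f i = 0
    rw [hf2 i (by rw [Finset.mem_coe, Finset.mem_erase]; exact ⟨hij, hi⟩), mul_zero]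

end Pool.Agent.H188R3.LD
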