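import Mathlib
import Pool.Agent.H188R3.LD6

/-!
The finite-dimensional representations of the tensor algebra.
-/

set_option autoImplicit false
set_option linter.unusedSectionVars false

noncomputable section

open scoped ZeroAtInfty ENNReal InnerProductSpace
open Filter Topology

namespace Pool.Agent.H188R3.LD

variable {Ω : Type} [TopologicalSpace Ω] {σ : CocompactMap Ω Ω}
variable {T : Type} [NonUnitalCStarAlgebra T]
variable {R : ToeplitzRep σ T}

/-! ### extension by density -/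

lemma PP_le {p : T} (hp : p ∈ PP R) : p ∈ tensorAlg R := by
  induction hp using Submodule.span_induction with
  | mem x hx =>
    obtain ⟨l, F, hx⟩ := hx
    exact WS_mem hx.mem
  | zero => exact zero_mem _
  | add x y _ _ ih ih' => exact add_mem ih ih'
  | smul c x _ ih => exact SMulMemClass.smul_mem c ih

lemma ext_lin {M : Type} [AddCommGroup M] [Module ℂ M] [TopologicalSpace M] [T2Space M]
    {f g : tensorAlg R →ₗ[ℂ] M} (hf : Continuous f) (hg : Continuous g)
    (h : ∀ l (p : T × Czero Ω) (hp : p ∈ WS R l), f ⟨p.1, WS_mem hp⟩ = g ⟨p.1, WS_mem hp⟩)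
    (a : tensorAlg R) : f a = g a := by
  have h1 : ∀ x, x ∈ PP R → ∀ hx : x ∈ tensorAlg R, f ⟨x, hx⟩ = g ⟨x, hx⟩ := by
    intro x hx
    induction hx using Submodule.span_induction with
    | mem x hx =>
      obtain ⟨l, F, hx⟩ := hx
      intro _
      exact h l (x, F) hx.mem
    | zero =>
      intro _
      exact (map_zero f).trans (map_zero g).symm
    | add x y hx hy ih ih' =>
      intro _
      have e : ∀ f : tensorAlg R →ₗ[ℂ] M, f ⟨x + y, add_mem (PP_le hx) (PP_le hy)⟩ =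
        f ⟨x, PP_le hx⟩ + f ⟨y, PP_le hy⟩ := fun f => map_add f ⟨x, PP_le hx⟩ ⟨y, PP_le hy⟩
      rw [e, e, ih, ih']
    | smul c x hx ih =>
      intro _
      have e : ∀ f : tensorAlg R →ₗ[ℂ] M, f ⟨c • x, SMulMemClass.smul_mem c (PP_le hx)⟩ =
        c • f ⟨x, PP_le hx⟩ := fun f => map_smul f c ⟨x, PP_le hx⟩
      rw [e, e, ih]
  have h2 : Dense {a : tensorAlg R | (a : T) ∈ PP R} := by
    rw [Metric.dense_iff]
    intro a ε hε
    obtain ⟨p, hp, hp'⟩ := approx_PP a.2 hε
    refine ⟨⟨p, PP_le hp⟩, ?_, hp⟩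
    rw [Metric.mem_ball, dist_comm, dist_eq_norm]
    exact hp'
  have h3 := Continuous.ext_on h2 hf hg fun a ha => h1 a ha a.2
  exact congrFun h3 a

/-! ### the entries -/

section

variable (hU : IsUniversal R) (lam : ℝ)

open Classical in
/-- the terms of the series -/
def trm (i j : Ω) (a : T) (l : ℕ) : ℂ :=
  (lam : ℂ) ^ l * (if σ^[l] j = i then co hU j l a else 0)

variable {lam}

lemma norm_trm_le (h0 : 0 ≤ lam) (i j : Ω) (a : T) (l : ℕ) :
    ‖trm hU lam i j a l‖ ≤ lam ^ l * ‖a‖ := by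
  unfold trm
  rw [norm_mul, norm_pow, Complex.norm_real, Real.norm_eq_abs, abs_of_nonneg h0]
  refine mul_le_mul_of_nonneg_left ?_ (by positivity)
  split_ifs
  · exact norm_co_le hU _ _ _
  · rw [norm_zero]
    exact norm_nonneg _

lemma summable_trm (h0 : 0 ≤ lam) (h1 : lam < 1) (i j : Ω) (a : T) :
    Summable (trm hU lam i j a) :=
  Summable.of_norm_bounded ((summable_geometric_of_lt_one h0 h1).mul_right ‖a‖)
    (norm_trm_le hU h0 i j a)

variable (lam) in
/-- the entries of the representation -/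
def ent (h0 : 0 ≤ lam) (h1 : lam < 1) (i j : Ω) : T →L[ℂ] ℂ :=
  LinearMap.mkContinuous
    { toFun := fun a => ∑' l, trm hU lam i j a l
      map_add' := fun a b => by
        rw [← (summable_trm hU h0 h1 i j a).tsum_add (summable_trm hU h0 h1 i j b)]
        congr 1
        funext l
        unfold trm
        rw [map_add]
        split_ifs <;> ring
      map_smul' := fun c a => by
        rw [RingHom.id_apply, smul_eq_mul, ← tsum_mul_left]
        congr 1
        funext l
        unfold trm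
        rw [map_smul, smul_eq_mul]
        split_ifs <;> ring }
    (1 - lam)⁻¹ (fun a => by
      have h2 := tsum_of_norm_bounded ((hasSum_geometric_of_lt_one h0 h1).mul_right ‖a‖)
        (norm_trm_le hU h0 i j a)
      exact h2)

lemma ent_apply (h0 : 0 ≤ lam) (h1 : lam < 1) (i j : Ω) (a : T) :
    ent hU lam h0 h1 i j a = ∑' l, trm hU lam i j a l := rfl

open Classical in
lemma ent_WS (h0 : 0 ≤ lam) (h1 : lam < 1) (i j : Ω) {l : ℕ} {p : T × Czero Ω}
    (hp : p ∈ WS R l) :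
    ent hU lam h0 h1 i j p.1 = if σ^[l] j = i then (lam : ℂ) ^ l * p.2 j else 0 := by
  rw [ent_apply, tsum_eq_single l]
  · unfold trm
    rw [co_WS hU j l hp, if_pos rfl]
    split_ifs
    · rfl
    · rw [mul_zero]
  · intro k hk
    unfold trm
    rw [co_WS hU j k hp, if_neg hk]
    split_ifs <;> rw [mul_zero]

/-- the representation on matrices indexed by `S` -/
def rho (h0 : 0 ≤ lam) (h1 : lam < 1) (S : Finset Ω) : tensorAlg R →ₗ[ℂ] Matrix S S ℂ where
  toFun a := Matrix.of fun i j => ent hU lam h0 h1 i j (a : T)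
  map_add' a b := by
    ext i j
    exact map_add (ent hU lam h0 h1 i j) (a : T) b
  map_smul' c a := by
    ext i j
    exact map_smul (ent hU lam h0 h1 i j) c (a : T)

lemma rho_apply (h0 : 0 ≤ lam) (h1 : lam < 1) (S : Finset Ω) (a : tensorAlg R) (i j : S) :
    rho hU h0 h1 S a i j = ent hU lam h0 h1 i j (a : T) := rfl

lemma continuous_rho (h0 : 0 ≤ lam) (h1 : lam < 1) (S : Finset Ω) :
    Continuous (rho hU h0 h1 S) := by
  refine continuous_matrix fun i j => ?_
  exact (ent hU lam h0 h1 i j).continuous.comp continuous_subtype_val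

/-- paths between points of `S` stay in `S` -/
def Convx (σ : CocompactMap Ω Ω) (S : Finset Ω) : Prop :=
  ∀ x ∈ S, ∀ n, σ^[n] x ∈ S → ∀ m ≤ n, σ^[m] x ∈ S

lemma rho_mul_WS (h0 : 0 ≤ lam) (h1 : lam < 1) {S : Finset Ω} (hS : Convx σ S) {l l' : ℕ}
    {p q : T × Czero Ω} (hp : p ∈ WS R l) (hq : q ∈ WS R l') :
    rho hU h0 h1 S (⟨p.1, WS_mem hp⟩ * ⟨q.1, WS_mem hq⟩) =
      rho hU h0 h1 S ⟨p.1, WS_mem hp⟩ * rho hU h0 h1 S ⟨q.1, WS_mem hq⟩ := by
  classical
  ext i j
  rw [Matrix.mul_apply]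
  simp only [rho_apply]
  rw [show ((⟨p.1, WS_mem hp⟩ * ⟨q.1, WS_mem hq⟩ : tensorAlg R) : T) =
    (p.1 * q.1, (pull σ)^[l'] p.2 * q.2).1 from rfl]
  rw [ent_WS hU h0 h1 i j (WS_mul hp hq)]
  simp only [ent_WS hU h0 h1 _ _ hp, ent_WS hU h0 h1 _ _ hq]
  rw [show ((pull σ)^[l'] p.2 * q.2) (j : Ω) = p.2 (σ^[l'] j) * q.2 j by
    rw [ZeroAtInftyContinuousMap.mul_apply, pull_iter_apply]]
  by_cases h : σ^[l'] (j : Ω) ∈ S
  · rw [Finset.sum_eq_single ⟨σ^[l'] (j : Ω), h⟩]
    · rw [if_pos (rfl : σ^[l'] (j : Ω) = ((⟨σ^[l'] (j : Ω), h⟩ : S) : Ω))]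
      rw [show σ^[l] ((⟨σ^[l'] (j : Ω), h⟩ : S) : Ω) = σ^[l + l'] (j : Ω) from
        (Function.iterate_add_apply _ _ _ _).symm]
      split_ifs
      · show _ = _ * p.2 (σ^[l'] j) * _
        ring
      · rw [zero_mul]
    · intro k _ hk
      rw [if_neg (fun h' : σ^[l'] (j : Ω) = (k : Ω) => hk (Subtype.ext h'.symm)), mul_zero]
    · intro h'
      exact absurd (Finset.mem_univ _) h'
  · rw [Finset.sum_eq_zero]
    · rw [if_neg]
      intro h'
      refine h (hS j j.2 (l + l') ?_ l' (Nat.le_add_left _ _))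
      rw [h']
      exact i.2
    · intro k _
      rw [if_neg (fun h' : σ^[l'] (j : Ω) = (k : Ω) => h (h' ▸ k.2)), mul_zero]

lemma rho_mul (h0 : 0 ≤ lam) (h1 : lam < 1) {S : Finset Ω} (hS : Convx σ S)
    (a b : tensorAlg R) :
    rho hU h0 h1 S (a * b) = rho hU h0 h1 S a * rho hU h0 h1 S b := by
  have hc := continuous_rho hU h0 h1 S
  have h2 : ∀ l (p : T × Czero Ω) (hp : p ∈ WS R l) (b : tensorAlg R),
      rho hU h0 h1 S (⟨p.1, WS_mem hp⟩ * b) =
        rho hU h0 h1 S ⟨p.1, WS_mem hp⟩ * rho hU h0 h1 S b := by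
    intro l p hp b
    refine ext_lin (f := (rho hU h0 h1 S) ∘ₗ (LinearMap.mulLeft ℂ ⟨p.1, WS_mem hp⟩))
      (g := (LinearMap.mulLeft ℂ (rho hU h0 h1 S ⟨p.1, WS_mem hp⟩)) ∘ₗ (rho hU h0 h1 S))
      ?_ ?_ ?_ b
    · exact hc.comp (continuous_const.mul continuous_id)
    · exact continuous_const.mul hc
    · intro l' q hq
      exact rho_mul_WS hU h0 h1 hS hp hq
  refine ext_lin (f := (rho hU h0 h1 S) ∘ₗ (LinearMap.mulRight ℂ b))
    (g := (LinearMap.mulRight ℂ (rho hU h0 h1 S b)) ∘ₗ (rho hU h0 h1 S)) ?_ ?_ ?_ a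
  · exact hc.comp (continuous_id.mul continuous_const)
  · exact hc.mul continuous_const
  · intro l p hp
    exact h2 l p hp b

end

end Pool.Agent.H188R3.LD
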