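import Mathlib
import Pool.Agent.H188R3.LD7

/-!
Bounded derivations and the finite-dimensional representations of the tensor algebra.
-/

set_option autoImplicit false
set_option linter.unusedSectionVars false

noncomputable section

open scoped ZeroAtInfty ENNReal InnerProductSpace
open Filter Topology

namespace Pool.Agent.H188R3.LD

variable {Ω : Type} [TopologicalSpace Ω] {σ : CocompactMap Ω Ω}
variable {T : Type} [NonUnitalCStarAlgebra T]
variable {R : ToeplitzRep σ T}

instance instNS (R : ToeplitzRep σ T) : NormedSpace ℂ (tensorAlg R) where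
  norm_smul_le c a := norm_smul_le c (a : T)

lemma D_bound (D : tensorAlg R →L[ℂ] tensorAlg R) : ∃ C : ℝ, ∀ a, ‖D a‖ ≤ C * ‖a‖ :=
  ⟨‖D‖, fun a => D.le_opNorm a⟩

/-- an element of the tensor algebra from a linear combination of words -/
def el {l : ℕ} {p : T × Czero Ω} (hp : p ∈ WS R l) : tensorAlg R := ⟨p.1, WS_mem hp⟩

lemma norm_el_le {l : ℕ} {p : T × Czero Ω} (hp : p ∈ WS R l) : ‖el hp‖ ≤ ‖p.2‖ :=
  WS_norm_le hp

section

variable (hU : IsUniversal R) {lam : ℝ} (h0 : 0 ≤ lam) (h1 : lam < 1) (S : Finset Ω)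

lemma rho_el_zero {l : ℕ} {p : T × Czero Ω} (hp : p ∈ WS R l) (h : ∀ j ∈ S, p.2 j = 0) :
    rho hU h0 h1 S (el hp) = 0 := by
  classical
  ext i j
  rw [rho_apply]
  show ent hU lam h0 h1 i j p.1 = 0
  rw [ent_WS hU h0 h1 _ _ hp, h j j.2, mul_zero]
  split_ifs <;> rfl

variable {S} (hS : Convx σ S)
variable {D : tensorAlg R →L[ℂ] tensorAlg R} (hD : IsDeriv D)

include hS hD in
/-- Claim 1 -/
lemma claim1 {l : ℕ} {p : T × Czero Ω} (hp : p ∈ WS R l) (h : ∀ j ∈ S, p.2 j = 0) :
    rho hU h0 h1 S (D (el hp)) = 0 := by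
  have hε : ∀ n : ℕ, (0 : ℝ) < 1 / ((n : ℝ) + 1) := fun n => Nat.one_div_pos_of_nat
  have hq : ∀ n : ℕ, (R.pi (cut p.2 _ (hε n)), cut p.2 _ (hε n)) ∈ WS R 0 := fun n =>
    (Wd.pi _).mem
  have h2 : ∀ n, rho hU h0 h1 S (D (el hp * el (hq n))) = 0 := by
    intro n
    rw [hD, map_add, rho_mul hU h0 h1 hS, rho_mul hU h0 h1 hS,
      rho_el_zero hU h0 h1 S (hq n) (fun j hj => cut_zero (hε n) (h j hj)),
      rho_el_zero hU h0 h1 S hp h, mul_zero, zero_mul, add_zero]
  have h3 : Tendsto (fun n => el hp * el (hq n)) atTop (𝓝 (el hp)) := by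
    rw [tendsto_iff_norm_sub_tendsto_zero]
    refine squeeze_zero (fun _ => norm_nonneg _) (fun n => ?_) tendsto_one_div_add_atTop_nhds_zero_nat
    have h4 : (p.1 - p.1 * R.pi (cut p.2 _ (hε n)), p.2 - p.2 * cut p.2 _ (hε n)) ∈ WS R l := by
      have h5 := WS_mul hp (hq n)
      rw [Nat.add_zero] at h5
      exact Submodule.sub_mem _ hp h5
    have h6 := WS_norm_le h4
    rw [norm_sub_rev]
    exact h6.trans (norm_sub_cut _ _ _)
  have h7 : Tendsto (fun n => rho hU h0 h1 S (D (el hp * el (hq n)))) atTop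
      (𝓝 (rho hU h0 h1 S (D (el hp)))) :=
    (((continuous_rho hU h0 h1 S).comp D.continuous).tendsto _).comp h3
  simp only [h2] at h7
  exact tendsto_nhds_unique h7 tendsto_const_nhds

include hS hD in
lemma claim1_congr {l l' : ℕ} (hll : l = l') {p p' : T × Czero Ω} (hp : p ∈ WS R l)
    (hp' : p' ∈ WS R l') (h : ∀ j ∈ S, p.2 j = p'.2 j) :
    rho hU h0 h1 S (D (el hp)) = rho hU h0 h1 S (D (el hp')) := by
  subst hll
  have h2 := claim1 hU h0 h1 hS hD (Submodule.sub_mem _ hp hp') (fun j hj => by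
    show p.2 j - p'.2 j = 0
    rw [h j hj, sub_self])
  have h3 : el (Submodule.sub_mem _ hp hp') = el hp - el hp' := rfl
  rw [h3, map_sub, map_sub, sub_eq_zero] at h2
  exact h2

include hS hD in
/-- Claim (i) -/
lemma claim_i [T2Space Ω] [LocallyCompactSpace Ω] {l : ℕ} {p : T × Czero Ω} (hp : p ∈ WS R l)
    {j : Ω} (h : ∀ i ∈ S, i ≠ j → p.2 i = 0) (hj : σ^[l] j ∉ S) :
    rho hU h0 h1 S (D (el hp)) = 0 := by
  classical
  obtain ⟨g, hg1, hg2, -⟩ := exists_c0 {σ^[l] j} (S : Set Ω) (Set.finite_singleton _)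
    (Finset.finite_toSet _) (by
      rw [Set.disjoint_singleton_left]
      exact hj)
  have hq : (R.pi g, g) ∈ WS R 0 := (Wd.pi _).mem
  have h2 := claim1_congr hU h0 h1 hS hD (Nat.zero_add l) (WS_mul hq hp) hp (fun i hi => by
    show (pull σ)^[l] g i * p.2 i = p.2 i
    by_cases hij : i = j
    · rw [pull_iter_apply, hij, hg1 _ rfl, one_mul]
    · rw [h i hi hij, mul_zero])
  have h3 : el (WS_mul hq hp) = el hq * el hp := rfl
  rw [← h2, h3, hD, map_add, rho_mul hU h0 h1 hS, rho_mul hU h0 h1 hS,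
    rho_el_zero hU h0 h1 S hq (fun i hi => hg2 i hi), zero_mul, add_zero]
  have h4 : rho hU h0 h1 S (el hp) = 0 := by
    ext a b
    rw [rho_apply]
    show ent hU lam h0 h1 a b p.1 = 0
    rw [ent_WS hU h0 h1 _ _ hp]
    by_cases hbj : (b : Ω) = j
    · rw [if_neg]
      intro h'
      rw [hbj] at h'
      exact hj (h' ▸ a.2)
    · rw [h b b.2 hbj, mul_zero]
      split_ifs <;> rfl
  rw [h4, mul_zero]

end

/-! ### the growth lemma -/

section

variable (hU : IsUniversal R) {D : tensorAlg R →L[ℂ] tensorAlg R} (hD : IsDeriv D)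

/-- `x^(n+1)` -/
def pw (x : tensorAlg R) : ℕ → tensorAlg R
  | 0 => x
  | n + 1 => x * pw x n

lemma norm_pw_le {x : tensorAlg R} (hx : ‖x‖ ≤ 1) (n : ℕ) : ‖pw x n‖ ≤ 1 := by
  induction n with
  | zero => exact hx
  | succ n ih => exact (norm_mul_le _ _).trans (mul_le_one₀ hx (norm_nonneg _) ih)

lemma Th_pw (w : Ω) (x : tensorAlg R) (n : ℕ) :
    Th hU w (pw x n : T) = (Th hU w (x : T)) ^ (n + 1) := by
  induction n with
  | zero => rw [pow_one]; rfl
  | succ n ih =>
    rw [pow_succ', ← ih]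
    exact map_mul _ _ _

include hD in
lemma Th_D_pw (w : Ω) (x : tensorAlg R)
    (hcomm : ∀ a : tensorAlg R, Th hU w (a : T) * Th hU w (x : T) =
      Th hU w (x : T) * Th hU w (a : T)) (n : ℕ) :
    Th hU w (D (pw x n) : T) = ((n : ℂ) + 1) • ((Th hU w (x : T)) ^ n * Th hU w (D x : T)) := by
  induction n with
  | zero => simp [pw]
  | succ n ih =>
    have h1 : D (pw x (n + 1)) = D x * pw x n + x * D (pw x n) := hD _ _
    have h2 : Th hU w (D (pw x (n + 1)) : T) = Th hU w (D x : T) * Th hU w (pw x n : T) +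
        Th hU w (x : T) * Th hU w (D (pw x n) : T) := by
      rw [h1, ← map_mul, ← map_mul, ← map_add]
      rfl
    have h3 : Th hU w (D x : T) * (Th hU w (x : T)) ^ (n + 1) =
        (Th hU w (x : T)) ^ (n + 1) * Th hU w (D x : T) :=
      (Commute.pow_right (hcomm (D x)) (n + 1))
    rw [h2, Th_pw, h3, ih, mul_smul_comm, ← mul_assoc, ← pow_succ']
    push_cast
    module

include hD in
lemma growth (w : Ω) (x : tensorAlg R) (hx : ‖x‖ ≤ 1)
    (hcomm : ∀ a : tensorAlg R, Th hU w (a : T) * Th hU w (x : T) =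
      Th hU w (x : T) * Th hU w (a : T))
    (hiso : ∀ ξ, ‖Th hU w (x : T) ξ‖ = ‖ξ‖) : Th hU w (D x : T) = 0 := by
  have hison : ∀ n ξ, ‖((Th hU w (x : T)) ^ n) ξ‖ = ‖ξ‖ := by
    intro n
    induction n with
    | zero => intro ξ; rfl
    | succ n ih =>
      intro ξ
      rw [pow_succ']
      show ‖Th hU w (x : T) (((Th hU w (x : T)) ^ n) ξ)‖ = ‖ξ‖
      rw [hiso, ih]
  ext1 ξ
  by_contra hne
  have hpos : 0 < ‖Th hU w (D x : T) ξ‖ := norm_pos_iff.2 hne
  obtain ⟨C, hC⟩ := D_bound D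
  have hb : ∀ n : ℕ, ((n : ℝ) + 1) * ‖Th hU w (D x : T) ξ‖ ≤ |C| * ‖ξ‖ := by
    intro n
    have h1 : ‖Th hU w (D (pw x n) : T) ξ‖ = ((n : ℝ) + 1) * ‖Th hU w (D x : T) ξ‖ := by
      rw [Th_D_pw hU hD w x hcomm n]
      show ‖((n : ℂ) + 1) • (((Th hU w (x : T)) ^ n) (Th hU w (D x : T) ξ))‖ = _
      rw [norm_smul, hison]
      congr 1
      rw [← Nat.cast_succ, Complex.norm_natCast, Nat.cast_succ]
    rw [← h1]
    refine (ContinuousLinearMap.le_opNorm _ _).trans (mul_le_mul_of_nonneg_right ?_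
      (norm_nonneg _))
    refine (NonUnitalStarAlgHom.norm_apply_le (Th hU w) _).trans ?_
    refine (hC (pw x n)).trans ?_
    refine (mul_le_mul_of_nonneg_right (le_abs_self C) (norm_nonneg _)).trans ?_
    exact mul_le_of_le_one_right (abs_nonneg _) (norm_pw_le hx n)
  obtain ⟨n, hn⟩ := exists_nat_gt (|C| * ‖ξ‖ / ‖Th hU w (D x : T) ξ‖)
  rw [div_lt_iff₀ hpos] at hn
  have := hb n
  nlinarith

include hD in
/-- the growth lemma for words with constant symbol on a periodic orbit -/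
lemma growth_WS {w : Ω} {k : ℕ} (hw : σ^[k] w = w) {p : T × Czero Ω} (hp : p ∈ WS R k)
    (hn : ‖p.2‖ ≤ 1) (h : ∀ s, p.2 (σ^[s] w) = 1) (l : ℕ) :
    co hU w l (D (el hp) : T) = 0 := by
  have hod : od σ w p.2 = 1 := by
    ext ξ j
    rw [od_apply, h j, one_mul]
    rfl
  have hTh : Th hU w (el hp : T) = Sh ^ k := by
    show Th hU w p.1 = _
    rw [Th_WS hU w hp, hod, mul_one]
  have hcomm : ∀ a : tensorAlg R, Th hU w (a : T) * Th hU w (el hp : T) =
      Th hU w (el hp : T) * Th hU w (a : T) := by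
    intro a
    rw [hTh]
    have hcTh : Continuous fun a : T => Th hU w a := by
      have : Continuous (Th hU w) := by
        refine AddMonoidHomClass.continuous_of_bound (Th hU w) 1 fun x => ?_
        rw [one_mul]
        exact NonUnitalStarAlgHom.norm_apply_le (Th hU w) x
      exact this
    let f : tensorAlg R →ₗ[ℂ] (Hs →L[ℂ] Hs) :=
      { toFun := fun a => Th hU w (a : T) * Sh ^ k
        map_add' := fun a b => by
          rw [← add_mul, ← map_add]
          rfl
        map_smul' := fun c a => by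
          rw [RingHom.id_apply, ← smul_mul_assoc, ← map_smul]
          rfl }
    let g : tensorAlg R →ₗ[ℂ] (Hs →L[ℂ] Hs) :=
      { toFun := fun a => Sh ^ k * Th hU w (a : T)
        map_add' := fun a b => by
          rw [← mul_add, ← map_add]
          rfl
        map_smul' := fun c a => by
          rw [RingHom.id_apply, ← mul_smul_comm, ← map_smul]
          rfl }
    refine ext_lin (f := f) (g := g) ?_ ?_ ?_ a
    · exact (hcTh.comp continuous_subtype_val).mul continuous_const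
    · exact continuous_const.mul (hcTh.comp continuous_subtype_val)
    · intro l q hq
      show Th hU w q.1 * Sh ^ k = Sh ^ k * Th hU w q.1
      rw [Th_WS hU w hq, mul_assoc, od_Sh_pow, ← mul_assoc, ← mul_assoc, ← pow_add, ← pow_add,
        Nat.add_comm]
      congr 1
      ext ξ j
      rw [od_apply, od_apply, pull_iter_apply, ← Function.iterate_add_apply, Nat.add_comm k j,
        Function.iterate_add_apply, hw]
  have hiso : ∀ ξ, ‖Th hU w (el hp : T) ξ‖ = ‖ξ‖ := by
    intro ξ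
    rw [hTh]
    clear hTh hcomm hw hod h hn hp
    induction k with
    | zero => rfl
    | succ k ih =>
      rw [pow_succ']
      show ‖Sh ((Sh ^ k) ξ)‖ = _
      rw [norm_Sh, ih]
  have h2 := growth hU hD w (el hp) ((norm_el_le hp).trans hn) hcomm hiso
  rw [co_apply, h2]
  rfl

include hD in
lemma growth_ent {lam : ℝ} (h0 : 0 ≤ lam) (h1 : lam < 1)
    {w : Ω} {k : ℕ} (hw : σ^[k] w = w) {p : T × Czero Ω} (hp : p ∈ WS R k)
    (hn : ‖p.2‖ ≤ 1) (h : ∀ s, p.2 (σ^[s] w) = 1) (i : Ω) :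
    ent hU lam h0 h1 i w (D (el hp) : T) = 0 := by
  rw [ent_apply]
  have : trm hU lam i w (D (el hp) : T) = fun _ => 0 := by
    funext l
    unfold trm
    rw [growth_WS hU hD hw hp hn h l]
    split_ifs <;> rw [mul_zero]
  rw [this, tsum_zero]

end

end Pool.Agent.H188R3.LD
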