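import Mathlib
import Pool.Agent.H188R3.LD8

/-!
Approximately local derivations of the semicrossed product are derivations.
-/

set_option autoImplicit false
set_option linter.unusedSectionVars false

noncomputable section

open scoped ZeroAtInfty ENNReal InnerProductSpace
open Filter Topology

namespace Pool.Agent.H188R3.LD

variable {Ω : Type} [TopologicalSpace Ω] {σ : CocompactMap Ω Ω}
variable {T : Type} [NonUnitalCStarAlgebra T]
variable {R : ToeplitzRep σ T}

section

variable (hU : IsUniversal R) {lam : ℝ} (h0 : 0 ≤ lam) (h1 : lam < 1) {S : Finset Ω}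
variable (hS : Convx σ S)
variable {D : tensorAlg R →L[ℂ] tensorAlg R} (hD : IsDeriv D)

lemma periodic_iter {k : ℕ} {i : Ω} (hi : σ^[k] i = i) (n : ℕ) : σ^[k * n] i = i := by
  induction n with
  | zero => rfl
  | succ n ih => rw [Nat.mul_succ, Function.iterate_add_apply, hi, ih]

include hS hD in
/-- Claim (ii) -/
lemma claim_ii [T2Space Ω] [LocallyCompactSpace Ω] {l k : ℕ} (hk : 0 < k) {j : Ω}
    (hj : σ^[l] j ∈ S) (hk' : σ^[k] (σ^[l] j) = σ^[l] j) {p p' : T × Czero Ω}
    (hp : p ∈ WS R l) (hp' : p' ∈ WS R (k + l)) (h : ∀ i ∈ S, i ≠ j → p.2 i = 0)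
    (h' : ∀ i ∈ S, i ≠ j → p'.2 i = 0) (hpj : p.2 j = 1) (hpj' : p'.2 j = 1) :
    rho hU h0 h1 S (D (el hp')) = (lam : ℂ) ^ k • rho hU h0 h1 S (D (el hp)) := by
  classical
  set i := σ^[l] j with hi
  have hcyc : ∀ s, σ^[s] i ∈ S := by
    intro s
    refine hS i hj (k * s) ?_ s (Nat.le_mul_of_pos_left s hk)
    rw [periodic_iter hk']
    exact hj
  set C : Set Ω := {v | ∃ s, v = σ^[s] i} with hC
  have hCS : C ⊆ S := by
    rintro v ⟨s, rfl⟩
    exact hcyc s
  have hCfin : C.Finite := (Finset.finite_toSet S).subset hCS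
  obtain ⟨c, hc1, hc2, hc3⟩ := exists_c0 C ((S : Set Ω) \ C) hCfin
    ((Finset.finite_toSet S).subset Set.sdiff_subset) Set.disjoint_sdiff_right
  obtain ⟨z, hz, hz1, hz2, hz3⟩ := exists_word R hc3 k
  have hCiter : ∀ v ∈ C, ∀ s, σ^[s] v ∈ C := by
    rintro v ⟨t, rfl⟩ s
    exact ⟨s + t, (Function.iterate_add_apply _ _ _ _).symm⟩
  have hzC : ∀ v ∈ C, z.2 v = 1 := fun v hv => hz3 v fun s _ => hc1 _ (hCiter v hv s)
  have hzN : ∀ v ∈ S, v ∉ C → z.2 v = 0 := fun v hv hv' => hz2 v (hc2 v ⟨hv, hv'⟩)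
  have hiC : i ∈ C := ⟨0, rfl⟩
  have hfix : ∀ v ∈ C, σ^[k] v = v := by
    rintro v ⟨s, rfl⟩
    rw [← Function.iterate_add_apply, Nat.add_comm, Function.iterate_add_apply, hk']
  have hq : (R.pi c, c) ∈ WS R 0 := (Wd.pi _).mem
  -- Step 1
  have s1 : rho hU h0 h1 S (D (el hz * el hp)) = rho hU h0 h1 S (D (el hp')) := by
    refine claim1_congr hU h0 h1 hS hD rfl (WS_mul hz hp) hp' fun v hv => ?_
    show (pull σ)^[l] z.2 v * p.2 v = p'.2 v
    by_cases hvj : v = j
    · rw [pull_iter_apply, hvj, hzC _ hiC, hpj, hpj', one_mul]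
    · rw [h v hv hvj, h' v hv hvj, mul_zero]
  -- Step 2
  have s2 : rho hU h0 h1 S (D (el hq * el hp)) = rho hU h0 h1 S (D (el hp)) := by
    refine claim1_congr hU h0 h1 hS hD (Nat.zero_add l) (WS_mul hq hp) hp fun v hv => ?_
    show (pull σ)^[l] c v * p.2 v = p.2 v
    by_cases hvj : v = j
    · rw [pull_iter_apply, hvj, hc1 _ hiC, one_mul]
    · rw [h v hv hvj, mul_zero]
  -- Step 3
  have s3 : rho hU h0 h1 S (el hz) = (lam : ℂ) ^ k • rho hU h0 h1 S (el hq) := by
    ext a b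
    rw [Matrix.smul_apply, rho_apply, rho_apply]
    show ent hU lam h0 h1 a b z.1 = _ • ent hU lam h0 h1 a b (R.pi c, c).1
    rw [ent_WS hU h0 h1 _ _ hz, ent_WS hU h0 h1 _ _ hq, smul_eq_mul]
    by_cases hb : (b : Ω) ∈ C
    · rw [hfix _ hb, hzC _ hb, show (R.pi c, c).2 (b : Ω) = 1 from hc1 _ hb]
      show (if (b : Ω) = a then _ else _) = _ * (if (b : Ω) = a then _ else _)
      split_ifs
      · ring
      · rw [mul_zero]
    · rw [hzN _ b.2 hb, show (R.pi c, c).2 (b : Ω) = 0 from hc2 _ ⟨b.2, hb⟩]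
      simp
  -- Step 4
  have s4 : ∀ m : Matrix S S ℂ, (∀ a, ∀ hi : i ∈ S, m a ⟨i, hi⟩ = 0) →
      m * rho hU h0 h1 S (el hp) = 0 := by
    intro m hm
    ext a b
    rw [Matrix.mul_apply, Matrix.zero_apply]
    refine Finset.sum_eq_zero fun t _ => ?_
    rw [rho_apply]
    show m a t * ent hU lam h0 h1 t b p.1 = 0
    rw [ent_WS hU h0 h1 _ _ hp]
    by_cases hbj : (b : Ω) = j
    · rw [hbj]
      split_ifs with hit
      · have : t = ⟨i, hj⟩ := Subtype.ext hit.symm
        rw [this, hm a hj, zero_mul]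
      · rw [mul_zero]
    · rw [h b b.2 hbj, mul_zero]
      split_ifs <;> rw [mul_zero]
  have s5 : rho hU h0 h1 S (D (el hz)) * rho hU h0 h1 S (el hp) = 0 := by
    apply s4
    intro a hi'
    rw [rho_apply]
    exact growth_ent hU hD h0 h1 hk' hz hz1 (fun s => hzC _ ⟨s, rfl⟩) _
  have s6 : rho hU h0 h1 S (D (el hq)) * rho hU h0 h1 S (el hp) = 0 := by
    apply s4
    intro a hi'
    rw [rho_apply]
    exact growth_ent hU hD h0 h1 (k := 0) rfl hq hc3 (fun s => hc1 _ ⟨s, rfl⟩) _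
  rw [← s1, hD, map_add, rho_mul hU h0 h1 hS, rho_mul hU h0 h1 hS, s5, zero_add, s3,
    smul_mul_assoc]
  congr 1
  rw [← s2, hD, map_add, rho_mul hU h0 h1 hS, rho_mul hU h0 h1 hS, s6, zero_add, ← mul_assoc]
  have s7 : rho hU h0 h1 S (el hq) * rho hU h0 h1 S (el hq) = rho hU h0 h1 S (el hq) := by
    rw [← rho_mul hU h0 h1 hS]
    have h5 : rho hU h0 h1 S (el hq * el hq - el hq) = 0 := by
      have h6 := rho_el_zero hU h0 h1 S (Submodule.sub_mem _ (WS_mul hq hq) hq) (fun v hv => by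
        show c v * c v - c v = 0
        by_cases hvC : v ∈ C
        · rw [hc1 v hvC]; ring
        · rw [hc2 v ⟨hv, hvC⟩]; ring)
      exact h6
    rw [map_sub, sub_eq_zero] at h5
    exact h5
  rw [s7]

include hS hD in
/-- the symmetric form of Claim (ii) -/
lemma claim_ii' [T2Space Ω] [LocallyCompactSpace Ω] (hlam : lam ≠ 0) {l l' : ℕ} {i j : Ω}
    (hi : i ∈ S) (hl : σ^[l] j = i) (hl' : σ^[l'] j = i) {p p' : T × Czero Ω}
    (hp : p ∈ WS R l) (hp' : p' ∈ WS R l') (h : ∀ i ∈ S, i ≠ j → p.2 i = 0)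
    (h' : ∀ i ∈ S, i ≠ j → p'.2 i = 0) (hpj : p.2 j = 1) (hpj' : p'.2 j = 1) :
    ((lam : ℂ) ^ l)⁻¹ • rho hU h0 h1 S (D (el hp)) =
      ((lam : ℂ) ^ l')⁻¹ • rho hU h0 h1 S (D (el hp')) := by
  have hlc : (lam : ℂ) ≠ 0 := by exact_mod_cast hlam
  rcases lt_trichotomy l l' with hlt | rfl | hlt
  · obtain ⟨k, rfl⟩ := Nat.exists_eq_add_of_lt hlt
    have e : l + k + 1 = (k + 1) + l := by omega
    have hp2 : p' ∈ WS R ((k + 1) + l) := by rw [← e]; exact hp'
    have h2 := claim_ii hU h0 h1 hS hD (Nat.succ_pos k) (j := j) (l := l) (by rw [hl]; exact hi)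
      (by rw [← Function.iterate_add_apply, ← e, hl', hl]) hp hp2 h h' hpj hpj'
    have h3 : el hp2 = el hp' := rfl
    rw [h3] at h2
    rw [h2, smul_smul]
    congr 1
    rw [e, pow_add]
    field_simp
  · congr 1
    refine claim1_congr hU h0 h1 hS hD rfl hp hp' fun v hv => ?_
    by_cases hvj : v = j
    · rw [hvj, hpj, hpj']
    · rw [h v hv hvj, h' v hv hvj]
  · obtain ⟨k, rfl⟩ := Nat.exists_eq_add_of_lt hlt
    have e : l' + k + 1 = (k + 1) + l' := by omega
    have hp2 : p ∈ WS R ((k + 1) + l') := by rw [← e]; exact hp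
    have h2 := claim_ii hU h0 h1 hS hD (Nat.succ_pos k) (j := j) (l := l') (by rw [hl']; exact hi)
      (by rw [← Function.iterate_add_apply, ← e, hl, hl']) hp' hp2 h' h hpj' hpj
    have h3 : el hp2 = el hp := rfl
    rw [h3] at h2
    rw [h2, smul_smul]
    congr 1
    rw [e, pow_add]
    field_simp

/-- the value of the induced map on a matrix unit -/
def Zf [T2Space Ω] [LocallyCompactSpace Ω] (S : Finset Ω)
    (D : tensorAlg R →L[ℂ] tensorAlg R) (i j : Ω) : Matrix S S ℂ :=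
  open Classical in
  if h : ∃ l, σ^[l] j = i then
    ((lam : ℂ) ^ h.choose)⁻¹ •
      rho hU h0 h1 S (D (el (exists_delta R S j h.choose).choose_spec.1))
  else 0

include hS hD in
lemma Zf_spec [T2Space Ω] [LocallyCompactSpace Ω] (hlam : lam ≠ 0) {l : ℕ} {i j : Ω}
    (hi : i ∈ S) (hl : σ^[l] j = i) {p : T × Czero Ω} (hp : p ∈ WS R l)
    (h : ∀ i ∈ S, i ≠ j → p.2 i = 0) (hpj : p.2 j = 1) :
    rho hU h0 h1 S (D (el hp)) = (lam : ℂ) ^ l • Zf hU h0 h1 S D i j := by
  have hlc : (lam : ℂ) ≠ 0 := by exact_mod_cast hlam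
  have hex : ∃ l, σ^[l] j = i := ⟨l, hl⟩
  unfold Zf
  rw [dif_pos hex]
  have h2 := (exists_delta R S j hex.choose).choose_spec
  rw [← claim_ii' hU h0 h1 hS hD hlam hi hl hex.choose_spec hp h2.1 h h2.2.2 hpj h2.2.1,
    smul_smul, mul_inv_cancel₀ (pow_ne_zero l hlc), one_smul]

include hS hD in
/-- bounded derivations pass to the finite-dimensional representations -/
lemma key_formula [T2Space Ω] [LocallyCompactSpace Ω] (hlam : lam ≠ 0) {l : ℕ}
    {p : T × Czero Ω} (hp : p ∈ WS R l) :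
    rho hU h0 h1 S (D (el hp)) =
      ∑ j : S, ∑ i : S, rho hU h0 h1 S (el hp) i j • Zf hU h0 h1 S D i j := by
  classical
  have hb : ∀ j : Ω, ∃ p ∈ WS R l, p.2 j = 1 ∧ ∀ i ∈ S, i ≠ j → p.2 i = 0 :=
    fun j => exists_delta R S j l
  choose b hb1 hb2 hb3 using hb
  have h2 : ∑ j : S, p.2 j • b j ∈ WS R l :=
    Submodule.sum_mem _ fun j _ => Submodule.smul_mem _ _ (hb1 j)
  have h3 : rho hU h0 h1 S (D (el hp)) = rho hU h0 h1 S (D (el h2)) := by
    refine claim1_congr hU h0 h1 hS hD rfl hp h2 fun v hv => ?_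
    rw [Prod.snd_sum]
    have h4 : (∑ j : S, (p.2 j • b j).2) v = ∑ j : S, p.2 j * (b j).2 v := by
      have : ∀ s : Finset S, (∑ j ∈ s, (p.2 j • b j).2) v = ∑ j ∈ s, p.2 j * (b j).2 v := by
        intro s
        induction s using Finset.induction_on with
        | empty => rfl
        | insert a s ha ih =>
          rw [Finset.sum_insert ha, Finset.sum_insert ha, ZeroAtInftyContinuousMap.add_apply, ih]
          rfl
      exact this _
    rw [h4, Finset.sum_eq_single ⟨v, hv⟩]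
    · rw [hb2, mul_one]
    · intro j _ hj
      rw [hb3 j v hv (fun h' => hj (Subtype.ext h'.symm)), mul_zero]
    · intro h'
      exact absurd (Finset.mem_univ _) h'
  have h5 : el h2 = ∑ j : S, p.2 j • el (hb1 j) := by
    apply Subtype.ext
    show (∑ j : S, p.2 j • b j).1 = ((∑ j : S, p.2 j • el (hb1 j) : tensorAlg R) : T)
    rw [Prod.fst_sum, AddSubmonoidClass.coe_finsetSum]
    rfl
  rw [h3, h5, map_sum, map_sum]
  refine Finset.sum_congr rfl fun j _ => ?_
  rw [map_smul, map_smul]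
  have h6 : ∀ i : S, rho hU h0 h1 S (el hp) i j =
      if σ^[l] (j : Ω) = i then (lam : ℂ) ^ l * p.2 j else 0 := fun i =>
    ent_WS hU h0 h1 _ _ hp
  simp only [h6]
  by_cases hj : σ^[l] (j : Ω) ∈ S
  · rw [Finset.sum_eq_single ⟨_, hj⟩]
    · rw [if_pos rfl, Zf_spec hU h0 h1 hS hD hlam hj rfl (hb1 j) (hb3 j) (hb2 j), smul_smul,
        mul_comm]
    · intro i _ hi
      rw [if_neg (fun h' : σ^[l] (j : Ω) = i => hi (Subtype.ext h'.symm)), zero_smul]
    · intro h'
      exact absurd (Finset.mem_univ _) h'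
  · rw [claim_i hU h0 h1 hS hD (hb1 j) (hb3 j) hj, smul_zero, Finset.sum_eq_zero]
    intro i _
    rw [if_neg (fun h' : σ^[l] (j : Ω) = i => hj (h' ▸ i.2)), zero_smul]

include hS hD in
/-- the kernel of the representation is invariant under bounded derivations -/
theorem H1_holds [T2Space Ω] [LocallyCompactSpace Ω] (hlam : lam ≠ 0) (a : tensorAlg R)
    (ha : rho hU h0 h1 S a = 0) : rho hU h0 h1 S (D a) = 0 := by
  let g : tensorAlg R →ₗ[ℂ] Matrix S S ℂ :=
    { toFun := fun a => ∑ j : S, ∑ i : S, rho hU h0 h1 S a i j • Zf hU h0 h1 S D i j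
      map_add' := fun a b => by
        simp only [map_add, Matrix.add_apply, add_smul, Finset.sum_add_distrib]
      map_smul' := fun c a => by
        simp only [map_smul, Matrix.smul_apply, smul_assoc, Finset.smul_sum, RingHom.id_apply] }
  have h2 := ext_lin (f := (rho hU h0 h1 S) ∘ₗ D.toLinearMap) (g := g)
    ((continuous_rho hU h0 h1 S).comp D.continuous) (by
      refine continuous_finsetSum _ fun j _ => continuous_finsetSum _ fun i _ => ?_
      have h3 : Continuous fun a => rho hU h0 h1 S a i j :=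
        (continuous_rho hU h0 h1 S).matrix_elem i j
      exact h3.smul continuous_const) (fun l p hp => key_formula hU h0 h1 hS hD hlam hp) a
  have h4 : rho hU h0 h1 S (D a) =
    ∑ j : S, ∑ i : S, rho hU h0 h1 S a i j • Zf hU h0 h1 S D i j := h2
  rw [h4, ha]
  refine Finset.sum_eq_zero fun j _ => Finset.sum_eq_zero fun i _ => ?_
  rw [Matrix.zero_apply, zero_smul]

/-! ### the range -/

lemma rho_delta [DecidableEq Ω] (hlam : lam ≠ 0) {l : ℕ} {i j : S} (hl : σ^[l] (j : Ω) = i)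
    {p : T × Czero Ω} (hp : p ∈ WS R l) (h : ∀ i ∈ S, i ≠ (j : Ω) → p.2 i = 0)
    (hpj : p.2 j = 1) :
    rho hU h0 h1 S (((lam : ℂ) ^ l)⁻¹ • el hp) = Matrix.single i j (1 : ℂ) := by
  have hlc : (lam : ℂ) ≠ 0 := by exact_mod_cast hlam
  ext a b
  rw [map_smul, Matrix.smul_apply, rho_apply]
  show _ • ent hU lam h0 h1 a b p.1 = _
  rw [ent_WS hU h0 h1 _ _ hp, Matrix.single_apply, smul_eq_mul]
  by_cases hb : j = b
  · subst hb
    by_cases ha : i = a
    · subst ha
      rw [if_pos hl, if_pos ⟨rfl, rfl⟩, hpj, mul_one, inv_mul_cancel₀ (pow_ne_zero l hlc)]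
    · rw [if_neg, if_neg (fun h => ha h.1), mul_zero]
      intro h'
      exact ha (Subtype.ext (hl.symm.trans h'))
  · have hne : ¬ (i = a ∧ j = b) := fun h => hb h.2
    rw [h b b.2 (fun h' => hb (Subtype.ext h'.symm)), mul_zero, if_neg hne]
    split_ifs <;> rw [mul_zero]

/-- the matrix units in the range -/
lemma exists_unit [T2Space Ω] [LocallyCompactSpace Ω] [DecidableEq Ω] (hlam : lam ≠ 0) {l : ℕ}
    {i j : S} (hl : σ^[l] (j : Ω) = i) :
    ∃ e : tensorAlg R, rho hU h0 h1 S e = Matrix.single i j (1 : ℂ) := by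
  obtain ⟨p, hp, hp1, hp2⟩ := exists_delta R S (j : Ω) l
  exact ⟨_, rho_delta hU h0 h1 hlam hl hp hp2 hp1⟩

lemma exists_one [T2Space Ω] [LocallyCompactSpace Ω] [DecidableEq Ω] (hlam : lam ≠ 0) :
    ∃ u : tensorAlg R, rho hU h0 h1 S u = 1 := by
  have h2 : ∀ j : S, ∃ e : tensorAlg R, rho hU h0 h1 S e = Matrix.single j j (1 : ℂ) :=
    fun j => exists_unit hU h0 h1 hlam (l := 0) rfl
  choose e he using h2
  refine ⟨∑ j, e j, ?_⟩
  rw [map_sum]
  simp only [he]
  ext a b
  rw [Matrix.sum_apply]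
  simp only [Matrix.single_apply]
  rw [Matrix.one_apply]
  by_cases hab : a = b
  · subst hab
    rw [if_pos rfl, Finset.sum_eq_single a]
    · simp
    · intro c _ hc
      simp [hc]
    · intro h'
      exact absurd (Finset.mem_univ _) h'
  · rw [if_neg hab, Finset.sum_eq_zero]
    intro c _
    rw [if_neg]
    rintro ⟨rfl, rfl⟩
    exact hab rfl

lemma H2_holds [T2Space Ω] [LocallyCompactSpace Ω] (hlam : lam ≠ 0) (a : tensorAlg R) :
    rho hU h0 h1 S a ∈ Submodule.span ℂ {m | m * m = m ∧ ∃ e, rho hU h0 h1 S e = m} := by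
  classical
  have h2 : ∀ i j : S, ∀ l, σ^[l] (j : Ω) = i →
      Matrix.single i j (1 : ℂ) ∈ Submodule.span ℂ {m | m * m = m ∧ ∃ e, rho hU h0 h1 S e = m} := by
    intro i j l hl
    obtain ⟨e, he⟩ := exists_unit hU h0 h1 hlam hl
    obtain ⟨f, hf⟩ := exists_unit hU h0 h1 (σ := σ) (S := S) hlam (l := 0) (i := j) (j := j) rfl
    have hjj : Matrix.single j j (1 : ℂ) ∈
        Submodule.span ℂ {m | m * m = m ∧ ∃ e, rho hU h0 h1 S e = m} :=
      Submodule.subset_span ⟨by simp, f, hf⟩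
    by_cases hij : i = j
    · subst hij
      exact hjj
    · have h3 : Matrix.single i j (1 : ℂ) + Matrix.single j j (1 : ℂ) ∈
          Submodule.span ℂ {m | m * m = m ∧ ∃ e, rho hU h0 h1 S e = m} := by
        refine Submodule.subset_span ⟨?_, e + f, by rw [map_add, he, hf]⟩
        rw [add_mul, mul_add, mul_add, Matrix.single_mul_single_of_ne _ _ _ _ (Ne.symm hij),
          Matrix.single_mul_single_same, Matrix.single_mul_single_same]
        rw [Matrix.single_mul_single_of_ne _ _ _ _ (Ne.symm hij)]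
        simp
      have h4 := Submodule.sub_mem _ h3 hjj
      rwa [add_sub_cancel_right] at h4
  rw [Matrix.matrix_eq_sum_single (rho hU h0 h1 S a)]
  refine Submodule.sum_mem _ fun i _ => Submodule.sum_mem _ fun j _ => ?_
  by_cases hex : ∃ l, σ^[l] (j : Ω) = i
  · obtain ⟨l, hl⟩ := hex
    have h5 := Submodule.smul_mem _ (rho hU h0 h1 S a i j) (h2 i j l hl)
    rw [Matrix.smul_single, smul_eq_mul, mul_one] at h5
    exact h5
  · have h6 : rho hU h0 h1 S a i j = 0 := by
      rw [rho_apply, ent_apply]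
      have : trm hU lam i j (a : T) = fun _ => 0 := by
        funext l
        unfold trm
        rw [if_neg (fun h' => hex ⟨l, h'⟩), mul_zero]
      rw [this, tsum_zero]
    rw [h6, Matrix.single_zero]
    exact Submodule.zero_mem _

end

end Pool.Agent.H188R3.LD
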