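import Mathlib
import Pool.Agent.H188R3.LD9

/-!
Approximately local derivations of the semicrossed product are derivations: conclusion.
-/

set_option autoImplicit false
set_option linter.unusedSectionVars false

noncomputable section

open scoped ZeroAtInfty ENNReal InnerProductSpace
open Filter Topology

namespace Pool.Agent.H188R3.LD

/-- a power series with bounded coefficients vanishing on `(0,1)` is zero -/
lemma power_series_zero {a : ℕ → ℂ} {C : ℝ} (hC : ∀ n, ‖a n‖ ≤ C)
    (h : ∀ lam : ℝ, 0 < lam → lam < 1 → ∑' n, (lam : ℂ) ^ n * a n = 0) (n : ℕ) : a n = 0 := by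
  have hC0 : 0 ≤ C := (norm_nonneg _).trans (hC 0)
  induction n using Nat.strong_induction_on with
  | _ n ih =>
    have hb : ∀ lam : ℝ, 0 < lam → lam < 1 → ‖a n‖ ≤ lam * (C * (1 - lam)⁻¹) := by
      intro lam h0 h1
      have hbound : ∀ k, ‖(lam : ℂ) ^ k * a k‖ ≤ lam ^ k * C := by
        intro k
        rw [norm_mul, norm_pow, Complex.norm_real, Real.norm_eq_abs, abs_of_pos h0]
        exact mul_le_mul_of_nonneg_left (hC k) (by positivity)
      have hsum : Summable fun k => (lam : ℂ) ^ k * a k :=
        Summable.of_norm_bounded ((summable_geometric_of_lt_one h0.le h1).mul_right C) hbound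
      have h2 := hsum.sum_add_tsum_nat_add n
      have h3 : ∑ i ∈ Finset.range n, (lam : ℂ) ^ i * a i = 0 := by
        refine Finset.sum_eq_zero fun i hi => ?_
        rw [ih i (Finset.mem_range.1 hi), mul_zero]
      rw [h lam h0 h1, h3, zero_add] at h2
      have hsum2 : Summable fun k => (lam : ℂ) ^ (k + n) * a (k + n) :=
        (summable_nat_add_iff (f := fun k => (lam : ℂ) ^ k * a k) n).2 hsum
      rw [hsum2.tsum_eq_zero_add] at h2
      have h4 : (lam : ℂ) ^ n * a n =
          - ∑' k, (lam : ℂ) ^ (k + 1 + n) * a (k + 1 + n) := by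
        rw [zero_add] at h2
        exact eq_neg_of_add_eq_zero_left h2
      have h5 : ‖∑' k, (lam : ℂ) ^ (k + 1 + n) * a (k + 1 + n)‖ ≤
          (1 - lam)⁻¹ * (lam ^ (n + 1) * C) := by
        refine tsum_of_norm_bounded ((hasSum_geometric_of_lt_one h0.le h1).mul_right
          (lam ^ (n + 1) * C)) fun k => ?_
        refine (hbound _).trans (le_of_eq ?_)
        ring
      have h6 : lam ^ n * ‖a n‖ ≤ (1 - lam)⁻¹ * (lam ^ (n + 1) * C) := by
        have h7 : ‖(lam : ℂ) ^ n * a n‖ = lam ^ n * ‖a n‖ := by
          rw [norm_mul, norm_pow, Complex.norm_real, Real.norm_eq_abs, abs_of_pos h0]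
        rw [← h7, h4, norm_neg]
        exact h5
      have h8 : (1 - lam)⁻¹ * (lam ^ (n + 1) * C) = lam ^ n * (lam * (C * (1 - lam)⁻¹)) := by
        ring
      rw [h8] at h6
      exact le_of_mul_le_mul_left h6 (by positivity)
    have h9 : ‖a n‖ ≤ 0 := by
      refine le_of_forall_pos_le_add fun ε hε => ?_
      rw [zero_add]
      set lam := min (1 / 2) (ε / (2 * C + 1)) with hlam
      have hl0 : 0 < lam := lt_min (by norm_num) (by positivity)
      have hl1 : lam ≤ 1 / 2 := min_le_left _ _
      have hl2 : lam ≤ ε / (2 * C + 1) := min_le_right _ _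
      refine (hb lam hl0 (by linarith)).trans ?_
      have h10 : (1 - lam)⁻¹ ≤ 2 := by
        rw [inv_le_comm₀ (by linarith) (by norm_num)]
        linarith
      calc lam * (C * (1 - lam)⁻¹) ≤ ε / (2 * C + 1) * (C * 2) :=
            mul_le_mul hl2 (mul_le_mul_of_nonneg_left h10 hC0)
              (mul_nonneg hC0 (inv_nonneg.2 (by linarith))) (by positivity)
        _ ≤ ε := by
            rw [div_mul_eq_mul_div, div_le_iff₀ (by positivity)]
            nlinarith
    exact norm_le_zero_iff.1 h9

variable {Ω : Type} [TopologicalSpace Ω] {σ : CocompactMap Ω Ω}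
variable {T : Type} [NonUnitalCStarAlgebra T]
variable {R : ToeplitzRep σ T}

/-- every point and every one of its iterates lie in a finite convex set -/
lemma exists_convx (σ : CocompactMap Ω Ω) (v : Ω) (l : ℕ) :
    ∃ S : Finset Ω, Convx σ S ∧ v ∈ S ∧ σ^[l] v ∈ S := by
  classical
  by_cases hinj : Function.Injective fun s => σ^[s] v
  · refine ⟨(Finset.range (l + 1)).image fun s => σ^[s] v, ?_, ?_, ?_⟩
    · intro x hx n hn m hm
      rw [Finset.mem_image] at hx hn ⊢
      obtain ⟨s, hs, rfl⟩ := hx
      obtain ⟨t, ht, htn⟩ := hn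
      have h2 : t = n + s := hinj (by
        show σ^[t] v = σ^[n + s] v
        rw [htn, Function.iterate_add_apply])
      refine ⟨m + s, ?_, Function.iterate_add_apply _ _ _ _⟩
      rw [Finset.mem_range] at ht ⊢
      omega
    · exact Finset.mem_image.2 ⟨0, Finset.mem_range.2 (Nat.succ_pos l), rfl⟩
    · exact Finset.mem_image.2 ⟨l, Finset.mem_range.2 (Nat.lt_succ_self l), rfl⟩
  · have hfin : (Set.range fun s => σ^[s] v).Finite := by
      rw [Function.not_injective_iff] at hinj
      obtain ⟨s, t, hst, hne⟩ := hinj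
      wlog hlt : s < t generalizing s t
      · exact this t s hst.symm (Ne.symm hne) (lt_of_le_of_ne (not_lt.1 hlt) (Ne.symm hne))
      have h2 : (Set.range fun s => σ^[s] v) ⊆
          ((Finset.range t).image fun s => σ^[s] v : Finset Ω) := by
        rintro _ ⟨n, rfl⟩
        induction n using Nat.strong_induction_on with
        | _ n ih =>
          by_cases hn : n < t
          · exact Finset.mem_coe.2 (Finset.mem_image.2 ⟨n, Finset.mem_range.2 hn, rfl⟩)
          · have h3 : σ^[n] v = σ^[n - t + s] v := by
              have h4 : n = (n - t) + t := by omega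
              conv_lhs => rw [h4, Function.iterate_add_apply]
              rw [Function.iterate_add_apply]
              exact congrArg _ hst.symm
            have h5 := ih (n - t + s) (by omega)
            simp only at h5 ⊢
            rw [h3]
            exact h5
      exact (Finset.finite_toSet _).subset h2
    refine ⟨hfin.toFinset, ?_, ?_, ?_⟩
    · intro x hx n _ m _
      rw [Set.Finite.mem_toFinset] at hx ⊢
      obtain ⟨s, rfl⟩ := hx
      exact ⟨m + s, Function.iterate_add_apply _ _ _ _⟩
    · rw [Set.Finite.mem_toFinset]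
      exact ⟨0, rfl⟩
    · rw [Set.Finite.mem_toFinset]
      exact ⟨l, rfl⟩

section

variable (hU : IsUniversal R)

/-- an element killed by all finite-dimensional representations is zero -/
theorem eq_zero_of_rho {a : tensorAlg R}
    (h : ∀ (lam : ℝ) (h0 : 0 < lam) (h1 : lam < 1) (S : Finset Ω), Convx σ S →
      rho hU h0.le h1 S a = 0) : a = 0 := by
  apply Subtype.ext
  refine eq_zero_of_co hU a.2 fun v l => ?_
  obtain ⟨S, hS, hv, hl⟩ := exists_convx σ v l
  classical
  have h2 := power_series_zero
    (a := fun n => if σ^[n] v = σ^[l] v then co hU v n (a : T) else 0) (C := ‖(a : T)‖)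
    (fun n => by
      show ‖if σ^[n] v = σ^[l] v then co hU v n (a : T) else 0‖ ≤ _
      split_ifs
      · exact norm_co_le hU _ _ _
      · rw [norm_zero]
        exact norm_nonneg _)
    (fun lam h0 h1 => by
      have h3 := h lam h0 h1 S hS
      have h4 := congrFun (congrFun h3 ⟨σ^[l] v, hl⟩) ⟨v, hv⟩
      rw [rho_apply, ent_apply] at h4
      rw [Matrix.zero_apply] at h4
      exact h4) l
  simp only [if_true] at h2
  exact h2

include hU in
/-- **Main theorem.** -/
theorem main [T2Space Ω] [LocallyCompactSpace Ω] (δ : tensorAlg R →L[ℂ] tensorAlg R)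
    (hδ : IsApproxLocal δ) : IsDeriv δ := by
  intro a b
  rw [← sub_eq_zero]
  refine eq_zero_of_rho hU fun lam h0 h1 S hS => ?_
  classical
  obtain ⟨u, hu⟩ := exists_one hU h0.le h1 (S := S) h0.ne'
  have h2 := abs_main (ρ := rho hU h0.le h1 S) (continuous_rho hU h0.le h1 S)
    (rho_mul hU h0.le h1 hS) (fun D hD a ha => H1_holds hU h0.le h1 hS hD h0.ne' a ha) hδ hu
    (H2_holds hU h0.le h1 h0.ne') a b
  rw [map_sub, h2, map_add, rho_mul hU h0.le h1 hS, rho_mul hU h0.le h1 hS, sub_self]

end

end Pool.Agent.H188R3.LD
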