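import Mathlib
import Pool.Agent.H188R3.TensorDefs

/-!
Definitions for the statements: C*-tensor products, actions, Rokhlin properties.
-/

set_option autoImplicit false

noncomputable section

open scoped TensorProduct

namespace Pool.Agent.H188R3.St

/-- unital `*`-homomorphisms between unital C*-algebras -/
abbrev Hom (A B : Type) [CStarAlgebra A] [CStarAlgebra B] : Type := A →⋆ₐ[ℂ] B

/-- the value of a `*`-homomorphism -/
def Hom.ap {A B : Type} [CStarAlgebra A] [CStarAlgebra B] (f : Hom A B) (a : A) : B := f a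

/-- the algebraic tensor product over `ℂ` -/
abbrev Tens (A B : Type) [CStarAlgebra A] [CStarAlgebra B] : Type := A ⊗[ℂ] B

section

variable {A B D : Type} [CStarAlgebra A] [CStarAlgebra B] [CStarAlgebra D]

/-- The linear map from the algebraic tensor product to `D` with `a ⊗ b ↦ f a * g b`. -/
def prodMap (f : Hom A D) (g : Hom B D) (x : Tens A B) : D :=
  TensorProduct.lift (LinearMap.compl₁₂ (LinearMap.mul ℂ D) f.toAlgHom.toLinearMap
    g.toAlgHom.toLinearMap) x

/-- `f : A → D` and `g : B → D` have commuting ranges -/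
def Commuting (f : Hom A D) (g : Hom B D) : Prop := ∀ a b, f.ap a * g.ap b = g.ap b * f.ap a

/-- `f : A → D` and `g : B → D` commute and `A ⊗ B → D` is injective; so `‖prodMap f g x‖` is a
C*-norm on the algebraic tensor product `A ⊗ B`, and all C*-norms on `A ⊗ B` are of this form. -/
structure IsCStarNormed (f : Hom A D) (g : Hom B D) : Prop where
  commute : Commuting f g
  injective : Function.Injective (prodMap f g)

/-- `D`, with the embeddings `f : A → D`, `a ↦ a ⊗ 1`, and `g : B → D`, `b ↦ 1 ⊗ b`, is the minimal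
(spatial) tensor product of `A` and `B`: the completion of the algebraic tensor product `A ⊗ B`
with respect to the smallest C*-norm. -/
structure IsMinTensor (f : Hom A D) (g : Hom B D) : Prop where
  normed : IsCStarNormed f g
  dense : DenseRange (prodMap f g)
  minimal : ∀ (E : Type) [CStarAlgebra E] (f' : Hom A E) (g' : Hom B E),
    IsCStarNormed f' g' → ∀ x, ‖prodMap f g x‖ ≤ ‖prodMap f' g' x‖

end

/-- Every matrix algebra `M_n(D)` is finite: every isometry is unitary. -/
def StablyFinite (D : Type) [CStarAlgebra D] : Prop :=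
  ∀ (n : ℕ) (v : Matrix (Fin n) (Fin n) D), star v * v = 1 → v * star v = 1

/-- An action of the group `G` on the unital C*-algebra `A` by `*`-automorphisms. -/
structure Act (G A : Type) [Group G] [CStarAlgebra A] : Type where
  hom : G → Hom A A
  one : ∀ a, (hom 1).ap a = a
  mul : ∀ g h a, (hom (g * h)).ap a = (hom g).ap ((hom h).ap a)

/-- the value of an action -/
def Act.ap {G A : Type} [Group G] [CStarAlgebra A] (σ : Act G A) (g : G) (a : A) : A :=
  (σ.hom g).ap a

section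

variable {K D : Type} [Group K] [Fintype K] [CStarAlgebra D]

/-- mutually orthogonal projections -/
def OrthProj (e : K → D) : Prop :=
  (∀ k, IsStarProjection (e k)) ∧ ∀ k l, k ≠ l → e k * e l = 0

/-- `‖σ_k(e_l) - e_{kl}‖ < ε` for all `k`, `l` -/
def Permuted (σ : Act K D) (ε : ℝ) (e : K → D) : Prop :=
  ∀ k l, ‖σ.ap k (e l) - e (k * l)‖ < ε

/-- `‖e_k a - a e_k‖ < ε` for all `k` and all `a ∈ F` -/
def AlmostCentral (F : Finset D) (ε : ℝ) (e : K → D) : Prop :=
  ∀ k, ∀ a ∈ F, ‖e k * a - a * e k‖ < ε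

/-- The Rokhlin property of an action `σ` of a finite group `K` on a unital C*-algebra `D`. -/
def Rokhlin (σ : Act K D) : Prop :=
  ∀ (F : Finset D) (ε : ℝ), 0 < ε → ∃ e : K → D,
    OrthProj e ∧ Permuted σ ε e ∧ AlmostCentral F ε e ∧ ∑ k, e k = 1

/-- `q` is Murray-von Neumann equivalent to a projection in the hereditary subalgebra
`closure (x D x)` -/
def EquivIn (q x : D) : Prop :=
  ∃ v : D, star v * v = q ∧ v * star v ∈ closure {y : D | ∃ a, y = x * a * x}

/-- The tracial Rokhlin property of an action `σ` of a finite group `K` on a unital C*-algebra `D`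
(`x` is a nonzero positive element). -/
def TracialRokhlin (σ : Act K D) : Prop :=
  ∀ (F : Finset D) (ε : ℝ), 0 < ε → ∀ x : D, (∃ b : D, x = star b * b) → x ≠ 0 → ∃ e : K → D,
    OrthProj e ∧ Permuted σ ε e ∧ AlmostCentral F ε e ∧ EquivIn (1 - ∑ k, e k) x

end

/-- `γ` is the tensor product action `(s, t) ↦ α_s ⊗ β_t` of `G × H` on the tensor product `D`. -/
def IsTensorAction {A B D G H : Type} [CStarAlgebra A] [CStarAlgebra B] [CStarAlgebra D]
    [Group G] [Group H] (f : Hom A D) (g : Hom B D) (α : Act G A) (β : Act H B)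
    (γ : Act (G × H) D) : Prop :=
  ∀ s t a b, γ.ap (s, t) (f.ap a * g.ap b) = f.ap (α.ap s a) * g.ap (β.ap t b)

/-! ### conversions -/

/-- an action from a homomorphism -/
def toAct {K D : Type} [Group K] [CStarAlgebra D] (σ : K →* (D ≃⋆ₐ[ℂ] D)) : Act K D where
  hom k := (σ k : D →⋆ₐ[ℂ] D)
  one a := by
    show σ 1 a = a
    rw [map_one]
    rfl
  mul g h a := by
    show σ (g * h) a = σ g (σ h a)
    rw [map_mul]
    rfl

lemma toAct_ap {K D : Type} [Group K] [CStarAlgebra D] (σ : K →* (D ≃⋆ₐ[ℂ] D)) (k : K) (a : D) :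
    (toAct σ).ap k a = σ k a := rfl

theorem rokhlin_toAct {K D : Type} [Group K] [Fintype K] [CStarAlgebra D]
    (σ : K →* (D ≃⋆ₐ[ℂ] D)) : Rokhlin (toAct σ) ↔ H188R3.Rokhlin σ := by
  constructor
  · intro h F ε hε
    obtain ⟨e, ⟨h1, h2⟩, h3, h4, h5⟩ := h F ε hε
    exact ⟨e, h1, h2, h3, h4, h5⟩
  · intro h F ε hε
    obtain ⟨e, h1, h2, h3, h4, h5⟩ := h F ε hε
    exact ⟨e, ⟨h1, h2⟩, h3, h4, h5⟩

theorem tracialRokhlin_toAct {K D : Type} [Group K] [Fintype K] [CStarAlgebra D]
    (σ : K →* (D ≃⋆ₐ[ℂ] D)) : TracialRokhlin (toAct σ) ↔ H188R3.TracialRokhlin σ := by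
  constructor
  · intro h F ε hε x hx hx0
    obtain ⟨e, ⟨h1, h2⟩, h3, h4, h5⟩ := h F ε hε x hx hx0
    exact ⟨e, h1, h2, h3, h4, h5⟩
  · intro h F ε hε x hx hx0
    obtain ⟨e, h1, h2, h3, h4, h5⟩ := h F ε hε x hx hx0
    exact ⟨e, ⟨h1, h2⟩, h3, h4, h5⟩

theorem isCStarNormed_iff {A B D : Type} [CStarAlgebra A] [CStarAlgebra B] [CStarAlgebra D]
    (f : A →⋆ₐ[ℂ] D) (g : B →⋆ₐ[ℂ] D) : IsCStarNormed f g ↔ H188R3.IsCStarNormed f g :=
  ⟨fun h => ⟨h.commute, h.injective⟩, fun h => ⟨h.commute, h.injective⟩⟩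

theorem isMinTensor_of {A B D : Type} [CStarAlgebra A] [CStarAlgebra B] [CStarAlgebra D]
    {f : A →⋆ₐ[ℂ] D} {g : B →⋆ₐ[ℂ] D} (h : H188R3.IsMinTensor f g) : IsMinTensor f g where
  normed := (isCStarNormed_iff f g).2 h.normed
  dense := h.dense
  minimal E _ f' g' h' x := h.minimal E f' g' ((isCStarNormed_iff f' g').1 h') x

theorem isTensorAction_of {A B D G H : Type} [CStarAlgebra A] [CStarAlgebra B] [CStarAlgebra D]
    [Group G] [Group H] {f : A →⋆ₐ[ℂ] D} {g : B →⋆ₐ[ℂ] D} {α : G →* (A ≃⋆ₐ[ℂ] A)}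
    {β : H →* (B ≃⋆ₐ[ℂ] B)} {γ : G × H →* (D ≃⋆ₐ[ℂ] D)} (h : H188R3.IsTensorAction f g α β γ) :
    IsTensorAction f g (toAct α) (toAct β) (toAct γ) := h

end Pool.Agent.H188R3.St
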